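import Mathlib
import Pool.Agent.Helper186.Liou
import Pool.Agent.Helper186.DForms
import Pool.Agent.Helper186.LocDiffeo

/-!
# Precise statements of the auxiliary results (as propositions)
-/

open scoped Topology ContDiff Manifold
open Set Pool.Agent.Helper186 MeasureTheory Metric

noncomputable section

namespace Pool.Agent.W630

universe u v

/-- `ℝ³` with the sup norm. -/
abbrev P : Type := Fin 3 → ℝ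

/-- Lifts of constant fields of `ℂ` to `X`. -/
def S_A : Prop :=
  ∀ (E : Type u) [NormedAddCommGroup E] [NormedSpace ℝ E] [FiniteDimensional ℝ E]
    (X : Type v) [TopologicalSpace X] [T2Space X] [SecondCountableTopology X] [ChartedSpace E X]
    [IsManifold 𝓘(ℝ, E) ∞ X] (π : X → ℂ) (_ : ContMDiff 𝓘(ℝ, E) 𝓘(ℝ, ℂ) ∞ π)
    (ϱ : X → ℝ) (_ : ContMDiff 𝓘(ℝ, E) 𝓘(ℝ, ℝ) ∞ ϱ) (C : Set X) (_ : IsClosed C)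
    (_ : ∀ x ∉ interior C, Function.Surjective (mfderiv 𝓘(ℝ, E) 𝓘(ℝ, ℂ) π x)) (ζ : ℂ)
    (_ : ∀ x, 1 ≤ ϱ x → ∃ V : (y : X) → TangentSpace 𝓘(ℝ, E) y, ∀ᶠ y in 𝓝 x,
      ContMDiffAt 𝓘(ℝ, E) 𝓘(ℝ, E).tangent ∞ (fun y => (⟨y, V y⟩ : TangentBundle 𝓘(ℝ, E) X)) y ∧
      (show ℂ from mfderiv 𝓘(ℝ, E) 𝓘(ℝ, ℂ) π y (V y)) = ζ ∧
        (show ℝ from mfderiv 𝓘(ℝ, E) 𝓘(ℝ, ℝ) ϱ y (V y)) = 0),
    ∃ V : (y : X) → TangentSpace 𝓘(ℝ, E) y,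
      ContMDiff 𝓘(ℝ, E) 𝓘(ℝ, E).tangent ∞ (fun y => (⟨y, V y⟩ : TangentBundle 𝓘(ℝ, E) X)) ∧
      (∀ y ∉ C, (show ℂ from mfderiv 𝓘(ℝ, E) 𝓘(ℝ, ℂ) π y (V y)) = ζ) ∧
      ∀ y, 1 ≤ ϱ y → (show ℝ from mfderiv 𝓘(ℝ, E) 𝓘(ℝ, ℝ) ϱ y (V y)) = 0

/-- Completeness of vector fields with bounded projection to `ℂ`. -/
def S_B : Prop :=
  ∀ (E : Type u) [NormedAddCommGroup E] [NormedSpace ℝ E] [FiniteDimensional ℝ E]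
    (X : Type v) [TopologicalSpace X] [T2Space X] [ChartedSpace E X]
    [IsManifold 𝓘(ℝ, E) ∞ X] (π : X → ℂ) (_ : ContMDiff 𝓘(ℝ, E) 𝓘(ℝ, ℂ) ∞ π)
    (ϱ : X → ℝ) (_ : ContMDiff 𝓘(ℝ, E) 𝓘(ℝ, ℝ) ∞ ϱ)
    (_ : ∀ (K : Set ℂ) (c : ℝ), IsCompact K → IsCompact {x | π x ∈ K ∧ ϱ x ≤ c})
    (V : (y : X) → TangentSpace 𝓘(ℝ, E) y)
    (_ : ContMDiff 𝓘(ℝ, E) 𝓘(ℝ, E).tangent ∞ (fun y => (⟨y, V y⟩ : TangentBundle 𝓘(ℝ, E) X)))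
    (B : ℝ) (_ : ∀ x, ‖(show ℂ from mfderiv 𝓘(ℝ, E) 𝓘(ℝ, ℂ) π x (V x))‖ ≤ B)
    (_ : ∀ x, 1 ≤ ϱ x → (show ℝ from mfderiv 𝓘(ℝ, E) 𝓘(ℝ, ℝ) ϱ x (V x)) = 0),
    ∃ Φ : ℝ → X → X, (∀ x, Φ 0 x = x) ∧ (∀ s t x, Φ (s + t) x = Φ s (Φ t x)) ∧
      (∀ x, IsMIntegralCurve (I := 𝓘(ℝ, E)) (fun t => Φ t x) V) ∧
      ContMDiff (𝓘(ℝ, ℝ).prod 𝓘(ℝ, E)) 𝓘(ℝ, E) ∞ (fun p : ℝ × X => Φ p.1 p.2)

/-- The data used to extend sets from a fibre of `π` to the total space. -/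
structure FlowData {E : Type u} [NormedAddCommGroup E] [NormedSpace ℝ E]
    {X : Type v} [TopologicalSpace X] [ChartedSpace E X] (π : X → ℂ) (x₁ : ℝ) where
  Φ : ℝ → X → X
  Φ' : ℝ → X → X
  Φ_smooth : ContMDiff (𝓘(ℝ, ℝ).prod 𝓘(ℝ, E)) 𝓘(ℝ, E) ∞ (fun p : ℝ × X => Φ p.1 p.2)
  Φ'_smooth : ContMDiff (𝓘(ℝ, ℝ).prod 𝓘(ℝ, E)) 𝓘(ℝ, E) ∞ (fun p : ℝ × X => Φ' p.1 p.2)
  Φ_zero : ∀ x, Φ 0 x = x
  Φ'_zero : ∀ x, Φ' 0 x = x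
  Φ_add : ∀ s t x, Φ (s + t) x = Φ s (Φ t x)
  Φ'_add : ∀ s t x, Φ' (s + t) x = Φ' s (Φ' t x)
  im_eq : ∀ t x, (π (Φ t x)).im = (π x).im
  mono : ∀ x, Monotone fun t => (π (Φ t x)).re
  fast : ∀ x t, x₁ ≤ (π x).re → x₁ ≤ (π x).re + t → π (Φ t x) = π x + t
  vert : ∀ x t, x₁ ≤ (π x).re → π (Φ' t x) = π x + t * Complex.I
  /-- the union of the unstable spheres of the critical points -/
  Sg : Set X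
  Sg_compact : IsCompact Sg
  Sg_null : ∀ (O : Set X) (f : X → P), IsOpen O → ContMDiffOn 𝓘(ℝ, E) 𝓘(ℝ, P) ∞ f O →
    volume (f '' (Sg ∩ O)) = 0
  Sg_escape : ∀ y ∈ Sg, ∃ t, x₁ ≤ (π (Φ t y)).re
  exit : ∀ x, (∀ t, (π (Φ t x)).re < x₁) → ∀ O : Set X, IsOpen O → Sg ⊆ O →
    ∀ᶠ y in 𝓝 x, (∀ t, (π (Φ t y)).re < x₁) ∨ ∃ t, Φ t y ∈ O

/-- Existence of the flow data for a Lefschetz fibration whose critical values have real part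
less than `x₁` and such that critical points with the same imaginary part of the critical value
have the same critical value. -/
def S_C : Prop :=
  ∀ (E : Type u) [NormedAddCommGroup E] [NormedSpace ℝ E] [FiniteDimensional ℝ E]
    (X : Type v) [TopologicalSpace X] [T2Space X] [SecondCountableTopology X] [ChartedSpace E X]
    [IsManifold 𝓘(ℝ, E) ∞ X] (π : X → ℂ) (_ : ContMDiff 𝓘(ℝ, E) 𝓘(ℝ, ℂ) ∞ π)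
    (ϱ : X → ℝ) (_ : ContMDiff 𝓘(ℝ, E) 𝓘(ℝ, ℝ) ∞ ϱ)
    (_ : ∀ (K : Set ℂ) (c : ℝ), IsCompact K → IsCompact {x | π x ∈ K ∧ ϱ x ≤ c})
    (_ : ∀ (ζ : ℂ) (x : X), 0 < ϱ x → ∃ V : (y : X) → TangentSpace 𝓘(ℝ, E) y, ∀ᶠ y in 𝓝 x,
      ContMDiffAt 𝓘(ℝ, E) 𝓘(ℝ, E).tangent ∞ (fun y => (⟨y, V y⟩ : TangentBundle 𝓘(ℝ, E) X)) y ∧
      (show ℂ from mfderiv 𝓘(ℝ, E) 𝓘(ℝ, ℂ) π y (V y)) = ζ ∧
        (show ℝ from mfderiv 𝓘(ℝ, E) 𝓘(ℝ, ℝ) ϱ y (V y)) = 0)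
    (crit : Set X) (_ : crit.Finite)
    (_ : ∀ x ∉ crit, Function.Surjective (mfderiv 𝓘(ℝ, E) 𝓘(ℝ, ℂ) π x))
    (_ : ∀ p ∈ crit, ϱ p ≤ 0)
    (_ : ∀ p ∈ crit, ∃ ψ : OpenPartialHomeomorph X (EuclideanSpace ℂ (Fin 3)),
      p ∈ ψ.source ∧ ψ p = 0 ∧
      ContMDiffOn 𝓘(ℝ, E) 𝓘(ℝ, EuclideanSpace ℂ (Fin 3)) ∞ ψ ψ.source ∧
      ContMDiffOn 𝓘(ℝ, EuclideanSpace ℂ (Fin 3)) 𝓘(ℝ, E) ∞ ψ.symm ψ.target ∧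
      ∀ x ∈ ψ.source, π x = π p + ∑ i, (ψ x i) ^ 2)
    (x₁ : ℝ) (_ : ∀ p ∈ crit, (π p).re < x₁)
    (_ : ∀ p ∈ crit, ∀ p' ∈ crit, (π p).im = (π p').im → π p = π p'),
    Nonempty (FlowData (E := E) π x₁)

/-- Extension of the neighbourhood of a closed one-parameter family from a fibre of `π` to the
total space. -/
def S_D : Prop :=
  ∀ (E : Type u) [NormedAddCommGroup E] [NormedSpace ℝ E] [FiniteDimensional ℝ E]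
    (_ : Module.finrank ℝ E = 6)
    (X : Type v) [TopologicalSpace X] [T2Space X] [ChartedSpace E X]
    [IsManifold 𝓘(ℝ, E) ∞ X] (π : X → ℂ) (_ : ContMDiff 𝓘(ℝ, E) 𝓘(ℝ, ℂ) ∞ π)
    (x₁ : ℝ) (_ : FlowData (E := E) π x₁) (z₀ : ℂ) (_ : x₁ < z₀.re)
    (c : ℝ × P → X) (x₀ : P) (r : ℝ) (_ : 0 < r)
    (_ : ContMDiffOn 𝓘(ℝ, ℝ × P) 𝓘(ℝ, E) ∞ c (univ ×ˢ ball x₀ r))
    (_ : ∀ σ : ℝ, ∀ x ∈ ball x₀ r, π (c (σ, x)) = z₀)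
    (_ : InjOn c (univ ×ˢ ball x₀ r))
    (_ : ∀ q ∈ (univ ×ˢ ball x₀ r : Set (ℝ × P)),
      Function.Injective (mfderiv 𝓘(ℝ, ℝ × P) 𝓘(ℝ, E) c q))
    (_ : ∀ K ⊆ ball x₀ r, IsCompact K → IsClosed (c '' (univ ×ˢ K))),
    ∃ (u : P) (ε : ℝ) (O : Set X) (Ψ : X → P), 0 < ε ∧ closedBall u ε ⊆ ball x₀ r ∧ IsOpen O ∧
      ContMDiffOn 𝓘(ℝ, E) 𝓘(ℝ, P) ∞ Ψ O ∧ IsClosed {x | x ∈ O ∧ Ψ x ∈ closedBall u ε} ∧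
      (∀ σ : ℝ, ∀ x ∈ ball x₀ r, c (σ, x) ∈ O ∧ Ψ (c (σ, x)) = x) ∧
      ∀ y ∈ O, π y = z₀ → ∃ σ : ℝ, ∃ x ∈ ball x₀ r, y = c (σ, x)

/-- The core of a Liouville manifold of positive dimension has empty interior. -/
def S_E : Prop :=
  ∀ (G : Type u) [NormedAddCommGroup G] [NormedSpace ℝ G] [FiniteDimensional ℝ G]
    (_ : 0 < Module.finrank ℝ G)
    (W : Type v) [TopologicalSpace W] [T2Space W] [ChartedSpace G W]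
    [IsManifold 𝓘(ℝ, G) ∞ W] (D : LData 𝓘(ℝ, G) W),
    interior D.core = ∅

/-- The tube around a proper curve in a Liouville manifold of dimension `4` which crosses an
embedded compact Liouville domain of the form `[-1, 1] × M`. -/
def S_F : Prop :=
  ∀ (G : Type u) [NormedAddCommGroup G] [NormedSpace ℝ G] [FiniteDimensional ℝ G]
    (_ : Module.finrank ℝ G = 4)
    (W : Type v) [TopologicalSpace W] [T2Space W] [ChartedSpace G W]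
    [IsManifold 𝓘(ℝ, G) ∞ W] (D : LData 𝓘(ℝ, G) W) (δ : ℝ) (_ : 0 < δ)
    (g : ℝ × P → W)
    (_ : ContMDiffOn 𝓘(ℝ, ℝ × P) 𝓘(ℝ, G) ∞ g (Ioo (-1 - δ) (1 + δ) ×ˢ univ))
    (_ : ∀ q ∈ (Ioo (-1 - δ) (1 + δ) ×ˢ univ : Set (ℝ × P)),
      Function.Injective (mfderiv 𝓘(ℝ, ℝ × P) 𝓘(ℝ, G) g q))
    (rel : P → P → Prop)
    (_ : ∀ s ∈ Ioo (-1 - δ) (1 + δ), ∀ s' ∈ Ioo (-1 - δ) (1 + δ), ∀ x x' : P,
      g (s, x) = g (s', x') ↔ s = s' ∧ rel x x')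
    (_ : ∃ K : Set P, IsCompact K ∧ ∀ x, ∃ x' ∈ K, rel x x')
    (_ : ∀ x : P, ∃ v : ℝ × P, 0 < v.1 ∧
      (mfderiv 𝓘(ℝ, ℝ × P) 𝓘(ℝ, G) g ((1 : ℝ), x)) v = D.Z (g ((1 : ℝ), x)))
    (_ : ∀ x : P, ∃ v : ℝ × P, v.1 < 0 ∧
      (mfderiv 𝓘(ℝ, ℝ × P) 𝓘(ℝ, G) g ((-1 : ℝ), x)) v = D.Z (g ((-1 : ℝ), x)))
    (B : Set P) (_ : IsOpen B) (_ : B.Nonempty) (_ : ∀ x ∈ B, ∀ x' ∈ B, rel x x' → x = x'),
    ∃ (x₀ : P) (r : ℝ) (κ : ℝ × P → W), 0 < r ∧ ball x₀ r ⊆ B ∧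
      ContMDiff 𝓘(ℝ, ℝ × P) 𝓘(ℝ, G) ∞ κ ∧ InjOn κ (univ ×ˢ ball x₀ r) ∧
      (∀ q ∈ (univ ×ˢ ball x₀ r : Set (ℝ × P)),
        Function.Injective (mfderiv 𝓘(ℝ, ℝ × P) 𝓘(ℝ, G) κ q)) ∧
      (∀ K ⊆ ball x₀ r, IsCompact K → IsClosed (κ '' (univ ×ˢ K))) ∧
      (∀ x, κ (0, x) = g (0, x)) ∧
      ∀ (σ : ℝ), ∀ x ∈ ball x₀ r, ∀ x' : P, κ (σ, x) = g (0, x') → σ = 0 ∧ rel x x'

/-- The linear map of `ℝ³` given by the matrix `((5, 3), (3, 2))` on the first two coordinates,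
followed by the translation by `2` of the third one. -/
def T₂ (x : P) : P := ![5 * x 0 + 3 * x 1, 3 * x 0 + 2 * x 1, x 2 + 2]

/-- The linear map of `ℝ³` given by the matrix `((2, 1), (1, 1))` on the first two coordinates,
followed by the translation by `1` of the third one. -/
def T₁ (x : P) : P := ![2 * x 0 + x 1, x 0 + x 1, x 2 + 1]

def e₀ : P := ![1, 0, 0]

def e₁ : P := ![0, 1, 0]

/-- Homotopy invariance of the integral over the mapping torus. -/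
def S_G : Prop :=
  ∀ (a : ℝ × P → ℝ) (F : ℝ × P → P) (_ : ContDiff ℝ ∞ a) (_ : ContDiff ℝ ∞ F)
    (_ : ∀ (κ : ℝ) (x : P), a (κ, x + e₀) = a (κ, x) ∧ F (κ, x + e₀) = F (κ, x))
    (_ : ∀ (κ : ℝ) (x : P), a (κ, x + e₁) = a (κ, x) ∧ F (κ, x + e₁) = F (κ, x))
    (_ : ∀ (κ : ℝ) (x : P), a (κ, T₂ x) = a (κ, x) ∧ F (κ, T₂ x) = F (κ, x))
    (_ : ∀ q, ∃ L : P →L[ℝ] ℝ, fderiv ℝ a q = L.comp (fderiv ℝ F q)),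
    ∫ x in Icc (0 : P) ![1, 1, 2], a (1, x) * (fderiv ℝ (fun y => F (1, y)) x).det =
      ∫ x in Icc (0 : P) ![1, 1, 2], a (0, x) * (fderiv ℝ (fun y => F (0, y)) x).det

/-- The fundamental domain for `T₂` is made of two copies of the one of `T₁`. -/
def S_G2 : Prop :=
  ∀ (h : P → ℝ) (_ : Continuous h) (_ : ∀ x, h (x + e₀) = h x) (_ : ∀ x, h (x + e₁) = h x)
    (_ : ∀ x, h (T₁ x) = h x),
    ∫ x in Icc (0 : P) ![1, 1, 2], h x = 2 * ∫ x in Icc (0 : P) 1, h x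

/-- Integrality of the degree. -/
def S_H : Prop :=
  ∀ (O : Set P) (_ : IsOpen O) (f : P → P) (_ : ContDiffOn ℝ ∞ f O) (u : P) (ε : ℝ) (_ : 0 < ε)
    (_ : IsClosed {x | x ∈ O ∧ f x ∈ closedBall u ε}),
    ∃ (u' : P) (ε' : ℝ), 0 < ε' ∧ closedBall u' ε' ⊆ ball u ε ∧
      ∀ χ : P → ℝ, Continuous χ → tsupport χ ⊆ closedBall u' ε' → ∫ x, χ x = 1 →
        ∃ k : ℤ, ∫ x in Icc (0 : P) 1 ∩ O, χ (f x) * (fderiv ℝ f x).det = k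

end Pool.Agent.W630
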