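import Pool.Agent.W630.TC3

/-! # Statement C, part 4: conclusion -/

open scoped Topology ContDiff Manifold
open Set Pool.Agent.Helper186 MeasureTheory Metric Filter

noncomputable section

namespace Pool.Agent.W630.TC

set_option linter.unusedSectionVars false

universe u v

theorem main : S_C.{u, v} := by
  intro E _ _ _ X _ _ _ _ _ π hπ ϱ hϱ hK hlift crit hfin hsurj hcϱ hch x₁ hx₁ him
  obtain ⟨c⟩ := exists_CD π hπ ϱ hϱ crit hfin hcϱ hch x₁ hx₁ him
  have hρ := c.pos
  obtain ⟨V, hV, im0, re0, re1, out1, hor0, model, low⟩ := exists_V c hπ hϱ hlift hsurj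
  obtain ⟨V', hV', nV', out', hor'⟩ := exists_V' c hπ hϱ hlift hsurj
  obtain ⟨Φ, Φ0, Φadd, Φint, Φs⟩ := TB.main E X π hπ ϱ hϱ hK V hV 1 (fun x => by
    have h1 : (show ℂ from mfderiv 𝓘(ℝ, E) 𝓘(ℝ, ℂ) π x (V x)) =
        (((show ℂ from mfderiv 𝓘(ℝ, E) 𝓘(ℝ, ℂ) π x (V x)).re : ℝ) : ℂ) := by
      apply Complex.ext
      · rw [Complex.ofReal_re]
      · rw [Complex.ofReal_im]
        exact im0 x
    rw [h1, Complex.norm_real, Real.norm_eq_abs, abs_of_nonneg (re0 x)]
    exact re1 x) hor0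
  obtain ⟨Φ', Φ'0, Φ'add, Φ'int, Φ's⟩ := TB.main E X π hπ ϱ hϱ hK V' hV' 1 nV' hor'
  let F : FV c := ⟨V, hV, im0, re0, re1, out1, model, low, Φ, Φ0, Φadd, Φint, Φs, hπ⟩
  refine ⟨⟨Φ, Φ', Φs, Φ's, Φ0, Φ'0, Φadd, Φ'add, F.im_eq, F.mono, F.fast, ?_, FV.Sg c,
    FV.Sg_compact, fun O f hO hf => FV.Sg_null O f hO hf, fun y hy => F.Sg_escape hy,
    fun x hx O hO h => F.exit x hx O hO h⟩⟩
  -- the vertical flow
  intro x t hx
  have hcont : Continuous fun t => Φ' t x := (Φ'int x).continuous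
  have hd : ∀ s, HasDerivAt (fun s => π (Φ' s x))
      (show ℂ from mfderiv 𝓘(ℝ, E) 𝓘(ℝ, ℂ) π (Φ' s x) (V' (Φ' s x))) s := fun s =>
    TB.hasDerivAt_along hπ (Φ'int x s)
  have hcompl : ∀ y, x₁ ≤ (π y).re → ∀ᶠ z in 𝓝 y, ∀ p, z ∉ c.Bp p (6 * c.ρ) := by
    intro y hy
    have h1 := (CD.isCompact_iUnion_Bp (c := c) (r := 6 * c.ρ) le_rfl).isClosed
    have h2 : y ∈ (⋃ p, c.Bp p (6 * c.ρ))ᶜ := by
      intro h
      obtain ⟨p, hp⟩ := mem_iUnion.1 h
      exact absurd (c.re p y hp) (not_lt.2 hy)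
    filter_upwards [h1.isOpen_compl.mem_nhds h2] with z hz p hp
    exact hz (mem_iUnion.2 ⟨p, hp⟩)
  have hA : {s | (π (Φ' s x)).re = (π x).re} = univ := by
    apply IsClopen.eq_univ
    · constructor
      · exact isClosed_eq (Complex.continuous_re.comp (hπ.continuous.comp hcont)) continuous_const
      · rw [Metric.isOpen_iff]
        intro s hs
        have hs' : (π (Φ' s x)).re = (π x).re := hs
        have h1 : ∀ᶠ s' in 𝓝 s, ∀ p, Φ' s' x ∉ c.Bp p (6 * c.ρ) :=
          hcont.continuousAt.eventually (hcompl (Φ' s x) (by rw [hs']; exact hx))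
        obtain ⟨ε, hε, hε'⟩ := Metric.eventually_nhds_iff_ball.1 h1
        refine ⟨ε, hε, fun s' hs' => ?_⟩
        have h2 := (convex_ball s ε).norm_image_sub_le_of_norm_hasDerivWithin_le
          (f := fun s => (π (Φ' s x)).re) (f' := fun _ => 0) (C := 0)
          (fun r hr => by
            have h3 := (Complex.reCLM.hasFDerivAt (x := π (Φ' r x))).comp_hasDerivAt r (hd r)
            rw [out' _ (hε' r hr)] at h3
            have h4 : Complex.reCLM Complex.I = 0 := by simp
            rw [h4] at h3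
            exact h3.hasDerivWithinAt) (fun r _ => by simp) (mem_ball_self hε) hs'
        rw [zero_mul] at h2
        have h3 := norm_le_zero_iff.1 h2
        show (π (Φ' s' x)).re = (π x).re
        rw [← hs]
        exact sub_eq_zero.1 h3
    · exact ⟨0, by show (π (Φ' 0 x)).re = (π x).re; rw [Φ'0]⟩
  have hre : ∀ s, (π (Φ' s x)).re = (π x).re := fun s => by
    have : s ∈ {s | (π (Φ' s x)).re = (π x).re} := by rw [hA]; exact mem_univ s
    exact this
  have h2 := (convex_univ).norm_image_sub_le_of_norm_hasDerivWithin_le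
    (f := fun s : ℝ => π (Φ' s x) - (s : ℂ) * Complex.I) (f' := fun _ => 0) (C := 0)
    (s := univ) (x := 0) (y := t)
    (fun r _ => by
      have h3 := hd r
      rw [out' _ (hcompl (Φ' r x) (by rw [hre]; exact hx)).self_of_nhds] at h3
      have h6 : HasDerivAt (fun s : ℝ => (s : ℂ) * Complex.I) (1 * Complex.I) r := by
        have := (hasDerivAt_id r).ofReal_comp
        simpa using this.mul_const Complex.I
      have h7 := h3.sub h6
      rw [one_mul, sub_self] at h7
      exact h7.hasDerivWithinAt) (fun r _ => by simp) (mem_univ _) (mem_univ _)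
  rw [zero_mul] at h2
  have h5 := norm_le_zero_iff.1 h2
  simp only [Φ'0, Complex.ofReal_zero, zero_mul, sub_zero] at h5
  linear_combination h5

end Pool.Agent.W630.TC
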