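import Pool.Agent.W630.Stubs

/-! # Statement D: extension of a tube from a fibre to the total space -/

open scoped Topology ContDiff Manifold
open Set Pool.Agent.Helper186 MeasureTheory Metric

noncomputable section

namespace Pool.Agent.W630.TD

set_option linter.unusedSectionVars false

universe u v

section inv

variable {E : Type*} [NormedAddCommGroup E] [NormedSpace ℝ E] [FiniteDimensional ℝ E]
  {X : Type*} [TopologicalSpace X] [ChartedSpace E X] [IsManifold 𝓘(ℝ, E) ∞ X]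
  {E' : Type*} [NormedAddCommGroup E'] [NormedSpace ℝ E'] [FiniteDimensional ℝ E']

/-- Inverse function theorem for maps from an open subset of a vector space to a manifold. -/
theorem local_inverse_on {w : E' → X} {V : Set E'} (hV : IsOpen V)
    (hw : ContMDiffOn 𝓘(ℝ, E') 𝓘(ℝ, E) ∞ w V) {ξ : E'} (hξ : ξ ∈ V)
    (hinj : Function.Injective (mfderiv 𝓘(ℝ, E') 𝓘(ℝ, E) w ξ))
    (hdim : Module.finrank ℝ E' = Module.finrank ℝ E) :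
    ∃ (S : Set E') (v : X → E'), IsOpen S ∧ ξ ∈ S ∧ S ⊆ V ∧ (∀ ζ ∈ S, v (w ζ) = ζ) ∧
      (∀ S' ⊆ S, IsOpen S' → IsOpen (w '' S')) ∧
      ∀ ζ ∈ S, ContMDiffAt 𝓘(ℝ, E) 𝓘(ℝ, E') ∞ v (w ζ) := by
  set φ := extChartAt 𝓘(ℝ, E) (w ξ) with hφ
  have hφs : IsOpen φ.source := isOpen_extChartAt_source (w ξ)
  set W : E' → E := φ ∘ w with hW
  have hwA : ∀ y ∈ V, ContMDiffAt 𝓘(ℝ, E') 𝓘(ℝ, E) ∞ w y := fun y hy =>
    hw.contMDiffAt (hV.mem_nhds hy)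
  have hWs : ∀ y ∈ V, w y ∈ φ.source → ContDiffAt ℝ ∞ W y := by
    intro y hy hwy
    rw [← contMDiffAt_iff_contDiffAt]
    have h3 : ContMDiffAt 𝓘(ℝ, E) 𝓘(ℝ, E) ∞ φ (w y) :=
      contMDiffAt_extChartAt' (by rwa [hφ, extChartAt_source] at hwy)
    exact h3.comp y (hwA y hy)
  have hw₀ : w ξ ∈ φ.source := mem_extChartAt_source (w ξ)
  have hWd : fderiv ℝ W ξ = mfderiv 𝓘(ℝ, E') 𝓘(ℝ, E) w ξ := by
    have h1 := ((hwA ξ hξ).mdifferentiableAt (by simp)).mfderiv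
    rw [h1]
    simp only [modelWithCornersSelf_coe, range_id, fderivWithin_univ]
    rfl
  have hinj' : Function.Injective (fderiv ℝ W ξ) := by rw [hWd]; exact hinj
  let l : E' ≃ₗ[ℝ] E := LinearEquiv.ofInjectiveOfFinrankEq
    (fderiv ℝ W ξ : E' →ₗ[ℝ] E) hinj' hdim
  let L : E' ≃L[ℝ] E := l.toContinuousLinearEquiv
  have hL : (L : E' →L[ℝ] E) = fderiv ℝ W ξ := by
    refine ContinuousLinearMap.ext fun a => ?_
    rfl
  have hWdiff : HasFDerivAt W (L : E' →L[ℝ] E) ξ := by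
    rw [hL]
    exact ((hWs _ hξ hw₀).differentiableAt (by simp)).hasFDerivAt
  let f := (hWs _ hξ hw₀).toOpenPartialHomeomorph W hWdiff (by simp)
  have hfc : (f : E' → E) = W := rfl
  have hfs : ξ ∈ f.source := (hWs _ hξ hw₀).mem_toOpenPartialHomeomorph_source hWdiff (by simp)
  have hS : ∀ᶠ ζ in 𝓝 ξ, ζ ∈ V ∧ ζ ∈ f.source ∧ w ζ ∈ φ.source ∧
      fderiv ℝ W ζ ∈ range ((↑) : (E' ≃L[ℝ] E) → (E' →L[ℝ] E)) := by
    have h1 : ∀ᶠ ζ in 𝓝 ξ, ζ ∈ V := hV.mem_nhds hξ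
    have h2 : ∀ᶠ ζ in 𝓝 ξ, ζ ∈ f.source := f.open_source.mem_nhds hfs
    have h3 : ∀ᶠ ζ in 𝓝 ξ, w ζ ∈ φ.source :=
      (hwA ξ hξ).continuousAt.eventually (hφs.mem_nhds (mem_extChartAt_source (w ξ)))
    have h4 : ContinuousAt (fderiv ℝ W) ξ :=
      ((hWs _ hξ hw₀).fderiv_right (m := ∞) (by simp)).continuousAt
    have h5 : ∀ᶠ ζ in 𝓝 ξ, fderiv ℝ W ζ ∈
        range ((↑) : (E' ≃L[ℝ] E) → (E' →L[ℝ] E)) := by
      have h6 : ∀ᶠ A in 𝓝 (fderiv ℝ W ξ), A ∈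
          range ((↑) : (E' ≃L[ℝ] E) → (E' →L[ℝ] E)) := by
        rw [← hL]
        exact ContinuousLinearEquiv.nhds L
      exact h4.eventually h6
    exact h1.and (h2.and (h3.and h5))
  obtain ⟨S, hSP, hSo, hξS⟩ := _root_.mem_nhds_iff.1 hS
  have hinv : ∀ ζ ∈ S, f.symm (φ (w ζ)) = ζ := by
    intro ζ hζ
    have : φ (w ζ) = f ζ := rfl
    rw [this, f.left_inv (hSP hζ).2.1]
  refine ⟨S, fun x => f.symm (φ x), hSo, hξS, fun ζ hζ => (hSP hζ).1, hinv, ?_, ?_⟩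
  · intro S' hS'S hS'o
    have h2 : IsOpen (f.source ∩ S') := f.open_source.inter hS'o
    have h3 : IsOpen (f '' (f.source ∩ S')) :=
      f.isOpen_image_of_subset_source h2 inter_subset_left
    have h4 : IsOpen (φ.source ∩ φ ⁻¹' (f '' (f.source ∩ S'))) :=
      (continuousOn_extChartAt (w ξ)).isOpen_inter_preimage hφs h3
    convert h4 using 1
    ext x
    constructor
    · rintro ⟨ζ, hζ, rfl⟩
      have hζS := hS'S hζ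
      exact ⟨(hSP hζS).2.2.1, ζ, ⟨(hSP hζS).2.1, hζ⟩, rfl⟩
    · rintro ⟨hx, y, ⟨hy1, hy3⟩, hyx⟩
      refine ⟨y, hy3, ?_⟩
      have h5 : φ (w y) = φ x := hyx
      exact φ.injOn (hSP (hS'S hy3)).2.2.1 hx h5
  · intro ζ hζ
    obtain ⟨hζ1, hζ2, hζ3, A, hA⟩ := hSP hζ
    have h1 : ContMDiffAt 𝓘(ℝ, E) 𝓘(ℝ, E) ∞ φ (w ζ) :=
      contMDiffAt_extChartAt' (by rwa [hφ, extChartAt_source] at hζ3)
    have hfζ : f.symm (φ (w ζ)) = ζ := hinv ζ hζ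
    have h2 : ContDiffAt ℝ ∞ f.symm (φ (w ζ)) := by
      apply f.contDiffAt_symm (f₀' := A)
      · exact f.map_source hζ2
      · rw [hfζ, hfc, hA]
        exact ((hWs _ hζ1 hζ3).differentiableAt (by simp)).hasFDerivAt
      · rw [hfζ, hfc]
        exact hWs _ hζ1 hζ3
    exact h2.contMDiffAt.comp (w ζ) h1

/-- A map which is injective with injective derivative on an open subset of a vector space, to a
manifold of the same dimension, has open image and smooth inverse. -/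
theorem inverse_on [Nonempty E'] {w : E' → X} {V : Set E'} (hV : IsOpen V)
    (hw : ContMDiffOn 𝓘(ℝ, E') 𝓘(ℝ, E) ∞ w V) (hwi : InjOn w V)
    (hinj : ∀ ξ ∈ V, Function.Injective (mfderiv 𝓘(ℝ, E') 𝓘(ℝ, E) w ξ))
    (hdim : Module.finrank ℝ E' = Module.finrank ℝ E) :
    IsOpen (w '' V) ∧ ContMDiffOn 𝓘(ℝ, E) 𝓘(ℝ, E') ∞ (Function.invFunOn w V) (w '' V) := by
  have hloc := fun ξ : V => local_inverse_on hV hw ξ.2 (hinj ξ ξ.2) hdim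
  choose S v hSo hξS hSV hinv hopen hvs using hloc
  have hleft : ∀ ξ ∈ V, Function.invFunOn w V (w ξ) = ξ := fun ξ hξ => hwi.leftInvOn_invFunOn hξ
  constructor
  · have h1 : w '' V = ⋃ ξ : V, w '' (S ξ) := by
      ext x
      constructor
      · rintro ⟨ζ, hζ, rfl⟩
        exact mem_iUnion.2 ⟨⟨ζ, hζ⟩, ζ, hξS ⟨ζ, hζ⟩, rfl⟩
      · intro hx
        obtain ⟨ξ, ζ, hζ, rfl⟩ := mem_iUnion.1 hx
        exact ⟨ζ, hSV _ hζ, rfl⟩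
    rw [h1]
    exact isOpen_iUnion fun ξ => hopen ξ _ subset_rfl (hSo ξ)
  · rintro _ ⟨ζ, hζ, rfl⟩
    have h1 : Function.invFunOn w V =ᶠ[𝓝 (w ζ)] v ⟨ζ, hζ⟩ := by
      filter_upwards [(hopen ⟨ζ, hζ⟩ _ subset_rfl (hSo ⟨ζ, hζ⟩)).mem_nhds
        ⟨ζ, hξS ⟨ζ, hζ⟩, rfl⟩] with x hx
      obtain ⟨η, hη, rfl⟩ := hx
      rw [hleft η (hSV _ hη), hinv _ η hη]
    exact ((hvs ⟨ζ, hζ⟩ ζ (hξS ⟨ζ, hζ⟩)).congr_of_eventuallyEq h1).contMDiffWithinAt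

end inv

section flow

variable {E : Type u} [NormedAddCommGroup E] [NormedSpace ℝ E] [FiniteDimensional ℝ E]
    {X : Type v} [TopologicalSpace X] [ChartedSpace E X]
    [IsManifold 𝓘(ℝ, E) ∞ X] {π : X → ℂ}
    {x₁ : ℝ} (F : FlowData (E := E) π x₁) (z₀ : ℂ)

/-- the escaping set -/
def U : Set X := {x | ∃ t, x₁ ≤ (π (F.Φ t x)).re}

theorem neg_neg' (t : ℝ) (x : X) : F.Φ (-t) (F.Φ t x) = x := by
  rw [← F.Φ_add, neg_add_cancel, F.Φ_zero]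

theorem neg_neg'' (t : ℝ) (x : X) : F.Φ' (-t) (F.Φ' t x) = x := by
  rw [← F.Φ'_add, neg_add_cancel, F.Φ'_zero]

theorem fast' {x : X} {t : ℝ} (h1 : x₁ ≤ (π x).re) (h2 : x₁ ≤ (π x).re + t) :
    (π (F.Φ t x)).re = (π x).re + t := by
  rw [F.fast x t h1 h2]
  simp

theorem uniq {x : X} {s t : ℝ} (h1 : x₁ ≤ (π (F.Φ s x)).re) (h2 : x₁ ≤ (π (F.Φ t x)).re) :
    (π (F.Φ t x)).re = (π (F.Φ s x)).re + (t - s) := by
  rcases le_total s t with h | h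
  · have h3 := fast' F (x := F.Φ s x) (t := t - s) h1 (by linarith)
    rwa [← F.Φ_add, sub_add_cancel] at h3
  · have h3 := fast' F (x := F.Φ t x) (t := s - t) h2 (by linarith)
    rw [← F.Φ_add, sub_add_cancel] at h3
    linarith

open Classical in
/-- the time at which the orbit reaches the level of `z₀` -/
def θ (x : X) : ℝ := if h : ∃ t, (π (F.Φ t x)).re = z₀.re then h.choose else 0

/-- the retraction to the fibre over `z₀` -/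
def ret (x : X) : X := F.Φ' (z₀.im - (π x).im) (F.Φ (θ F z₀ x) x)

variable {z₀} (hz : x₁ < z₀.re)
include hz

theorem θ_eq {x : X} {t : ℝ} (h : x₁ ≤ (π (F.Φ t x)).re) :
    θ F z₀ x = t + (z₀.re - (π (F.Φ t x)).re) := by
  have h1 : (π (F.Φ (t + (z₀.re - (π (F.Φ t x)).re)) x)).re = z₀.re := by
    have h3 := fast' F (x := F.Φ t x) (t := z₀.re - (π (F.Φ t x)).re) h (by linarith)
    rw [← F.Φ_add] at h3
    rw [add_comm t, h3]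
    ring
  have h2 : ∃ t, (π (F.Φ t x)).re = z₀.re := ⟨_, h1⟩
  have h3 : θ F z₀ x = h2.choose := by
    rw [θ, dif_pos h2]
  have h4 := h2.choose_spec
  rw [← h3] at h4
  have h5 := uniq F (x := x) (s := t) (t := θ F z₀ x) h (by rw [h4]; exact hz.le)
  rw [h4] at h5
  linarith

theorem re_θ {x : X} (h : x ∈ U F) : (π (F.Φ (θ F z₀ x) x)).re = z₀.re := by
  obtain ⟨t, ht⟩ := h
  have h3 := fast' F (x := F.Φ t x) (t := z₀.re - (π (F.Φ t x)).re) ht (by linarith)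
  rw [← F.Φ_add] at h3
  rw [θ_eq F hz ht, add_comm t, h3]
  ring

theorem π_ret {x : X} (h : x ∈ U F) : π (ret F z₀ x) = z₀ := by
  rw [ret, F.vert _ _ (by rw [re_θ F hz h]; exact hz.le)]
  apply Complex.ext
  · simp [re_θ F hz h]
  · simp [F.im_eq]

theorem ret_flow {x : X} (h : x ∈ U F) (t : ℝ) :
    ret F z₀ (F.Φ t x) = ret F z₀ x := by
  obtain ⟨s, hs⟩ := h
  have h1 : θ F z₀ x = s + (z₀.re - (π (F.Φ s x)).re) := θ_eq F hz hs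
  have h2 : θ F z₀ (F.Φ t x) = (s - t) + (z₀.re - (π (F.Φ s x)).re) := by
    have h3 : F.Φ (s - t) (F.Φ t x) = F.Φ s x := by rw [← F.Φ_add, sub_add_cancel]
    have h4 := θ_eq F hz (x := F.Φ t x) (t := s - t) (by rw [h3]; exact hs)
    rwa [h3] at h4
  rw [ret, ret, h1, h2, F.im_eq, ← F.Φ_add]
  congr 2
  ring

theorem U_flow {x : X} {t : ℝ} : F.Φ t x ∈ U F ↔ x ∈ U F := by
  constructor
  · rintro ⟨s, hs⟩
    exact ⟨s + t, by rwa [F.Φ_add]⟩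
  · rintro ⟨s, hs⟩
    refine ⟨s - t, ?_⟩
    rw [← F.Φ_add, sub_add_cancel]
    exact hs

theorem mem_U_of {x : X} (h : π x = z₀) : x ∈ U F := ⟨0, by rw [F.Φ_zero, h]; exact hz.le⟩

theorem ret_id {x : X} (h : π x = z₀) : ret F z₀ x = x := by
  have h1 : θ F z₀ x = 0 := by
    rw [θ_eq F hz (x := x) (t := 0) (by rw [F.Φ_zero, h]; exact hz.le), F.Φ_zero, h]
    simp
  rw [ret, h1, F.Φ_zero, h, sub_self, F.Φ'_zero]

theorem exists_gt {x : X} (h : x ∈ U F) : ∃ t, x₁ < (π (F.Φ t x)).re :=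
  ⟨θ F z₀ x, by rw [re_θ F hz h]; exact hz⟩

variable (hπ : ContMDiff 𝓘(ℝ, E) 𝓘(ℝ, ℂ) ∞ π)
include hπ

theorem smooth_re (t : ℝ) : ContMDiff 𝓘(ℝ, E) 𝓘(ℝ, ℝ) ∞ fun x => (π (F.Φ t x)).re := by
  have h1 : ContMDiff 𝓘(ℝ, E) 𝓘(ℝ, E) ∞ fun x => F.Φ t x :=
    F.Φ_smooth.comp (contMDiff_const.prodMk contMDiff_id)
  exact (Complex.reCLM.contMDiff).comp (hπ.comp h1)

theorem isOpen_U : IsOpen (U F) := by
  have h1 : U F = ⋃ t, {x | x₁ < (π (F.Φ t x)).re} := by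
    ext x
    constructor
    · intro h
      exact mem_iUnion.2 (exists_gt F hz h)
    · intro h
      obtain ⟨t, ht⟩ := mem_iUnion.1 h
      exact ⟨t, le_of_lt ht⟩
  rw [h1]
  exact isOpen_iUnion fun t => isOpen_lt continuous_const (smooth_re F hz hπ t).continuous

theorem smooth_ret : ContMDiffOn 𝓘(ℝ, E) 𝓘(ℝ, E) ∞ (ret F z₀) (U F) := by
  intro x hx
  obtain ⟨t, ht⟩ := exists_gt F hz hx
  have h1 : ContMDiff 𝓘(ℝ, E) 𝓘(ℝ, ℝ) ∞ fun x => t + (z₀.re - (π (F.Φ t x)).re) :=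
    contMDiff_const.add (contMDiff_const.sub (smooth_re F hz hπ t))
  have h2 : ContMDiff 𝓘(ℝ, E) 𝓘(ℝ, E) ∞ fun x =>
      F.Φ (t + (z₀.re - (π (F.Φ t x)).re)) x :=
    F.Φ_smooth.comp (h1.prodMk contMDiff_id)
  have h3 : ContMDiff 𝓘(ℝ, E) 𝓘(ℝ, ℝ) ∞ fun x => z₀.im - (π x).im :=
    contMDiff_const.sub ((Complex.imCLM.contMDiff).comp hπ)
  have h4 : ContMDiff 𝓘(ℝ, E) 𝓘(ℝ, E) ∞ fun x =>
      F.Φ' (z₀.im - (π x).im) (F.Φ (t + (z₀.re - (π (F.Φ t x)).re)) x) :=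
    F.Φ'_smooth.comp (h3.prodMk h2)
  have h5 : ret F z₀ =ᶠ[𝓝 x] fun x =>
      F.Φ' (z₀.im - (π x).im) (F.Φ (t + (z₀.re - (π (F.Φ t x)).re)) x) := by
    filter_upwards [(isOpen_lt continuous_const (smooth_re F hz hπ t).continuous).mem_nhds ht]
      with y hy
    rw [ret, θ_eq F hz (x := y) (t := t) (le_of_lt hy)]
  exact ((h4 x).congr_of_eventuallyEq h5).contMDiffWithinAt

end flow

section tube

variable {E : Type u} [NormedAddCommGroup E] [NormedSpace ℝ E] [FiniteDimensional ℝ E]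
    {X : Type v} [TopologicalSpace X] [ChartedSpace E X]
    [IsManifold 𝓘(ℝ, E) ∞ X] {π : X → ℂ}
    {x₁ : ℝ} (F : FlowData (E := E) π x₁) {z₀ : ℂ} (hz : x₁ < z₀.re)
    {c : ℝ × P → X} {x₀ : P} {r : ℝ}
    (hc : ContMDiffOn 𝓘(ℝ, ℝ × P) 𝓘(ℝ, E) ∞ c (univ ×ˢ ball x₀ r))
    (hcπ : ∀ σ : ℝ, ∀ x ∈ ball x₀ r, π (c (σ, x)) = z₀)

/-- the parametrisation of a neighbourhood of the tube -/
def tub (c : ℝ × P → X) (p : (ℝ × P) × ℂ) : X := F.Φ' p.2.im (F.Φ p.2.re (c p.1))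

/-- its domain -/
def VV (x₁ : ℝ) (z₀ : ℂ) (x₀ : P) (r : ℝ) : Set ((ℝ × P) × ℂ) :=
  (univ ×ˢ ball x₀ r) ×ˢ {ζ | x₁ < z₀.re + ζ.re}

theorem isOpen_VV : IsOpen (VV x₁ z₀ x₀ r) :=
  (isOpen_univ.prod isOpen_ball).prod
    (isOpen_lt continuous_const (continuous_const.add Complex.continuous_re))

include hc in
theorem smooth_tub : ContMDiffOn 𝓘(ℝ, (ℝ × P) × ℂ) 𝓘(ℝ, E) ∞ (tub F c) (VV x₁ z₀ x₀ r) := by
  have h1 : ContMDiffOn 𝓘(ℝ, (ℝ × P) × ℂ) 𝓘(ℝ, E) ∞ (fun p : (ℝ × P) × ℂ => c p.1)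
      (VV x₁ z₀ x₀ r) := by
    have h0 : ContMDiff 𝓘(ℝ, (ℝ × P) × ℂ) 𝓘(ℝ, ℝ × P) ∞ (fun p : (ℝ × P) × ℂ => p.1) :=
      contDiff_fst.contMDiff
    exact hc.comp h0.contMDiffOn fun p hp => hp.1
  have h2 : ContMDiffOn 𝓘(ℝ, (ℝ × P) × ℂ) 𝓘(ℝ, ℝ) ∞ (fun p : (ℝ × P) × ℂ => p.2.re)
      (VV x₁ z₀ x₀ r) :=
    ((Complex.reCLM.contDiff.comp contDiff_snd).contMDiff).contMDiffOn
  have h3 : ContMDiffOn 𝓘(ℝ, (ℝ × P) × ℂ) 𝓘(ℝ, ℝ) ∞ (fun p : (ℝ × P) × ℂ => p.2.im)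
      (VV x₁ z₀ x₀ r) :=
    ((Complex.imCLM.contDiff.comp contDiff_snd).contMDiff).contMDiffOn
  have h4 : ContMDiffOn 𝓘(ℝ, (ℝ × P) × ℂ) 𝓘(ℝ, E) ∞
      (fun p : (ℝ × P) × ℂ => F.Φ p.2.re (c p.1)) (VV x₁ z₀ x₀ r) :=
    F.Φ_smooth.comp_contMDiffOn (h2.prodMk h1)
  exact F.Φ'_smooth.comp_contMDiffOn (h3.prodMk h4)

include hz hcπ

theorem π_tub {p : (ℝ × P) × ℂ} (hp : p ∈ VV x₁ z₀ x₀ r) : π (tub F c p) = z₀ + p.2 := by
  obtain ⟨⟨σ, x⟩, ζ⟩ := p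
  have hx : x ∈ ball x₀ r := hp.1.2
  have hζ : x₁ < z₀.re + ζ.re := hp.2
  have h1 : π (F.Φ ζ.re (c (σ, x))) = z₀ + (ζ.re : ℂ) := by
    rw [F.fast _ _ (by rw [hcπ σ x hx]; exact hz.le) (by rw [hcπ σ x hx]; exact hζ.le),
      hcπ σ x hx]
  show π (F.Φ' ζ.im (F.Φ ζ.re (c (σ, x)))) = z₀ + ζ
  rw [F.vert _ _ (by rw [h1]; simpa using hζ.le), h1, add_assoc, Complex.re_add_im]

theorem injOn_tub (hci : InjOn c (univ ×ˢ ball x₀ r)) : InjOn (tub F c) (VV x₁ z₀ x₀ r) := by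
  intro p hp q hq hpq
  have h1 : p.2 = q.2 := by
    have h2 := congrArg π hpq
    rw [π_tub F hz hcπ hp, π_tub F hz hcπ hq] at h2
    exact add_left_cancel h2
  have h3 : c p.1 = c q.1 := by
    have h4 := hpq
    rw [tub, tub, h1] at h4
    have h5 := congrArg (F.Φ' (-q.2.im)) h4
    rw [neg_neg'', neg_neg''] at h5
    have h6 := congrArg (F.Φ (-q.2.re)) h5
    rwa [neg_neg', neg_neg'] at h6
  exact Prod.ext (hci hp.1 hq.1 h3) h1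

theorem injective_mfderiv_tub (hc : ContMDiffOn 𝓘(ℝ, ℝ × P) 𝓘(ℝ, E) ∞ c (univ ×ˢ ball x₀ r))
    (hπ : ContMDiff 𝓘(ℝ, E) 𝓘(ℝ, ℂ) ∞ π)
    (hcd : ∀ q ∈ (univ ×ˢ ball x₀ r : Set (ℝ × P)),
      Function.Injective (mfderiv 𝓘(ℝ, ℝ × P) 𝓘(ℝ, E) c q)) {p : (ℝ × P) × ℂ}
    (hp : p ∈ VV x₁ z₀ x₀ r) :
    Function.Injective (mfderiv 𝓘(ℝ, (ℝ × P) × ℂ) 𝓘(ℝ, E) (tub F c) p) := by
  have hwd : MDifferentiableAt 𝓘(ℝ, (ℝ × P) × ℂ) 𝓘(ℝ, E) (tub F c) p :=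
    ((smooth_tub F hc).contMDiffAt (isOpen_VV.mem_nhds hp)).mdifferentiableAt (by simp)
  have hcd' : MDifferentiableAt 𝓘(ℝ, ℝ × P) 𝓘(ℝ, E) c p.1 :=
    (hc.contMDiffAt ((isOpen_univ.prod isOpen_ball).mem_nhds hp.1)).mdifferentiableAt (by simp)
  rw [injective_iff_map_eq_zero]
  intro v hv
  -- the second component vanishes
  have hπd : MDifferentiableAt 𝓘(ℝ, E) 𝓘(ℝ, ℂ) π (tub F c p) :=
    (hπ _).mdifferentiableAt (by simp)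
  have h1 : HasMFDerivAt 𝓘(ℝ, (ℝ × P) × ℂ) 𝓘(ℝ, ℂ) (π ∘ tub F c) p
      ((mfderiv 𝓘(ℝ, E) 𝓘(ℝ, ℂ) π (tub F c p)).comp
        (mfderiv 𝓘(ℝ, (ℝ × P) × ℂ) 𝓘(ℝ, E) (tub F c) p)) :=
    hπd.hasMFDerivAt.comp p hwd.hasMFDerivAt
  have h2 : HasMFDerivAt 𝓘(ℝ, (ℝ × P) × ℂ) 𝓘(ℝ, ℂ) (π ∘ tub F c) p
      (ContinuousLinearMap.snd ℝ (ℝ × P) ℂ) := by
    have h3 : HasMFDerivAt 𝓘(ℝ, (ℝ × P) × ℂ) 𝓘(ℝ, ℂ) (fun q : (ℝ × P) × ℂ => z₀ + q.2) p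
        (ContinuousLinearMap.snd ℝ (ℝ × P) ℂ) :=
      ((ContinuousLinearMap.snd ℝ (ℝ × P) ℂ).hasFDerivAt.const_add z₀).hasMFDerivAt
    refine h3.congr_of_eventuallyEq ?_
    filter_upwards [isOpen_VV.mem_nhds hp] with q hq
    exact π_tub F hz hcπ hq
  have h4 := congrArg (fun L : TangentSpace 𝓘(ℝ, (ℝ × P) × ℂ) p →L[ℝ]
    TangentSpace 𝓘(ℝ, ℂ) ((π ∘ tub F c) p) => L v) (hasMFDerivAt_unique h1 h2)
  have h5 : (v : (ℝ × P) × ℂ).2 = 0 := by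
    have h6 : (mfderiv 𝓘(ℝ, E) 𝓘(ℝ, ℂ) π (tub F c p))
        (mfderiv 𝓘(ℝ, (ℝ × P) × ℂ) 𝓘(ℝ, E) (tub F c) p v) = (v : (ℝ × P) × ℂ).2 := h4
    rw [hv, map_zero] at h6
    exact h6.symm
  -- the first component
  have hA : ContMDiff 𝓘(ℝ, E) 𝓘(ℝ, E) ∞ fun y => F.Φ' p.2.im (F.Φ p.2.re y) := by
    have h7 : ContMDiff 𝓘(ℝ, E) 𝓘(ℝ, E) ∞ fun y => F.Φ p.2.re y :=
      F.Φ_smooth.comp (contMDiff_const.prodMk contMDiff_id)
    exact F.Φ'_smooth.comp (contMDiff_const.prodMk h7)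
  have hB : ContMDiff 𝓘(ℝ, E) 𝓘(ℝ, E) ∞ fun y => F.Φ (-p.2.re) (F.Φ' (-p.2.im) y) := by
    have h7 : ContMDiff 𝓘(ℝ, E) 𝓘(ℝ, E) ∞ fun y => F.Φ' (-p.2.im) y :=
      F.Φ'_smooth.comp (contMDiff_const.prodMk contMDiff_id)
    exact F.Φ_smooth.comp (contMDiff_const.prodMk h7)
  set A : X → X := fun y => F.Φ' p.2.im (F.Φ p.2.re y) with hAd
  set B : X → X := fun y => F.Φ (-p.2.re) (F.Φ' (-p.2.im) y) with hBd
  have hBA : ∀ y, B (A y) = y := fun y => by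
    simp only [hAd, hBd]
    rw [neg_neg'', neg_neg']
  have h8 : HasMFDerivAt 𝓘(ℝ, ℝ × P) 𝓘(ℝ, (ℝ × P) × ℂ) (fun q : ℝ × P => (q, p.2)) p.1
      (ContinuousLinearMap.inl ℝ (ℝ × P) ℂ) :=
    (hasFDerivAt_prodMk_left p.1 p.2).hasMFDerivAt
  have h9 : HasMFDerivAt 𝓘(ℝ, ℝ × P) 𝓘(ℝ, E) (tub F c ∘ fun q : ℝ × P => (q, p.2)) p.1
      ((mfderiv 𝓘(ℝ, (ℝ × P) × ℂ) 𝓘(ℝ, E) (tub F c) p).comp
        (ContinuousLinearMap.inl ℝ (ℝ × P) ℂ)) :=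
    HasMFDerivAt.comp p.1 (g := tub F c) (f := fun q : ℝ × P => (q, p.2))
      (g' := mfderiv 𝓘(ℝ, (ℝ × P) × ℂ) 𝓘(ℝ, E) (tub F c) p) hwd.hasMFDerivAt h8
  have h10 : HasMFDerivAt 𝓘(ℝ, ℝ × P) 𝓘(ℝ, E) (B ∘ (tub F c ∘ fun q : ℝ × P => (q, p.2))) p.1
      ((mfderiv 𝓘(ℝ, E) 𝓘(ℝ, E) B (tub F c p)).comp
        ((mfderiv 𝓘(ℝ, (ℝ × P) × ℂ) 𝓘(ℝ, E) (tub F c) p).comp
          (ContinuousLinearMap.inl ℝ (ℝ × P) ℂ))) :=
    HasMFDerivAt.comp p.1 (((hB _).mdifferentiableAt (by simp)).hasMFDerivAt) h9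
  have h11 : (B ∘ (tub F c ∘ fun q : ℝ × P => (q, p.2))) = c := by
    funext q
    exact hBA (c q)
  rw [h11] at h10
  have h12 : mfderiv 𝓘(ℝ, ℝ × P) 𝓘(ℝ, E) c p.1 (v : (ℝ × P) × ℂ).1 = 0 := by
    rw [h10.mfderiv]
    have h13 : (ContinuousLinearMap.inl ℝ (ℝ × P) ℂ) (v : (ℝ × P) × ℂ).1 = v :=
      Prod.ext rfl h5.symm
    show (mfderiv 𝓘(ℝ, E) 𝓘(ℝ, E) B (tub F c p))
      (mfderiv 𝓘(ℝ, (ℝ × P) × ℂ) 𝓘(ℝ, E) (tub F c) p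
        ((ContinuousLinearMap.inl ℝ (ℝ × P) ℂ) (v : (ℝ × P) × ℂ).1)) = 0
    rw [h13, hv, map_zero]
  have h14 : (v : (ℝ × P) × ℂ).1 = 0 := by
    have h15 := hcd p.1 hp.1
    rw [injective_iff_map_eq_zero] at h15
    exact h15 _ h12
  exact Prod.ext h14 h5

end tube

theorem main : S_D.{u, v} := by
  intro E _ _ _ hdim X _ _ _ _ π hπ x₁ F z₀ hz c x₀ r hr hc hcπ hci hcd hcK
  have hV : IsOpen (VV x₁ z₀ x₀ r) := isOpen_VV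
  have hdim' : Module.finrank ℝ ((ℝ × P) × ℂ) = Module.finrank ℝ E := by
    rw [hdim, Module.finrank_prod, Module.finrank_prod, Complex.finrank_real_complex]
    simp [P]
  have hinj := injOn_tub F hz hcπ hci
  obtain ⟨ho, hs⟩ := inverse_on (w := tub F c) hV (smooth_tub F hc)
    hinj (fun ξ hξ => injective_mfderiv_tub F hz hcπ hc hπ hcd hξ) hdim'
  have hleft : ∀ p ∈ VV x₁ z₀ x₀ r, Function.invFunOn (tub F c) (VV x₁ z₀ x₀ r) (tub F c p) = p :=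
    fun p hp => hinj.leftInvOn_invFunOn hp
  have h0 : ∀ σ : ℝ, ∀ x ∈ ball x₀ r, (((σ, x), 0) : (ℝ × P) × ℂ) ∈ VV x₁ z₀ x₀ r := by
    intro σ x hx
    exact ⟨⟨mem_univ _, hx⟩, by simpa using hz⟩
  have htub0 : ∀ q : ℝ × P, tub F c (q, 0) = c q := by
    intro q
    simp [tub, F.Φ_zero, F.Φ'_zero]
  set O : Set X := U F ∩ (ret F z₀) ⁻¹' (tub F c '' VV x₁ z₀ x₀ r) with hO
  have hOo : IsOpen O := (smooth_ret F hz hπ).continuousOn.isOpen_inter_preimage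
    (isOpen_U F hz hπ) ho
  set Ψ : X → P := fun y =>
    (Function.invFunOn (tub F c) (VV x₁ z₀ x₀ r) (ret F z₀ y)).1.2 with hΨ
  have hΨs : ContMDiffOn 𝓘(ℝ, E) 𝓘(ℝ, P) ∞ Ψ O := by
    have h1 : ContMDiffOn 𝓘(ℝ, E) 𝓘(ℝ, (ℝ × P) × ℂ) ∞
        (fun y => Function.invFunOn (tub F c) (VV x₁ z₀ x₀ r) (ret F z₀ y)) O :=
      hs.comp ((smooth_ret F hz hπ).mono inter_subset_left) fun y hy => hy.2
    have h2 : ContMDiff 𝓘(ℝ, (ℝ × P) × ℂ) 𝓘(ℝ, P) ∞ fun p : (ℝ × P) × ℂ => p.1.2 :=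
      (contDiff_snd.comp contDiff_fst).contMDiff
    exact h2.comp_contMDiffOn h1
  -- description of the points of `O`
  have hdesc : ∀ y ∈ U F, ∀ σ : ℝ, ∀ x ∈ ball x₀ r, ret F z₀ y = c (σ, x) → y ∈ O ∧ Ψ y = x := by
    intro y hy σ x hx hyx
    refine ⟨⟨hy, ((σ, x), 0), h0 σ x hx, ?_⟩, ?_⟩
    · rw [htub0, hyx]
    · simp only [hΨ]
      rw [hyx, ← htub0 (σ, x), hleft _ (h0 σ x hx)]
  have hdesc' : ∀ y ∈ O, ∃ σ : ℝ, ret F z₀ y = c (σ, Ψ y) ∧ Ψ y ∈ ball x₀ r := by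
    rintro y ⟨hy, ⟨⟨σ, x⟩, ζ⟩, hp, hpy⟩
    have h1 := π_tub F hz hcπ hp
    rw [hpy, π_ret F hz hy] at h1
    have h2 : ζ = 0 := by
      have h3 : z₀ + ζ = z₀ := h1.symm
      exact add_eq_left.1 h3
    subst h2
    have hx : x ∈ ball x₀ r := hp.1.2
    rw [htub0] at hpy
    have h4 := (hdesc y hy σ x hx hpy.symm).2
    exact ⟨σ, by rw [h4, hpy], by rw [h4]; exact hx⟩
  have hSgU : F.Sg ⊆ U F := fun y hy => F.Sg_escape y hy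
  -- choice of `u`
  obtain ⟨u, hu, huS⟩ : ∃ u ∈ ball x₀ (r / 2), u ∉ Ψ '' (F.Sg ∩ O) := by
    by_contra hcon
    push Not at hcon
    have h1 : volume (ball x₀ (r / 2)) ≤ volume (Ψ '' (F.Sg ∩ O)) := measure_mono hcon
    rw [F.Sg_null O Ψ hOo hΨs] at h1
    exact absurd (measure_ball_pos volume x₀ (half_pos hr)) (not_lt.2 h1)
  have hFc : ∀ K ⊆ ball x₀ r, IsCompact K → IsClosed (c '' (univ ×ˢ K)) := hcK
  have hK0 : IsClosed (c '' (univ ×ˢ closedBall x₀ (r / 2))) :=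
    hFc _ (closedBall_subset_ball (by linarith)) (isCompact_closedBall _ _)
  set K : Set X := F.Sg ∩ (ret F z₀) ⁻¹' (c '' (univ ×ˢ closedBall x₀ (r / 2))) with hK
  have hKO : K ⊆ O := by
    rintro y ⟨hy1, ⟨σ, x⟩, ⟨_, hx⟩, hxy⟩
    exact (hdesc y (hSgU hy1) σ x (closedBall_subset_ball (by linarith) hx) hxy.symm).1
  have hKc : IsCompact K := by
    have h1 : IsClosed K := by
      have h2 : ContinuousOn (ret F z₀) F.Sg :=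
        (smooth_ret F hz hπ).continuousOn.mono hSgU
      exact h2.preimage_isClosed_of_isClosed F.Sg_compact.isClosed hK0
    exact F.Sg_compact.of_isClosed_subset h1 inter_subset_left
  have hΨK : IsCompact (Ψ '' K) := hKc.image_of_continuousOn (hΨs.continuousOn.mono hKO)
  have huK : u ∉ Ψ '' K := by
    rintro ⟨y, hy, hyu⟩
    exact huS ⟨y, ⟨hy.1, hKO hy⟩, hyu⟩
  have h2 : (Ψ '' K)ᶜ ∩ ball x₀ (r / 2) ∈ 𝓝 u :=
    (hΨK.isClosed.isOpen_compl.inter isOpen_ball).mem_nhds ⟨huK, hu⟩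
  obtain ⟨ε, hε, hεs⟩ := Metric.nhds_basis_closedBall.mem_iff.1 h2
  have hεr : closedBall u ε ⊆ ball x₀ r := fun x hx => ball_subset_ball (by linarith) (hεs hx).2
  have hFcl : IsClosed (c '' (univ ×ˢ closedBall u ε)) :=
    hFc _ hεr (isCompact_closedBall _ _)
  refine ⟨u, ε, O, Ψ, hε, hεr, hOo, hΨs, ?_, ?_, ?_⟩
  · -- closedness
    have hS : {x | x ∈ O ∧ Ψ x ∈ closedBall u ε} =
        {x | x ∈ U F ∧ ret F z₀ x ∈ c '' (univ ×ˢ closedBall u ε)} := by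
      ext y
      constructor
      · rintro ⟨hy, hyu⟩
        obtain ⟨σ, hσ, -⟩ := hdesc' y hy
        exact ⟨hy.1, (σ, Ψ y), ⟨mem_univ _, hyu⟩, hσ.symm⟩
      · rintro ⟨hy, ⟨σ, x⟩, ⟨-, hx⟩, hxy⟩
        obtain ⟨h3, h4⟩ := hdesc y hy σ x (hεr hx) hxy.symm
        exact ⟨h3, by rw [h4]; exact hx⟩
    rw [hS, ← isOpen_compl_iff, isOpen_iff_mem_nhds]
    intro x hx
    set O₁ : Set X := U F ∩ (ret F z₀) ⁻¹' (c '' (univ ×ˢ closedBall u ε))ᶜ with hO₁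
    have hO₁o : IsOpen O₁ := (smooth_ret F hz hπ).continuousOn.isOpen_inter_preimage
      (isOpen_U F hz hπ) hFcl.isOpen_compl
    by_cases hxU : x ∈ U F
    · have hxO : x ∈ O₁ := ⟨hxU, fun h => hx ⟨hxU, h⟩⟩
      filter_upwards [hO₁o.mem_nhds hxO] with y hy
      exact fun h => hy.2 h.2
    · have hxT : ∀ t, (π (F.Φ t x)).re < x₁ := by
        intro t
        by_contra hcon
        exact hxU ⟨t, not_lt.1 hcon⟩
      have hSgO : F.Sg ⊆ O₁ := by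
        intro y hy
        refine ⟨hSgU hy, ?_⟩
        rintro ⟨⟨σ, x'⟩, ⟨-, hx'⟩, hxy⟩
        have hx2 : x' ∈ closedBall x₀ (r / 2) := ball_subset_closedBall (hεs hx').2
        have hyK : y ∈ K := ⟨hy, (σ, x'), ⟨mem_univ _, hx2⟩, hxy⟩
        have h5 : Ψ y = x' := (hdesc y (hSgU hy) σ x' (hεr hx') hxy.symm).2
        exact (hεs hx').1 ⟨y, hyK, h5⟩
      filter_upwards [F.exit x hxT O₁ hO₁o hSgO] with y hy
      rcases hy with hy | ⟨t, ht⟩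
      · rintro ⟨⟨t, ht⟩, -⟩
        exact absurd (hy t) (not_lt.2 ht)
      · rintro ⟨hyU, hy2⟩
        rw [← ret_flow F hz hyU t] at hy2
        exact ht.2 hy2
  · intro σ x hx
    have h3 : π (c (σ, x)) = z₀ := hcπ σ x hx
    exact hdesc _ (mem_U_of F hz h3) σ x hx (ret_id F hz h3)
  · intro y hy hyz
    obtain ⟨σ, h3, h4⟩ := hdesc' y hy
    exact ⟨σ, Ψ y, h4, by rw [← h3, ret_id F hz hyz]⟩

end Pool.Agent.W630.TD
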