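import Pool.Agent.W630.TF2

/-! # Statement F, part 3: conclusion -/

open scoped Topology ContDiff Manifold
open Set Pool.Agent.Helper186 MeasureTheory Metric Bundle Filter

noncomputable section

namespace Pool.Agent.W630.TF

set_option linter.unusedSectionVars false

universe u v

/-! ## The functions `a` and `b` -/

/-- `b(s) = (2/π) arctan s` -/
def bf (s : ℝ) : ℝ := 2 / Real.pi * Real.arctan s

theorem contDiff_bf : ContDiff ℝ ∞ bf := contDiff_const.mul Real.contDiff_arctan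

theorem bf_zero : bf 0 = 0 := by simp [bf]

theorem bf_neg (s : ℝ) : bf (-s) = -bf s := by simp [bf]

theorem bf_strictMono : StrictMono bf := by
  intro s t h
  have h1 := Real.arctan_strictMono h
  have h2 : 0 < 2 / Real.pi := by positivity
  exact mul_lt_mul_of_pos_left h1 h2

theorem bf_lt (s : ℝ) : bf s < 1 := by
  have h1 := Real.arctan_lt_pi_div_two s
  have h2 : 0 < 2 / Real.pi := by positivity
  have h3 := mul_lt_mul_of_pos_left h1 h2
  have h4 : 2 / Real.pi * (Real.pi / 2) = 1 := by field_simp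
  rw [h4] at h3
  exact h3

theorem neg_lt_bf (s : ℝ) : -1 < bf s := by
  have h1 := bf_lt (-s)
  rw [bf_neg] at h1
  linarith

theorem bf_mem (s : ℝ) : bf s ∈ Icc (-1 : ℝ) 1 := ⟨(neg_lt_bf s).le, (bf_lt s).le⟩

theorem deriv_bf_pos (s : ℝ) : 0 < deriv bf s := by
  have h1 : HasDerivAt bf (2 / Real.pi * (1 / (1 + s ^ 2))) s :=
    (Real.hasDerivAt_arctan s).const_mul _
  rw [h1.deriv]
  positivity

theorem tendsto_bf : Tendsto bf atTop (𝓝 1) := by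
  have h1 : Tendsto Real.arctan atTop (𝓝 (Real.pi / 2)) :=
    Real.tendsto_arctan_atTop.mono_right nhdsWithin_le_nhds
  have h2 := h1.const_mul (2 / Real.pi)
  have h4 : 2 / Real.pi * (Real.pi / 2) = 1 := by field_simp
  rwa [h4] at h2

/-- `a(s) = s² T(s² - s₀²)` -/
def af (s₀ s : ℝ) : ℝ := s ^ 2 * Real.smoothTransition (s ^ 2 - s₀ ^ 2)

theorem contDiff_af (s₀ : ℝ) : ContDiff ℝ ∞ (af s₀) := by
  have h1 : ContDiff ℝ ∞ Real.smoothTransition := Real.smoothTransition.contDiff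
  exact (contDiff_id.pow 2).mul (h1.comp ((contDiff_id.pow 2).sub contDiff_const))

theorem af_neg (s₀ s : ℝ) : af s₀ (-s) = af s₀ s := by simp [af]

theorem af_nonneg (s₀ s : ℝ) : 0 ≤ af s₀ s :=
  mul_nonneg (sq_nonneg _) (Real.smoothTransition.nonneg _)

theorem af_mono {s₀ s s' : ℝ} (h : s ^ 2 ≤ s' ^ 2) : af s₀ s ≤ af s₀ s' :=
  mul_le_mul h (Real.smoothTransition.monotone (by linarith))
    (Real.smoothTransition.nonneg _) (sq_nonneg _)

theorem af_zero_of {s₀ s : ℝ} (h : s ^ 2 ≤ s₀ ^ 2) : af s₀ s = 0 := by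
  rw [af, Real.smoothTransition.zero_of_nonpos (by linarith), mul_zero]

theorem lt_of_af_pos {s₀ s : ℝ} (h : 0 < af s₀ s) : s₀ ^ 2 < s ^ 2 := by
  by_contra hcon
  rw [af_zero_of (not_lt.1 hcon)] at h
  exact lt_irrefl _ h

theorem deriv_af {s₀ s : ℝ} : 0 ≤ s * deriv (af s₀) s := by
  have h0 : Differentiable ℝ Real.smoothTransition :=
    (Real.smoothTransition.contDiff (n := 1)).differentiable (by simp)
  have h1 : HasDerivAt (fun s : ℝ => s ^ 2) (2 * s) s := by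
    simpa using hasDerivAt_pow 2 s
  have h2 : HasDerivAt (fun s : ℝ => Real.smoothTransition (s ^ 2 - s₀ ^ 2))
      (deriv Real.smoothTransition (s ^ 2 - s₀ ^ 2) * (2 * s)) s :=
    HasDerivAt.comp (h₂ := Real.smoothTransition) (h := fun s : ℝ => s ^ 2 - s₀ ^ 2) s
      (h0 _).hasDerivAt (h1.sub_const _)
  have h3 := (h1.mul h2).deriv
  have h4 : deriv (af s₀) s = 2 * s * Real.smoothTransition (s ^ 2 - s₀ ^ 2) +
      s ^ 2 * (deriv Real.smoothTransition (s ^ 2 - s₀ ^ 2) * (2 * s)) := h3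
  rw [h4]
  have h5 : 0 ≤ deriv Real.smoothTransition (s ^ 2 - s₀ ^ 2) :=
    Real.smoothTransition.monotone.deriv_nonneg
  have h6 := Real.smoothTransition.nonneg (s ^ 2 - s₀ ^ 2)
  have h7 : s * (2 * s * Real.smoothTransition (s ^ 2 - s₀ ^ 2) +
      s ^ 2 * (deriv Real.smoothTransition (s ^ 2 - s₀ ^ 2) * (2 * s))) =
      2 * s ^ 2 * Real.smoothTransition (s ^ 2 - s₀ ^ 2) +
      2 * (s ^ 2) ^ 2 * deriv Real.smoothTransition (s ^ 2 - s₀ ^ 2) := by ring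
  rw [h7]
  positivity

theorem deriv_af_zero {s₀ s : ℝ} (h : s ^ 2 < s₀ ^ 2) : deriv (af s₀) s = 0 := by
  have h1 : af s₀ =ᶠ[𝓝 s] fun _ => (0 : ℝ) := by
    have h2 : ∀ᶠ t : ℝ in 𝓝 s, t ^ 2 < s₀ ^ 2 :=
      (continuous_pow 2).continuousAt.eventually (gt_mem_nhds h)
    filter_upwards [h2] with t ht
    exact af_zero_of ht.le
  rw [h1.deriv_eq]
  simp

theorem af_large (s₀ M : ℝ) : ∃ R, 0 < R ∧ ∀ s, R ≤ s → M ≤ af s₀ s := by
  refine ⟨s₀ ^ 2 + 1 + |M|, by positivity, fun s hs => ?_⟩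
  have h0 : 0 ≤ |M| := abs_nonneg M
  have h1 : 1 ≤ s := by nlinarith [sq_nonneg s₀]
  have h2 : s ≤ s ^ 2 := by nlinarith
  have h3 : 1 ≤ s ^ 2 - s₀ ^ 2 := by linarith
  rw [af, Real.smoothTransition.one_of_one_le h3, mul_one]
  linarith [le_abs_self M, sq_nonneg s₀]

variable {G : Type u} [NormedAddCommGroup G] [NormedSpace ℝ G] [FiniteDimensional ℝ G]
  {W : Type v} [TopologicalSpace W] [T2Space W] [ChartedSpace G W] [IsManifold 𝓘(ℝ, G) ∞ W]
  {D : LData 𝓘(ℝ, G) W} {δ : ℝ} {g : ℝ × P → W} {rel : P → P → Prop} {K : Set P}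

namespace DF

variable (H : DF D δ g rel K)
include H

theorem rel_symm {x x' : P} (h : rel x x') : rel x' x := by
  have h0 := (H.mem_VD (s := 0) ⟨by norm_num, by norm_num⟩ x).1
  exact ((H.fib 0 h0 0 h0 x' x).1 ((H.fib 0 h0 0 h0 x x').2 ⟨rfl, h⟩).symm).2

theorem Om_rfx {y : W} (hy : y ∈ Om δ g) : y ∈ Om δ (g ∘ rfx) := by
  obtain ⟨q, hq, rfl⟩ := hy
  exact ⟨rfx q, rfx_mem hq, by rw [Function.comp, rfx_rfx]⟩

theorem tau_rfx {y : W} (hy : y ∈ Om δ g) : tau δ (g ∘ rfx) y = -tau δ g y := by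
  obtain ⟨q, hq, rfl⟩ := hy
  rw [H.tau_g hq]
  have h1 := H.refl.tau_g (rfx_mem hq)
  rw [Function.comp, rfx_rfx] at h1
  exact h1

theorem hh_rfx {y : W} (hy : y ∈ Om δ g) : hh D δ (g ∘ rfx) y = -hh D δ g y := by
  have h1 : tau δ (g ∘ rfx) =ᶠ[𝓝 y] fun z => -tau δ g z := by
    filter_upwards [H.isOpen_Om.mem_nhds hy] with z hz
    exact H.tau_rfx hz
  rw [hh, h1.mfderiv_eq]
  have h2 := (H.mdiff_tau hy).hasMFDerivAt.neg
  exact DFunLike.congr_fun h2.mfderiv (D.Z y)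

/-- a threshold valid on both sides -/
theorem exists_s₁' : ∃ s₁ ∈ Ioo (0 : ℝ) 1, (∀ s ∈ Icc s₁ 1, ∀ x, 0 < hh D δ g (g (s, x))) ∧
    (∀ s ∈ Icc s₁ 1, ∀ x, 0 < hh D δ (g ∘ rfx) ((g ∘ rfx) (s, x))) := by
  obtain ⟨s, hs, h1⟩ := H.exists_s₁
  obtain ⟨s', hs', h2⟩ := H.refl.exists_s₁
  exact ⟨max s s', ⟨lt_max_of_lt_left hs.1, max_lt hs.2 hs'.2⟩,
    fun t ht x => h1 t ⟨(le_max_left _ _).trans ht.1, ht.2⟩ x,
    fun t ht x => h2 t ⟨(le_max_right _ _).trans ht.1, ht.2⟩ x⟩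

variable {s₁ s₀ : ℝ} (hs₁ : s₁ ∈ Ioo (0 : ℝ) 1)
    (hpos : ∀ s ∈ Icc s₁ 1, ∀ x, 0 < hh D δ g (g (s, x)))
    (hpos' : ∀ s ∈ Icc s₁ 1, ∀ x, 0 < hh D δ (g ∘ rfx) ((g ∘ rfx) (s, x)))
    (hs₀ : 0 < s₀) (hb₀ : ∀ s, s₀ ≤ s → s₁ ≤ bf s)

include hs₁ hpos hpos' hs₀ hb₀

theorem imm_cond (q : ℝ × P) :
    deriv (af s₀) q.1 * hh D δ g (g (bf q.1, q.2)) + deriv bf q.1 ≠ 0 := by
  have h0 := deriv_bf_pos q.1
  suffices h : 0 ≤ deriv (af s₀) q.1 * hh D δ g (g (bf q.1, q.2)) by linarith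
  by_cases h1 : q.1 ^ 2 < s₀ ^ 2
  · rw [deriv_af_zero h1, zero_mul]
  · have h2 : s₀ ≤ |q.1| := by
      rw [← abs_of_pos hs₀]
      exact sq_le_sq.1 (not_lt.1 h1)
    rcases le_total 0 q.1 with h3 | h3
    · rw [abs_of_nonneg h3] at h2
      have h4 := hpos (bf q.1) ⟨hb₀ _ h2, (bf_lt _).le⟩ q.2
      have h5 : 0 < q.1 := by linarith
      have h6 : 0 ≤ deriv (af s₀) q.1 := by
        by_contra hcon
        have := deriv_af (s₀ := s₀) (s := q.1)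
        nlinarith
      exact mul_nonneg h6 h4.le
    · rw [abs_of_nonpos h3] at h2
      have h4 := hpos' (bf (-q.1)) ⟨hb₀ _ h2, (bf_lt _).le⟩ q.2
      have h5 : (g ∘ rfx) (bf (-q.1), q.2) = g (bf q.1, q.2) := by
        simp [rfx, bf_neg]
      rw [h5, H.hh_rfx ⟨_, H.mem_VD (bf_mem _) _, rfl⟩] at h4
      have h5 : q.1 < 0 := by linarith
      have h6 : deriv (af s₀) q.1 ≤ 0 := by
        by_contra hcon
        have := deriv_af (s₀ := s₀) (s := q.1)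
        nlinarith
      exact mul_nonneg_of_nonpos_of_nonpos h6 (by linarith)

theorem absurd_of_lt {s s' : ℝ} {x x' : P} (h : kap D g (af s₀) bf (s, x) =
    kap D g (af s₀) bf (s', x')) (hlt : af s₀ s' < af s₀ s) : False := by
  have h1 : D.φ (af s₀ s - af s₀ s') (g (bf s, x)) = g (bf s', x') := by
    have h2 := congrArg (D.φ (-(af s₀ s'))) h
    simp only [kap] at h2
    rw [← D.φ_add, ← D.φ_add, neg_add_cancel, D.φ0] at h2
    rw [← h2]
    congr 1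
    ring
  have h2 : s₀ ^ 2 < s ^ 2 := lt_of_af_pos ((af_nonneg s₀ s').trans_lt hlt)
  have h3 : s₀ < |s| := by
    rw [← abs_of_pos hs₀]
    exact sq_lt_sq.1 h2
  rcases le_total 0 s with h4 | h4
  · rw [abs_of_nonneg h4] at h3
    have h5 := H.up hs₁ hpos (b := bf s) ⟨hb₀ _ h3.le, (bf_lt _).le⟩ (x := x)
      (t := af s₀ s - af s₀ s') (by linarith) (by
        rw [h1]; exact ⟨_, ⟨bf_mem _, mem_univ _⟩, rfl⟩)
    rw [h1, H.tau_g (H.mem_VD (bf_mem _) _)] at h5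
    have h6 : s < s' := bf_strictMono.lt_iff_lt.1 h5
    have h7 : af s₀ s ≤ af s₀ s' := af_mono (by nlinarith)
    linarith
  · rw [abs_of_nonpos h4] at h3
    have e1 : (g ∘ rfx) (bf (-s), x) = g (bf s, x) := by simp [rfx, bf_neg]
    have e2 : (g ∘ rfx) (bf (-s'), x') = g (bf s', x') := by simp [rfx, bf_neg]
    have h5 := H.refl.up hs₁ hpos' (b := bf (-s)) ⟨hb₀ _ h3.le, (bf_lt _).le⟩ (x := x)
      (t := af s₀ s - af s₀ s') (by linarith) (by
        rw [e1, h1, ← e2]; exact ⟨_, ⟨bf_mem _, mem_univ _⟩, rfl⟩)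
    rw [e1, h1, ← e2, H.refl.tau_g (H.mem_VD (bf_mem _) _)] at h5
    have h6 : -s < -s' := bf_strictMono.lt_iff_lt.1 h5
    have h7 : af s₀ s ≤ af s₀ s' := af_mono (by nlinarith)
    linarith

theorem kap_fib {s s' : ℝ} {x x' : P} (h : kap D g (af s₀) bf (s, x) =
    kap D g (af s₀) bf (s', x')) : s = s' ∧ rel x x' := by
  rcases lt_trichotomy (af s₀ s) (af s₀ s') with h1 | h1 | h1
  · exact (H.absurd_of_lt hs₁ hpos hpos' hs₀ hb₀ h.symm h1).elim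
  · have h2 : g (bf s, x) = g (bf s', x') := by
      have h3 := congrArg (D.φ (-(af s₀ s))) h
      simp only [kap] at h3
      rw [← h1, ← D.φ_add, ← D.φ_add, neg_add_cancel, D.φ0, D.φ0] at h3
      exact h3
    have h3 := (H.fib _ (H.mem_VD (bf_mem s) x).1 _ (H.mem_VD (bf_mem s') x').1 x x').1 h2
    exact ⟨bf_strictMono.injective h3.1, h3.2⟩
  · exact (H.absurd_of_lt hs₁ hpos hpos' hs₀ hb₀ h h1).elim

end DF

namespace DF

variable (H : DF D δ g rel K)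
include H

theorem isClosed_core : IsClosed D.core := by
  rw [D.core_eq_iInter]
  exact isClosed_iInter fun n => (D.K_compact n).isClosed

theorem continuous_one : Continuous fun x : P => g (1, x) := by
  have h1 := (H.smooth_gb (b := fun _ => (1 : ℝ)) contDiff_const
    (fun _ => ⟨by norm_num, le_rfl⟩)).continuous
  exact h1.comp (g := fun q : ℝ × P => g ((fun _ => (1 : ℝ)) q.1, q.2))
    (f := fun x : P => ((0 : ℝ), x)) (by fun_prop)

theorem exists_not_core {B : Set P} (hB : IsOpen B) (hne : B.Nonempty) :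
    ∃ x ∈ B, g (1, x) ∉ D.core := by
  by_contra hcon
  push Not at hcon
  obtain ⟨x, hx⟩ := hne
  have hbm : ∀ _ : ℝ, (1 : ℝ) ∈ Icc (-1 : ℝ) 1 := fun _ => ⟨by norm_num, le_rfl⟩
  have hk : ContMDiff 𝓘(ℝ, ℝ × P) 𝓘(ℝ, G) ∞ (kap D g id fun _ => (1 : ℝ)) :=
    H.smooth_kap contDiff_id contDiff_const hbm
  have hne : deriv id ((0 : ℝ), x).1 * hh D δ g (g ((fun _ => (1 : ℝ)) ((0 : ℝ), x).1,
      ((0 : ℝ), x).2)) + deriv (fun _ : ℝ => (1 : ℝ)) ((0 : ℝ), x).1 ≠ 0 := by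
    have h1 := H.hh_one x
    simp only [deriv_id, one_mul, deriv_const, add_zero]
    exact h1.ne'
  have hinj := H.mfderiv_kap_inj (a := id) (b := fun _ => (1 : ℝ)) contDiff_id contDiff_const
    hbm hne
  have hV : IsOpen ((univ : Set ℝ) ×ˢ B) := isOpen_univ.prod hB
  obtain ⟨S, v, hSo, hξS, hSV, -, hop, -⟩ := TD.local_inverse_on hV hk.contMDiffOn
    (ξ := ((0 : ℝ), x)) ⟨mem_univ _, hx⟩ hinj H.finrank_eq
  have h1 : kap D g id (fun _ => (1 : ℝ)) '' S ⊆ D.core := by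
    rintro _ ⟨⟨s, x'⟩, hq, rfl⟩
    exact D.core_inv _ (hcon x' (hSV hq).2)
  have h2 : kap D g id (fun _ => (1 : ℝ)) '' S ⊆ interior D.core :=
    interior_maximal h1 (hop S subset_rfl hSo)
  have h3 : 0 < Module.finrank ℝ G := by rw [H.dim]; norm_num
  rw [TE.main G h3 W D] at h2
  exact h2 ⟨_, hξS, rfl⟩

theorem isOpen_not_core {B : Set P} (hB : IsOpen B) : IsOpen {x | x ∈ B ∧ g (1, x) ∉ D.core} :=
  hB.inter (H.isClosed_core.isOpen_compl.preimage H.continuous_one)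

/-- the curve leaves every compact set -/
theorem escape (s₀ : ℝ) {C : Set W} (hC : IsCompact C) {K' : Set P} (hK' : IsCompact K')
    (hcore : ∀ x ∈ K', g (1, x) ∉ D.core) :
    ∃ R, ∀ s, R ≤ s → ∀ x ∈ K', kap D g (af s₀) bf (s, x) ∉ C := by
  -- step 1
  obtain ⟨N, hN⟩ : ∃ N : ℕ, K' ⊆ {x | g (1, x) ∉ D.K N} := by
    refine hK'.elim_directed_cover (fun N : ℕ => {x | g (1, x) ∉ D.K N}) (fun N => ?_) ?_ ?_
    · exact (D.K_compact N).isClosed.isOpen_compl.preimage H.continuous_one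
    · intro x hx
      have h1 := hcore x hx
      rw [D.core_eq_iInter, mem_iInter, not_forall] at h1
      exact mem_iUnion.2 h1
    · refine Monotone.directed_le ?_
      intro m n hmn x hx h
      exact hx (D.K_anti (by exact_mod_cast hmn) h)
  -- step 2
  have h2 : ∀ᶠ s : ℝ in 𝓝 (1 : ℝ), ∀ x ∈ K', g (s, x) ∉ D.K N := by
    apply hK'.eventually_forall_of_forall_eventually (P := fun (s : ℝ) (x : P) =>
      g (s, x) ∉ D.K N)
    intro x hx
    have h3 : ContinuousAt g ((1 : ℝ), x) :=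
      (H.smoothAt (H.mem_VD ⟨by norm_num, le_rfl⟩ x)).continuousAt
    exact h3.eventually ((D.K_compact N).isClosed.isOpen_compl.mem_nhds (hN hx))
  -- step 3
  obtain ⟨n, hn⟩ : ∃ n : ℕ, C ⊆ interior (D.K (-(n : ℝ))) := by
    refine hC.elim_directed_cover (fun n : ℕ => interior (D.K (-(n : ℝ))))
      (fun n => isOpen_interior) ?_ ?_
    · intro y _
      obtain ⟨t, ht, hty⟩ := D.sweep y
      obtain ⟨n, hn⟩ := exists_nat_gt t
      exact mem_iUnion.2 ⟨n, D.K_sub_interior (s := -(n : ℝ)) (t := -t) (by linarith) hty⟩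
    · refine Monotone.directed_le ?_
      intro m n hmn
      have hmn' : (m : ℝ) ≤ n := by exact_mod_cast hmn
      exact interior_mono (D.K_anti (by linarith))
  -- step 4
  obtain ⟨R₁, -, hR₁⟩ := af_large s₀ (N + n)
  obtain ⟨R₂, hR₂⟩ := eventually_atTop.1 (tendsto_bf.eventually h2)
  refine ⟨max R₁ R₂, fun s hs x hx hmem => ?_⟩
  have h5 := hR₁ s ((le_max_left _ _).trans hs)
  have h6 := hR₂ s ((le_max_right _ _).trans hs) x hx
  have h7' : kap D g (af s₀) bf (s, x) ∈ D.K (-(n : ℝ)) := interior_subset (hn hmem)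
  have h7 : D.φ (-(n : ℝ)) (D.φ (af s₀ s) (g (bf s, x))) ∈ D.X₀ := h7'
  rw [← D.φ_add] at h7
  have h8 : g (bf s, x) ∈ D.K (-(n : ℝ) + af s₀ s) := h7
  exact h6 (D.K_anti (by linarith) h8)

theorem closed_image {s₀ : ℝ} (K' : Set P) (hK' : IsCompact K')
    (hcore : ∀ x ∈ K', g (1, x) ∉ D.core) (hcore' : ∀ x ∈ K', g (-1, x) ∉ D.core) :
    IsClosed (kap D g (af s₀) bf '' (univ ×ˢ K')) := by
  have : LocallyCompactSpace W := Manifold.locallyCompact_of_finiteDimensional 𝓘(ℝ, G)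
  rw [← closure_subset_iff_isClosed]
  intro y hy
  obtain ⟨C, hC, hyC⟩ := exists_compact_mem_nhds y
  obtain ⟨R, hR⟩ := H.escape s₀ hC hK' hcore
  have hcore'' : ∀ x ∈ K', (g ∘ rfx) (1, x) ∉ D.core := fun x hx => by
    have : (g ∘ rfx) (1, x) = g (-1, x) := by simp [rfx]
    rw [this]
    exact hcore' x hx
  obtain ⟨R', hR'⟩ := H.refl.escape s₀ hC hK' hcore''
  have hsm := H.smooth_kap (contDiff_af s₀) contDiff_bf bf_mem
  set Q : Set W := kap D g (af s₀) bf '' (Icc (-R') R ×ˢ K') with hQ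
  have hQc : IsCompact Q := (isCompact_Icc.prod hK').image hsm.continuous
  by_contra hcon
  have hyQ : y ∉ Q := fun h => hcon (image_mono (prod_mono_left (subset_univ _)) h)
  have hnb : C ∩ Qᶜ ∈ 𝓝 y := Filter.inter_mem hyC (hQc.isClosed.isOpen_compl.mem_nhds hyQ)
  obtain ⟨_, ⟨hz1, hz2⟩, ⟨s, x⟩, ⟨-, hx⟩, rfl⟩ := mem_closure_iff_nhds.1 hy _ hnb
  apply hz2
  refine ⟨(s, x), ⟨⟨?_, ?_⟩, hx⟩, rfl⟩
  · by_contra h
    have h1 := hR' (-s) (by linarith [not_le.1 h]) x hx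
    apply h1
    have h2 : kap D (g ∘ rfx) (af s₀) bf (-s, x) = kap D g (af s₀) bf (s, x) := by
      simp [kap, rfx, bf_neg, af_neg]
    rw [h2]
    exact hz1
  · by_contra h
    exact hR s (not_le.1 h).le x hx hz1

end DF

theorem main : S_F.{u, v} := by
  intro G _ _ _ hdim W _ _ _ _ D δ hδ g hg hgi rel hfib hK hout₁ hout₂ B hB hBne hBrel
  obtain ⟨K, hK, hKc⟩ := hK
  have H : DF D δ g rel K := ⟨hdim, hδ, hg, hgi, hfib, hK, hKc, hout₁, hout₂⟩
  obtain ⟨s₁, hs₁, hpos, hpos'⟩ := H.exists_s₁'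
  obtain ⟨s₀, hs₀, hb₀⟩ : ∃ s₀ : ℝ, 0 < s₀ ∧ ∀ s, s₀ ≤ s → s₁ ≤ bf s := by
    obtain ⟨R, hR⟩ := eventually_atTop.1 (tendsto_bf.eventually (lt_mem_nhds hs₁.2))
    exact ⟨max R 1, by positivity, fun s hs => (hR s ((le_max_left _ _).trans hs)).le⟩
  -- choice of the ball
  set B₁ : Set P := {x | x ∈ B ∧ g (1, x) ∉ D.core} with hB₁
  have hB₁o : IsOpen B₁ := H.isOpen_not_core hB
  have hB₁ne : B₁.Nonempty := by
    obtain ⟨x, hx, hx'⟩ := H.exists_not_core hB hBne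
    exact ⟨x, hx, hx'⟩
  set B₂ : Set P := {x | x ∈ B₁ ∧ (g ∘ rfx) (1, x) ∉ D.core} with hB₂
  have hB₂o : IsOpen B₂ := H.refl.isOpen_not_core hB₁o
  obtain ⟨x₀, hx₀, hx₀'⟩ := H.refl.exists_not_core hB₁o hB₁ne
  obtain ⟨r, hr, hrB⟩ := Metric.isOpen_iff.1 hB₂o x₀ ⟨hx₀, hx₀'⟩
  have hsm := H.smooth_kap (contDiff_af s₀) contDiff_bf bf_mem
  have hk0 : ∀ x, kap D g (af s₀) bf (0, x) = g (0, x) := by
    intro x
    simp only [kap, bf_zero]
    rw [af_zero_of (by simpa using sq_nonneg s₀), D.φ0]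
  refine ⟨x₀, r, kap D g (af s₀) bf, hr, fun x hx => (hrB hx).1.1, hsm, ?_, ?_, ?_, hk0, ?_⟩
  · rintro ⟨s, x⟩ ⟨-, hx⟩ ⟨s', x'⟩ ⟨-, hx'⟩ h
    obtain ⟨h1, h2⟩ := H.kap_fib hs₁ hpos hpos' hs₀ hb₀ h
    exact Prod.ext h1 (hBrel x (hrB hx).1.1 x' (hrB hx').1.1 h2)
  · intro q _
    exact H.mfderiv_kap_inj (contDiff_af s₀) contDiff_bf bf_mem
      (H.imm_cond hs₁ hpos hpos' hs₀ hb₀ q)
  · intro K' hK' hK'c
    refine H.closed_image K' hK'c (fun x hx => (hrB (hK' hx)).1.2) fun x hx => ?_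
    have h1 := (hrB (hK' hx)).2
    have h2 : (g ∘ rfx) (1, x) = g (-1, x) := by simp [rfx]
    rwa [h2] at h1
  · intro σ x _ x' h
    rw [← hk0] at h
    exact H.kap_fib hs₁ hpos hpos' hs₀ hb₀ h

end Pool.Agent.W630.TF
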