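import Mathlib
import Pool.Agent.Helper186.Liou
import Pool.Agent.Helper186.DForms

/-!
# Liouville manifolds, Liouville hypersurfaces and Lefschetz fibrations

Definitions used for the problem on Lefschetz fibrations whose fibre contains a given Liouville
hypersurface. All manifolds are smooth manifolds without boundary modelled on finite dimensional
normed spaces; one-forms are families of continuous linear forms on the tangent spaces,
`SmoothForm` (from `Helper186.Forms`) says that a one-form is smooth as a function on the tangent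
bundle, and `extDer` is the exterior derivative.
-/

open scoped Topology ContDiff Manifold
open Set Pool.Agent.Helper186

noncomputable section

namespace Pool.Agent.W630

section OneForms

/-- One-forms on the manifold `X` modelled on `E`. -/
abbrev OneForm (E : Type*) [NormedAddCommGroup E] [NormedSpace ℝ E] (X : Type*)
    [TopologicalSpace X] [ChartedSpace E X] : Type _ :=
  (x : X) → TangentSpace 𝓘(ℝ, E) x →L[ℝ] ℝ

variable {E : Type*} [NormedAddCommGroup E] [NormedSpace ℝ E]
  {X : Type*} [TopologicalSpace X] [ChartedSpace E X]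

/-- The exterior derivative `dα` of the one-form `α` at `x`, on the tangent vectors `u`, `v`. -/
abbrev dd (α : OneForm E X) (x : X) (u v : TangentSpace 𝓘(ℝ, E) x) : ℝ :=
  extDer 𝓘(ℝ, E) α x u v

/-- The two-form `dα` is nondegenerate at `x`. -/
def NondegenerateAt (α : OneForm E X) (x : X) : Prop :=
  ∀ u : TangentSpace 𝓘(ℝ, E) x, (∀ v, dd α x u v = 0) → u = 0

/-- The vector `v` is the Liouville vector of `α` at `x`: `dα (v, w) = α (w)` for all `w`. -/
def IsLiouvilleVector (α : OneForm E X) (x : X) (v : TangentSpace 𝓘(ℝ, E) x) : Prop :=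
  ∀ w : TangentSpace 𝓘(ℝ, E) x, dd α x v w = α x w

/-- Near the point `x` the set `S` is `{ρ ≤ 0}` for a smooth function `ρ` with `ρ x = 0` and
`dρ (v) > 0`: the set `S` has smooth boundary at `x` and `v` points outward. -/
def OutwardAt (S : Set X) (x : X) (v : TangentSpace 𝓘(ℝ, E) x) : Prop :=
  ∃ ρ : X → ℝ, ContMDiffAt 𝓘(ℝ, E) 𝓘(ℝ, ℝ) ∞ ρ x ∧ ρ x = 0 ∧ (∀ᶠ y in 𝓝 x, y ∈ S ↔ ρ y ≤ 0) ∧
    0 < (show ℝ from mfderiv 𝓘(ℝ, E) 𝓘(ℝ, ℝ) ρ x v)

variable {G : Type*} [NormedAddCommGroup G] [NormedSpace ℝ G]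
  {N : Type*} [TopologicalSpace N] [ChartedSpace G N]

/-- The pull back of a one-form. -/
abbrev pull (f : N → X) (α : OneForm E X) : OneForm G N := pullForm 𝓘(ℝ, E) 𝓘(ℝ, G) f α

/-- The compact set `D` of the manifold `N` is a Liouville domain with the restriction of the
one-form `α`: it has smooth boundary, `dα` is symplectic on `D`, and the Liouville vector field
of `α` points outward along the boundary. -/
structure IsLiouvilleDomain (α : OneForm G N) (D : Set N) : Prop where
  compact : IsCompact D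
  nondegenerate : ∀ x ∈ D, NondegenerateAt α x
  boundary : ∀ x ∈ frontier D, ∃ v, IsLiouvilleVector α x v ∧ OutwardAt D x v

end OneForms

/-- A Liouville manifold: a smooth manifold `X` without boundary, with a smooth one-form `form`
such that `d form` is symplectic, whose Liouville vector field `field` is complete with flow
`flow`, and a compact domain `dom` with smooth boundary along which the Liouville field points
outward, such that the forward flow of the boundary sweeps out the complement of the interior of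
`dom` (so that this complement is a positive symplectisation of the boundary of `dom`). -/
structure LiouvilleManifold (E : Type*) [NormedAddCommGroup E] [NormedSpace ℝ E]
    (X : Type*) [TopologicalSpace X] [ChartedSpace E X] [IsManifold 𝓘(ℝ, E) ∞ X] where
  /-- the Liouville one-form -/
  form : OneForm E X
  form_smooth : SmoothForm (I := 𝓘(ℝ, E)) form
  nondegenerate : ∀ x, NondegenerateAt form x
  /-- the Liouville vector field -/
  field : (x : X) → TangentSpace 𝓘(ℝ, E) x
  field_spec : ∀ x, IsLiouvilleVector form x (field x)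
  /-- the flow of the Liouville vector field, defined for all times -/
  flow : ℝ → X → X
  flow_zero : ∀ x, flow 0 x = x
  flow_spec : ∀ x, IsMIntegralCurve (I := 𝓘(ℝ, E)) (fun t => flow t x) field
  /-- the compact domain -/
  dom : Set X
  dom_compact : IsCompact dom
  dom_boundary : ∀ x ∈ frontier dom, OutwardAt dom x (field x)
  /-- the forward flow of the frontier sweeps out the complement of the interior -/
  dom_sweep : ∀ x ∉ interior dom, ∃ y ∈ frontier dom, ∃ t ≥ 0, flow t y = x

section Defs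

variable {E : Type*} [NormedAddCommGroup E] [NormedSpace ℝ E]
  {X : Type*} [TopologicalSpace X] [ChartedSpace E X] [IsManifold 𝓘(ℝ, E) ∞ X]

/-- A Liouville hypersurface `F` of the ideal boundary of the Liouville manifold `X`. The ideal
boundary is the set of flow lines of the Liouville field which leave the domain `dom`. The
hypersurface is `dom`, a compact set with smooth boundary in a manifold `N` (a small open
thickening of `F`) of dimension `dim X - 2`; the embedding of `N` in the ideal boundary, together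
with the restriction of a contact form of the ideal boundary, is given by a smooth map `map` from
`N` to `X`, which is an immersion transverse to the Liouville field and meets every flow line at
most once; the contact form pulls back to the pull back of the Liouville form. -/
structure LiouvilleHypersurface (𝓧 : LiouvilleManifold E X)
    (G : Type*) [NormedAddCommGroup G] [NormedSpace ℝ G]
    (N : Type*) [TopologicalSpace N] [ChartedSpace G N] [IsManifold 𝓘(ℝ, G) ∞ N] where
  dim : Module.finrank ℝ G + 2 = Module.finrank ℝ E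
  /-- the embedding of `N` -/
  map : N → X
  smooth : ContMDiff 𝓘(ℝ, G) 𝓘(ℝ, E) ∞ map
  transverse : ∀ (p : N) (v : TangentSpace 𝓘(ℝ, G) p) (c : ℝ),
    mfderiv 𝓘(ℝ, G) 𝓘(ℝ, E) map p v + c • 𝓧.field (map p) = 0 → v = 0 ∧ c = 0
  injective : ∀ (p q : N) (t : ℝ), 𝓧.flow t (map p) = map q → p = q
  escapes : ∀ p : N, ∃ t ≥ 0, 𝓧.flow t (map p) ∉ 𝓧.dom
  /-- the hypersurface `F` itself -/
  dom : Set N
  liouville : IsLiouvilleDomain (pull (G := G) map 𝓧.form) dom

/-- `ψ` is a chart at `p` with values in the vector space `V` with the complex structure `J`, in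
which the function `π` is `π p + Q` and in which the two-form `dα` tames `J`. -/
def IsMorseChart {V : Type*} [NormedAddCommGroup V] [NormedSpace ℝ V] (J : V → V) (Q : V → ℂ)
    (α : OneForm E X) (π : X → ℂ) (p : X) (ψ : OpenPartialHomeomorph X V) : Prop :=
  p ∈ ψ.source ∧ ψ p = 0 ∧ ContMDiffOn 𝓘(ℝ, E) 𝓘(ℝ, V) ∞ ψ ψ.source ∧
    ContMDiffOn 𝓘(ℝ, V) 𝓘(ℝ, E) ∞ ψ.symm ψ.target ∧
    (∀ x ∈ ψ.source, π x = π p + Q (ψ x)) ∧
    ∀ q ∈ ψ.target, ∀ u : V, u ≠ 0 →
      0 < dd α (ψ.symm q) (mfderiv 𝓘(ℝ, V) 𝓘(ℝ, E) ψ.symm q u)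
        (mfderiv 𝓘(ℝ, V) 𝓘(ℝ, E) ψ.symm q (J u))

/-- The point `p` is a complex Morse point of the function `π`: in a chart with values in `ℂⁿ`
the function is `π p + ∑ zᵢ²`, and the two-form `dα` tames the complex structure. -/
def HasMorseChart (α : OneForm E X) (n : ℕ) (π : X → ℂ) (p : X) : Prop :=
  ∃ ψ : OpenPartialHomeomorph X (EuclideanSpace ℂ (Fin n)),
    IsMorseChart (fun u => Complex.I • u) (fun q => ∑ i, (q i) ^ 2) α π p ψ

/-- A Lefschetz fibration over `ℂ` on the Liouville manifold `X`, with fibre the Liouville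
manifold `W`. The Liouville structure `str` used by the fibration may differ from the given one
on a compact set. -/
structure LefschetzFibration (𝓧 : LiouvilleManifold E X) (n : ℕ)
    (G : Type*) [NormedAddCommGroup G] [NormedSpace ℝ G]
    (W : Type*) [TopologicalSpace W] [ChartedSpace G W] [IsManifold 𝓘(ℝ, G) ∞ W] where
  dim_total : Module.finrank ℝ E = 2 * n
  dim_fibre : Module.finrank ℝ G + 2 = Module.finrank ℝ E
  /-- the Liouville structure adapted to the fibration -/
  str : LiouvilleManifold E X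
  str_eq : ∃ K : Set X, IsCompact K ∧ ∀ x ∉ K, str.form x = 𝓧.form x
  /-- the projection -/
  proj : X → ℂ
  proj_smooth : ContMDiff 𝓘(ℝ, E) 𝓘(ℝ, ℂ) ∞ proj
  /-- there are finitely many critical points, all complex Morse -/
  crit_finite : {x : X | ¬ Function.Surjective (mfderiv 𝓘(ℝ, E) 𝓘(ℝ, ℂ) proj x)}.Finite
  crit_morse : ∀ x, ¬ Function.Surjective (mfderiv 𝓘(ℝ, E) 𝓘(ℝ, ℂ) proj x) →
    HasMorseChart str.form n proj x
  /-- away from the critical points the fibres are symplectic -/
  fibre_symplectic : ∀ x, Function.Surjective (mfderiv 𝓘(ℝ, E) 𝓘(ℝ, ℂ) proj x) →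
    ∀ u : TangentSpace 𝓘(ℝ, E) x, mfderiv 𝓘(ℝ, E) 𝓘(ℝ, ℂ) proj x u = 0 →
      (∀ v : TangentSpace 𝓘(ℝ, E) x, mfderiv 𝓘(ℝ, E) 𝓘(ℝ, ℂ) proj x v = 0 →
        dd str.form x u v = 0) → u = 0
  /-- the critical values lie in the disc of radius `R`, outside of which the Liouville field
  is radial -/
  R : ℝ
  R_pos : 0 < R
  crit_lt : ∀ x, ¬ Function.Surjective (mfderiv 𝓘(ℝ, E) 𝓘(ℝ, ℂ) proj x) → ‖proj x‖ < R
  radial : ∀ x, R ≤ ‖proj x‖ → ∃ c : ℝ, 0 < c ∧
    (show ℂ from mfderiv 𝓘(ℝ, E) 𝓘(ℝ, ℂ) proj x (str.field x)) = c • proj x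
  /-- the Liouville structure of the fibre over `z` -/
  fib : ℂ → LiouvilleManifold G W
  /-- the embedding of `W` as the fibre over `z` -/
  inc : ℂ → W → X
  inc_smooth : ∀ z, R ≤ ‖z‖ → ContMDiff 𝓘(ℝ, G) 𝓘(ℝ, E) ∞ (inc z)
  inc_embedding : ∀ z, R ≤ ‖z‖ → Topology.IsEmbedding (inc z)
  inc_immersion : ∀ z, R ≤ ‖z‖ → ∀ w : W,
    Function.Injective (mfderiv 𝓘(ℝ, G) 𝓘(ℝ, E) (inc z) w)
  inc_range : ∀ z, R ≤ ‖z‖ → range (inc z) = proj ⁻¹' {z}
  inc_form : ∀ z, R ≤ ‖z‖ → (fib z).form = pull (inc z) str.form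
  /-- near the horizontal boundary the fibration is a product: on `{0 < hor}` the map
  `(proj, ver)` is a diffeomorphism onto `ℂ × {0 < height}`, with inverse `tr`, and the Liouville
  form is the sum of a form on `ℂ` and a form on `W` -/
  height : W → ℝ
  height_smooth : ContMDiff 𝓘(ℝ, G) 𝓘(ℝ, ℝ) ∞ height
  height_proper : ∀ c, IsCompact {w | height w ≤ c}
  hor : X → ℝ
  hor_smooth : ContMDiff 𝓘(ℝ, E) 𝓘(ℝ, ℝ) ∞ hor
  hor_proper : ∀ (K : Set ℂ) (c : ℝ), IsCompact K → IsCompact {x | proj x ∈ K ∧ hor x ≤ c}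
  ver : X → W
  ver_smooth : ContMDiffOn 𝓘(ℝ, E) 𝓘(ℝ, G) ∞ ver {x | 0 < hor x}
  tr : ℂ × W → X
  tr_smooth : ContMDiffOn (𝓘(ℝ, ℂ).prod 𝓘(ℝ, G)) 𝓘(ℝ, E) ∞ tr {p | 0 < height p.2}
  tr_ver : ∀ x, 0 < hor x → tr (proj x, ver x) = x
  hor_eq : ∀ x, 0 < hor x → hor x = height (ver x)
  proj_tr : ∀ z w, 0 < height w → proj (tr (z, w)) = z
  ver_tr : ∀ z w, 0 < height w → ver (tr (z, w)) = w
  hor_tr : ∀ z w, 0 < height w → hor (tr (z, w)) = height w
  /-- the form on the base -/
  baseForm : OneForm ℂ ℂ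
  /-- the form on the end of the fibre -/
  endForm : OneForm G W
  form_split : ∀ z w, 0 < height w → ∀ (a : ℂ) (b : TangentSpace 𝓘(ℝ, G) w),
    str.form (tr (z, w)) (mfderiv (𝓘(ℝ, ℂ).prod 𝓘(ℝ, G)) 𝓘(ℝ, E) tr (z, w) (a, b)) =
      baseForm z a + endForm w b

/-- The Liouville hypersurface `F` is a Liouville subdomain of the fibre of the Lefschetz
fibration `L`. For some `z` of absolute value at least `R` there is a smooth embedding `g` of a
neighbourhood of the compact set `F.dom` into the fibre `W` over `z`, such that for every point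
`p` of `F.dom` the points `F.map p` and `L.inc z (g p)` define the same point of the ideal
boundary (their flow lines agree near infinity), and such that the Liouville field of the fibre
points outward along the boundary of `F.dom`. -/
def IsSubdomainOfFibre {𝓧 : LiouvilleManifold E X} {n : ℕ}
    {G : Type*} [NormedAddCommGroup G] [NormedSpace ℝ G]
    {W : Type*} [TopologicalSpace W] [ChartedSpace G W] [IsManifold 𝓘(ℝ, G) ∞ W]
    {G' : Type*} [NormedAddCommGroup G'] [NormedSpace ℝ G']
    {N : Type*} [TopologicalSpace N] [ChartedSpace G' N] [IsManifold 𝓘(ℝ, G') ∞ N]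
    (F : LiouvilleHypersurface 𝓧 G' N) (L : LefschetzFibration 𝓧 n G W) : Prop :=
  ∃ z : ℂ, L.R ≤ ‖z‖ ∧ ∃ (U : Set N) (g : N → W), IsOpen U ∧ F.dom ⊆ U ∧
    ContMDiffOn 𝓘(ℝ, G') 𝓘(ℝ, G) ∞ g U ∧ InjOn g U ∧
    (∀ p ∈ U, Function.Injective (mfderiv 𝓘(ℝ, G') 𝓘(ℝ, G) g p)) ∧
    (∀ p ∈ F.dom, ∃ a b : ℝ, ∀ s ≥ 0,
      𝓧.flow (a + s) (F.map p) = L.str.flow (b + s) (L.inc z (g p))) ∧
    ∀ p ∈ frontier F.dom, ∃ v : TangentSpace 𝓘(ℝ, G') p,
      mfderiv 𝓘(ℝ, G') 𝓘(ℝ, G) g p v = (L.fib z).field (g p) ∧ OutwardAt F.dom p v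

end Defs

end Pool.Agent.W630
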