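import Mathlib
import Pool.Agent.W630.Defs

/-!
# Quotients of a vector space by a free, properly discontinuous, smooth action
-/

open scoped Topology ContDiff Manifold
open Set Pool.Agent.Helper186

noncomputable section

namespace Pool.Agent.W630

/-- Smooth actions of discrete groups on a normed space. -/
class SmoothAct (G : Type*) (V : Type*) [NormedAddCommGroup V] [NormedSpace ℝ V] [Group G]
    [MulAction G V] : Prop where
  smooth : ∀ g : G, ContDiff ℝ ∞ (fun v : V => g • v)

/-- The quotient. -/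
abbrev Qt (G : Type*) (V : Type*) [Group G] [MulAction G V] : Type _ :=
  MulAction.orbitRel.Quotient G V

/-- The projection. -/
def qm (G : Type*) {V : Type*} [Group G] [MulAction G V] (v : V) : Qt G V :=
  Quotient.mk (MulAction.orbitRel G V) v

section Basic

variable {G : Type*} {V : Type*} [Group G] [MulAction G V]

lemma qm_eq_iff {v w : V} : qm G v = qm G w ↔ ∃ g : G, v = g • w := by
  unfold qm
  rw [Quotient.eq]
  constructor
  · rintro ⟨g, hg⟩; exact ⟨g, hg.symm⟩
  · rintro ⟨g, hg⟩; exact ⟨g, hg.symm⟩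

@[simp] lemma qm_smul (g : G) (v : V) : qm G (g • v) = qm G v := qm_eq_iff.2 ⟨g, rfl⟩

lemma qm_surj (x : Qt G V) : ∃ v, qm G v = x := Quotient.exists_rep x

lemma qm_out (x : Qt G V) : qm G x.out = x := Quotient.out_eq x

end Basic

variable {G : Type*} {V : Type*} [NormedAddCommGroup V] [NormedSpace ℝ V] [FiniteDimensional ℝ V]
  [Group G] [MulAction G V] [ProperlyDiscontinuousSMul G V] [ContinuousConstSMul G V]
  [IsCancelSMul G V]

set_option linter.unusedSectionVars false

variable (G V) in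
lemma isLocalHomeomorph_qm : IsLocalHomeomorph (qm G : V → Qt G V) :=
  (isQuotientCoveringMap_quotientMk_of_properlyDiscontinuousSMul (G := G)
    (E := V)).isCoveringMap.isLocalHomeomorph


variable (G V) in
/-- The local section of the projection at `v`. -/
def sec (v : V) : OpenPartialHomeomorph (Qt G V) V := (isLocalHomeomorph_qm G V).localInverseAt v

lemma mem_sec_source (v : V) : qm G v ∈ (sec G V v).source :=
  (isLocalHomeomorph_qm G V).apply_self_mem_localInverseAt_source

lemma sec_self (v : V) : sec G V v (qm G v) = v :=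
  (isLocalHomeomorph_qm G V).localInverseAt_apply_self

lemma sec_symm (v : V) : ((sec G V v).symm : V → Qt G V) = qm G :=
  (isLocalHomeomorph_qm G V).localInverseAt_symm v

lemma mem_sec_target (v : V) : v ∈ (sec G V v).target :=
  (isLocalHomeomorph_qm G V).self_mem_localInverseAt_target

lemma qm_sec {v : V} {x : Qt G V} (hx : x ∈ (sec G V v).source) : qm G (sec G V v x) = x :=
  (isLocalHomeomorph_qm G V).apply_localInverseAt_of_mem hx

lemma sec_qm {v w : V} (hw : w ∈ (sec G V v).target) : sec G V v (qm G w) = w := by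
  have := (sec G V v).right_inv hw
  rwa [sec_symm] at this

lemma continuous_qm : Continuous (qm G : V → Qt G V) := continuous_quotient_mk'

lemma isOpenMap_qm : IsOpenMap (qm G : V → Qt G V) := (isLocalHomeomorph_qm G V).isOpenMap

/-- Two continuous lifts of the same map differ locally by a group element. -/
lemma exists_smul_eventually {Y : Type*} [TopologicalSpace Y] {h h' : Y → V} {y₀ : Y}
    (hc : ContinuousAt h y₀) (hc' : ContinuousAt h' y₀)
    (heq : ∀ᶠ y in 𝓝 y₀, qm G (h y) = qm G (h' y)) :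
    ∃ g : G, ∀ᶠ y in 𝓝 y₀, h y = g • h' y := by
  obtain ⟨g, hg⟩ := qm_eq_iff.1 heq.self_of_nhds
  refine ⟨g, ?_⟩
  have h1 : (sec G V (h y₀)).target ∈ 𝓝 (h y₀) :=
    (sec G V (h y₀)).open_target.mem_nhds (mem_sec_target _)
  have h2 : ContinuousAt (fun y => g • h' y) y₀ := hc'.const_smul g
  have h3 : (sec G V (h y₀)).target ∈ 𝓝 (g • h' y₀) := by rw [← hg]; exact h1
  filter_upwards [heq, hc.preimage_mem_nhds h1, h2.preimage_mem_nhds h3] with y a1 a2 a3
  have b1 := sec_qm (G := G) a2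
  have b2 := sec_qm (G := G) a3
  rw [qm_smul, ← a1, b1] at b2
  exact b2

variable [SmoothAct G V]

lemma sec_transition_contDiffAt (v' w : V) (hw' : qm G w ∈ (sec G V v').source) :
    ContDiffAt ℝ ∞ (fun y => sec G V v' (qm G y)) w := by
  have h1 : ContinuousAt (fun y => sec G V v' (qm G y)) w :=
    ((sec G V v').continuousAt hw').comp continuous_qm.continuousAt
  have h2 : ∀ᶠ y in 𝓝 w, qm G (sec G V v' (qm G y)) = qm G y := by
    have : (qm G : V → Qt G V) ⁻¹' (sec G V v').source ∈ 𝓝 w :=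
      continuous_qm.continuousAt.preimage_mem_nhds ((sec G V v').open_source.mem_nhds hw')
    filter_upwards [this] with y hy
    exact qm_sec hy
  obtain ⟨g, hg⟩ := exists_smul_eventually (h' := fun y : V => y) h1 continuousAt_id h2
  exact ((SmoothAct.smooth g).contDiffAt (x := w)).congr_of_eventuallyEq hg


lemma chartAt_eq (x : Qt G V) : ∃ v : V, qm G v = x ∧ chartAt V x = sec G V v := by
  refine ⟨(Quotient.mk_surjective (s := MulAction.orbitRel G V)).hasRightInverse.choose x,
    (Quotient.mk_surjective (s := MulAction.orbitRel G V)).hasRightInverse.choose_spec x, ?_⟩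
  show ((isLocalHomeomorph_qm G V).localInverseAt _).trans (chartAt V _) = _
  rw [chartAt_self_eq, OpenPartialHomeomorph.trans_refl]
  rfl

lemma atlas_eq {e : OpenPartialHomeomorph (Qt G V) V} (he : e ∈ atlas V (Qt G V)) :
    ∃ v : V, e = sec G V v := by
  obtain ⟨x, rfl⟩ := he
  refine ⟨(Quotient.mk_surjective (s := MulAction.orbitRel G V)).hasRightInverse.choose x, ?_⟩
  rw [chartAt_self_eq, OpenPartialHomeomorph.trans_refl]
  rfl

/-- The quotient is a smooth manifold. -/
instance isManifold_Qt : IsManifold 𝓘(ℝ, V) ∞ (Qt G V) := by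
  refine isManifold_of_contDiffOn _ _ _ ?_
  intro e e' he he'
  obtain ⟨v, rfl⟩ := atlas_eq he
  obtain ⟨v', rfl⟩ := atlas_eq he'
  intro w hw
  simp only [modelWithCornersSelf_coe, modelWithCornersSelf_coe_symm, Function.id_comp,
    Function.comp_id, range_id, inter_univ, preimage_id] at hw ⊢
  rw [OpenPartialHomeomorph.trans_source, OpenPartialHomeomorph.symm_source] at hw
  have h2 := hw.2
  rw [mem_preimage, sec_symm] at h2
  have := sec_transition_contDiffAt v' w h2
  refine (this.congr_of_eventuallyEq ?_).contDiffWithinAt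
  refine Filter.Eventually.of_forall fun y => ?_
  simp only [Function.comp_apply, OpenPartialHomeomorph.coe_trans, sec_symm]


lemma contMDiff_qm : ContMDiff 𝓘(ℝ, V) 𝓘(ℝ, V) ∞ (qm G : V → Qt G V) := by
  intro v
  rw [contMDiffAt_iff]
  refine ⟨continuous_qm.continuousAt, ?_⟩
  obtain ⟨v', h1, h2⟩ := chartAt_eq (G := G) (qm G v)
  have h3 : qm G v ∈ (sec G V v').source := by
    rw [← h2]; exact mem_chart_source V _
  have h4 := sec_transition_contDiffAt v' v h3
  simp only [extChartAt, h2, mfld_simps]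
  exact h4.contDiffWithinAt

lemma contMDiffAt_sec {v : V} {x : Qt G V} (hx : x ∈ (sec G V v).source) :
    ContMDiffAt 𝓘(ℝ, V) 𝓘(ℝ, V) ∞ (sec G V v) x := by
  rw [contMDiffAt_iff]
  refine ⟨(sec G V v).continuousAt hx, ?_⟩
  obtain ⟨v', h1, h2⟩ := chartAt_eq (G := G) x
  have h3 : x ∈ (sec G V v').source := by
    rw [← h2]; exact mem_chart_source V _
  have h4 : qm G (sec G V v' x) ∈ (sec G V v).source := by rw [qm_sec h3]; exact hx
  have h5 := sec_transition_contDiffAt v (sec G V v' x) h4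
  simp only [extChartAt, h2, mfld_simps]
  refine (h5.congr_of_eventuallyEq ?_).contDiffWithinAt
  refine Filter.Eventually.of_forall fun y => ?_
  simp only [Function.comp_apply, sec_symm, chartAt_self_eq, OpenPartialHomeomorph.refl_apply,
    id_eq]

/-- A map on the quotient is smooth at `qm v` if its lift is smooth at `v`. -/
lemma contMDiffAt_of_comp_qm {E' : Type*} [NormedAddCommGroup E'] [NormedSpace ℝ E']
    {H' : Type*} [TopologicalSpace H'] {J : ModelWithCorners ℝ E' H'}
    {Y : Type*} [TopologicalSpace Y] [ChartedSpace H' Y] {f : Qt G V → Y} {v : V} {n : ℕ∞ω}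
    (hn : n ≤ ∞) (hf : ContMDiffAt 𝓘(ℝ, V) J n (fun w => f (qm G w)) v) :
    ContMDiffAt 𝓘(ℝ, V) J n f (qm G v) := by
  have h1 : ContMDiffAt 𝓘(ℝ, V) 𝓘(ℝ, V) n (sec G V v) (qm G v) :=
    (contMDiffAt_sec (mem_sec_source v)).of_le hn
  have h2 : ContMDiffAt 𝓘(ℝ, V) J n (fun w => f (qm G w)) (sec G V v (qm G v)) := by
    rw [sec_self]; exact hf
  have h3 := h2.comp (qm G v) h1
  refine h3.congr_of_eventuallyEq ?_
  filter_upwards [(sec G V v).open_source.mem_nhds (mem_sec_source v)] with x hx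
  simp only [Function.comp_apply, qm_sec hx]

lemma contMDiff_of_comp_qm {E' : Type*} [NormedAddCommGroup E'] [NormedSpace ℝ E']
    {H' : Type*} [TopologicalSpace H'] {J : ModelWithCorners ℝ E' H'}
    {Y : Type*} [TopologicalSpace Y] [ChartedSpace H' Y] {f : Qt G V → Y}
    (hf : ContMDiff 𝓘(ℝ, V) J ∞ (fun w => f (qm G w))) :
    ContMDiff 𝓘(ℝ, V) J ∞ f := by
  intro x
  obtain ⟨v, rfl⟩ := qm_surj x
  exact contMDiffAt_of_comp_qm le_rfl (hf v)

/-- The differential of the projection, with all tangent spaces identified with `V`. -/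
def dq (G : Type*) {V : Type*} [NormedAddCommGroup V] [NormedSpace ℝ V] [FiniteDimensional ℝ V]
    [Group G] [MulAction G V] [ProperlyDiscontinuousSMul G V] [ContinuousConstSMul G V]
    [IsCancelSMul G V] (v : V) : V →L[ℝ] V :=
  mfderiv 𝓘(ℝ, V) 𝓘(ℝ, V) (qm G) v

/-- The differential of the local section. -/
def ds (G : Type*) {V : Type*} [NormedAddCommGroup V] [NormedSpace ℝ V] [FiniteDimensional ℝ V]
    [Group G] [MulAction G V] [ProperlyDiscontinuousSMul G V] [ContinuousConstSMul G V]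
    [IsCancelSMul G V] (v : V) : V →L[ℝ] V :=
  mfderiv 𝓘(ℝ, V) 𝓘(ℝ, V) (sec G V v) (qm G v)

lemma mdiff_qm (v : V) : MDifferentiableAt 𝓘(ℝ, V) 𝓘(ℝ, V) (qm G) v :=
  (contMDiff_qm v).mdifferentiableAt (by simp)

lemma mdiff_sec {v : V} {x : Qt G V} (hx : x ∈ (sec G V v).source) :
    MDifferentiableAt 𝓘(ℝ, V) 𝓘(ℝ, V) (sec G V v) x :=
  (contMDiffAt_sec hx).mdifferentiableAt (by simp)

/-- The derivative of the section `sec v` at `qm w`. -/
def dsec (G : Type*) {V : Type*} [NormedAddCommGroup V] [NormedSpace ℝ V] [FiniteDimensional ℝ V]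
    [Group G] [MulAction G V] [ProperlyDiscontinuousSMul G V] [ContinuousConstSMul G V]
    [IsCancelSMul G V] (v w : V) : V →L[ℝ] V :=
  mfderiv 𝓘(ℝ, V) 𝓘(ℝ, V) (sec G V v) (qm G w)

lemma mfderiv_sec {v w : V} (hw : w ∈ (sec G V v).target) :
    (dsec G v w).comp (dq G w) = ContinuousLinearMap.id ℝ V := by
  have hs : qm G w ∈ (sec G V v).source := by
    have := (sec G V v).map_target hw
    rwa [sec_symm] at this
  have h1 := (mdiff_sec hs).hasMFDerivAt.comp w (mdiff_qm w).hasMFDerivAt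
  have h2 : (sec G V v ∘ qm G) =ᶠ[𝓝 w] id := by
    filter_upwards [(sec G V v).open_target.mem_nhds hw] with w hw
    exact sec_qm hw
  have h3 := h1.mfderiv
  rw [h2.mfderiv_eq, mfderiv_id] at h3
  exact h3.symm

lemma ds_comp_dq (v : V) : (ds G v).comp (dq G v) = ContinuousLinearMap.id ℝ V :=
  mfderiv_sec (mem_sec_target v)

lemma ds_dq (v u : V) : ds G v (dq G v u) = u :=
  congrArg (fun L : V →L[ℝ] V => L u) (ds_comp_dq (G := G) v)

lemma dq_ds (v u : V) : dq G v (ds G v u) = u := by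
  have h1 : (ds G v).toLinearMap * (dq G v).toLinearMap = 1 := by
    ext u; exact ds_dq (G := G) v u
  have h2 : (dq G v).toLinearMap * (ds G v).toLinearMap = 1 := mul_eq_one_comm.1 h1
  exact congrArg (fun L : V →ₗ[ℝ] V => L u) h2

/-- The differential of the projection as an equivalence. -/
def dqe (G : Type*) {V : Type*} [NormedAddCommGroup V] [NormedSpace ℝ V] [FiniteDimensional ℝ V]
    [Group G] [MulAction G V] [ProperlyDiscontinuousSMul G V] [ContinuousConstSMul G V]
    [IsCancelSMul G V] [SmoothAct G V] (v : V) : V ≃L[ℝ] V :=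
  ContinuousLinearEquiv.equivOfInverse (dq G v) (ds G v) (ds_dq v) (dq_ds v)

@[simp] lemma dqe_apply (v u : V) : dqe G v u = dq G v u := rfl

lemma dq_injective (v : V) : Function.Injective (dq G v) := (dqe G v).injective

lemma dq_surjective (v : V) : Function.Surjective (dq G v) := (dqe G v).surjective

/-- the derivative of the action -/
def dact (g : G) (v : V) : V →L[ℝ] V := fderiv ℝ (fun w : V => g • w) v

lemma dq_comp_dact (g : G) (v : V) : (dq G (g • v)).comp (dact g v) = dq G v := by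
  have h0 : DifferentiableAt ℝ (fun w : V => g • w) v :=
    ((SmoothAct.smooth g).differentiable (by simp)) v
  have h1 := (mdiff_qm (G := G) (g • v)).hasMFDerivAt.comp v h0.hasFDerivAt.hasMFDerivAt
  have h2 : (qm G ∘ fun w : V => g • w) = qm G := by
    funext w; exact qm_smul g w
  have h3 := h1.mfderiv
  rw [h2] at h3
  exact h3.symm

lemma dq_smul (g : G) (v u : V) : dq G (g • v) (dact g v u) = dq G v u :=
  congrArg (fun L : V →L[ℝ] V => L u) (dq_comp_dact g v)

lemma ds_smul (g : G) (v : V) (u : V) : ds G (g • v) u = dact g v (ds G v u) := by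
  apply dq_injective (G := G) (g • v)
  rw [dq_ds, dq_smul, dq_ds]

/-! ### Vector fields and forms -/

/-- The vector field on the quotient induced by an equivariant one. -/
def descV (G : Type*) {V : Type*} [NormedAddCommGroup V] [NormedSpace ℝ V] [FiniteDimensional ℝ V]
    [Group G] [MulAction G V] [ProperlyDiscontinuousSMul G V] [ContinuousConstSMul G V]
    [IsCancelSMul G V] (Z : V → V) (x : Qt G V) : TangentSpace 𝓘(ℝ, V) x :=
  dq G x.out (Z x.out)

lemma descV_qm {Z : V → V} (hZ : ∀ (g : G) v, Z (g • v) = dact g v (Z v)) (v : V) :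
    descV G Z (qm G v) = dq G v (Z v) := by
  have key : ∀ w : V, qm G w = qm G v → dq G w (Z w) = dq G v (Z v) := by
    intro w hw
    obtain ⟨g, rfl⟩ := qm_eq_iff.1 hw
    rw [hZ, dq_smul]
  exact key _ (qm_out _)

/-- The one-form on the quotient induced by an invariant one. -/
def descF (G : Type*) {V : Type*} [NormedAddCommGroup V] [NormedSpace ℝ V] [FiniteDimensional ℝ V]
    [Group G] [MulAction G V] [ProperlyDiscontinuousSMul G V] [ContinuousConstSMul G V]
    [IsCancelSMul G V] (α : V → V →L[ℝ] ℝ) (x : Qt G V) : TangentSpace 𝓘(ℝ, V) x →L[ℝ] ℝ :=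
  show V →L[ℝ] ℝ from (α x.out).comp (ds G x.out)

lemma descF_qm {α : V → V →L[ℝ] ℝ} (hα : ∀ (g : G) v u, α (g • v) (dact g v u) = α v u) (v u : V) :
    descF G α (qm G v) u = α v (ds G v u) := by
  have key : ∀ w : V, qm G w = qm G v → α w (ds G w u) = α v (ds G v u) := by
    intro w hw
    obtain ⟨g, rfl⟩ := qm_eq_iff.1 hw
    rw [ds_smul, hα]
  exact key _ (qm_out _)

lemma descF_dq {α : V → V →L[ℝ] ℝ} (hα : ∀ (g : G) v u, α (g • v) (dact g v u) = α v u) (v : V)
    (u : V) : descF G α (qm G v) (dq G v u) = α v u := by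
  rw [descF_qm hα, ds_dq]

omit [FiniteDimensional ℝ V] in
lemma smoothForm_of_contDiff {α : V → V →L[ℝ] ℝ} (hα : ContDiff ℝ ∞ α) :
    SmoothForm (I := 𝓘(ℝ, V)) (fun w => (α w : TangentSpace 𝓘(ℝ, V) w →L[ℝ] ℝ)) := by
  intro p
  have h1 : ContMDiffAt 𝓘(ℝ, V).tangent 𝓘(ℝ, V) ∞ (fun v : TangentBundle 𝓘(ℝ, V) V => v.1) p :=
    Bundle.contMDiffAt_proj _
  have h2 : ContMDiffAt 𝓘(ℝ, V).tangent 𝓘(ℝ, V) ∞
      (fun v : TangentBundle 𝓘(ℝ, V) V => (show V from v.2)) p := by
    have h3 : ContMDiffAt 𝓘(ℝ, V).tangent 𝓘(ℝ, V).tangent ∞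
      (fun v : TangentBundle 𝓘(ℝ, V) V => v) p := contMDiffAt_id
    have h4 := (Bundle.contMDiffAt_totalSpace.1 h3).2
    refine h4.congr_of_eventuallyEq (Filter.Eventually.of_forall fun v => ?_)
    exact (congrArg Prod.snd
      (trivializationAt_model_space_apply (I := 𝓘(ℝ, V)) v p.1)).symm
  have h5 : ContMDiffAt 𝓘(ℝ, V).tangent 𝓘(ℝ, V →L[ℝ] ℝ) ∞
      (fun v : TangentBundle 𝓘(ℝ, V) V => α v.1) p :=
    (hα.contMDiff.contMDiffAt (x := p.1)).comp p h1
  exact h5.clm_apply h2

lemma smoothForm_descF {α : V → V →L[ℝ] ℝ} (hα : ∀ (g : G) v u, α (g • v) (dact g v u) = α v u)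
    (hs : ContDiff ℝ ∞ α) : SmoothForm (I := 𝓘(ℝ, V)) (descF G α) := by
  intro p
  obtain ⟨v, hv⟩ := qm_surj p.1
  have hp : p.1 ∈ (sec G V v).source := by rw [← hv]; exact mem_sec_source v
  have h1 : ContMDiffAt 𝓘(ℝ, V).tangent 𝓘(ℝ, V).tangent ∞
      (tangentMap 𝓘(ℝ, V) 𝓘(ℝ, V) (sec G V v)) p :=
    contMDiffAt_tangentMap (sec G V v).open_source
      (fun x hx => (contMDiffAt_sec hx).contMDiffWithinAt) hp
  have h2 := (smoothForm_of_contDiff hs _).comp p h1
  refine h2.congr_of_eventuallyEq ?_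
  have h3 : (Bundle.TotalSpace.proj ⁻¹' (sec G V v).source :
      Set (TangentBundle 𝓘(ℝ, V) (Qt G V))) ∈ 𝓝 p :=
    ((sec G V v).open_source.preimage (FiberBundle.continuous_proj _ _)).mem_nhds hp
  filter_upwards [h3] with y hy
  obtain ⟨x, u⟩ := y
  simp only [mem_preimage] at hy
  obtain ⟨w, hw, rfl⟩ : ∃ w ∈ (sec G V v).target, qm G w = x :=
    ⟨sec G V v x, (sec G V v).map_source hy, qm_sec hy⟩
  obtain ⟨u', rfl⟩ := dq_surjective (G := G) w u
  show descF G α (qm G w) (dq G w u') = α (sec G V v (qm G w)) (dsec G v w (dq G w u'))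
  rw [descF_dq hα, sec_qm hw]
  have h4 := congrArg (fun L : V →L[ℝ] V => L u') (mfderiv_sec (G := G) hw)
  exact congrArg (α w) h4.symm


example : T2Space (Qt G V) := inferInstance

instance : SecondCountableTopology (Qt G V) :=
  (isQuotientMap_quotient_mk' (s := MulAction.orbitRel G V)).secondCountableTopology isOpenMap_qm

/-- The exterior derivative of an induced form. -/
lemma extDer_descF {α : V → V →L[ℝ] ℝ} (hα : ∀ (g : G) v u, α (g • v) (dact g v u) = α v u)
    (hs : ContDiff ℝ ∞ α) (v u w : V) :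
    dd (E := V) (descF G α) (qm G v) (dq G v u) (dq G v w) =
      fderiv ℝ α v u w - fderiv ℝ α v w u := by
  have h1 := extDer_pullback (I := 𝓘(ℝ, V)) (smoothForm_descF hα hs) (S := (qm G : V → Qt G V))
    isOpen_univ contMDiff_qm.contMDiffOn (mem_univ v) u w
  have hd : DifferentiableAt ℝ α v := (hs.differentiable (by simp)) v
  have h2 : ∀ w : V, fderiv ℝ (fun y => descF G α (qm G y) (mfderiv 𝓘(ℝ, V) 𝓘(ℝ, V) (qm G) y w)) v =
      (fderiv ℝ α v).flip w := by
    intro w
    have e : (fun y => descF G α (qm G y) (mfderiv 𝓘(ℝ, V) 𝓘(ℝ, V) (qm G) y w)) =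
        fun y => α y w := by
      funext y; exact descF_dq hα y w
    rw [e]
    exact (hd.hasFDerivAt.clm_apply (hasFDerivAt_const w v)).fderiv.trans (by ext; simp)
  rw [h2, h2] at h1
  exact h1

/-- The flow on the quotient induced by an equivariant one. -/
def descFl (G : Type*) {V : Type*} [Group G] [MulAction G V] (φ : ℝ → V → V) (t : ℝ)
    (x : Qt G V) : Qt G V := qm G (φ t x.out)

omit [NormedAddCommGroup V] [NormedSpace ℝ V] [FiniteDimensional ℝ V] in
lemma descFl_qm' {G V : Type*} [Group G] [MulAction G V] {φ : ℝ → V → V}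
    (hφ : ∀ t (g : G) v, φ t (g • v) = g • φ t v) (t : ℝ) (v : V) :
    descFl G φ t (qm G v) = qm G (φ t v) := by
  unfold descFl
  obtain ⟨g, hg⟩ := qm_eq_iff.1 (qm_out (qm G v))
  rw [hg, hφ, qm_smul]

lemma isMIntegralCurve_desc {φ : ℝ → V → V} (hφ : ∀ t (g : G) v, φ t (g • v) = g • φ t v)
    {Z : V → V} (hZ : ∀ (g : G) v, Z (g • v) = dact g v (Z v))
    (hd : ∀ v t, HasDerivAt (fun t => φ t v) (Z (φ t v)) t) (x : Qt G V) :
    IsMIntegralCurve (I := 𝓘(ℝ, V)) (fun t => descFl G φ t x) (descV G Z) := by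
  obtain ⟨v, rfl⟩ := qm_surj x
  intro t
  have h1 : (fun t => descFl G φ t (qm G v)) = fun t => qm G (φ t v) := by
    funext t; exact descFl_qm' hφ t v
  have h2 := (mdiff_qm (G := G) (φ t v)).hasMFDerivAt.comp t (hd v t).hasFDerivAt.hasMFDerivAt
  have h3 : ∀ y : Qt G V, y = qm G (φ t v) →
      (descV G Z y : V) = (dq G (φ t v) (Z (φ t v)) : V) := by
    rintro y rfl; exact descV_qm hZ _
  have h5 : ((dq G (φ t v)).comp (ContinuousLinearMap.toSpanSingleton ℝ (Z (φ t v))) :
      ℝ →L[ℝ] V) = (1 : ℝ →L[ℝ] ℝ).smulRight (descV G Z (descFl G φ t (qm G v)) : V) := by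
    ext
    rw [h3 _ (descFl_qm' hφ t v)]
    simp only [ContinuousLinearMap.comp_apply, ContinuousLinearMap.toSpanSingleton_apply, one_smul]
    exact (one_smul ℝ (dq G (φ t v) (Z (φ t v)))).symm
  have h4 : HasMFDerivAt 𝓘(ℝ, ℝ) 𝓘(ℝ, V) (fun t => qm G (φ t v)) t
    ((dq G (φ t v)).comp (ContinuousLinearMap.toSpanSingleton ℝ (Z (φ t v))) : ℝ →L[ℝ] V) := h2
  rw [h5, ← h1] at h4
  exact h4

end Pool.Agent.W630
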