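import Mathlib
import Pool.Agent.W630.Quot
import Pool.Agent.W630.Stubs

/-!
# The solvable lattices acting on `F × ℝ³`
-/

open scoped Topology ContDiff Manifold Matrix
open Set

noncomputable section

namespace Pool.Agent.W630

/-- The hyperbolic matrix. -/
def Amat : Matrix.SpecialLinearGroup (Fin 2) ℤ := ⟨!![2, 1; 1, 1], by simp [Matrix.det_fin_two]⟩

/-- The semidirect product of `ℤ²` and `ℤ`, where `ℤ` acts through the powers of `A ^ k`. -/
@[ext] structure Gam (k : ℤ) where
  n : Fin 2 → ℤ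
  m : ℤ

namespace Gam

variable {k : ℤ}

/-- the power of the matrix given by an element -/
def pw (k m : ℤ) : Matrix.SpecialLinearGroup (Fin 2) ℤ := Amat ^ (k * m)

lemma pw_add (k m m' : ℤ) : pw k (m + m') = pw k m * pw k m' := by
  unfold pw; rw [mul_add, zpow_add]

lemma pw_zero (k : ℤ) : pw k 0 = 1 := by unfold pw; simp

instance : Mul (Gam k) := ⟨fun g h => ⟨g.n + (pw k g.m).1 *ᵥ h.n, g.m + h.m⟩⟩
instance : One (Gam k) := ⟨⟨0, 0⟩⟩
instance : Inv (Gam k) := ⟨fun g => ⟨-((pw k (-g.m)).1 *ᵥ g.n), -g.m⟩⟩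

lemma mul_n (g h : Gam k) : (g * h).n = g.n + (pw k g.m).1 *ᵥ h.n := rfl
lemma mul_m (g h : Gam k) : (g * h).m = g.m + h.m := rfl
lemma one_n : (1 : Gam k).n = 0 := rfl
lemma one_m : (1 : Gam k).m = 0 := rfl
lemma inv_n (g : Gam k) : (g⁻¹).n = -((pw k (-g.m)).1 *ᵥ g.n) := rfl
lemma inv_m (g : Gam k) : (g⁻¹).m = -g.m := rfl

instance : Group (Gam k) := Group.ofLeftAxioms
  (by
    intro a b c
    ext1
    · simp only [mul_n, mul_m, pw_add, Matrix.SpecialLinearGroup.coe_mul, Matrix.mulVec_add,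
        Matrix.mulVec_mulVec, add_assoc]
    · simp only [mul_m, add_assoc])
  (by
    intro a
    ext1
    · simp [mul_n, one_n, one_m, pw_zero]
    · simp [mul_m, one_m])
  (by
    intro a
    ext1
    · simp [mul_n, inv_n, inv_m, one_n]
    · simp [mul_m, inv_m, one_m])

end Gam

/-- The linear map of `ℝ³` given by a matrix on the first two coordinates. -/
def lin (M : Matrix.SpecialLinearGroup (Fin 2) ℤ) (x : P) : P :=
  ![(M.1 0 0 : ℝ) * x 0 + (M.1 0 1 : ℝ) * x 1, (M.1 1 0 : ℝ) * x 0 + (M.1 1 1 : ℝ) * x 1, x 2]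

/-- The translation vectors. -/
def trv (n : Fin 2 → ℤ) (c : ℤ) : P := ![(n 0 : ℝ), (n 1 : ℝ), (c : ℝ)]

lemma lin_one (x : P) : lin 1 x = x := by
  unfold lin
  ext i; fin_cases i <;> simp

lemma lin_mul (M N : Matrix.SpecialLinearGroup (Fin 2) ℤ) (x : P) :
    lin (M * N) x = lin M (lin N x) := by
  unfold lin
  ext i; fin_cases i <;>
    simp [Matrix.mul_apply, Fin.sum_univ_two] <;> ring

lemma lin_add (M : Matrix.SpecialLinearGroup (Fin 2) ℤ) (x y : P) :
    lin M (x + y) = lin M x + lin M y := by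
  unfold lin
  ext i; fin_cases i <;> simp <;> ring

lemma lin_trv (M : Matrix.SpecialLinearGroup (Fin 2) ℤ) (n : Fin 2 → ℤ) (c : ℤ) :
    lin M (trv n c) = trv (M.1 *ᵥ n) c := by
  unfold lin trv
  ext i; fin_cases i <;> simp [Matrix.mulVec, dotProduct, Fin.sum_univ_two]

lemma trv_add (n n' : Fin 2 → ℤ) (c c' : ℤ) : trv n c + trv n' c' = trv (n + n') (c + c') := by
  unfold trv
  ext i; fin_cases i <;> simp

/-- The action on `ℝ³`. -/
def actP {k : ℤ} (g : Gam k) (x : P) : P := lin (Gam.pw k g.m) x + trv g.n (k * g.m)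

lemma actP_one {k : ℤ} (x : P) : actP (1 : Gam k) x = x := by
  unfold actP
  rw [Gam.one_m, Gam.pw_zero, lin_one, Gam.one_n]
  ext i; fin_cases i <;> simp [trv]

lemma actP_mul {k : ℤ} (g h : Gam k) (x : P) : actP (g * h) x = actP g (actP h x) := by
  unfold actP
  rw [Gam.mul_m, Gam.mul_n, Gam.pw_add, lin_mul, lin_add, lin_trv, add_assoc, trv_add, mul_add,
    add_comm (k * g.m), add_comm g.n]

instance actF {k : ℤ} {F : Type*} : MulAction (Gam k) (F × P) where
  smul g v := (v.1, actP g v.2)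
  one_smul v := Prod.ext rfl (actP_one v.2)
  mul_smul g h v := Prod.ext rfl (actP_mul g h v.2)

lemma smul_def {k : ℤ} {F : Type*} (g : Gam k) (v : F × P) : g • v = (v.1, actP g v.2) := rfl

/-- `lin M` as a continuous linear map -/
def linL (M : Matrix.SpecialLinearGroup (Fin 2) ℤ) : P →L[ℝ] P :=
  LinearMap.toContinuousLinearMap
    { toFun := lin M
      map_add' := lin_add M
      map_smul' := by
        intro c x
        unfold lin
        ext i; fin_cases i <;> simp <;> ring }

@[simp] lemma linL_apply (M : Matrix.SpecialLinearGroup (Fin 2) ℤ) (x : P) :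
    linL M x = lin M x := rfl

lemma continuous_actP {k : ℤ} (g : Gam k) : Continuous (actP g) := by
  have : actP g = fun x => linL (Gam.pw k g.m) x + trv g.n (k * g.m) := rfl
  rw [this]
  fun_prop

lemma contDiff_actP {k : ℤ} (g : Gam k) : ContDiff ℝ ∞ (actP g) := by
  have : actP g = fun x => linL (Gam.pw k g.m) x + trv g.n (k * g.m) := rfl
  rw [this]
  fun_prop

instance {k : ℤ} {F : Type*} [TopologicalSpace F] : ContinuousConstSMul (Gam k) (F × P) :=
  ⟨fun g => continuous_fst.prodMk ((continuous_actP g).comp continuous_snd)⟩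

instance {k : ℤ} {F : Type*} [NormedAddCommGroup F] [NormedSpace ℝ F] :
    SmoothAct (Gam k) (F × P) :=
  ⟨fun g => contDiff_fst.prodMk ((contDiff_actP g).comp contDiff_snd)⟩

lemma actP_cancel {k : ℤ} [NeZero k] {g h : Gam k} {x : P} (e : actP g x = actP h x) : g = h := by
  have h2 := congrFun e 2
  simp only [actP, lin, trv, Pi.add_apply, Matrix.cons_val] at h2
  have hk : (k : ℝ) ≠ 0 := by exact_mod_cast NeZero.ne k
  have hm : g.m = h.m := by
    push_cast at h2
    have : (k : ℝ) * g.m = k * h.m := by linarith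
    exact_mod_cast mul_left_cancel₀ hk this
  have h0 := congrFun e 0
  have h1 := congrFun e 1
  simp only [actP, lin, trv, Pi.add_apply, Matrix.cons_val, hm] at h0 h1
  ext i
  · fin_cases i
    · have : (g.n 0 : ℝ) = h.n 0 := by linarith
      exact_mod_cast this
    · have : (g.n 1 : ℝ) = h.n 1 := by linarith
      exact_mod_cast this
  · exact hm

instance {k : ℤ} [NeZero k] {F : Type*} : IsCancelSMul (Gam k) (F × P) where
  left_cancel' g v w h := by
    have := congrArg (fun x => g⁻¹ • x) h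
    simpa using this
  right_cancel' g h v e := actP_cancel (congrArg Prod.snd e)


lemma actP_finite {k : ℤ} [NeZero k] {K L : Set P} (hK : IsCompact K) (hL : IsCompact L) :
    {g : Gam k | (actP g '' K ∩ L).Nonempty}.Finite := by
  obtain ⟨R, hR⟩ := hK.isBounded.exists_norm_le
  obtain ⟨R', hR'⟩ := hL.isBounded.exists_norm_le
  let B : ℤ → ℝ := fun m => R' + ‖linL (Gam.pw k m)‖ * R
  let M : ℤ := ⌈R' + R⌉
  refine Set.Finite.subset (s := ⋃ m ∈ Set.Icc (-M) M, (fun n : Fin 2 → ℤ => (⟨n, m⟩ : Gam k)) ''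
    (Set.Icc (fun _ => -⌈B m⌉) (fun _ => ⌈B m⌉))) ?_ ?_
  · refine (Set.finite_Icc _ _).biUnion fun m _ => (Set.finite_Icc _ _).image _
  · rintro g ⟨_, ⟨x, hx, rfl⟩, hy⟩
    have h1 : ‖x‖ ≤ R := hR x hx
    have h2 : ‖actP g x‖ ≤ R' := hR' _ hy
    have hcoord : ∀ i, |actP g x i| ≤ R' := fun i => (norm_le_pi_norm (actP g x) i).trans h2
    have hx2 : |x 2| ≤ R := (norm_le_pi_norm x 2).trans h1
    have hk : (1 : ℝ) ≤ |(k : ℝ)| := by
      have : (1 : ℤ) ≤ |k| := Int.one_le_abs (NeZero.ne k)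
      exact_mod_cast this
    have hm : |(g.m : ℝ)| ≤ R' + R := by
      have e : (k : ℝ) * g.m = actP g x 2 - x 2 := by
        simp only [actP, lin, trv, Pi.add_apply, Matrix.cons_val]; push_cast; ring
      have h3 : |(k : ℝ) * g.m| ≤ R' + R := by
        rw [e]
        exact (abs_sub _ _).trans (add_le_add (hcoord 2) hx2)
      rw [abs_mul] at h3
      nlinarith [abs_nonneg (g.m : ℝ)]
    have hm' : (g.m : ℝ) ≤ M ∧ -(M : ℝ) ≤ g.m := by
      have h4 := abs_le.1 hm
      have h5 := Int.le_ceil (R' + R)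
      exact ⟨h4.2.trans h5, by linarith⟩
    simp only [mem_iUnion, mem_image, mem_Icc]
    refine ⟨g.m, ⟨by exact_mod_cast hm'.2, by exact_mod_cast hm'.1⟩, g.n, ?_, rfl⟩
    have hn : ∀ i : Fin 2, |(g.n i : ℝ)| ≤ B g.m := by
      have h6 : ‖linL (Gam.pw k g.m) x‖ ≤ ‖linL (Gam.pw k g.m)‖ * R :=
        (ContinuousLinearMap.le_opNorm _ _).trans (by gcongr)
      have h7 : ∀ j : Fin 3, |trv g.n (k * g.m) j| ≤ B g.m := by
        intro j
        have e : trv g.n (k * g.m) j = actP g x j - linL (Gam.pw k g.m) x j := by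
          simp [actP]
        rw [e]
        refine (abs_sub _ _).trans (add_le_add (hcoord j) ?_)
        exact (norm_le_pi_norm (linL (Gam.pw k g.m) x) j).trans h6
      intro i
      fin_cases i
      · have := h7 0
        simpa [trv] using this
      · have := h7 1
        simpa [trv] using this
    constructor
    · intro i
      have h8 := abs_le.1 (hn i)
      have h9 := Int.le_ceil (B g.m)
      have : (-⌈B g.m⌉ : ℝ) ≤ g.n i := by linarith
      exact_mod_cast this
    · intro i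
      have h8 := abs_le.1 (hn i)
      have h9 := Int.le_ceil (B g.m)
      have : (g.n i : ℝ) ≤ ⌈B g.m⌉ := by linarith
      exact_mod_cast this

instance {k : ℤ} [NeZero k] {F : Type*} [TopologicalSpace F] :
    ProperlyDiscontinuousSMul (Gam k) (F × P) where
  finite_disjoint_inter_image := by
    intro K L hK hL
    refine (actP_finite (k := k) (hK.image continuous_snd) (hL.image continuous_snd)).subset ?_
    rintro g hg
    obtain ⟨_, ⟨x, hx, rfl⟩, hy⟩ := hg
    exact ⟨actP g x.2, ⟨x.2, ⟨x, hx, rfl⟩, rfl⟩, ⟨g • x, hy, rfl⟩⟩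

end Pool.Agent.W630
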