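import Mathlib
import Pool.Agent.W630.Gam

/-!
# Model Liouville manifolds `(F × ℝ³) / Γ`
-/

open scoped Topology ContDiff Manifold Matrix
open Set

noncomputable section

namespace Pool.Agent.W630

/-! ### Eigenvalue and eigenforms of the hyperbolic matrix -/

/-- The eigenvalue `(3 + √5) / 2`. -/
def mu : ℝ := (3 + √5) / 2

lemma sqrt5_sq : √5 * √5 = 5 := Real.mul_self_sqrt (by norm_num)

lemma mu_eq : mu ^ 2 = 3 * mu - 1 := by
  unfold mu
  have := sqrt5_sq
  nlinarith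

lemma one_lt_mu : 1 < mu := by
  unfold mu
  have : 0 ≤ √5 := Real.sqrt_nonneg _
  linarith

lemma mu_pos : 0 < mu := by linarith [one_lt_mu]

lemma mu_ne : mu ≠ 0 := mu_pos.ne'

lemma muinv_eq : (mu⁻¹) ^ 2 = 3 * mu⁻¹ - 1 := by
  have h := mu_eq
  have h2 : mu * mu⁻¹ = 1 := mul_inv_cancel₀ mu_ne
  have h3 : (mu⁻¹) ^ 2 * (mu ^ 2) = 1 := by
    rw [← mul_pow, inv_mul_cancel₀ mu_ne, one_pow]
  have h4 : mu ^ 2 * ((mu⁻¹) ^ 2 - (3 * mu⁻¹ - 1)) = 0 := by
    have : mu ^ 2 * ((mu⁻¹) ^ 2 - (3 * mu⁻¹ - 1)) =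
      (mu⁻¹) ^ 2 * (mu ^ 2) - 3 * mu * (mu * mu⁻¹) + mu ^ 2 := by ring
    rw [this, h3, h2, h]; ring
  have h5 : mu ^ 2 ≠ 0 := pow_ne_zero _ mu_ne
  have := (mul_eq_zero.1 h4).resolve_left h5
  linarith

/-- `c = log μ`. -/
def cc : ℝ := Real.log mu

lemma cc_pos : 0 < cc := Real.log_pos one_lt_mu

lemma cc_ne : cc ≠ 0 := cc_pos.ne'

lemma exp_cc : Real.exp cc = mu := Real.exp_log mu_pos

/-- the form `x₀ + (a - 2) x₁` -/
def eigL (a : ℝ) : P →L[ℝ] ℝ :=
  ContinuousLinearMap.proj (R := ℝ) (φ := fun _ : Fin 3 => ℝ) 0 +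
    (a - 2) • ContinuousLinearMap.proj (R := ℝ) (φ := fun _ : Fin 3 => ℝ) 1

lemma eigL_apply (a : ℝ) (x : P) : eigL a x = x 0 + (a - 2) * x 1 := rfl

lemma lin_Amat (x : P) : lin Amat x = ![2 * x 0 + x 1, x 0 + x 1, x 2] := by
  unfold lin Amat
  ext i; fin_cases i <;> simp

lemma eigL_Amat {a : ℝ} (ha : a ^ 2 = 3 * a - 1) (x : P) : eigL a (lin Amat x) = a * eigL a x := by
  rw [lin_Amat, eigL_apply, eigL_apply]
  simp only [Matrix.cons_val]
  linear_combination (-x 1) * ha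

lemma eigL_Amat_zpow {a : ℝ} (h0 : a ≠ 0) (ha : a ^ 2 = 3 * a - 1) (m : ℤ) :
    ∀ x : P, eigL a (lin (Amat ^ m) x) = a ^ m * eigL a x := by
  induction m with
  | zero => intro x; simp [lin_one]
  | succ n ih =>
    intro x
    rw [zpow_add, lin_mul, ih, zpow_one, eigL_Amat ha, zpow_add₀ h0, zpow_one]
    ring
  | pred n ih =>
    intro x
    have h1 : lin (Amat ^ (-1 : ℤ)) (lin Amat x) = x := by
      rw [← lin_mul, ← zpow_one (Amat : Matrix.SpecialLinearGroup (Fin 2) ℤ), ← zpow_mul,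
        ← zpow_add]
      simp [lin_one]
    have h2 : ∀ y : P, eigL a (lin (Amat ^ (-1 : ℤ)) y) = a⁻¹ * eigL a y := by
      intro y
      have h3 : lin Amat (lin (Amat ^ (-1 : ℤ)) y) = y := by
        rw [← lin_mul]
        simp [lin_one]
      have h4 := eigL_Amat ha (lin (Amat ^ (-1 : ℤ)) y)
      rw [h3] at h4
      rw [h4]
      field_simp
    rw [sub_eq_add_neg, zpow_add, lin_mul, ih, h2, zpow_add₀ h0, zpow_neg_one]
    ring

/-- the form `ξ` with `ξ (A x) = μ ξ (x)` -/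
def xi : P →L[ℝ] ℝ := eigL mu

/-- the form `ζ` with `ζ (A x) = μ⁻¹ ζ (x)` -/
def ze : P →L[ℝ] ℝ := eigL mu⁻¹

/-- the third coordinate -/
def zL : P →L[ℝ] ℝ := ContinuousLinearMap.proj (R := ℝ) (φ := fun _ : Fin 3 => ℝ) 2

@[simp] lemma zL_apply (x : P) : zL x = x 2 := rfl

lemma xi_pw (k m : ℤ) (x : P) : xi (lin (Gam.pw k m) x) = Real.exp (cc * (k * m : ℤ)) * xi x := by
  unfold xi Gam.pw
  rw [eigL_Amat_zpow mu_ne mu_eq, Real.exp_mul, Real.rpow_intCast, exp_cc]

lemma ze_pw (k m : ℤ) (x : P) : ze (lin (Gam.pw k m) x) = Real.exp (-cc * (k * m : ℤ)) * ze x := by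
  unfold ze Gam.pw
  rw [eigL_Amat_zpow (inv_ne_zero mu_ne) muinv_eq, Real.exp_mul, Real.rpow_intCast, Real.exp_neg,
    exp_cc]

lemma zL_pw (k m : ℤ) (x : P) : zL (lin (Gam.pw k m) x) = zL x := by
  simp [lin]

/-- the three forms are independent -/
lemma eq_zero_of_forms {y : P} (h1 : xi y = 0) (h2 : ze y = 0) (h3 : zL y = 0) : y = 0 := by
  unfold xi at h1; unfold ze at h2
  rw [eigL_apply] at h1 h2
  have h4 : (mu - mu⁻¹) * y 1 = 0 := by linear_combination h1 - h2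
  have h5 : mu - mu⁻¹ ≠ 0 := by
    have : mu⁻¹ < 1 := inv_lt_one_of_one_lt₀ one_lt_mu
    have := one_lt_mu
    intro h; linarith
  have h6 : y 1 = 0 := (mul_eq_zero.1 h4).resolve_left h5
  have h7 : y 0 = 0 := by rw [h6] at h1; linarith
  ext i; fin_cases i
  · exact h7
  · exact h6
  · exact h3


/-! ### The model data on `F` -/

/-- Data on the factor `F`. -/
structure FData (F : Type*) [NormedAddCommGroup F] [NormedSpace ℝ F] where
  S : F →L[ℝ] ℝ
  B : F →L[ℝ] F →L[ℝ] ℝ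
  Z : F →L[ℝ] F
  S_Z : ∀ f, S (Z f) = 2 * S f
  B_Z : ∀ f a, B (Z f) a - B a (Z f) = B f a
  nondeg : ∀ (t : ℝ) (a : F), (∀ a', -(S a' * t) + (B a a' - B a' a) = 0) → t = 0 ∧ (S a = 0 → a = 0)
  ψ : ℝ → F → F
  ψ_zero : ∀ f, ψ 0 f = f
  ψ_deriv : ∀ f t, HasDerivAt (fun t => ψ t f) (Z (ψ t f)) t
  ψ_add : ∀ s t f, ψ (s + t) f = ψ s (ψ t f)
  r : F → ℝ
  r_smooth : ContDiff ℝ ∞ r
  r_compact : IsCompact {f | r f ≤ 1}
  r_Z : ∀ f, r f = 1 → 0 < fderiv ℝ r f (Z f)
  r_ψ : ∀ f, r f = 1 → ∀ s > 0, 1 < r (ψ s f)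
  r_sweep : ∀ f, 1 ≤ r f → ∃ t ≥ 0, r (ψ (-t) f) = 1

section Forms

variable {F : Type*} [NormedAddCommGroup F] [NormedSpace ℝ F] (D : FData F)

/-- The Liouville form on `F × ℝ³`. -/
def lamV (v : F × P) : (F × P) →L[ℝ] ℝ :=
  Real.exp (-cc * zL v.2) • xi.comp (ContinuousLinearMap.snd ℝ F P) +
    (D.S v.1 * Real.exp (cc * zL v.2)) • ze.comp (ContinuousLinearMap.snd ℝ F P) +
    (D.B v.1).comp (ContinuousLinearMap.fst ℝ F P)

lemma lamV_apply (v u : F × P) : lamV D v u = Real.exp (-cc * zL v.2) * xi u.2 +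
    D.S v.1 * Real.exp (cc * zL v.2) * ze u.2 + D.B v.1 u.1 := rfl

lemma contDiff_lamV : ContDiff ℝ ∞ (lamV D) := by
  unfold lamV
  fun_prop

/-- The derivative of the action. -/
lemma dact_apply {k : ℤ} (g : Gam k) (v u : F × P) :
    dact g v u = (u.1, lin (Gam.pw k g.m) u.2) := by
  have h : HasFDerivAt (fun v : F × P => g • v)
      ((ContinuousLinearMap.fst ℝ F P).prod ((linL (Gam.pw k g.m)).comp
        (ContinuousLinearMap.snd ℝ F P))) v := by
    have h1 : HasFDerivAt (fun v : F × P => linL (Gam.pw k g.m) v.2 + trv g.n (k * g.m))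
        ((linL (Gam.pw k g.m)).comp (ContinuousLinearMap.snd ℝ F P)) v :=
      (((linL (Gam.pw k g.m)).hasFDerivAt).comp v hasFDerivAt_snd).add_const _
    exact hasFDerivAt_fst.prodMk h1
  unfold dact
  rw [h.fderiv]
  rfl

lemma zL_actP {k : ℤ} (g : Gam k) (x : P) : zL (actP g x) = zL x + (k * g.m : ℤ) := by
  simp [actP, lin, trv]

lemma lamV_inv {k : ℤ} (g : Gam k) (v u : F × P) : lamV D (g • v) (dact g v u) = lamV D v u := by
  rw [dact_apply, lamV_apply, lamV_apply, smul_def]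
  simp only
  rw [zL_actP, xi_pw, ze_pw, mul_add, mul_add, Real.exp_add, Real.exp_add]
  have h1 : Real.exp (-cc * (k * g.m : ℤ)) * Real.exp (cc * (k * g.m : ℤ)) = 1 := by
    rw [← Real.exp_add]; simp
  linear_combination (Real.exp (-cc * zL v.2) * xi u.2 +
    D.S v.1 * Real.exp (cc * zL v.2) * ze u.2) * h1

/-- The value of the exterior derivative. -/
lemma fderiv_lamV (v u w : F × P) : fderiv ℝ (lamV D) v u w =
    (-cc * zL u.2 * Real.exp (-cc * zL v.2)) * xi w.2 +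
    (D.S u.1 * Real.exp (cc * zL v.2) + D.S v.1 * (cc * zL u.2 * Real.exp (cc * zL v.2))) * ze w.2 +
    D.B u.1 w.1 := by
  have hd : DifferentiableAt ℝ (lamV D) v := ((contDiff_lamV D).differentiable (by simp)) v
  have h1 : HasFDerivAt (fun y => lamV D y w) ((fderiv ℝ (lamV D) v).flip w) v := by
    have := hd.hasFDerivAt.clm_apply (hasFDerivAt_const w v)
    refine this.congr_fderiv ?_
    ext <;> simp
  have h2 := h1.hasLineDerivAt u
  have h3 : HasDerivAt (fun t : ℝ => lamV D (v + t • u) w) (fderiv ℝ (lamV D) v u w) 0 := h2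
  have h4 : (fun t : ℝ => lamV D (v + t • u) w) = fun t =>
      Real.exp (-cc * (zL v.2 + t * zL u.2)) * xi w.2 +
      (D.S v.1 + t * D.S u.1) * Real.exp (cc * (zL v.2 + t * zL u.2)) * ze w.2 +
      (D.B v.1 w.1 + t * D.B u.1 w.1) := by
    funext t
    rw [lamV_apply]
    simp only [Prod.snd_add, Prod.smul_snd, Prod.fst_add, Prod.smul_fst, map_add, map_smul,
      smul_eq_mul, _root_.add_apply, _root_.smul_apply]
  rw [h4] at h3
  have h5 : HasDerivAt (fun t : ℝ => -cc * (zL v.2 + t * zL u.2)) (-cc * zL u.2) 0 := by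
    have := ((hasDerivAt_id (0 : ℝ)).mul_const (zL u.2)).const_add (zL v.2)
    simpa using this.const_mul (-cc)
  have h6 : HasDerivAt (fun t : ℝ => cc * (zL v.2 + t * zL u.2)) (cc * zL u.2) 0 := by
    have := ((hasDerivAt_id (0 : ℝ)).mul_const (zL u.2)).const_add (zL v.2)
    simpa using this.const_mul cc
  have h7 : HasDerivAt (fun t : ℝ => D.S v.1 + t * D.S u.1) (D.S u.1) 0 := by
    simpa using ((hasDerivAt_id (0 : ℝ)).mul_const (D.S u.1)).const_add (D.S v.1)
  have h8 : HasDerivAt (fun t : ℝ => D.B v.1 w.1 + t * D.B u.1 w.1) (D.B u.1 w.1) 0 := by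
    simpa using ((hasDerivAt_id (0 : ℝ)).mul_const (D.B u.1 w.1)).const_add (D.B v.1 w.1)
  have h9 := ((h5.exp.mul_const (xi w.2)).add ((h7.mul h6.exp).mul_const (ze w.2))).add h8
  have h10 := h3.unique h9
  rw [h10]
  simp only [zero_mul, add_zero]
  ring


/-- the third basis vector -/
def e₂ : P := ![0, 0, 1]

@[simp] lemma xi_e₂ : xi e₂ = 0 := by simp [xi, eigL_apply, e₂]
@[simp] lemma ze_e₂ : ze e₂ = 0 := by simp [ze, eigL_apply, e₂]
@[simp] lemma zL_e₂ : zL e₂ = 1 := by simp [e₂]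

lemma lin_e₂ (M : Matrix.SpecialLinearGroup (Fin 2) ℤ) (c : ℝ) : lin M (c • e₂) = c • e₂ := by
  unfold lin e₂
  ext i; fin_cases i <;> simp

/-- The Liouville vector field. -/
def ZV (v : F × P) : F × P := (D.Z v.1, (-(1 / cc)) • e₂)

lemma ZV_inv {k : ℤ} (g : Gam k) (v : F × P) : ZV D (g • v) = dact g v (ZV D v) := by
  rw [dact_apply]
  unfold ZV
  simp only [lin_e₂]
  rfl

lemma liouville_V (v w : F × P) :
    fderiv ℝ (lamV D) v (ZV D v) w - fderiv ℝ (lamV D) v w (ZV D v) = lamV D v w := by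
  rw [fderiv_lamV, fderiv_lamV, lamV_apply]
  unfold ZV
  simp only [map_smul, xi_e₂, ze_e₂, zL_e₂, smul_eq_mul, mul_zero, mul_one, add_zero, D.S_Z]
  have h := D.B_Z v.1 w.1
  have hc := cc_ne
  field_simp
  linear_combination h

lemma nondeg_V (v u : F × P)
    (h : ∀ w, fderiv ℝ (lamV D) v u w - fderiv ℝ (lamV D) v w u = 0) : u = 0 := by
  have e1 : 0 < Real.exp (-cc * zL v.2) := Real.exp_pos _
  have e2 : 0 < Real.exp (cc * zL v.2) := Real.exp_pos _
  have hc := cc_pos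
  -- pairing with vectors of `F`
  have h1 := D.nondeg (Real.exp (cc * zL v.2) * ze u.2) u.1 (by
    intro a'
    have := h (a', 0)
    rw [fderiv_lamV, fderiv_lamV] at this
    simp only [map_zero, mul_zero, zero_mul, add_zero, zero_add] at this
    linarith)
  have hze : ze u.2 = 0 := by
    rcases mul_eq_zero.1 h1.1 with h2 | h2
    · exact absurd h2 e2.ne'
    · exact h2
  -- pairing with vectors of `ℝ³`
  have h2 : ∀ y : P, (-cc * zL u.2 * Real.exp (-cc * zL v.2)) * xi y +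
      (D.S u.1 * Real.exp (cc * zL v.2) +
        D.S v.1 * (cc * zL u.2 * Real.exp (cc * zL v.2))) * ze y -
      (-cc * zL y * Real.exp (-cc * zL v.2)) * xi u.2 = 0 := by
    intro y
    have := h (0, y)
    rw [fderiv_lamV, fderiv_lamV] at this
    simp only [map_zero, hze, mul_zero, zero_mul, add_zero, zero_add,
      _root_.zero_apply] at this
    linarith
  have h3 : xi u.2 = 0 := by
    have := h2 e₂
    simp only [xi_e₂, ze_e₂, zL_e₂, mul_zero, mul_one, add_zero, zero_sub] at this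
    have h4 : (cc * Real.exp (-cc * zL v.2)) * xi u.2 = 0 := by linarith
    exact (mul_eq_zero.1 h4).resolve_left (by positivity)
  -- a vector with `ζ = 0`, `ξ ≠ 0`, `z = 0`
  have hx : ∀ a b : ℝ, ∃ y : P, xi y = a ∧ ze y = b ∧ zL y = 0 := by
    intro a b
    have hm : mu - mu⁻¹ ≠ 0 := by
      have : mu⁻¹ < 1 := inv_lt_one_of_one_lt₀ one_lt_mu
      have := one_lt_mu
      intro h; linarith
    refine ⟨![a - (mu - 2) * ((a - b) / (mu - mu⁻¹)), (a - b) / (mu - mu⁻¹), 0], ?_, ?_, ?_⟩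
    · simp [xi, eigL_apply]
    · simp only [ze, eigL_apply, Matrix.cons_val]
      have key : (mu - mu⁻¹) * ((a - b) / (mu - mu⁻¹)) = a - b := mul_div_cancel₀ _ hm
      linear_combination -key
    · simp
  obtain ⟨y, hy1, hy2, hy3⟩ := hx 1 0
  have h4 := h2 y
  rw [hy1, hy2, hy3, h3] at h4
  have h5 : zL u.2 = 0 := by
    have : (cc * Real.exp (-cc * zL v.2)) * zL u.2 = 0 := by linarith
    exact (mul_eq_zero.1 this).resolve_left (by positivity)
  obtain ⟨y, hy1, hy2, hy3⟩ := hx 0 1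
  have h6 := h2 y
  rw [hy1, hy2, hy3, h3, h5] at h6
  have h7 : D.S u.1 = 0 := by
    have : Real.exp (cc * zL v.2) * D.S u.1 = 0 := by linarith
    exact (mul_eq_zero.1 this).resolve_left e2.ne'
  exact Prod.ext (h1.2 h7) (eq_zero_of_forms h3 hze h5)

/-- The Liouville flow. -/
def phV (t : ℝ) (v : F × P) : F × P := (D.ψ t v.1, v.2 + (-(t / cc)) • e₂)

lemma phV_zero (v : F × P) : phV D 0 v = v := by
  unfold phV
  rw [D.ψ_zero]
  simp

lemma phV_inv {k : ℤ} (t : ℝ) (g : Gam k) (v : F × P) : phV D t (g • v) = g • phV D t v := by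
  unfold phV
  simp only [smul_def, actP]
  rw [lin_add, lin_e₂]
  refine Prod.ext rfl ?_
  simp only
  abel

lemma phV_deriv (v : F × P) (t : ℝ) : HasDerivAt (fun t => phV D t v) (ZV D (phV D t v)) t := by
  have h1 := D.ψ_deriv v.1 t
  have h2 : HasDerivAt (fun t : ℝ => v.2 + (-(t / cc)) • e₂) ((-(1 / cc)) • e₂) t := by
    have := (((hasDerivAt_id t).div_const cc).neg.smul_const e₂).const_add v.2
    exact this
  exact h1.prodMk h2

end Forms


/-! ### The Liouville manifold -/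

section Manifold

set_option linter.unusedSectionVars false

variable {F : Type*} [NormedAddCommGroup F] [NormedSpace ℝ F] {k : ℤ}

/-- The projection of the quotient to `F`. -/
def prF (x : Qt (Gam k) (F × P)) : F := x.out.1

@[simp] lemma prF_qm (v : F × P) : prF (qm (Gam k) v) = v.1 := by
  unfold prF
  obtain ⟨g, hg⟩ := qm_eq_iff.1 (qm_out (qm (Gam k) v))
  rw [hg, smul_def]

/-- Every point of `ℝ³` is equivalent to one in a ball. -/
lemma exists_small [NeZero k] (x : P) : ∃ g : Gam k, ‖actP g x‖ ≤ max 1 |(k : ℝ)| := by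
  have hk : (k : ℝ) ≠ 0 := by exact_mod_cast NeZero.ne k
  let g₁ : Gam k := ⟨0, -⌊x 2 / k⌋⟩
  let y := actP g₁ x
  let g₂ : Gam k := ⟨![-⌊y 0⌋, -⌊y 1⌋], 0⟩
  refine ⟨g₂ * g₁, ?_⟩
  rw [actP_mul]
  have hy2 : y 2 = k * Int.fract (x 2 / k) := by
    simp only [y, g₁, actP, lin, trv, Pi.add_apply, Matrix.cons_val, Int.fract]
    push_cast
    field_simp
    ring
  have hz0 : actP g₂ y 0 = Int.fract (y 0) := by
    simp only [g₂, actP, Gam.pw_zero, lin_one, trv, Pi.add_apply, Matrix.cons_val, Int.fract]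
    push_cast; ring
  have hz1 : actP g₂ y 1 = Int.fract (y 1) := by
    simp only [g₂, actP, Gam.pw_zero, lin_one, trv, Pi.add_apply, Matrix.cons_val, Int.fract]
    push_cast; ring
  have hz2 : actP g₂ y 2 = y 2 := by
    simp only [g₂, actP, Gam.pw_zero, lin_one, trv, Pi.add_apply, Matrix.cons_val]
    push_cast; ring
  rw [pi_norm_le_iff_of_nonneg (by positivity)]
  intro i
  rw [Real.norm_eq_abs]
  fin_cases i
  · show |actP g₂ y 0| ≤ _
    rw [hz0, abs_of_nonneg (Int.fract_nonneg _)]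
    exact (Int.fract_lt_one _).le.trans (le_max_left _ _)
  · show |actP g₂ y 1| ≤ _
    rw [hz1, abs_of_nonneg (Int.fract_nonneg _)]
    exact (Int.fract_lt_one _).le.trans (le_max_left _ _)
  · show |actP g₂ y 2| ≤ _
    rw [hz2, hy2, abs_mul, abs_of_nonneg (Int.fract_nonneg (x 2 / k))]
    refine (mul_le_of_le_one_right (abs_nonneg _) (Int.fract_lt_one _).le).trans (le_max_right _ _)

lemma isCompact_prF [NeZero k] [FiniteDimensional ℝ F] {K : Set F} (hK : IsCompact K) :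
    IsCompact {x : Qt (Gam k) (F × P) | prF x ∈ K} := by
  have h1 : {x : Qt (Gam k) (F × P) | prF x ∈ K} =
      qm (Gam k) '' (K ×ˢ Metric.closedBall (0 : P) (max 1 |(k : ℝ)|)) := by
    ext x
    constructor
    · intro hx
      obtain ⟨v, rfl⟩ := qm_surj x
      obtain ⟨g, hg⟩ := exists_small (k := k) v.2
      refine ⟨g • v, ⟨?_, ?_⟩, qm_smul g v⟩
      · simpa [smul_def] using hx
      · simpa [smul_def] using hg
    · rintro ⟨v, hv, rfl⟩
      simpa using hv.1
  rw [h1]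
  exact (hK.prod (isCompact_closedBall _ _)).image continuous_qm

lemma contMDiff_prF [NeZero k] [FiniteDimensional ℝ F] :
    ContMDiff 𝓘(ℝ, F × P) 𝓘(ℝ, F) ∞ (prF : Qt (Gam k) (F × P) → F) := by
  apply contMDiff_of_comp_qm
  have : (fun w : F × P => prF (qm (Gam k) w)) = Prod.fst := by funext w; simp
  rw [this]
  exact contDiff_fst.contMDiff

/-- The differential of a function of `prF`. -/
lemma mfderiv_prF_comp [NeZero k] [FiniteDimensional ℝ F] {E' : Type*} [NormedAddCommGroup E']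
    [NormedSpace ℝ E'] {h : F → E'} (hh : ContDiff ℝ ∞ h) (v u : F × P) :
    (show E' from mfderiv 𝓘(ℝ, F × P) 𝓘(ℝ, E') (fun x : Qt (Gam k) (F × P) => h (prF x))
      (qm (Gam k) v) (dq (Gam k) v u)) = fderiv ℝ h v.1 u.1 := by
  have h0 : ContMDiff 𝓘(ℝ, F × P) 𝓘(ℝ, E') ∞ (fun x : Qt (Gam k) (F × P) => h (prF x)) :=
    hh.contMDiff.comp contMDiff_prF
  have h1 := ((h0 (qm (Gam k) v)).mdifferentiableAt (by simp)).hasMFDerivAt.comp v
    (mdiff_qm v).hasMFDerivAt
  have h2 : ((fun x : Qt (Gam k) (F × P) => h (prF x)) ∘ qm (Gam k)) = fun w : F × P => h w.1 := by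
    funext w; simp
  rw [h2] at h1
  have h3 : HasFDerivAt (fun w : F × P => h w.1)
      ((fderiv ℝ h v.1).comp (ContinuousLinearMap.fst ℝ F P)) v :=
    ((hh.differentiable (by simp)) v.1).hasFDerivAt.comp v hasFDerivAt_fst
  have h4 := h1.mfderiv.symm.trans h3.hasMFDerivAt.mfderiv
  exact congrArg (fun L : (F × P) →L[ℝ] E' => L u) h4


/-- The one-form on the quotient. -/
def lamQ (D : FData F) [FiniteDimensional ℝ F] [NeZero k] : OneForm (F × P) (Qt (Gam k) (F × P)) :=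
  descF (Gam k) (lamV D)

lemma lamQ_smooth (D : FData F) [FiniteDimensional ℝ F] [NeZero k] :
    Helper186.SmoothForm (I := 𝓘(ℝ, F × P)) (lamQ D : OneForm (F × P) (Qt (Gam k) (F × P))) :=
  smoothForm_descF (lamV_inv D) (contDiff_lamV D)

lemma lamQ_dd (D : FData F) [FiniteDimensional ℝ F] [NeZero k] (v u w : F × P) :
    dd (E := F × P) (lamQ (k := k) D) (qm (Gam k) v) (dq (Gam k) v u) (dq (Gam k) v w) =
      fderiv ℝ (lamV D) v u w - fderiv ℝ (lamV D) v w u :=
  extDer_descF (lamV_inv D) (contDiff_lamV D) v u w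

lemma lamQ_nondeg (D : FData F) [FiniteDimensional ℝ F] [NeZero k] (x : Qt (Gam k) (F × P)) :
    NondegenerateAt (E := F × P) (lamQ (k := k) D) x := by
  obtain ⟨v, rfl⟩ := qm_surj x
  intro u hu
  obtain ⟨u', rfl⟩ := dq_surjective (G := Gam k) v u
  have h1 : u' = 0 := nondeg_V D v u' fun w => by
    rw [← lamQ_dd (k := k)]; exact hu (dq (Gam k) v w)
  rw [h1]; exact map_zero (dq (Gam k) v)

/-- The Liouville field on the quotient. -/
def ZQ (D : FData F) [FiniteDimensional ℝ F] [NeZero k] (x : Qt (Gam k) (F × P)) :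
    TangentSpace 𝓘(ℝ, F × P) x := descV (Gam k) (ZV D) x

lemma ZQ_qm (D : FData F) [FiniteDimensional ℝ F] [NeZero k] (v : F × P) :
    ZQ D (qm (Gam k) v) = dq (Gam k) v (ZV D v) := descV_qm (ZV_inv D) v

lemma ZQ_liouville (D : FData F) [FiniteDimensional ℝ F] [NeZero k] (x : Qt (Gam k) (F × P)) :
    IsLiouvilleVector (E := F × P) (lamQ D) x (ZQ D x) := by
  obtain ⟨v, rfl⟩ := qm_surj x
  intro w
  obtain ⟨w', rfl⟩ := dq_surjective (G := Gam k) v w
  rw [ZQ_qm, lamQ_dd, liouville_V]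
  exact (descF_dq (lamV_inv D) v w').symm

/-- The Liouville flow on the quotient. -/
def phQ (D : FData F) (t : ℝ) (x : Qt (Gam k) (F × P)) : Qt (Gam k) (F × P) :=
  descFl (Gam k) (phV D) t x

lemma phQ_qm (D : FData F) (t : ℝ) (v : F × P) :
    phQ D t (qm (Gam k) v) = qm (Gam k) (phV D t v) := descFl_qm' (phV_inv D) t v

lemma prF_phQ (D : FData F) (t : ℝ) (x : Qt (Gam k) (F × P)) :
    prF (phQ D t x) = D.ψ t (prF x) := by
  obtain ⟨v, rfl⟩ := qm_surj x
  rw [phQ_qm, prF_qm, prF_qm]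
  rfl

lemma phQ_zero (D : FData F) (x : Qt (Gam k) (F × P)) : phQ D 0 x = x := by
  obtain ⟨v, rfl⟩ := qm_surj x
  rw [phQ_qm, phV_zero]

lemma phQ_add (D : FData F) (s t : ℝ) (x : Qt (Gam k) (F × P)) :
    phQ D (s + t) x = phQ D s (phQ D t x) := by
  obtain ⟨v, rfl⟩ := qm_surj x
  rw [phQ_qm, phQ_qm, phQ_qm]
  congr 1
  unfold phV
  refine Prod.ext (D.ψ_add s t v.1) ?_
  simp only
  rw [add_assoc, ← add_smul]
  congr 2
  ring

lemma phQ_spec (D : FData F) [FiniteDimensional ℝ F] [NeZero k] (x : Qt (Gam k) (F × P)) :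
    IsMIntegralCurve (I := 𝓘(ℝ, F × P)) (fun t => phQ D t x) (ZQ D) :=
  isMIntegralCurve_desc (phV_inv D) (ZV_inv D) (phV_deriv D) x

lemma continuous_phQ_time (D : FData F) [FiniteDimensional ℝ F] [NeZero k]
    (x : Qt (Gam k) (F × P)) : Continuous (fun t => phQ D t x) :=
  (phQ_spec D x).continuous

/-- The model Liouville manifold. -/
def model (D : FData F) (k : ℤ) [NeZero k] [FiniteDimensional ℝ F] :
    LiouvilleManifold (F × P) (Qt (Gam k) (F × P)) where
  form := lamQ D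
  form_smooth := lamQ_smooth D
  nondegenerate := lamQ_nondeg D
  field := ZQ D
  field_spec := ZQ_liouville D
  flow := phQ D
  flow_zero := phQ_zero D
  flow_spec := phQ_spec D
  dom := {x | D.r (prF x) ≤ 1}
  dom_compact := isCompact_prF D.r_compact
  dom_boundary := by
    intro x hx
    have hc : Continuous fun x : Qt (Gam k) (F × P) => D.r (prF x) :=
      D.r_smooth.continuous.comp contMDiff_prF.continuous
    have h1 : D.r (prF x) = 1 := frontier_le_subset_eq hc continuous_const hx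
    have hsm : ContDiff ℝ ∞ (fun f => D.r f - 1) := D.r_smooth.sub contDiff_const
    refine ⟨fun y => D.r (prF y) - 1, (hsm.contMDiff.comp contMDiff_prF) x, by
      show D.r (prF x) - 1 = 0; linarith, ?_, ?_⟩
    · refine Filter.Eventually.of_forall fun y => ?_
      show D.r (prF y) ≤ 1 ↔ _
      exact ⟨fun h => by linarith, fun h => by linarith⟩
    · obtain ⟨v, rfl⟩ := qm_surj x
      rw [ZQ_qm]
      have h2 := mfderiv_prF_comp (k := k) hsm v (ZV D v)
      rw [prF_qm] at h1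
      have h3 : fderiv ℝ (fun f => D.r f - 1) v.1 = fderiv ℝ D.r v.1 := by
        rw [fderiv_sub_const]
      rw [h3] at h2
      refine lt_of_lt_of_eq (D.r_Z v.1 h1) h2.symm
  dom_sweep := by
    intro x hx
    have hc : Continuous fun x : Qt (Gam k) (F × P) => D.r (prF x) :=
      D.r_smooth.continuous.comp contMDiff_prF.continuous
    have h1 : 1 ≤ D.r (prF x) := by
      by_contra h
      push Not at h
      exact hx (interior_maximal (s := {x | D.r (prF x) ≤ 1}) (t := {x | D.r (prF x) < 1})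
        (fun y hy => (show D.r (prF y) ≤ 1 from le_of_lt hy)) (isOpen_lt hc continuous_const) h)
    obtain ⟨t, ht, h2⟩ := D.r_sweep _ h1
    refine ⟨phQ D (-t) x, ?_, t, ht, by rw [← phQ_add, add_neg_cancel, phQ_zero]⟩
    have h3 : D.r (prF (phQ D (-t) x)) = 1 := by rw [prF_phQ]; exact h2
    refine ⟨subset_closure h3.le, fun hint => ?_⟩
    have h4 : ∀ᶠ s in 𝓝 (0 : ℝ), phQ D s (phQ D (-t) x) ∈ interior {x | D.r (prF x) ≤ 1} := by
      have h5 := (continuous_phQ_time D (phQ D (-t) x)).continuousAt (x := 0)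
      refine h5.preimage_mem_nhds (isOpen_interior.mem_nhds ?_)
      rw [phQ_zero]; exact hint
    obtain ⟨s, hs, hs0⟩ := ((h4.filter_mono nhdsWithin_le_nhds).and
      (self_mem_nhdsWithin : Ioi (0 : ℝ) ∈ 𝓝[>] 0)).exists
    have h6 := interior_subset hs
    have h7 := D.r_ψ _ h3 s hs0
    rw [← prF_phQ] at h7
    exact absurd h6 (not_le.2 h7)

end Manifold

end Pool.Agent.W630
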