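import Mathlib
import Pool.Agent.W630.Model

/-!
# Maps between quotients
-/

open scoped Topology ContDiff Manifold Matrix
open Set

noncomputable section

namespace Pool.Agent.W630

variable {G : Type*} {V : Type*} [NormedAddCommGroup V] [NormedSpace ℝ V] [FiniteDimensional ℝ V]
  [Group G] [MulAction G V] [ProperlyDiscontinuousSMul G V] [ContinuousConstSMul G V]
  [IsCancelSMul G V] [SmoothAct G V]
  {G' : Type*} {V' : Type*} [NormedAddCommGroup V'] [NormedSpace ℝ V'] [FiniteDimensional ℝ V']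
  [Group G'] [MulAction G' V'] [ProperlyDiscontinuousSMul G' V'] [ContinuousConstSMul G' V']
  [IsCancelSMul G' V'] [SmoothAct G' V']

set_option linter.unusedSectionVars false

/-- The map of quotients induced by a map. -/
def descM (G G' : Type*) {V V' : Type*} [Group G] [MulAction G V] [Group G'] [MulAction G' V']
    (h : V → V') (x : Qt G V) : Qt G' V' := qm G' (h x.out)

lemma descM_qm {G G' V V' : Type*} [Group G] [MulAction G V] [Group G'] [MulAction G' V']
    {h : V → V'} (hh : ∀ (g : G) v, ∃ g' : G', h (g • v) = g' • h v) (v : V) :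
    descM G G' h (qm G v) = qm G' (h v) := by
  unfold descM
  obtain ⟨g, hg⟩ := qm_eq_iff.1 (qm_out (qm G v))
  obtain ⟨g', hg'⟩ := hh g v
  rw [hg, hg', qm_smul]

lemma contMDiff_descM {h : V → V'} (hh : ∀ (g : G) v, ∃ g' : G', h (g • v) = g' • h v)
    (hs : ContDiff ℝ ∞ h) : ContMDiff 𝓘(ℝ, V) 𝓘(ℝ, V') ∞ (descM G G' h) := by
  apply contMDiff_of_comp_qm
  have : (fun w : V => descM G G' h (qm G w)) = qm G' ∘ h := by
    funext w; exact descM_qm hh w
  rw [this]
  exact contMDiff_qm.comp hs.contMDiff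

/-- The differential of an induced map. -/
def dM (G G' : Type*) {V V' : Type*} [NormedAddCommGroup V] [NormedSpace ℝ V]
    [FiniteDimensional ℝ V] [Group G] [MulAction G V] [ProperlyDiscontinuousSMul G V]
    [ContinuousConstSMul G V] [IsCancelSMul G V] [NormedAddCommGroup V'] [NormedSpace ℝ V']
    [FiniteDimensional ℝ V'] [Group G'] [MulAction G' V'] [ProperlyDiscontinuousSMul G' V']
    [ContinuousConstSMul G' V'] [IsCancelSMul G' V'] (h : V → V') (v : V) : V →L[ℝ] V' :=
  mfderiv 𝓘(ℝ, V) 𝓘(ℝ, V') (descM G G' h) (qm G v)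

lemma dM_dq {h : V → V'} (hh : ∀ (g : G) v, ∃ g' : G', h (g • v) = g' • h v)
    (hs : ContDiff ℝ ∞ h) (v u : V) :
    dM G G' h v (dq G v u) = dq G' (h v) (fderiv ℝ h v u) := by
  have h1 := ((contMDiff_descM hh hs (qm G v)).mdifferentiableAt (by simp)).hasMFDerivAt.comp v
    (mdiff_qm v).hasMFDerivAt
  have h2 : (descM G G' h ∘ qm G) = qm G' ∘ h := by
    funext w; exact descM_qm hh w
  rw [h2] at h1
  have h3 := (mdiff_qm (G := G') (h v)).hasMFDerivAt.comp v
    ((hs.differentiable (by simp)) v).hasFDerivAt.hasMFDerivAt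
  have h4 := h1.mfderiv.symm.trans h3.mfderiv
  exact congrArg (fun L : V →L[ℝ] V' => L u) h4

/-- The map is equal to the mfderiv. -/
lemma mfderiv_descM (h : V → V') (v u : V) :
    mfderiv 𝓘(ℝ, V) 𝓘(ℝ, V') (descM G G' h) (qm G v) u = dM G G' h v u := rfl

end Pool.Agent.W630
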