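import Mathlib
import Pool.Agent.W630.QMap

/-!
# The example
-/

open scoped Topology ContDiff Manifold Matrix
open Set

noncomputable section

namespace Pool.Agent.W630

/-! ### The data -/

/-- The data of the fibre: `F = ℝ`. -/
def D₁ : FData ℝ where
  S := ContinuousLinearMap.id ℝ ℝ
  B := 0
  Z := (2 : ℝ) • ContinuousLinearMap.id ℝ ℝ
  S_Z := fun f => by simp
  B_Z := fun f a => by simp
  nondeg := fun t a h => by
    have := h 1
    simp at this
    exact ⟨this, fun h => h⟩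
  ψ := fun t f => Real.exp (2 * t) * f
  ψ_zero := fun f => by simp
  ψ_deriv := fun f t => by
    have h : HasDerivAt (fun t : ℝ => Real.exp (2 * t) * f) (Real.exp (2 * t) * 2 * f) t := by
      have := ((hasDerivAt_id t).const_mul 2).exp.mul_const f
      simpa using this
    refine h.congr_deriv ?_
    simp
    ring
  ψ_add := fun s t f => by rw [mul_add, Real.exp_add]; ring
  r := fun f => f ^ 2
  r_smooth := by fun_prop
  r_compact := by
    have : {f : ℝ | f ^ 2 ≤ 1} = Icc (-1) 1 := by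
      ext f
      simp only [mem_ofPred_eq, mem_Icc]
      constructor
      · intro h; constructor <;> nlinarith
      · rintro ⟨h1, h2⟩; nlinarith
    rw [this]
    exact isCompact_Icc
  r_Z := fun f h => by
    have : fderiv ℝ (fun f : ℝ => f ^ 2) f = (2 * f) • ContinuousLinearMap.id ℝ ℝ := by
      have := (hasDerivAt_pow 2 f).hasFDerivAt.fderiv
      rw [this]
      ext; simp
    rw [this]
    simp only [_root_.smul_apply, ContinuousLinearMap.id_apply, smul_eq_mul]
    nlinarith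
  r_ψ := fun f h s hs => by
    have h1 : 1 < Real.exp (2 * s) := Real.one_lt_exp_iff.2 (by linarith)
    have h2 : (Real.exp (2 * s) * f) ^ 2 = Real.exp (2 * s) ^ 2 := by
      rw [mul_pow, h, mul_one]
    rw [h2]
    nlinarith
  r_sweep := fun f h => by
    have hf : 0 < f ^ 2 := by linarith
    refine ⟨Real.log (f ^ 2) / 4, div_nonneg (Real.log_nonneg h) (by norm_num), ?_⟩
    have : (Real.exp (2 * -(Real.log (f ^ 2) / 4)) * f) ^ 2 = Real.exp (-Real.log (f ^ 2)) * f ^ 2 := by
      rw [mul_pow, ← Real.exp_nat_mul]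
      congr 2
      push_cast
      ring
    rw [this, Real.exp_neg, Real.exp_log hf, inv_mul_cancel₀ hf.ne']

/-- real part of the second component -/
def re2 : (ℝ × ℂ) →L[ℝ] ℝ := Complex.reCLM.comp (ContinuousLinearMap.snd ℝ ℝ ℂ)

/-- imaginary part of the second component -/
def im2 : (ℝ × ℂ) →L[ℝ] ℝ := Complex.imCLM.comp (ContinuousLinearMap.snd ℝ ℝ ℂ)

@[simp] lemma re2_apply (f : ℝ × ℂ) : re2 f = f.2.re := rfl
@[simp] lemma im2_apply (f : ℝ × ℂ) : im2 f = f.2.im := rfl

/-- The bilinear form on `ℝ × ℂ`. -/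
def B₂ : (ℝ × ℂ) →L[ℝ] (ℝ × ℂ) →L[ℝ] ℝ :=
  (1 / 2 : ℝ) • ((ContinuousLinearMap.mul ℝ ℝ).bilinearComp re2 im2 -
    (ContinuousLinearMap.mul ℝ ℝ).bilinearComp im2 re2)

lemma B₂_apply (f a : ℝ × ℂ) : B₂ f a = (1 / 2) * (f.2.re * a.2.im - f.2.im * a.2.re) := rfl

/-- The data of the total space: `F = ℝ × ℂ`. -/
def D₂ : FData (ℝ × ℂ) where
  S := ContinuousLinearMap.fst ℝ ℝ ℂ
  B := B₂
  Z := ((2 : ℝ) • ContinuousLinearMap.fst ℝ ℝ ℂ).prod
    ((1 / 2 : ℝ) • ContinuousLinearMap.snd ℝ ℝ ℂ)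
  S_Z := fun f => by simp
  B_Z := fun f a => by
    simp only [B₂_apply, ContinuousLinearMap.prod_apply, _root_.smul_apply,
      ContinuousLinearMap.coe_snd', Complex.smul_re, Complex.smul_im, smul_eq_mul]
    ring
  nondeg := fun t a h => by
    have h1 := h (1, 0)
    have h2 := h (0, 1)
    have h3 := h (0, Complex.I)
    simp [B₂_apply] at h1 h2 h3
    refine ⟨h1, fun h4 => ?_⟩
    have h5 : a.2.im = 0 := by linarith
    have h6 : a.2.re = 0 := by linarith
    refine Prod.ext h4 (Complex.ext h6 h5)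
  ψ := fun t f => (Real.exp (2 * t) * f.1, (Real.exp (t / 2) : ℝ) • f.2)
  ψ_zero := fun f => by simp
  ψ_deriv := fun f t => by
    have h1 : HasDerivAt (fun t : ℝ => Real.exp (2 * t) * f.1) (Real.exp (2 * t) * 2 * f.1) t := by
      have := ((hasDerivAt_id t).const_mul 2).exp.mul_const f.1
      simpa using this
    have h2 : HasDerivAt (fun t : ℝ => (Real.exp (t / 2) : ℝ) • f.2)
        ((Real.exp (t / 2) * (1 / 2) : ℝ) • f.2) t := by
      have := ((hasDerivAt_id t).div_const 2).exp.smul_const f.2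
      simpa using this
    refine (h1.prodMk h2).congr_deriv ?_
    refine Prod.ext ?_ ?_
    · simp; ring
    · simp only [ContinuousLinearMap.prod_apply, _root_.smul_apply,
        ContinuousLinearMap.coe_snd', smul_smul]
      congr 1
      ring
  ψ_add := fun s t f => by
    refine Prod.ext ?_ ?_
    · simp only [mul_add, Real.exp_add]; ring
    · simp only [add_div, Real.exp_add, smul_smul]
  r := fun f => f.1 ^ 2 + (re2 f ^ 2 + im2 f ^ 2)
  r_smooth := by fun_prop
  r_compact := by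
    have hcl : IsClosed {f : ℝ × ℂ | f.1 ^ 2 + (re2 f ^ 2 + im2 f ^ 2) ≤ 1} :=
      isClosed_le (by fun_prop) continuous_const
    refine (isCompact_closedBall (0 : ℝ × ℂ) 1).of_isClosed_subset hcl ?_
    intro f hf
    simp only [mem_ofPred_eq, re2_apply, im2_apply] at hf
    rw [mem_closedBall_zero_iff, Prod.norm_def, max_le_iff]
    constructor
    · rw [Real.norm_eq_abs, abs_le]
      constructor <;> nlinarith [sq_nonneg f.2.re, sq_nonneg f.2.im]
    · have h1 : ‖f.2‖ ^ 2 ≤ 1 := by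
        rw [← Complex.normSq_eq_norm_sq, Complex.normSq_apply]
        nlinarith [sq_nonneg f.1]
      nlinarith [norm_nonneg f.2]
  r_Z := fun f h => by
    have h1 : HasFDerivAt (fun f : ℝ × ℂ => f.1 ^ 2 + (re2 f ^ 2 + im2 f ^ 2))
        ((2 * f.1) • ContinuousLinearMap.fst ℝ ℝ ℂ + ((2 * re2 f) • re2 + (2 * im2 f) • im2)) f := by
      have a1 := (hasFDerivAt_fst (𝕜 := ℝ) (p := f)).pow 2
      have a2 := (re2.hasFDerivAt (x := f)).pow 2
      have a3 := (im2.hasFDerivAt (x := f)).pow 2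
      refine (a1.add (a2.add a3)).congr_fderiv ?_
      ext <;> simp
    rw [h1.fderiv]
    simp only [_root_.add_apply, _root_.smul_apply, ContinuousLinearMap.coe_fst',
      ContinuousLinearMap.prod_apply, re2_apply, im2_apply, ContinuousLinearMap.coe_snd',
      Complex.smul_re, Complex.smul_im, smul_eq_mul] at h ⊢
    nlinarith [sq_nonneg f.1, sq_nonneg f.2.re, sq_nonneg f.2.im]
  r_ψ := fun f h s hs => by
    simp only [re2_apply, im2_apply, Complex.smul_re, Complex.smul_im, smul_eq_mul] at h ⊢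
    have h1 : 1 < Real.exp (s / 2) := Real.one_lt_exp_iff.2 (by linarith)
    have h2 : Real.exp (2 * s) = Real.exp (s / 2) ^ 4 := by
      rw [← Real.exp_nat_mul]; congr 1; push_cast; ring
    rw [h2]
    set e := Real.exp (s / 2)
    have h3 : 1 < e ^ 2 := by nlinarith
    have h4 : e ^ 2 ≤ (e ^ 4) ^ 2 := by
      have : (e ^ 4) ^ 2 = e ^ 2 * (e ^ 2) ^ 3 := by ring
      rw [this]
      have h5 : 1 ≤ (e ^ 2) ^ 3 := one_le_pow₀ h3.le
      nlinarith
    have h6 : e ^ 2 * f.1 ^ 2 ≤ (e ^ 4) ^ 2 * f.1 ^ 2 := by gcongr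
    nlinarith [sq_nonneg f.1, sq_nonneg f.2.re, sq_nonneg f.2.im]
  r_sweep := fun f h => by
    simp only [re2_apply, im2_apply, Complex.smul_re, Complex.smul_im, smul_eq_mul] at h ⊢
    set q := f.1 ^ 2 + (f.2.re ^ 2 + f.2.im ^ 2) with hq
    let γ : ℝ → ℝ := fun t => (Real.exp (2 * -t) * f.1) ^ 2 +
      ((Real.exp (-t / 2) * f.2.re) ^ 2 + (Real.exp (-t / 2) * f.2.im) ^ 2)
    have hγ : Continuous γ := by fun_prop
    have h0 : γ 0 = q := by simp [γ, hq]
    have hl : 0 ≤ Real.log q := Real.log_nonneg h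
    have h1 : γ (Real.log q) ≤ 1 := by
      have e1 : Real.exp (-Real.log q / 2) ^ 2 = q⁻¹ := by
        rw [← Real.exp_nat_mul, ← Real.exp_log (inv_pos.2 (by linarith : 0 < q)), Real.log_inv]
        congr 1; push_cast; ring
      have e2 : Real.exp (2 * -Real.log q) ^ 2 ≤ q⁻¹ := by
        rw [← Real.exp_nat_mul, ← Real.exp_log (inv_pos.2 (by linarith : 0 < q)), Real.log_inv,
          Real.exp_le_exp]
        push_cast; linarith
      have e3 : γ (Real.log q) = Real.exp (2 * -Real.log q) ^ 2 * f.1 ^ 2 +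
        Real.exp (-Real.log q / 2) ^ 2 * (f.2.re ^ 2 + f.2.im ^ 2) := by
        simp only [γ]; ring
      rw [e3, e1]
      have e4 : Real.exp (2 * -Real.log q) ^ 2 * f.1 ^ 2 ≤ q⁻¹ * f.1 ^ 2 := by gcongr
      have e5 : q⁻¹ * f.1 ^ 2 + q⁻¹ * (f.2.re ^ 2 + f.2.im ^ 2) = 1 := by
        rw [← mul_add, ← hq, inv_mul_cancel₀ (by linarith)]
      linarith
    obtain ⟨t, ht, ht1⟩ := intermediate_value_Icc' hl hγ.continuousOn
      (show (1 : ℝ) ∈ Icc (γ (Real.log q)) (γ 0) from ⟨h1, by rw [h0]; exact h⟩)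
    exact ⟨t, ht.1, ht1⟩

end Pool.Agent.W630
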