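import Mathlib
import Pool.Agent.W630.Ex

/-!
# The product fibration
-/

open scoped Topology ContDiff Manifold Matrix
open Set

noncomputable section

namespace Pool.Agent.W630

/-- The total space. -/
abbrev XX : Type := Qt (Gam 1) ((ℝ × ℂ) × P)

/-- The fibre. -/
abbrev WW : Type := Qt (Gam 1) (ℝ × P)

/-- The Liouville structure of the total space. -/
def modX : LiouvilleManifold ((ℝ × ℂ) × P) XX := model D₂ 1

/-- The Liouville structure of the fibre. -/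
def modW : LiouvilleManifold (ℝ × P) WW := model D₁ 1

/-- The inclusion of the fibre, upstairs. -/
def incU (z : ℂ) (v : ℝ × P) : (ℝ × ℂ) × P := ((v.1, z), v.2)

/-- The vertical projection, upstairs. -/
def verU (v : (ℝ × ℂ) × P) : ℝ × P := (v.1.1, v.2)

lemma incU_eq (z : ℂ) (g : Gam 1) (v : ℝ × P) : ∃ g' : Gam 1, incU z (g • v) = g' • incU z v :=
  ⟨g, rfl⟩

lemma verU_eq (g : Gam 1) (v : (ℝ × ℂ) × P) : ∃ g' : Gam 1, verU (g • v) = g' • verU v :=
  ⟨g, rfl⟩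

lemma contDiff_incU (z : ℂ) : ContDiff ℝ ∞ (incU z) := by unfold incU; fun_prop

lemma contDiff_verU : ContDiff ℝ ∞ verU := by unfold verU; fun_prop

lemma fderiv_incU (z : ℂ) (v u : ℝ × P) : fderiv ℝ (incU z) v u = ((u.1, 0), u.2) := by
  have h : HasFDerivAt (incU z) (((ContinuousLinearMap.fst ℝ ℝ P).prod 0).prod
      (ContinuousLinearMap.snd ℝ ℝ P)) v :=
    (hasFDerivAt_fst.prodMk (hasFDerivAt_const z v)).prodMk hasFDerivAt_snd
  rw [h.fderiv]; rfl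

/-- The inclusion of the fibre. -/
def incX (z : ℂ) : WW → XX := descM (Gam 1) (Gam 1) (incU z)

/-- The vertical projection. -/
def verX : XX → WW := descM (Gam 1) (Gam 1) verU

lemma incX_qm (z : ℂ) (v : ℝ × P) : incX z (qm (Gam 1) v) = qm (Gam 1) ((v.1, z), v.2) :=
  descM_qm (incU_eq z) v

lemma verX_qm (v : (ℝ × ℂ) × P) : verX (qm (Gam 1) v) = qm (Gam 1) (v.1.1, v.2) :=
  descM_qm verU_eq v

lemma contMDiff_incX (z : ℂ) : ContMDiff 𝓘(ℝ, ℝ × P) 𝓘(ℝ, (ℝ × ℂ) × P) ∞ (incX z) :=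
  contMDiff_descM (incU_eq z) (contDiff_incU z)

lemma contMDiff_verX : ContMDiff 𝓘(ℝ, (ℝ × ℂ) × P) 𝓘(ℝ, ℝ × P) ∞ verX :=
  contMDiff_descM verU_eq contDiff_verU

lemma verX_incX (z : ℂ) (w : WW) : verX (incX z w) = w := by
  obtain ⟨v, rfl⟩ := qm_surj w
  rw [incX_qm, verX_qm]

lemma prF_incX (z : ℂ) (w : WW) : prF (incX z w) = (prF w, z) := by
  obtain ⟨v, rfl⟩ := qm_surj w
  rw [incX_qm, prF_qm, prF_qm]

lemma incX_verX (x : XX) : incX (prF x).2 (verX x) = x := by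
  obtain ⟨v, rfl⟩ := qm_surj x
  rw [verX_qm, incX_qm, prF_qm]

lemma prF_verX (x : XX) : prF (verX x) = (prF x).1 := by
  obtain ⟨v, rfl⟩ := qm_surj x
  rw [verX_qm, prF_qm, prF_qm]

/-- The projection to `ℂ`. -/
def prX (x : XX) : ℂ := (prF x).2

lemma contMDiff_prX : ContMDiff 𝓘(ℝ, (ℝ × ℂ) × P) 𝓘(ℝ, ℂ) ∞ prX :=
  (contDiff_snd.contMDiff (𝕜 := ℝ) (n := ∞)).comp contMDiff_prF

lemma mfderiv_prX (v u : (ℝ × ℂ) × P) :
    (show ℂ from mfderiv 𝓘(ℝ, (ℝ × ℂ) × P) 𝓘(ℝ, ℂ) prX (qm (Gam 1) v) (dq (Gam 1) v u)) = u.1.2 := by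
  have := mfderiv_prF_comp (k := 1) (h := fun f : ℝ × ℂ => f.2) contDiff_snd v u
  refine this.trans ?_
  rw [fderiv_snd]
  rfl

lemma surj_prX (x : XX) :
    Function.Surjective (mfderiv 𝓘(ℝ, (ℝ × ℂ) × P) 𝓘(ℝ, ℂ) prX x) := by
  obtain ⟨v, rfl⟩ := qm_surj x
  intro z
  exact ⟨dq (Gam 1) v ((0, z), 0), mfderiv_prX v _⟩

/-- The trivialisation. -/
def trX (p : ℂ × WW) : XX := incX p.1 p.2

lemma contMDiff_trX : ContMDiff (𝓘(ℝ, ℂ).prod 𝓘(ℝ, ℝ × P)) 𝓘(ℝ, (ℝ × ℂ) × P) ∞ trX := by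
  rintro ⟨z, w⟩
  obtain ⟨v, rfl⟩ := qm_surj w
  have h1 : ContMDiffAt (𝓘(ℝ, ℂ).prod 𝓘(ℝ, ℝ × P)) 𝓘(ℝ, ℝ × P) ∞
      (fun p : ℂ × WW => sec (Gam 1) (ℝ × P) v p.2) (z, qm (Gam 1) v) :=
    (contMDiffAt_sec (mem_sec_source v)).comp (z, qm (Gam 1) v) contMDiffAt_snd
  have h2 : ContMDiffAt (𝓘(ℝ, ℂ).prod 𝓘(ℝ, ℝ × P)) 𝓘(ℝ, ℂ × (ℝ × P)) ∞
      (fun p : ℂ × WW => (p.1, sec (Gam 1) (ℝ × P) v p.2)) (z, qm (Gam 1) v) :=
    contMDiffAt_fst.prodMk_space h1
  have h3 : ContDiff ℝ ∞ (fun q : ℂ × (ℝ × P) => (((q.2.1, q.1), q.2.2) : (ℝ × ℂ) × P)) := by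
    fun_prop
  have h4 := ((contMDiff_qm (G := Gam 1)).comp h3.contMDiff).contMDiffAt.comp (z, qm (Gam 1) v) h2
  refine h4.congr_of_eventuallyEq ?_
  have h5 : {p : ℂ × WW | p.2 ∈ (sec (Gam 1) (ℝ × P) v).source} ∈ 𝓝 (z, qm (Gam 1) v) :=
    ((sec (Gam 1) (ℝ × P) v).open_source.preimage continuous_snd).mem_nhds (mem_sec_source v)
  filter_upwards [h5] with p hp
  have h6 : qm (Gam 1) (sec (Gam 1) (ℝ × P) v p.2) = p.2 := qm_sec hp
  show incX p.1 p.2 = _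
  rw [← h6, incX_qm]
  rfl


/-- The differential of `trX`. -/
lemma mfderiv_trX (z : ℂ) (v : ℝ × P) (a : ℂ) (u : ℝ × P) :
    (show (ℝ × ℂ) × P from mfderiv (𝓘(ℝ, ℂ).prod 𝓘(ℝ, ℝ × P)) 𝓘(ℝ, (ℝ × ℂ) × P) trX
      (z, qm (Gam 1) v) (a, dq (Gam 1) v u)) = dq (Gam 1) ((v.1, z), v.2) ((u.1, a), u.2) := by
  let Q : ℂ × (ℝ × P) → ℂ × WW := fun q => (q.1, qm (Gam 1) q.2)
  let R : ℂ × (ℝ × P) → (ℝ × ℂ) × P := fun q => ((q.2.1, q.1), q.2.2)
  have hQ : HasMFDerivAt 𝓘(ℝ, ℂ × (ℝ × P)) (𝓘(ℝ, ℂ).prod 𝓘(ℝ, ℝ × P)) Q (z, v)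
      ((ContinuousLinearMap.fst ℝ ℂ (ℝ × P)).prod
        ((dq (Gam 1) v).comp (ContinuousLinearMap.snd ℝ ℂ (ℝ × P)))) :=
    (hasFDerivAt_fst.hasMFDerivAt).prodMk
      ((mdiff_qm v).hasMFDerivAt.comp (z, v) hasFDerivAt_snd.hasMFDerivAt)
  have h1 := ((contMDiff_trX (Q (z, v))).mdifferentiableAt (by simp)).hasMFDerivAt.comp (z, v) hQ
  have hR : HasFDerivAt R ((((ContinuousLinearMap.fst ℝ ℝ P).comp
      (ContinuousLinearMap.snd ℝ ℂ (ℝ × P))).prod (ContinuousLinearMap.fst ℝ ℂ (ℝ × P))).prod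
      ((ContinuousLinearMap.snd ℝ ℝ P).comp (ContinuousLinearMap.snd ℝ ℂ (ℝ × P)))) (z, v) :=
    ((hasFDerivAt_fst.comp (z, v) hasFDerivAt_snd).prodMk hasFDerivAt_fst).prodMk
      (hasFDerivAt_snd.comp (z, v) hasFDerivAt_snd)
  have h2 : trX ∘ Q = qm (Gam 1) ∘ R := by
    funext q
    exact incX_qm q.1 q.2
  rw [h2] at h1
  have h3 := (mdiff_qm (G := Gam 1) (R (z, v))).hasMFDerivAt.comp (z, v) hR.hasMFDerivAt
  have h4 := h1.mfderiv.symm.trans h3.mfderiv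
  exact congrArg (fun L : (ℂ × (ℝ × P)) →L[ℝ] (ℝ × ℂ) × P => L (a, u)) h4

/-- Evaluation of the form at a point given up to a propositional equality. -/
lemma lamQ_eval {F : Type*} [NormedAddCommGroup F] [NormedSpace ℝ F] [FiniteDimensional ℝ F]
    {k : ℤ} [NeZero k] (D : FData F) {y : Qt (Gam k) (F × P)} {v : F × P}
    (hy : y = qm (Gam k) v) (u : F × P) :
    (lamQ D y : (F × P) →L[ℝ] ℝ) (dq (Gam k) v u) = lamV D v u := by
  subst hy
  exact descF_dq (lamV_inv D) v u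

lemma isCompact_sq (c : ℝ) : IsCompact {s : ℝ | s ^ 2 - 1 ≤ c} := by
  have hcl : IsClosed {s : ℝ | s ^ 2 - 1 ≤ c} := isClosed_le (by fun_prop) continuous_const
  refine (isCompact_closedBall (0 : ℝ) (|c| + 2)).of_isClosed_subset hcl ?_
  intro s hs
  simp only [mem_ofPred_eq] at hs
  rw [mem_closedBall_zero_iff, Real.norm_eq_abs]
  have h1 := le_abs_self c
  have h2 := abs_nonneg c
  by_contra h
  push Not at h
  have h3 : |s| ^ 2 = s ^ 2 := sq_abs s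
  nlinarith

/-- The product Lefschetz fibration. -/
def lfX : LefschetzFibration modX 3 (ℝ × P) WW where
  dim_total := by simp
  dim_fibre := by simp
  str := modX
  str_eq := ⟨∅, isCompact_empty, fun _ _ => rfl⟩
  proj := prX
  proj_smooth := contMDiff_prX
  crit_finite := by
    have : {x : XX | ¬ Function.Surjective (mfderiv 𝓘(ℝ, (ℝ × ℂ) × P) 𝓘(ℝ, ℂ) prX x)} = ∅ := by
      ext x
      simp only [mem_ofPred_eq, mem_empty_iff_false, iff_false, not_not]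
      exact surj_prX x
    rw [this]; exact finite_empty
  crit_morse := fun x hx => absurd (surj_prX x) hx
  fibre_symplectic := by
    intro x _ u hu hv
    obtain ⟨v, rfl⟩ := qm_surj x
    obtain ⟨u', rfl⟩ := dq_surjective (G := Gam 1) v u
    have hu' : u'.1.2 = 0 := (mfderiv_prX v u').symm.trans hu
    have h1 : (u'.1.1, u'.2) = (0 : ℝ × P) := by
      refine nondeg_V D₁ (v.1.1, v.2) (u'.1.1, u'.2) fun w => ?_
      have h2 := hv (dq (Gam 1) v ((w.1, 0), w.2)) (mfderiv_prX v ((w.1, 0), w.2))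
      have h3 : fderiv ℝ (lamV D₂) v u' ((w.1, 0), w.2) -
          fderiv ℝ (lamV D₂) v ((w.1, 0), w.2) u' = 0 :=
        (lamQ_dd (k := 1) D₂ v u' ((w.1, 0), w.2)).symm.trans h2
      rw [fderiv_lamV, fderiv_lamV] at h3 ⊢
      simp only [D₂, D₁, B₂_apply, hu', ContinuousLinearMap.coe_fst',
        ContinuousLinearMap.id_apply, Complex.zero_re, Complex.zero_im, mul_zero,
        sub_zero, add_zero, _root_.zero_apply] at h3 ⊢
      exact h3
    have h4 : u' = 0 := by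
      have e1 : u'.1.1 = 0 := congrArg Prod.fst h1
      have e2 : u'.2 = 0 := congrArg Prod.snd h1
      exact Prod.ext (Prod.ext e1 hu') e2
    rw [h4]; exact map_zero (dq (Gam 1) v)
  R := 1
  R_pos := one_pos
  crit_lt := fun x hx => absurd (surj_prX x) hx
  radial := by
    intro x _
    obtain ⟨v, rfl⟩ := qm_surj x
    refine ⟨1 / 2, by norm_num, ?_⟩
    have h1 : modX.field (qm (Gam 1) v) = dq (Gam 1) v (ZV D₂ v) := ZQ_qm D₂ v
    rw [h1]
    refine (mfderiv_prX v (ZV D₂ v)).trans ?_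
    show ((1 / 2 : ℝ) • v.1.2 : ℂ) = (1 / 2 : ℝ) • prX (qm (Gam 1) v)
    unfold prX
    rw [prF_qm]
  fib := fun _ => modW
  inc := incX
  inc_smooth := fun z _ => contMDiff_incX z
  inc_embedding := fun z _ =>
    (show Function.LeftInverse verX (incX z) from verX_incX z).isEmbedding
      contMDiff_verX.continuous (contMDiff_incX z).continuous
  inc_immersion := by
    intro z _ w
    obtain ⟨v, rfl⟩ := qm_surj w
    have key : Function.Injective (dM (Gam 1) (Gam 1) (incU z) v) := by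
      intro a b hab
      obtain ⟨a', rfl⟩ := dq_surjective (G := Gam 1) v a
      obtain ⟨b', rfl⟩ := dq_surjective (G := Gam 1) v b
      rw [dM_dq (incU_eq z) (contDiff_incU z), dM_dq (incU_eq z) (contDiff_incU z)] at hab
      have h1 := dq_injective _ hab
      rw [fderiv_incU, fderiv_incU] at h1
      have h2 : a'.1 = b'.1 := congrArg (fun q : (ℝ × ℂ) × P => q.1.1) h1
      have h3 : a'.2 = b'.2 := congrArg (fun q : (ℝ × ℂ) × P => q.2) h1
      rw [Prod.ext h2 h3]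
    exact key
  inc_range := by
    intro z _
    ext x
    constructor
    · rintro ⟨w, rfl⟩
      show (prF (incX z w)).2 = z
      rw [prF_incX]
    · intro hx
      have hx' : (prF x).2 = z := hx
      refine ⟨verX x, ?_⟩
      rw [← hx', incX_verX]
  inc_form := by
    intro z _
    funext w
    obtain ⟨v, rfl⟩ := qm_surj w
    ext u
    obtain ⟨u', rfl⟩ := dq_surjective (G := Gam 1) v u
    have h1 : modW.form (qm (Gam 1) v) (dq (Gam 1) v u') = lamV D₁ v u' :=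
      descF_dq (lamV_inv D₁) v u'
    rw [h1]
    have h2 : dM (Gam 1) (Gam 1) (incU z) v (dq (Gam 1) v u') =
        dq (Gam 1) (incU z v) ((u'.1, 0), u'.2) := by
      rw [dM_dq (incU_eq z) (contDiff_incU z), fderiv_incU]
    have h3 := lamQ_eval (k := 1) D₂ (incX_qm z v) ((u'.1, 0), u'.2)
    refine (Eq.trans ?_ (h3.trans ?_)).symm
    · exact congrArg (lamQ D₂ (incX z (qm (Gam 1) v)) : ((ℝ × ℂ) × P) →L[ℝ] ℝ) h2
    · rw [lamV_apply, lamV_apply]
      simp [D₂, D₁, B₂_apply]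
  height := fun w => prF w ^ 2 - 1
  height_smooth := by
    have : ContDiff ℝ ∞ (fun s : ℝ => s ^ 2 - 1) := by fun_prop
    exact this.contMDiff.comp contMDiff_prF
  height_proper := by
    intro c
    exact isCompact_prF (isCompact_sq c)
  hor := fun x => (prF x).1 ^ 2 - 1
  hor_smooth := by
    have : ContDiff ℝ ∞ (fun f : ℝ × ℂ => f.1 ^ 2 - 1) := by fun_prop
    exact this.contMDiff.comp contMDiff_prF
  hor_proper := by
    intro K c hK
    have h1 : {x : XX | prX x ∈ K ∧ (prF x).1 ^ 2 - 1 ≤ c} =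
        {x : XX | prF x ∈ {s : ℝ | s ^ 2 - 1 ≤ c} ×ˢ K} := by
      ext x
      exact and_comm
    rw [h1]
    exact isCompact_prF ((isCompact_sq c).prod hK)
  ver := verX
  ver_smooth := contMDiff_verX.contMDiffOn
  tr := trX
  tr_smooth := contMDiff_trX.contMDiffOn
  tr_ver := fun x _ => incX_verX x
  hor_eq := fun x _ => by
    show (prF x).1 ^ 2 - 1 = prF (verX x) ^ 2 - 1
    rw [prF_verX]
  proj_tr := fun z w _ => by
    show (prF (incX z w)).2 = z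
    rw [prF_incX]
  ver_tr := fun z w _ => verX_incX z w
  hor_tr := fun z w _ => by
    show (prF (incX z w)).1 ^ 2 - 1 = prF w ^ 2 - 1
    rw [prF_incX]
  baseForm := fun z => (1 / 2 : ℝ) • (z.re • Complex.imCLM - z.im • Complex.reCLM)
  endForm := lamQ D₁
  form_split := by
    intro z w _ a b
    obtain ⟨v, rfl⟩ := qm_surj w
    obtain ⟨b', rfl⟩ := dq_surjective (G := Gam 1) v b
    have h1 := mfderiv_trX z v a b'
    have h2 := lamQ_eval (k := 1) D₂ (incX_qm z v) ((b'.1, a), b'.2)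
    have h3 := lamQ_eval (k := 1) D₁ (y := qm (Gam 1) v) rfl b'
    refine Eq.trans (Eq.trans ?_ h2) ?_
    · exact congrArg (lamQ D₂ (incX z (qm (Gam 1) v)) : ((ℝ × ℂ) × P) →L[ℝ] ℝ) h1
    · refine Eq.trans ?_ (congrArg (fun r => _ + r) h3.symm)
      show _ = (1 / 2 : ℝ) * (z.re * a.im - z.im * a.re) + lamV D₁ v b'
      rw [lamV_apply, lamV_apply]
      simp [D₂, D₁, B₂_apply]
      ring

end Pool.Agent.W630
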