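import Mathlib
import Pool.Agent.W630.ExLF

/-!
# The Liouville hypersurface
-/

open scoped Topology ContDiff Manifold Matrix
open Set

noncomputable section

namespace Pool.Agent.W630

/-- The thickened hypersurface. -/
abbrev NN : Type := Qt (Gam 2) (ℝ × P)

/-- The inclusion of `Gam 2` in `Gam 1`. -/
def emb (g : Gam 2) : Gam 1 := ⟨g.n, 2 * g.m⟩

lemma actP_emb (g : Gam 2) (x : P) : actP (emb g) x = actP g x := by
  unfold actP emb Gam.pw
  simp only [one_mul]

/-- The parametrisation of the circle. -/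
def cir (t : ℝ) : ℂ := Complex.exp (((Real.pi * t : ℝ) : ℂ) * Complex.I)

lemma cir_add_two (t : ℝ) (m : ℤ) : cir (t + 2 * m) = cir t := by
  unfold cir
  have : (((Real.pi * (t + 2 * m) : ℝ) : ℂ) * Complex.I) =
      ((Real.pi * t : ℝ) : ℂ) * Complex.I + m * (2 * Real.pi * Complex.I) := by
    push_cast; ring
  rw [this, Complex.exp_add, Complex.exp_int_mul_two_pi_mul_I, mul_one]

lemma norm_cir (t : ℝ) : ‖cir t‖ = 1 := Complex.norm_exp_ofReal_mul_I _

lemma cir_ne (t : ℝ) : cir t ≠ 0 := Complex.exp_ne_zero _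

lemma cir_eq_iff {s t : ℝ} : cir s = cir t ↔ ∃ m : ℤ, s = t + 2 * m := by
  constructor
  · intro h
    obtain ⟨m, hm⟩ := Complex.exp_eq_exp_iff_exists_int.1 h
    refine ⟨m, ?_⟩
    have h1 : (((Real.pi * s : ℝ) : ℂ) * Complex.I) =
        ((Real.pi * (t + 2 * m) : ℝ) : ℂ) * Complex.I := by
      rw [hm]; push_cast; ring
    have h2 := mul_right_cancel₀ Complex.I_ne_zero h1
    have h3 : Real.pi * s = Real.pi * (t + 2 * m) := by exact_mod_cast h2
    exact mul_left_cancel₀ Real.pi_ne_zero h3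
  · rintro ⟨m, rfl⟩
    exact cir_add_two t m

lemma hasDerivAt_cir (t : ℝ) : HasDerivAt cir ((Real.pi : ℂ) * Complex.I * cir t) t := by
  have h1 : HasDerivAt (fun t : ℝ => ((Real.pi * t : ℝ) : ℂ) * Complex.I)
      ((Real.pi : ℂ) * Complex.I) t := by
    have := (((hasDerivAt_id t).const_mul Real.pi).ofReal_comp).mul_const Complex.I
    simpa using this
  have := h1.cexp
  rw [mul_comm] at this
  exact this

lemma contDiff_cir : ContDiff ℝ ∞ cir := by
  unfold cir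
  have h1 : ContDiff ℝ ∞ (fun t : ℝ => ((Real.pi * t : ℝ) : ℂ) * Complex.I) :=
    (Complex.ofRealCLM.contDiff.comp (contDiff_const.mul contDiff_id)).mul contDiff_const
  exact Complex.contDiff_exp.comp h1

/-- The map to the total space, upstairs. -/
def jU (v : ℝ × P) : (ℝ × ℂ) × P := ((v.1, cir (v.2 2)), v.2)

lemma jU_eq (g : Gam 2) (v : ℝ × P) : ∃ g' : Gam 1, jU (g • v) = g' • jU v := by
  refine ⟨emb g, ?_⟩
  unfold jU
  simp only [smul_def, actP_emb]
  have h1 : (actP g v.2) 2 = v.2 2 + 2 * g.m := by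
    have := zL_actP g v.2
    simp only [zL_apply] at this
    rw [this]; push_cast; ring
  rw [h1, cir_add_two]

lemma contDiff_jU : ContDiff ℝ ∞ jU := by
  unfold jU
  have h1 : ContDiff ℝ ∞ (fun v : ℝ × P => cir (v.2 2)) :=
    contDiff_cir.comp ((zL.contDiff).comp contDiff_snd)
  exact (contDiff_fst.prodMk h1).prodMk contDiff_snd

lemma fderiv_jU (v u : ℝ × P) : fderiv ℝ jU v u =
    ((u.1, (u.2 2 : ℝ) • ((Real.pi : ℂ) * Complex.I * cir (v.2 2))), u.2) := by
  have h1 : HasFDerivAt (fun v : ℝ × P => cir (v.2 2))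
      ((zL.comp (ContinuousLinearMap.snd ℝ ℝ P)).smulRight
        ((Real.pi : ℂ) * Complex.I * cir (v.2 2))) v := by
    have h0 : HasFDerivAt (fun v : ℝ × P => v.2 2) (zL.comp (ContinuousLinearMap.snd ℝ ℝ P)) v :=
      (zL.hasFDerivAt).comp v hasFDerivAt_snd
    have h2 := (hasDerivAt_cir (v.2 2)).hasFDerivAt.comp v h0
    refine h2.congr_fderiv ?_
    ext <;> simp
  have h : HasFDerivAt jU (((ContinuousLinearMap.fst ℝ ℝ P).prod
      ((zL.comp (ContinuousLinearMap.snd ℝ ℝ P)).smulRight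
        ((Real.pi : ℂ) * Complex.I * cir (v.2 2)))).prod (ContinuousLinearMap.snd ℝ ℝ P)) v :=
    (hasFDerivAt_fst.prodMk h1).prodMk hasFDerivAt_snd
  rw [h.fderiv]; rfl

/-- The map to the total space. -/
def jX : NN → XX := descM (Gam 2) (Gam 1) jU

lemma jX_qm (v : ℝ × P) : jX (qm (Gam 2) v) = qm (Gam 1) (jU v) := descM_qm jU_eq v

lemma contMDiff_jX : ContMDiff 𝓘(ℝ, ℝ × P) 𝓘(ℝ, (ℝ × ℂ) × P) ∞ jX :=
  contMDiff_descM jU_eq contDiff_jU


lemma field_modX (v : (ℝ × ℂ) × P) :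
    (modX.field (qm (Gam 1) v) : (ℝ × ℂ) × P) = dq (Gam 1) v (ZV D₂ v) := ZQ_qm D₂ v

/-- Evaluation of the field at a point given up to a propositional equality. -/
lemma ZQ_eval {F : Type*} [NormedAddCommGroup F] [NormedSpace ℝ F] [FiniteDimensional ℝ F]
    {k : ℤ} [NeZero k] (D : FData F) {y : Qt (Gam k) (F × P)} {v : F × P}
    (hy : y = qm (Gam k) v) : (ZQ D y : F × P) = dq (Gam k) v (ZV D v) := by
  subst hy
  exact ZQ_qm D v

lemma jX_transverse (p : NN) (v : TangentSpace 𝓘(ℝ, ℝ × P) p) (c : ℝ)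
    (h : mfderiv 𝓘(ℝ, ℝ × P) 𝓘(ℝ, (ℝ × ℂ) × P) jX p v + c • modX.field (jX p) = 0) :
    v = 0 ∧ c = 0 := by
  obtain ⟨q, rfl⟩ := qm_surj p
  obtain ⟨v', rfl⟩ := dq_surjective (G := Gam 2) q v
  have h1 : dM (Gam 2) (Gam 1) jU q (dq (Gam 2) q v') =
      dq (Gam 1) (jU q) (fderiv ℝ jU q v') := dM_dq jU_eq contDiff_jU q v'
  have h2 := ZQ_eval (k := 1) D₂ (jX_qm q)
  have h3 : dq (Gam 1) (jU q) (fderiv ℝ jU q v' + c • ZV D₂ (jU q)) = 0 := by
    rw [map_add, map_smul, ← h1, ← h2]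
    exact h
  have h4 : fderiv ℝ jU q v' + c • ZV D₂ (jU q) = 0 := by
    apply dq_injective (G := Gam 1) (jU q)
    rw [h3, map_zero]
  rw [fderiv_jU] at h4
  have h5 : (v'.2 2 : ℝ) • ((Real.pi : ℂ) * Complex.I * cir (q.2 2)) +
      c • ((1 / 2 : ℝ) • cir (q.2 2)) = 0 := congrArg (fun r : (ℝ × ℂ) × P => r.1.2) h4
  have h6 : ((v'.2 2 : ℝ) • ((Real.pi : ℂ) * Complex.I) + ((c / 2 : ℝ) : ℂ)) * cir (q.2 2) = 0 := by
    rw [← h5]
    simp only [Complex.real_smul]
    push_cast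
    ring
  have h7 := (mul_eq_zero.1 h6).resolve_right (cir_ne _)
  have h8 : c = 0 := by
    have := congrArg Complex.re h7
    simp at this
    exact this
  have h9 : v'.2 2 = 0 := by
    have := congrArg Complex.im h7
    simp at this
    exact this
  refine ⟨?_, h8⟩
  rw [h8, zero_smul, add_zero] at h4
  have h10 : v'.1 = 0 := congrArg (fun r : (ℝ × ℂ) × P => r.1.1) h4
  have h11 : v'.2 = 0 := congrArg (fun r : (ℝ × ℂ) × P => r.2) h4
  have h12 : v' = 0 := Prod.ext h10 h11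
  rw [h12]
  exact map_zero (dq (Gam 2) q)

lemma flow_modX (t : ℝ) (v : (ℝ × ℂ) × P) :
    modX.flow t (qm (Gam 1) v) = qm (Gam 1) (phV D₂ t v) := phQ_qm D₂ t v

lemma jX_injective (p q : NN) (t : ℝ) (h : modX.flow t (jX p) = jX q) : p = q := by
  obtain ⟨a, rfl⟩ := qm_surj p
  obtain ⟨b, rfl⟩ := qm_surj q
  rw [jX_qm, jX_qm, flow_modX] at h
  obtain ⟨g, hg⟩ := qm_eq_iff.1 h
  have h1 : (Real.exp (t / 2) : ℝ) • cir (a.2 2) = cir (b.2 2) :=
    congrArg (fun r : (ℝ × ℂ) × P => r.1.2) hg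
  have h2 : t = 0 := by
    have := congrArg norm h1
    rw [norm_smul, norm_cir, norm_cir, mul_one, Real.norm_eq_abs,
      abs_of_pos (Real.exp_pos _), Real.exp_eq_one_iff] at this
    linarith
  subst h2
  rw [phV_zero] at hg
  have h3 : a.1 = b.1 := congrArg (fun r : (ℝ × ℂ) × P => r.1.1) hg
  have h4 : a.2 = actP g b.2 := congrArg (fun r : (ℝ × ℂ) × P => r.2) hg
  have h5 : cir (a.2 2) = cir (b.2 2) := congrArg (fun r : (ℝ × ℂ) × P => r.1.2) hg
  obtain ⟨m, hm⟩ := cir_eq_iff.1 h5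
  have h6 : a.2 2 = b.2 2 + g.m := by
    have := zL_actP g b.2
    rw [← h4] at this
    simp only [zL_apply] at this
    rw [this]; push_cast; ring
  have h7 : g.m = 2 * m := by
    have : (g.m : ℝ) = 2 * m := by linarith
    exact_mod_cast this
  apply qm_eq_iff.2
  refine ⟨⟨g.n, m⟩, ?_⟩
  have h8 : g = emb ⟨g.n, m⟩ := by
    unfold emb
    ext1
    · rfl
    · exact h7
  refine Prod.ext h3 ?_
  rw [h4, h8, actP_emb]
  rfl

lemma jX_escapes (p : NN) : ∃ t ≥ 0, modX.flow t (jX p) ∉ modX.dom := by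
  obtain ⟨a, rfl⟩ := qm_surj p
  refine ⟨2, by norm_num, ?_⟩
  rw [jX_qm, flow_modX]
  show ¬ (D₂.r (prF (qm (Gam 1) (phV D₂ 2 (jU a)))) ≤ 1)
  rw [prF_qm]
  show ¬ ((Real.exp (2 * 2) * a.1) ^ 2 + ((((Real.exp (2 / 2) : ℝ) • cir (a.2 2)).re) ^ 2 +
    (((Real.exp (2 / 2) : ℝ) • cir (a.2 2)).im) ^ 2) ≤ 1)
  have h1 : (((Real.exp (2 / 2) : ℝ) • cir (a.2 2)).re) ^ 2 +
    (((Real.exp (2 / 2) : ℝ) • cir (a.2 2)).im) ^ 2 = Real.exp 1 ^ 2 := by
    have h2 := Complex.normSq_apply ((Real.exp (2 / 2) : ℝ) • cir (a.2 2))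
    have h3 := Complex.normSq_eq_norm_sq ((Real.exp (2 / 2) : ℝ) • cir (a.2 2))
    rw [norm_smul, norm_cir, mul_one, Real.norm_eq_abs, abs_of_pos (Real.exp_pos _)] at h3
    have h4 : (2 : ℝ) / 2 = 1 := by norm_num
    rw [h4] at h2 h3 ⊢
    nlinarith
  rw [h1]
  have h5 : 1 < Real.exp 1 := Real.one_lt_exp_iff.2 one_pos
  nlinarith [sq_nonneg (Real.exp (2 * 2) * a.1)]


/-- Evaluation of the exterior derivative at a point given up to a propositional equality. -/
lemma lamQ_dd_eval {F : Type*} [NormedAddCommGroup F] [NormedSpace ℝ F] [FiniteDimensional ℝ F]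
    {k : ℤ} [NeZero k] (D : FData F) {y : Qt (Gam k) (F × P)} {v : F × P}
    (hy : y = qm (Gam k) v) (u w : F × P) :
    dd (E := F × P) (lamQ (k := k) D) y (dq (Gam k) v u) (dq (Gam k) v w) =
      fderiv ℝ (lamV D) v u w - fderiv ℝ (lamV D) v w u := by
  subst hy
  exact lamQ_dd D v u w

lemma dd_congr {F : Type*} [NormedAddCommGroup F] [NormedSpace ℝ F] [FiniteDimensional ℝ F]
    {k : ℤ} [NeZero k] (α : OneForm (F × P) (Qt (Gam k) (F × P))) (y : Qt (Gam k) (F × P))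
    {a b a' b' : F × P} (ha : a = a') (hb : b = b') :
    dd (E := F × P) α y a b = dd (E := F × P) α y a' b' := by rw [ha, hb]

/-- The Liouville form of the hypersurface. -/
def lamN : OneForm (ℝ × P) NN := pull (G := ℝ × P) jX modX.form

lemma lamN_dd (v u w : ℝ × P) :
    dd (E := ℝ × P) lamN (qm (Gam 2) v) (dq (Gam 2) v u) (dq (Gam 2) v w) =
      fderiv ℝ (lamV D₁) v u w - fderiv ℝ (lamV D₁) v w u := by
  have h0 := Helper186.extDer_pull (I := 𝓘(ℝ, (ℝ × ℂ) × P)) (J := 𝓘(ℝ, ℝ × P)) contMDiff_jX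
    modX.form_smooth (qm (Gam 2) v) (dq (Gam 2) v u) (dq (Gam 2) v w)
  refine h0.trans ?_
  have h1 : dM (Gam 2) (Gam 1) jU v (dq (Gam 2) v u) =
      dq (Gam 1) (jU v) (fderiv ℝ jU v u) := dM_dq jU_eq contDiff_jU v u
  have h2 : dM (Gam 2) (Gam 1) jU v (dq (Gam 2) v w) =
      dq (Gam 1) (jU v) (fderiv ℝ jU v w) := dM_dq jU_eq contDiff_jU v w
  refine (dd_congr (k := 1) (lamQ D₂) (jX (qm (Gam 2) v)) h1 h2).trans ?_
  rw [lamQ_dd_eval D₂ (jX_qm v), fderiv_lamV, fderiv_lamV, fderiv_lamV, fderiv_lamV, fderiv_jU,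
    fderiv_jU]
  simp only [D₂, D₁, B₂_apply, jU, ContinuousLinearMap.coe_fst', ContinuousLinearMap.id_apply,
    Complex.smul_re, Complex.smul_im, smul_eq_mul, _root_.zero_apply]
  ring

lemma lamN_apply (v u : ℝ × P) :
    (lamN (qm (Gam 2) v) : (ℝ × P) →L[ℝ] ℝ) (dq (Gam 2) v u) =
      lamV D₁ v u + Real.pi / 2 * zL u.2 := by
  have h1 : dM (Gam 2) (Gam 1) jU v (dq (Gam 2) v u) =
      dq (Gam 1) (jU v) (fderiv ℝ jU v u) := dM_dq jU_eq contDiff_jU v u
  have h2 := lamQ_eval (k := 1) D₂ (jX_qm v) (fderiv ℝ jU v u)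
  rw [← h1] at h2
  refine Eq.trans (show _ = _ from h2) ?_
  rw [fderiv_jU, lamV_apply, lamV_apply]
  have h3 : (cir (v.2 2)).re * (cir (v.2 2)).re + (cir (v.2 2)).im * (cir (v.2 2)).im = 1 := by
    rw [← Complex.normSq_apply, Complex.normSq_eq_norm_sq, norm_cir, one_pow]
  simp only [D₂, D₁, B₂_apply, jU, ContinuousLinearMap.coe_fst', ContinuousLinearMap.id_apply,
    Complex.smul_re, Complex.smul_im, smul_eq_mul, _root_.zero_apply, Complex.mul_re,
    Complex.mul_im, Complex.ofReal_re, Complex.ofReal_im, Complex.I_re, Complex.I_im, zL_apply,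
    mul_zero, zero_mul, mul_one, sub_zero, zero_sub, add_zero, zero_add]
  linear_combination (Real.pi / 2 * u.2 2) * h3

lemma exists_dual (a b : ℝ) : ∃ y : P, xi y = a ∧ ze y = b ∧ zL y = 0 := by
  have hm : mu - mu⁻¹ ≠ 0 := by
    have : mu⁻¹ < 1 := inv_lt_one_of_one_lt₀ one_lt_mu
    have := one_lt_mu
    intro h; linarith
  refine ⟨![a - (mu - 2) * ((a - b) / (mu - mu⁻¹)), (a - b) / (mu - mu⁻¹), 0], ?_, ?_, ?_⟩
  · simp [xi, eigL_apply]
  · simp only [ze, eigL_apply, Matrix.cons_val]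
    have key : (mu - mu⁻¹) * ((a - b) / (mu - mu⁻¹)) = a - b := mul_div_cancel₀ _ hm
    linear_combination -key
  · simp

lemma exists_liouville_N (v : ℝ × P) : ∃ y : ℝ × P, y.1 = 2 * v.1 ∧
    IsLiouvilleVector (E := ℝ × P) lamN (qm (Gam 2) v) (dq (Gam 2) v y) := by
  obtain ⟨f, hf1, hf2, hf3⟩ := exists_dual 1 0
  set a : ℝ := Real.pi / 2 * Real.exp (cc * zL v.2) / cc with ha
  refine ⟨ZV D₁ v + (0, a • f), by simp [ZV, D₁], ?_⟩
  intro w
  obtain ⟨w', rfl⟩ := dq_surjective (G := Gam 2) v w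
  rw [lamN_dd]
  refine Eq.trans ?_ (lamN_apply v w').symm
  have h1 := liouville_V D₁ v w'
  rw [map_add, _root_.add_apply, map_add]
  have h2 : fderiv ℝ (lamV D₁) v (0, a • f) w' = 0 := by
    rw [fderiv_lamV]
    simp only [map_smul, hf3, map_zero, smul_eq_mul, mul_zero, zero_mul, add_zero,
      _root_.zero_apply]
  have h3 : fderiv ℝ (lamV D₁) v w' (0, a • f) = -(Real.pi / 2 * zL w'.2) := by
    rw [fderiv_lamV]
    simp only [map_smul, hf1, hf2, map_zero, smul_eq_mul, mul_zero, mul_one, add_zero]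
    have e1 : Real.exp (-(cc * zL v.2)) * Real.exp (cc * zL v.2) = 1 := by
      rw [← Real.exp_add]; simp
    rw [ha]
    have hc := cc_ne
    field_simp
    linear_combination (-(zL w'.2)) * e1
  rw [h2, h3]
  linarith


/-- The compact hypersurface. -/
def domN : Set NN := {p | prF p ^ 2 - 1 ≤ 0}

lemma domN_liouville : IsLiouvilleDomain (G := ℝ × P) lamN domN where
  compact := isCompact_prF (isCompact_sq 0)
  nondegenerate := by
    intro x _
    obtain ⟨v, rfl⟩ := qm_surj x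
    intro u hu
    obtain ⟨u', rfl⟩ := dq_surjective (G := Gam 2) v u
    have h1 : u' = 0 := nondeg_V D₁ v u' fun w => by
      rw [← lamN_dd]; exact hu (dq (Gam 2) v w)
    rw [h1]; exact map_zero (dq (Gam 2) v)
  boundary := by
    intro x hx
    have hsm : ContDiff ℝ ∞ (fun s : ℝ => s ^ 2 - 1) := by fun_prop
    have hc : Continuous fun x : NN => prF x ^ 2 - 1 :=
      hsm.continuous.comp contMDiff_prF.continuous
    have h1 : prF x ^ 2 - 1 = 0 := frontier_le_subset_eq hc continuous_const hx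
    obtain ⟨v, rfl⟩ := qm_surj x
    obtain ⟨y, hy1, hy2⟩ := exists_liouville_N v
    refine ⟨dq (Gam 2) v y, hy2, fun y => prF y ^ 2 - 1, (hsm.contMDiff.comp contMDiff_prF) _,
      h1, Filter.Eventually.of_forall fun y => Iff.rfl, ?_⟩
    have h2 := mfderiv_prF_comp (k := 2) hsm v y
    rw [prF_qm] at h1
    have h3 : fderiv ℝ (fun s : ℝ => s ^ 2 - 1) v.1 y.1 = 4 := by
      have h4 : HasDerivAt (fun s : ℝ => s ^ 2 - 1) (2 * v.1) v.1 := by
        have := (hasDerivAt_pow 2 v.1).sub_const 1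
        simpa using this
      rw [h4.hasFDerivAt.fderiv]
      simp only [ContinuousLinearMap.toSpanSingleton_apply, smul_eq_mul, hy1]
      nlinarith
    rw [h3] at h2
    exact lt_of_lt_of_eq (by norm_num) h2.symm

/-- The Liouville hypersurface. -/
def hypX : LiouvilleHypersurface modX (ℝ × P) NN where
  dim := by simp
  map := jX
  smooth := contMDiff_jX
  transverse := jX_transverse
  injective := jX_injective
  escapes := jX_escapes
  dom := domN
  liouville := domN_liouville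

lemma isConnected_domN : IsConnected domN := by
  have h1 : domN = qm (Gam 2) '' (Icc (-1 : ℝ) 1 ×ˢ (univ : Set P)) := by
    ext x
    constructor
    · intro hx
      obtain ⟨v, rfl⟩ := qm_surj x
      have hx' : prF (qm (Gam 2) v) ^ 2 - 1 ≤ 0 := hx
      rw [prF_qm] at hx'
      refine ⟨v, ⟨⟨?_, ?_⟩, mem_univ _⟩, rfl⟩ <;> nlinarith
    · rintro ⟨v, ⟨⟨h1, h2⟩, -⟩, rfl⟩
      show prF (qm (Gam 2) v) ^ 2 - 1 ≤ 0
      rw [prF_qm]
      nlinarith
  rw [h1]
  refine IsConnected.image ?_ _ continuous_qm.continuousOn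
  exact (isConnected_Icc (by norm_num)).prod isConnected_univ

instance : ConnectedSpace XX := by
  have : Function.Surjective (qm (Gam 1) : (ℝ × ℂ) × P → XX) := qm_surj
  exact this.connectedSpace continuous_qm

end Pool.Agent.W630
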