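import Mathlib
import Pool.Agent.W630.ExHyp

/-!
# The lift of an embedding of the hypersurface in the fibre
-/

open scoped Topology ContDiff Manifold Matrix
open Set

noncomputable section

namespace Pool.Agent.W630

/-- An outward vector at a boundary point of `domN` has first component of the right sign. -/
lemma outward_sign {e : ℝ} (he : e ^ 2 = 1) {x : P} {v : ℝ × P}
    (h : OutwardAt domN (qm (Gam 2) (e, x)) (dq (Gam 2) (e, x) v)) : 0 < e * v.1 := by
  obtain ⟨ρ, hρ, hρ0, hρd, hρv⟩ := h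
  have h1 := (hρ.mdifferentiableAt (by simp)).hasMFDerivAt.comp (e, x)
    (mdiff_qm (G := Gam 2) (e, x)).hasMFDerivAt
  set L : (ℝ × P) →L[ℝ] ℝ := (show (ℝ × P) →L[ℝ] ℝ from
    (mfderiv 𝓘(ℝ, ℝ × P) 𝓘(ℝ, ℝ) ρ (qm (Gam 2) (e, x)))).comp (dq (Gam 2) (e, x)) with hL
  have h2 : HasFDerivAt (ρ ∘ qm (Gam 2)) L (e, x) := h1.hasFDerivAt
  have hLv : 0 < L v := hρv
  have hnear : ∀ᶠ q : ℝ × P in 𝓝 (e, x), q.1 ^ 2 - 1 ≤ 0 ↔ ρ (qm (Gam 2) q) ≤ 0 := by
    have := (continuous_qm (G := Gam 2) (V := ℝ × P)).continuousAt (x := (e, x)) |>.eventually hρd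
    filter_upwards [this] with q hq
    rw [← hq]
    show _ ↔ prF (qm (Gam 2) q) ^ 2 - 1 ≤ 0
    rw [prF_qm]
  -- directions pointing out of the domain
  have hdir : ∀ u : ℝ × P, 0 < e * u.1 → 0 ≤ L u := by
    intro u hu
    have h3 : HasDerivAt (fun t : ℝ => ρ (qm (Gam 2) ((e, x) + t • u))) (L u) 0 := by
      have h4 : HasDerivAt (fun t : ℝ => (e, x) + t • u) u 0 := by
        simpa using ((hasDerivAt_id (0 : ℝ)).smul_const u).const_add (e, x)
      have h5 : HasFDerivAt (ρ ∘ qm (Gam 2)) L ((e, x) + (0 : ℝ) • u) := by simpa using h2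
      exact h5.comp_hasDerivAt 0 h4
    have h6 : ∀ᶠ t : ℝ in 𝓝[>] 0, 0 ≤ ρ (qm (Gam 2) ((e, x) + t • u)) := by
      have hc : ContinuousAt (fun t : ℝ => (e, x) + t • u) 0 := by fun_prop
      have h7 : ∀ᶠ t : ℝ in 𝓝 0, ((e, x) + t • u).1 ^ 2 - 1 ≤ 0 ↔
          ρ (qm (Gam 2) ((e, x) + t • u)) ≤ 0 := by
        have := hc.eventually (p := fun q : ℝ × P => q.1 ^ 2 - 1 ≤ 0 ↔ ρ (qm (Gam 2) q) ≤ 0)
          (by simpa using hnear)
        exact this
      filter_upwards [h7.filter_mono nhdsWithin_le_nhds, self_mem_nhdsWithin] with t ht ht0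
      by_contra hneg
      push Not at hneg
      have h8 := ht.2 hneg.le
      simp only [Prod.fst_add, Prod.smul_fst, smul_eq_mul] at h8
      have ht0' : 0 < t := ht0
      nlinarith [mul_pos ht0' hu, sq_nonneg (t * u.1)]
    have h9 := h3.tendsto_slope_zero_right
    refine ge_of_tendsto h9 ?_
    filter_upwards [h6, self_mem_nhdsWithin] with t ht ht0
    have ht0' : 0 < t := ht0
    have e0 : ρ (qm (Gam 2) ((e, x) + (0 : ℝ) • u)) = 0 := by simpa using hρ0
    simp only [zero_add, e0, sub_zero, smul_eq_mul]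
    exact mul_nonneg (inv_nonneg.2 ht0'.le) ht
  have h10 : 0 ≤ L (e, 0) := hdir (e, 0) (by show 0 < e * e; nlinarith)
  have h11 : ∀ y : P, 0 ≤ L (0, y) := by
    intro y
    by_contra hneg
    push Not at hneg
    -- choose a small multiple
    have h12 : ∀ η : ℝ, 0 < η → 0 ≤ η * L (e, 0) + L (0, y) := by
      intro η hη
      have h13 := hdir (η * e, y) (by show 0 < e * (η * e); nlinarith)
      have h14 : ((η * e, y) : ℝ × P) = η • (e, (0 : P)) + (0, y) := by
        ext <;> simp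
      rw [h14, map_add, map_smul, smul_eq_mul] at h13
      exact h13
    have h15 := h12 (-L (0, y) / (2 * (L (e, 0) + 1))) (by
      apply div_pos <;> linarith)
    have h16 : -L (0, y) / (2 * (L (e, 0) + 1)) * L (e, 0) ≤ -L (0, y) / 2 := by
      rw [div_mul_eq_mul_div, div_le_div_iff₀ (by linarith) (by norm_num)]
      nlinarith
    linarith
  have h17 : L (0, v.2) = 0 := by
    have a := h11 v.2
    have b := h11 (-v.2)
    have c : ((0, -v.2) : ℝ × P) = -(0, v.2) := by ext <;> simp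
    rw [c, map_neg] at b
    linarith
  have h18 : L v = (e * v.1) * L (e, 0) := by
    have : v = (e * v.1) • (e, (0 : P)) + (0, v.2) := by
      ext
      · simp only [Prod.fst_add, Prod.smul_fst, smul_eq_mul, add_zero]
        linear_combination (-v.1) * he
      · simp
    conv_lhs => rw [this]
    rw [map_add, map_smul, h17, add_zero, smul_eq_mul]
  rw [h18] at hLv
  by_contra hneg
  push Not at hneg
  nlinarith

lemma isClosed_domN : IsClosed domN := domN_liouville.compact.isClosed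

/-- The points with first coordinate `1` or `-1` are frontier points. -/
lemma mem_frontier_domN {e : ℝ} (he : e ^ 2 = 1) (x : P) : qm (Gam 2) (e, x) ∈ frontier domN := by
  have hmem : qm (Gam 2) (e, x) ∈ domN := by
    show prF (qm (Gam 2) (e, x)) ^ 2 - 1 ≤ 0
    rw [prF_qm]; simp [he]
  refine ⟨subset_closure hmem, fun hint => ?_⟩
  have hc : ContinuousAt (fun t : ℝ => qm (Gam 2) (e * (1 + t), x)) 0 := by
    have : Continuous (fun t : ℝ => ((e * (1 + t), x) : ℝ × P)) := by fun_prop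
    exact (continuous_qm.comp this).continuousAt
  have h1 : ∀ᶠ t : ℝ in 𝓝 0, qm (Gam 2) (e * (1 + t), x) ∈ domN := by
    have : interior domN ∈ 𝓝 (qm (Gam 2) (e * (1 + 0), x)) := by
      rw [add_zero, mul_one]
      exact isOpen_interior.mem_nhds hint
    filter_upwards [hc.preimage_mem_nhds this] with t ht
    exact interior_subset ht
  obtain ⟨t, ht, ht0⟩ := ((h1.filter_mono nhdsWithin_le_nhds).and
    (self_mem_nhdsWithin : Ioi (0 : ℝ) ∈ 𝓝[>] 0)).exists
  have h2 : prF (qm (Gam 2) (e * (1 + t), x)) ^ 2 - 1 ≤ 0 := ht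
  rw [prF_qm] at h2
  have ht0' : 0 < t := ht0
  simp only [mul_pow, he, one_mul] at h2
  nlinarith

/-- A neighbourhood of `domN` contains the points with first coordinate less than `1 + δ`. -/
lemma exists_delta {U : Set NN} (hU : IsOpen U) (hd : domN ⊆ U) :
    ∃ δ > (0 : ℝ), ∀ s ∈ Ioo (-1 - δ) (1 + δ), ∀ x : P, qm (Gam 2) (s, x) ∈ U := by
  by_contra hcon
  push Not at hcon
  -- the compact set of points outside `U` with bounded first coordinate
  have hK : IsCompact ({p : NN | prF p ∈ Icc (-2 : ℝ) 2} ∩ Uᶜ) :=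
    (isCompact_prF isCompact_Icc).inter_right hU.isClosed_compl
  have hcont : ContinuousOn (fun p : NN => |prF p|) ({p : NN | prF p ∈ Icc (-2 : ℝ) 2} ∩ Uᶜ) :=
    (contMDiff_prF (k := 2) (F := ℝ)).continuous.abs.continuousOn
  have hne : ({p : NN | prF p ∈ Icc (-2 : ℝ) 2} ∩ Uᶜ).Nonempty := by
    obtain ⟨s, hs, x, hx⟩ := hcon 1 one_pos
    refine ⟨qm (Gam 2) (s, x), ?_, hx⟩
    show prF (qm (Gam 2) (s, x)) ∈ Icc (-2 : ℝ) 2
    rw [prF_qm]
    constructor <;> linarith [hs.1, hs.2]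
  obtain ⟨p, hp, hmin⟩ := hK.exists_isMinOn hne hcont
  have h1 : 1 < |prF p| := by
    by_contra h
    push Not at h
    apply hp.2
    apply hd
    show prF p ^ 2 - 1 ≤ 0
    have := abs_le.1 h
    nlinarith
  obtain ⟨s, hs, x, hx⟩ := hcon (min (|prF p| - 1) 1) (lt_min (by linarith) one_pos)
  have hs1 := hs.1
  have hs2 := hs.2
  have a1 := min_le_left (|prF p| - 1) 1
  have a2 := min_le_right (|prF p| - 1) 1
  have h3 : qm (Gam 2) (s, x) ∈ {p : NN | prF p ∈ Icc (-2 : ℝ) 2} ∩ Uᶜ := by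
    refine ⟨?_, hx⟩
    show prF (qm (Gam 2) (s, x)) ∈ Icc (-2 : ℝ) 2
    rw [prF_qm]
    constructor <;> linarith
  have h4 : |prF p| ≤ |prF (qm (Gam 2) (s, x))| := hmin h3
  rw [prF_qm] at h4
  have h5 : |s| < |prF p| := by
    rw [abs_lt]; constructor <;> linarith
  exact absurd h4 (not_le.2 h5)

/-- The relation on `ℝ³`. -/
def rel2 (x x' : P) : Prop := ∃ g : Gam 2, x = actP g x'

lemma qm2_eq_iff {s s' : ℝ} {x x' : P} :
    qm (Gam 2) (s, x) = qm (Gam 2) (s', x') ↔ s = s' ∧ rel2 x x' := by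
  rw [qm_eq_iff]
  constructor
  · rintro ⟨g, hg⟩
    exact ⟨congrArg Prod.fst hg, g, congrArg Prod.snd hg⟩
  · rintro ⟨h1, g, hg⟩
    exact ⟨g, Prod.ext h1 hg⟩

/-- The open box. -/
def boxB : Set P := {x | 0 < x 0 ∧ x 0 < 1 ∧ 0 < x 1 ∧ x 1 < 1 ∧ 0 < x 2 ∧ x 2 < 2}

lemma isOpen_boxB : IsOpen boxB := by
  have c : ∀ i : Fin 3, Continuous fun x : P => x i := fun i => continuous_apply i
  unfold boxB
  refine (isOpen_lt continuous_const (c 0)).inter <| (isOpen_lt (c 0) continuous_const).inter <|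
    (isOpen_lt continuous_const (c 1)).inter <| (isOpen_lt (c 1) continuous_const).inter <|
    (isOpen_lt continuous_const (c 2)).inter (isOpen_lt (c 2) continuous_const)

lemma boxB_nonempty : boxB.Nonempty := ⟨![1/2, 1/2, 1], by
  simp only [boxB, mem_ofPred_eq, Matrix.cons_val]; norm_num⟩

/-- A point of the open box is equivalent only to itself in the closed box. -/
lemma eq_of_rel2 {x x' : P} (hx : x ∈ boxB) (hx' : x' ∈ Icc (0 : P) ![1, 1, 2])
    (h : rel2 x x') : x = x' := by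
  obtain ⟨g, rfl⟩ := h
  obtain ⟨h0, h0', h1, h1', h2, h2'⟩ := hx
  have b0 : 0 ≤ x' 0 := hx'.1 0
  have b0' : x' 0 ≤ 1 := by simpa using hx'.2 0
  have b1 : 0 ≤ x' 1 := hx'.1 1
  have b1' : x' 1 ≤ 1 := by simpa using hx'.2 1
  have b2 : 0 ≤ x' 2 := hx'.1 2
  have b2' : x' 2 ≤ 2 := by simpa using hx'.2 2
  have e2 : actP g x' 2 = x' 2 + 2 * g.m := by
    have := zL_actP g x'
    simp only [zL_apply] at this
    rw [this]; push_cast; ring
  have hm : g.m = 0 := by
    rw [e2] at h2 h2'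
    have a1 : (g.m : ℝ) < 1 := by linarith
    have a2 : (-1 : ℝ) < g.m := by linarith
    have a1' : g.m < 1 := by exact_mod_cast a1
    have a2' : -1 < g.m := by exact_mod_cast a2
    omega
  have e0 : actP g x' 0 = x' 0 + g.n 0 := by
    simp only [actP, hm, Gam.pw_zero, lin_one, trv, Pi.add_apply, Matrix.cons_val]
  have e1 : actP g x' 1 = x' 1 + g.n 1 := by
    simp only [actP, hm, Gam.pw_zero, lin_one, trv, Pi.add_apply, Matrix.cons_val]
  have hn0 : g.n 0 = 0 := by
    rw [e0] at h0 h0'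
    have a1 : (g.n 0 : ℝ) < 1 := by linarith
    have a2 : (-1 : ℝ) < g.n 0 := by linarith
    have a1' : g.n 0 < 1 := by exact_mod_cast a1
    have a2' : -1 < g.n 0 := by exact_mod_cast a2
    omega
  have hn1 : g.n 1 = 0 := by
    rw [e1] at h1 h1'
    have a1 : (g.n 1 : ℝ) < 1 := by linarith
    have a2 : (-1 : ℝ) < g.n 1 := by linarith
    have a1' : g.n 1 < 1 := by exact_mod_cast a1
    have a2' : -1 < g.n 1 := by exact_mod_cast a2
    omega
  ext i; fin_cases i
  · show actP g x' 0 = x' 0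
    rw [e0, hn0]; simp
  · show actP g x' 1 = x' 1
    rw [e1, hn1]; simp
  · show actP g x' 2 = x' 2
    rw [e2, hm]; simp

end Pool.Agent.W630
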