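import Mathlib
import Pool.Agent.W630.Asm1

/-!
# The tube in the fibre
-/

open scoped Topology ContDiff Manifold Matrix
open Set Metric

noncomputable section

namespace Pool.Agent.W630

universe u v

/-- Conversion to the data used in the proofs. -/
def LiouvilleManifold.toLData {E : Type*} [NormedAddCommGroup E] [NormedSpace ℝ E]
    {X : Type*} [TopologicalSpace X] [ChartedSpace E X] [IsManifold 𝓘(ℝ, E) ∞ X]
    (𝓧 : LiouvilleManifold E X) : Helper186.LData 𝓘(ℝ, E) X where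
  lam := 𝓧.form
  hlam := 𝓧.form_smooth
  hnd := 𝓧.nondegenerate
  Z := 𝓧.field
  hZ := 𝓧.field_spec
  φ := 𝓧.flow
  φ0 := 𝓧.flow_zero
  hφ := 𝓧.flow_spec
  X₀ := 𝓧.dom
  hc := 𝓧.dom_compact
  hb := fun x hx => by
    obtain ⟨ρ, h1, h2, h3, h4⟩ := 𝓧.dom_boundary x hx
    exact ⟨ρ, h1.mdifferentiableAt (by simp), h2, h3, h4⟩
  hs := 𝓧.dom_sweep

variable {G : Type u} [NormedAddCommGroup G] [NormedSpace ℝ G] {W : Type v} [TopologicalSpace W]
  [ChartedSpace G W] [IsManifold 𝓘(ℝ, G) ∞ W]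

lemma finrank_fibre {n : ℕ} (L : LefschetzFibration modX n G W) : Module.finrank ℝ G = 4 := by
  have h1 := L.dim_fibre
  have h2 : Module.finrank ℝ ((ℝ × ℂ) × P) = 6 := by simp
  omega

lemma finite_fibre {n : ℕ} (L : LefschetzFibration modX n G W) : FiniteDimensional ℝ G :=
  Module.finite_of_finrank_pos (by rw [finrank_fibre L]; norm_num)

lemma t2_fibre {n : ℕ} (L : LefschetzFibration modX n G W) {z : ℂ} (hz : L.R ≤ ‖z‖) : T2Space W :=
  (L.inc_embedding z hz).t2Space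

/-- The tube in the fibre. -/
theorem exists_tube (hF : S_F.{u, v}) {n : ℕ} (L : LefschetzFibration modX n G W) {z : ℂ}
    (hz : L.R ≤ ‖z‖) {U : Set NN} {g : NN → W} (hU : IsOpen U) (hdU : domN ⊆ U)
    (hg : ContMDiffOn 𝓘(ℝ, ℝ × P) 𝓘(ℝ, G) ∞ g U) (hinj : InjOn g U)
    (himm : ∀ p ∈ U, Function.Injective (mfderiv 𝓘(ℝ, ℝ × P) 𝓘(ℝ, G) g p))
    (hout : ∀ p ∈ frontier domN, ∃ v : TangentSpace 𝓘(ℝ, ℝ × P) p,
      mfderiv 𝓘(ℝ, ℝ × P) 𝓘(ℝ, G) g p v = (L.fib z).field (g p) ∧ OutwardAt domN p v) :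
    ∃ (x₀ : P) (r : ℝ) (κ : ℝ × P → W), 0 < r ∧ ball x₀ r ⊆ boxB ∧
      ContMDiff 𝓘(ℝ, ℝ × P) 𝓘(ℝ, G) ∞ κ ∧ InjOn κ (univ ×ˢ ball x₀ r) ∧
      (∀ q ∈ (univ ×ˢ ball x₀ r : Set (ℝ × P)),
        Function.Injective (mfderiv 𝓘(ℝ, ℝ × P) 𝓘(ℝ, G) κ q)) ∧
      (∀ K ⊆ ball x₀ r, IsCompact K → IsClosed (κ '' (univ ×ˢ K))) ∧
      (∀ x, κ (0, x) = g (qm (Gam 2) (0, x))) ∧
      ∀ (σ : ℝ), ∀ x ∈ ball x₀ r, ∀ x' : P, κ (σ, x) = g (qm (Gam 2) (0, x')) →
        σ = 0 ∧ rel2 x x' := by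
  have : FiniteDimensional ℝ G := finite_fibre L
  have : T2Space W := t2_fibre L hz
  obtain ⟨δ, hδ, hδU⟩ := exists_delta hU hdU
  have hcomp : ∀ q : ℝ × P, qm (Gam 2) q ∈ U → HasMFDerivAt 𝓘(ℝ, ℝ × P) 𝓘(ℝ, G)
      (fun q => g (qm (Gam 2) q)) q
      ((mfderiv 𝓘(ℝ, ℝ × P) 𝓘(ℝ, G) g (qm (Gam 2) q)).comp
        (mfderiv 𝓘(ℝ, ℝ × P) 𝓘(ℝ, ℝ × P) (qm (Gam 2)) q)) := by
    intro q hq
    exact (((hg _ hq).contMDiffAt (hU.mem_nhds hq)).mdifferentiableAt
      (by simp)).hasMFDerivAt.comp q (mdiff_qm q).hasMFDerivAt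
  have key := hF G (finrank_fibre L) W (L.fib z).toLData δ hδ (fun q => g (qm (Gam 2) q))
    (hg.comp contMDiff_qm.contMDiffOn fun q hq => hδU q.1 hq.1 q.2)
    (by
      intro q hq
      have h1 : qm (Gam 2) q ∈ U := hδU q.1 hq.1 q.2
      rw [(hcomp q h1).mfderiv]
      exact (himm _ h1).comp (dq_injective (G := Gam 2) q))
    rel2
    (by
      intro s hs s' hs' x x'
      rw [← qm2_eq_iff]
      exact ⟨fun h => hinj (hδU s hs x) (hδU s' hs' x') h, fun h => by rw [h]⟩)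
    ⟨closedBall 0 (max 1 |((2 : ℤ) : ℝ)|), isCompact_closedBall _ _, fun x => by
      obtain ⟨g, hg⟩ := exists_small (k := 2) x
      refine ⟨actP g x, by rwa [mem_closedBall_zero_iff], g⁻¹, ?_⟩
      rw [← actP_mul, inv_mul_cancel, actP_one]⟩
    (by
      intro x
      obtain ⟨v, hv1, hv2⟩ := hout _ (mem_frontier_domN (e := 1) (by norm_num) x)
      obtain ⟨v', rfl⟩ := dq_surjective (G := Gam 2) ((1 : ℝ), x) v
      have h1 := outward_sign (e := 1) (by norm_num) hv2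
      refine ⟨v', by simpa using h1, ?_⟩
      rw [(hcomp _ (hdU (isClosed_domN.frontier_subset
        (mem_frontier_domN (e := 1) (by norm_num) x)))).mfderiv]
      exact hv1)
    (by
      intro x
      obtain ⟨v, hv1, hv2⟩ := hout _ (mem_frontier_domN (e := -1) (by norm_num) x)
      obtain ⟨v', rfl⟩ := dq_surjective (G := Gam 2) ((-1 : ℝ), x) v
      have h1 := outward_sign (e := -1) (by norm_num) hv2
      refine ⟨v', by linarith, ?_⟩
      rw [(hcomp _ (hdU (isClosed_domN.frontier_subset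
        (mem_frontier_domN (e := -1) (by norm_num) x)))).mfderiv]
      exact hv1)
    boxB isOpen_boxB boxB_nonempty
    (by
      intro x hx x' hx' h
      refine eq_of_rel2 hx ?_ h
      obtain ⟨h0, h0', h1, h1', h2, h2'⟩ := hx'
      constructor
      · intro i; fin_cases i
        · exact h0.le
        · exact h1.le
        · exact h2.le
      · intro i; fin_cases i
        · simpa using h0'.le
        · simpa using h1'.le
        · simpa using h2'.le)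
  exact key

end Pool.Agent.W630
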