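import Mathlib
import Pool.Agent.W630.Asm2

/-!
# Flow data for a Lefschetz fibration
-/

open scoped Topology ContDiff Manifold Matrix
open Set Metric

noncomputable section

namespace Pool.Agent.W630

universe u v

/-- Rotation of the base. -/
lemma exists_rotation {C : Set ℂ} (hC : C.Finite) {z : ℂ} (hz : ∀ c ∈ C, ‖c‖ < ‖z‖) :
    ∃ a : ℂ, a ≠ 0 ∧ (∀ c ∈ C, (a * c).re < (a * z).re) ∧
      ∀ c ∈ C, ∀ c' ∈ C, (a * c).im = (a * c').im → c = c' := by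
  rcases C.eq_empty_or_nonempty with rfl | hne
  · exact ⟨1, one_ne_zero, by simp, by simp⟩
  have hz0 : z ≠ 0 := by
    obtain ⟨c, hc⟩ := hne
    have := (norm_nonneg c).trans_lt (hz c hc)
    exact norm_pos_iff.1 this
  let a : ℝ → ℂ := fun ε => (starRingEnd ℂ) z * (1 + ε * Complex.I)
  have ha : Continuous a := by fun_prop
  have ha0 : a 0 = (starRingEnd ℂ) z := by simp [a]
  have h1 : ∀ᶠ ε : ℝ in 𝓝 0, a ε ≠ 0 := by
    apply ha.continuousAt.eventually_ne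
    rw [ha0]; simpa using hz0
  have h2 : ∀ᶠ ε : ℝ in 𝓝 0, ∀ c ∈ C, (a ε * c).re < (a ε * z).re := by
    rw [Filter.eventually_all_finite hC]
    intro c hc
    have hcont1 : Continuous fun ε => (a ε * c).re := by fun_prop
    have hcont2 : Continuous fun ε => (a ε * z).re := by fun_prop
    apply hcont1.continuousAt.eventually_lt hcont2.continuousAt
    rw [ha0]
    have e1 : ((starRingEnd ℂ) z * z).re = ‖z‖ ^ 2 := by
      rw [mul_comm, Complex.mul_conj, Complex.ofReal_re, Complex.normSq_eq_norm_sq]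
    have e2 : ((starRingEnd ℂ) z * c).re ≤ ‖z‖ * ‖c‖ := by
      refine (Complex.re_le_norm _).trans ?_
      rw [norm_mul, RCLike.norm_conj]
    rw [e1]
    have := hz c hc
    have h3 : 0 < ‖z‖ := norm_pos_iff.2 hz0
    nlinarith
  have h3 : ∀ c ∈ C, ∀ c' ∈ C, ∀ᶠ ε : ℝ in 𝓝[>] 0,
      (a ε * c).im = (a ε * c').im → c = c' := by
    intro c hc c' hc'
    by_cases hcc : c = c'
    · exact Filter.Eventually.of_forall fun _ _ => hcc
    · set d := (starRingEnd ℂ) z * (c - c') with hd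
      have hd0 : d ≠ 0 := mul_ne_zero (by simpa using hz0) (sub_ne_zero.2 hcc)
      have key : ∀ ε : ℝ, (a ε * c).im - (a ε * c').im = d.im + ε * d.re := by
        intro ε
        have : a ε * c - a ε * c' = d + (ε : ℂ) * (Complex.I * d) := by
          simp only [a, hd]; ring
        rw [← Complex.sub_im, this]
        simp
      have key2 : ∀ᶠ ε : ℝ in 𝓝[>] 0, d.im + ε * d.re ≠ 0 := by
        by_cases h : d.im = 0
        · have hre : d.re ≠ 0 := fun h' => hd0 (Complex.ext h' h)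
          filter_upwards [self_mem_nhdsWithin] with ε hε
          rw [h, zero_add]
          exact mul_ne_zero (ne_of_gt hε) hre
        · have hcont : Continuous fun ε : ℝ => d.im + ε * d.re := by fun_prop
          have : ∀ᶠ ε : ℝ in 𝓝 0, d.im + ε * d.re ≠ 0 := by
            apply hcont.continuousAt.eventually_ne
            simpa using h
          exact this.filter_mono nhdsWithin_le_nhds
      filter_upwards [key2] with ε hε heq
      exact absurd (by rw [← key, heq, sub_self]) hε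
  have h4 : ∀ᶠ ε : ℝ in 𝓝[>] 0, ∀ c ∈ C, ∀ c' ∈ C, (a ε * c).im = (a ε * c').im → c = c' := by
    rw [Filter.eventually_all_finite hC]
    intro c hc
    rw [Filter.eventually_all_finite hC]
    intro c' hc'
    exact h3 c hc c' hc'
  obtain ⟨ε, ⟨e1, e2⟩, e3⟩ := (((h1.and h2).filter_mono nhdsWithin_le_nhds).and h4).exists
  exact ⟨a ε, e1, e2, e3⟩

section Lift

variable {E : Type u} [NormedAddCommGroup E] [NormedSpace ℝ E] [FiniteDimensional ℝ E]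
  {X : Type v} [TopologicalSpace X] [ChartedSpace E X] [IsManifold 𝓘(ℝ, E) ∞ X]

/-- The initial velocity of a family of maps starting at the identity. -/
lemma exists_velocity (R : ℝ × X → X) {D : Set (ℝ × X)} (hD : IsOpen D)
    (hR : ContMDiffOn (𝓘(ℝ, ℝ).prod 𝓘(ℝ, E)) 𝓘(ℝ, E) ∞ R D) {x : X} (hx : ((0 : ℝ), x) ∈ D)
    (h0 : ∀ᶠ y in 𝓝 x, R (0, y) = y) :
    ∃ V : (y : X) → TangentSpace 𝓘(ℝ, E) y,
      (∀ᶠ y in 𝓝 x, ContMDiffAt 𝓘(ℝ, E) 𝓘(ℝ, E).tangent ∞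
        (fun y => (⟨y, V y⟩ : TangentBundle 𝓘(ℝ, E) X)) y) ∧
      ∀ᶠ y in 𝓝 x, ∀ {E' : Type} [NormedAddCommGroup E'] [NormedSpace ℝ E'] (f : X → E') (c : E'),
        ContMDiff 𝓘(ℝ, E) 𝓘(ℝ, E') ∞ f → HasDerivAt (fun t : ℝ => f (R (t, y))) c 0 →
        (show E' from mfderiv 𝓘(ℝ, E) 𝓘(ℝ, E') f y (V y)) = c := by
  let V : (y : X) → TangentSpace 𝓘(ℝ, E) y := fun y =>
    (show E from Helper186.dS 𝓘(ℝ, E) R 0 y)
  have hVeq : ∀ y, R (0, y) = y → (⟨y, V y⟩ : TangentBundle 𝓘(ℝ, E) X) =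
      ⟨R (0, y), Helper186.dS 𝓘(ℝ, E) R 0 y⟩ := by
    intro y hy
    have key : ∀ (y' : X) (w : E), y' = y →
      (⟨y, (show TangentSpace 𝓘(ℝ, E) y from w)⟩ : TangentBundle 𝓘(ℝ, E) X) =
        ⟨y', (show TangentSpace 𝓘(ℝ, E) y' from w)⟩ := by
      rintro y' w rfl; rfl
    exact key _ _ hy
  refine ⟨V, ?_, ?_⟩
  · have h4 : ∀ᶠ y in 𝓝 x, ((0 : ℝ), y) ∈ D := by
      have : Continuous fun y : X => ((0 : ℝ), y) := by fun_prop
      exact this.continuousAt.preimage_mem_nhds (hD.mem_nhds hx)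
    filter_upwards [eventually_eventually_nhds.2 h0, h4] with z hz0 hz
    have h1 := Helper186.contMDiffAt_dS (I := 𝓘(ℝ, E)) (J := 𝓘(ℝ, E)) hD hR hz
    have h2 : ContMDiffAt 𝓘(ℝ, E) (𝓘(ℝ, ℝ).prod 𝓘(ℝ, E)) ∞ (fun y : X => ((0 : ℝ), y)) z :=
      contMDiffAt_const.prodMk contMDiffAt_id
    have h3 := h1.comp z h2
    refine h3.congr_of_eventuallyEq ?_
    filter_upwards [hz0] with y hy
    exact hVeq y hy
  · have h4 : ∀ᶠ y in 𝓝 x, ((0 : ℝ), y) ∈ D := by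
      have : Continuous fun y : X => ((0 : ℝ), y) := by fun_prop
      exact this.continuousAt.preimage_mem_nhds (hD.mem_nhds hx)
    filter_upwards [h0, h4] with y hy hyD
    intro E' _ _ f c hf hder
    have h5 : MDifferentiableAt 𝓘(ℝ, ℝ) 𝓘(ℝ, E) (fun t : ℝ => R (t, y)) 0 := by
      have h6 : MDifferentiableAt (𝓘(ℝ, ℝ).prod 𝓘(ℝ, E)) 𝓘(ℝ, E) R ((0 : ℝ), y) :=
        (hR.contMDiffAt (hD.mem_nhds hyD)).mdifferentiableAt (by simp)
      have h7 : MDifferentiableAt 𝓘(ℝ, ℝ) (𝓘(ℝ, ℝ).prod 𝓘(ℝ, E)) (fun t : ℝ => (t, y)) 0 :=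
        mdifferentiableAt_id.prodMk mdifferentiableAt_const
      exact h6.comp (0 : ℝ) h7
    have h8 := ((hf (R (0, y))).mdifferentiableAt (by simp)).hasMFDerivAt.comp (0 : ℝ)
      h5.hasMFDerivAt
    have h9 : HasFDerivAt (fun t : ℝ => f (R (t, y))) ((show E →L[ℝ] E' from
        mfderiv 𝓘(ℝ, E) 𝓘(ℝ, E') f (R (0, y))).comp (show ℝ →L[ℝ] E from
        mfderiv 𝓘(ℝ, ℝ) 𝓘(ℝ, E) (fun t : ℝ => R (t, y)) 0)) (0 : ℝ) := h8.hasFDerivAt
    have h10 := h9.hasDerivAt.unique hder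
    have key : ∀ (y' : X) (w : E), y' = y →
        (show E' from mfderiv 𝓘(ℝ, E) 𝓘(ℝ, E') f y' (show TangentSpace 𝓘(ℝ, E) y' from w)) =
        (show E' from mfderiv 𝓘(ℝ, E) 𝓘(ℝ, E') f y (show TangentSpace 𝓘(ℝ, E) y from w)) := by
      rintro y' w rfl; rfl
    exact (key _ _ hy).symm.trans h10

end Lift


/-- Multiplication by a complex number, as a real linear map. -/
def mulL (a : ℂ) : ℂ →L[ℝ] ℂ := (ContinuousLinearMap.mul ℝ ℂ) a

lemma mulL_apply (a b : ℂ) : mulL a b = a * b := rfl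

section Flow

variable {G : Type u} [NormedAddCommGroup G] [NormedSpace ℝ G] {W : Type v} [TopologicalSpace W]
  [ChartedSpace G W] [IsManifold 𝓘(ℝ, G) ∞ W]

lemma n_eq_three {n : ℕ} (L : LefschetzFibration modX n G W) : n = 3 := by
  have h1 := L.dim_total
  have h2 : Module.finrank ℝ ((ℝ × ℂ) × P) = 6 := by simp
  omega

/-- Local lifts of the constant fields near the horizontal end. -/
lemma lift_hor {n : ℕ} (L : LefschetzFibration modX n G W) {a : ℂ} (ha : a ≠ 0) (ζ : ℂ) (x : XX)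
    (hx : 0 < L.hor x) : ∃ V : (y : XX) → TangentSpace 𝓘(ℝ, (ℝ × ℂ) × P) y, ∀ᶠ y in 𝓝 x,
      ContMDiffAt 𝓘(ℝ, (ℝ × ℂ) × P) 𝓘(ℝ, (ℝ × ℂ) × P).tangent ∞
        (fun y => (⟨y, V y⟩ : TangentBundle 𝓘(ℝ, (ℝ × ℂ) × P) XX)) y ∧
      (show ℂ from mfderiv 𝓘(ℝ, (ℝ × ℂ) × P) 𝓘(ℝ, ℂ) (fun x => a * L.proj x) y
          (V y)) = ζ ∧
        (show ℝ from mfderiv 𝓘(ℝ, (ℝ × ℂ) × P) 𝓘(ℝ, ℝ) L.hor y (V y)) = 0 := by
  let R : ℝ × XX → XX := fun p => L.tr (L.proj p.2 + p.1 • (ζ / a), L.ver p.2)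
  let D : Set (ℝ × XX) := {p | 0 < L.hor p.2}
  have hD : IsOpen D := isOpen_lt continuous_const (L.hor_smooth.continuous.comp continuous_snd)
  have hR : ContMDiffOn (𝓘(ℝ, ℝ).prod 𝓘(ℝ, (ℝ × ℂ) × P)) 𝓘(ℝ, (ℝ × ℂ) × P) ∞ R D := by
    have h1 : ContMDiffOn (𝓘(ℝ, ℝ).prod 𝓘(ℝ, (ℝ × ℂ) × P)) 𝓘(ℝ, ℂ) ∞
        (fun p : ℝ × XX => L.proj p.2 + p.1 • (ζ / a)) D := by
      have a1 : ContMDiff (𝓘(ℝ, ℝ).prod 𝓘(ℝ, (ℝ × ℂ) × P)) 𝓘(ℝ, ℂ) ∞
          (fun p : ℝ × XX => L.proj p.2) := L.proj_smooth.comp contMDiff_snd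
      have a2 : ContMDiff (𝓘(ℝ, ℝ).prod 𝓘(ℝ, (ℝ × ℂ) × P)) 𝓘(ℝ, ℂ) ∞
          (fun p : ℝ × XX => p.1 • (ζ / a)) := contMDiff_fst.smul contMDiff_const
      exact (a1.add a2).contMDiffOn
    have h2 : ContMDiffOn (𝓘(ℝ, ℝ).prod 𝓘(ℝ, (ℝ × ℂ) × P)) 𝓘(ℝ, G) ∞
        (fun p : ℝ × XX => L.ver p.2) D :=
      L.ver_smooth.comp contMDiff_snd.contMDiffOn fun p hp => hp
    refine L.tr_smooth.comp (h1.prodMk h2) ?_
    intro p hp
    show 0 < L.height (L.ver p.2)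
    rw [← L.hor_eq _ hp]
    exact hp
  have hnear : ∀ᶠ y in 𝓝 x, 0 < L.hor y :=
    L.hor_smooth.continuous.continuousAt.eventually (isOpen_Ioi.mem_nhds hx)
  have h0 : ∀ᶠ y in 𝓝 x, R (0, y) = y := by
    filter_upwards [hnear] with y hy
    show L.tr (L.proj y + (0 : ℝ) • (ζ / a), L.ver y) = y
    rw [zero_smul, add_zero]
    exact L.tr_ver y hy
  obtain ⟨V, hV1, hV2⟩ := exists_velocity R hD hR (x := x) hx h0
  refine ⟨V, ?_⟩
  filter_upwards [hV1, hV2, hnear] with y hy1 hy hy0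
  have hh : 0 < L.height (L.ver y) := by rw [← L.hor_eq _ hy0]; exact hy0
  refine ⟨hy1, ?_, ?_⟩
  · refine hy (fun x => a * L.proj x) ζ ?_ ?_
    · exact ((mulL a).contMDiff (n := ∞)).comp L.proj_smooth
    · have e : (fun t : ℝ => a * L.proj (R (t, y))) = fun t : ℝ => a * L.proj y + t • ζ := by
        funext t
        show a * L.proj (L.tr (L.proj y + t • (ζ / a), L.ver y)) = _
        rw [L.proj_tr _ _ hh]
        simp only [Complex.real_smul]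
        field_simp
      rw [e]
      simpa using ((hasDerivAt_id (0 : ℝ)).smul_const ζ).const_add (a * L.proj y)
  · refine hy L.hor 0 L.hor_smooth ?_
    have e : (fun t : ℝ => L.hor (R (t, y))) = fun _ => L.height (L.ver y) := by
      funext t
      exact L.hor_tr _ _ hh
    rw [e]
    exact hasDerivAt_const _ _

/-- The critical points are not in the horizontal end. -/
lemma crit_hor {n : ℕ} (L : LefschetzFibration modX n G W) (x : XX)
    (hx : ¬ Function.Surjective (mfderiv 𝓘(ℝ, (ℝ × ℂ) × P) 𝓘(ℝ, ℂ) L.proj x)) : L.hor x ≤ 0 := by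
  by_contra h
  push Not at h
  apply hx
  intro ζ
  obtain ⟨V, hV⟩ := lift_hor L one_ne_zero ζ x h
  refine ⟨V x, ?_⟩
  have h1 := hV.self_of_nhds.2.1
  have e : (fun x => 1 * L.proj x) = L.proj := by funext x; rw [one_mul]
  rw [e] at h1
  exact h1

/-- Existence of the flow data. -/
theorem exists_flowData (hC : S_C.{0, 0}) {n : ℕ} (L : LefschetzFibration modX n G W) {z : ℂ}
    (hz : L.R ≤ ‖z‖) : ∃ (a : ℂ) (x₁ : ℝ), a ≠ 0 ∧ x₁ < (a * z).re ∧
      Nonempty (FlowData (E := (ℝ × ℂ) × P) (fun x : XX => a * L.proj x) x₁) := by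
  obtain rfl := n_eq_three L
  set crit := {x : XX | ¬ Function.Surjective (mfderiv 𝓘(ℝ, (ℝ × ℂ) × P) 𝓘(ℝ, ℂ) L.proj x)}
    with hcrit
  obtain ⟨a, ha, ha1, ha2⟩ := exists_rotation (L.crit_finite.image L.proj) (z := z) (by
    rintro _ ⟨x, hx, rfl⟩
    exact (L.crit_lt x hx).trans_le hz)
  have hex : ∀ᶠ x₁ in 𝓝[<] (a * z).re, x₁ < (a * z).re ∧ ∀ p ∈ crit, (a * L.proj p).re < x₁ := by
    refine Filter.Eventually.and self_mem_nhdsWithin ?_
    rw [Filter.eventually_all_finite L.crit_finite]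
    intro p hp
    have := ha1 _ (mem_image_of_mem _ hp)
    exact mem_nhdsWithin_of_mem_nhds (Ioi_mem_nhds this)
  obtain ⟨x₁, hx1, hx2⟩ := hex.exists
  refine ⟨a, x₁, ha, hx1, ?_⟩
  have hmf : ∀ x : XX, HasMFDerivAt 𝓘(ℝ, (ℝ × ℂ) × P) 𝓘(ℝ, ℂ) (fun x => a * L.proj x) x
      ((mulL a).comp (mfderiv 𝓘(ℝ, (ℝ × ℂ) × P) 𝓘(ℝ, ℂ) L.proj x)) := by
    intro x
    exact ((mulL a).hasFDerivAt.hasMFDerivAt).comp x
      ((L.proj_smooth x).mdifferentiableAt (by simp)).hasMFDerivAt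
  refine hC ((ℝ × ℂ) × P) XX (fun x => a * L.proj x)
    (((mulL a).contMDiff (n := ∞)).comp L.proj_smooth) L.hor L.hor_smooth ?_
    (fun ζ x hx => lift_hor L ha ζ x hx) crit L.crit_finite ?_ (fun p hp => crit_hor L p hp) ?_
    x₁ (fun p hp => hx2 p hp)
    (fun p hp p' hp' h => by rw [ha2 _ (mem_image_of_mem _ hp) _ (mem_image_of_mem _ hp') h])
  · intro K c hK
    have h1 : {x | a * L.proj x ∈ K ∧ L.hor x ≤ c} =
        {x | L.proj x ∈ (fun w => a⁻¹ * w) '' K ∧ L.hor x ≤ c} := by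
      ext x
      constructor
      · rintro ⟨h1, h2⟩
        exact ⟨⟨_, h1, by field_simp⟩, h2⟩
      · rintro ⟨⟨w, hw, h1⟩, h2⟩
        refine ⟨?_, h2⟩
        rw [← h1]
        convert hw using 1
        field_simp
    rw [h1]
    exact L.hor_proper _ _ (hK.image (by fun_prop))
  · intro x hx
    rw [(hmf x).mfderiv]
    have hs : Function.Surjective (mfderiv 𝓘(ℝ, (ℝ × ℂ) × P) 𝓘(ℝ, ℂ) L.proj x) := by
      by_contra h; exact hx h
    intro (ζ : ℂ)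
    obtain ⟨v, hv⟩ := hs (show ℂ from a⁻¹ * ζ)
    refine ⟨v, ?_⟩
    show mulL a (mfderiv 𝓘(ℝ, (ℝ × ℂ) × P) 𝓘(ℝ, ℂ) L.proj x v) = ζ
    rw [hv]
    show a * (a⁻¹ * ζ) = ζ
    field_simp
  · intro p hp
    obtain ⟨ψ, h1, h2, h3, h4, h5, -⟩ := L.crit_morse p hp
    obtain ⟨b, hb⟩ := IsAlgClosed.exists_pow_nat_eq a (n := 2) (by norm_num)
    have hb0 : b ≠ 0 := by rintro rfl; apply ha; rw [← hb]; simp
    have hsm : ∀ c : ℂ, ContDiff ℝ ∞ (fun q : EuclideanSpace ℂ (Fin 3) => c • q) :=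
      fun c => contDiff_const_smul c
    refine ⟨ψ.transHomeomorph (Homeomorph.smulOfNeZero b hb0), ?_, ?_, ?_, ?_, ?_⟩
    · simpa using h1
    · simp [h2]
    · exact (hsm b).contMDiff.comp_contMDiffOn h3
    · refine h4.comp (hsm b⁻¹).contMDiff.contMDiffOn ?_
      intro q hq
      simpa using hq
    · intro x hx
      have h6 := h5 x hx
      show a * L.proj x = a * L.proj p + ∑ i, ((b • ψ x) i) ^ 2
      rw [h6, mul_add, Finset.mul_sum]
      congr 1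
      refine Finset.sum_congr rfl fun i _ => ?_
      rw [PiLp.smul_apply, smul_eq_mul, mul_pow, hb]

end Flow

end Pool.Agent.W630
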