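import Mathlib
import Pool.Agent.W630.Asm3

/-!
# Extension of the tube and the closed three-form
-/

open scoped Topology ContDiff Manifold Matrix
open Set Metric MeasureTheory

noncomputable section

namespace Pool.Agent.W630

universe u v

section Ext

variable {G : Type u} [NormedAddCommGroup G] [NormedSpace ℝ G] {W : Type v} [TopologicalSpace W]
  [ChartedSpace G W] [IsManifold 𝓘(ℝ, G) ∞ W]

lemma proj_inc {n : ℕ} (L : LefschetzFibration modX n G W) {z : ℂ} (hz : L.R ≤ ‖z‖) (w : W) :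
    L.proj (L.inc z w) = z := by
  have h1 : L.inc z w ∈ L.proj ⁻¹' {z} := by
    rw [← L.inc_range z hz]; exact mem_range_self w
  exact h1

/-- Extension of the tube to the total space. -/
theorem exists_extension (hD : S_D.{0, 0}) {n : ℕ} (L : LefschetzFibration modX n G W) {z : ℂ}
    (hz : L.R ≤ ‖z‖) {a : ℂ} {x₁ : ℝ} (hx₁ : x₁ < (a * z).re)
    (D : FlowData (E := (ℝ × ℂ) × P) (fun x : XX => a * L.proj x) x₁)
    {x₀ : P} {r : ℝ} {κ : ℝ × P → W} (hr : 0 < r) (hκ : ContMDiff 𝓘(ℝ, ℝ × P) 𝓘(ℝ, G) ∞ κ)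
    (hinj : InjOn κ (univ ×ˢ ball x₀ r))
    (himm : ∀ q ∈ (univ ×ˢ ball x₀ r : Set (ℝ × P)),
        Function.Injective (mfderiv 𝓘(ℝ, ℝ × P) 𝓘(ℝ, G) κ q))
    (hcl : ∀ K ⊆ ball x₀ r, IsCompact K → IsClosed (κ '' (univ ×ˢ K))) :
    ∃ (u : P) (ε : ℝ) (O : Set XX) (Ψ : XX → P), 0 < ε ∧ closedBall u ε ⊆ ball x₀ r ∧ IsOpen O ∧
      ContMDiffOn 𝓘(ℝ, (ℝ × ℂ) × P) 𝓘(ℝ, P) ∞ Ψ O ∧
      IsClosed {x | x ∈ O ∧ Ψ x ∈ closedBall u ε} ∧
      (∀ σ : ℝ, ∀ x ∈ ball x₀ r, L.inc z (κ (σ, x)) ∈ O ∧ Ψ (L.inc z (κ (σ, x))) = x) ∧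
      ∀ y ∈ O, L.proj y = z → ∃ σ : ℝ, ∃ x ∈ ball x₀ r, y = L.inc z (κ (σ, x)) := by
  have hc : ContMDiff 𝓘(ℝ, ℝ × P) 𝓘(ℝ, (ℝ × ℂ) × P) ∞ (fun q => L.inc z (κ q)) :=
    (L.inc_smooth z hz).comp hκ
  have hce : Topology.IsClosedEmbedding (L.inc z) := by
    refine ⟨L.inc_embedding z hz, ?_⟩
    rw [L.inc_range z hz]
    exact isClosed_singleton.preimage L.proj_smooth.continuous
  obtain ⟨u, ε, O, Ψ, h1, h2, h3, h4, h5, h6, h7⟩ := hD ((ℝ × ℂ) × P) (by simp) XX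
    (fun x => a * L.proj x) (((mulL a).contMDiff (n := ∞)).comp L.proj_smooth) x₁ D (a * z) hx₁
    (fun q => L.inc z (κ q)) x₀ r hr hc.contMDiffOn
    (fun σ x _ => by show a * L.proj (L.inc z (κ (σ, x))) = a * z; rw [proj_inc L hz])
    (hce.injective.comp_injOn hinj)
    (by
      intro q hq
      have h8 := ((L.inc_smooth z hz (κ q)).mdifferentiableAt (by simp)).hasMFDerivAt.comp q
        ((hκ q).mdifferentiableAt (by simp)).hasMFDerivAt
      rw [show (fun q => L.inc z (κ q)) = L.inc z ∘ κ from rfl, h8.mfderiv]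
      exact (L.inc_immersion z hz (κ q)).comp (himm q hq))
    (by
      intro K hK hKc
      have : (fun q => L.inc z (κ q)) '' (univ ×ˢ K) = L.inc z '' (κ '' (univ ×ˢ K)) := by
        rw [← image_comp]; rfl
      rw [this]
      exact hce.isClosedMap _ (hcl K hK hKc))
  refine ⟨u, ε, O, Ψ, h1, h2, h3, h4, h5, h6, ?_⟩
  intro y hy hyz
  exact h7 y hy (by show a * L.proj y = a * z; rw [hyz])

end Ext

section Form

variable {E : Type u} [NormedAddCommGroup E] [NormedSpace ℝ E]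
  {X : Type v} [TopologicalSpace X] [ChartedSpace E X] [IsManifold 𝓘(ℝ, E) ∞ X]

open Classical in
/-- Extension by zero. -/
def extz {E' : Type*} [NormedAddCommGroup E'] (O : Set X) (h : X → E') (x : X) : E' :=
  if x ∈ O then h x else 0

lemma extz_of_mem {E' : Type*} [NormedAddCommGroup E'] {O : Set X} {h : X → E'} {x : X}
    (hx : x ∈ O) : extz O h x = h x := if_pos hx

lemma extz_of_not_mem {E' : Type*} [NormedAddCommGroup E'] {O : Set X} {h : X → E'} {x : X}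
    (hx : x ∉ O) : extz O h x = 0 := if_neg hx

lemma extz_zero_near {E' : Type*} [NormedAddCommGroup E'] {O S : Set X} {h : X → E'}
    (hS : IsClosed S) (hz : ∀ x ∈ O, x ∉ S → h x = 0) {x : X} (hx : x ∉ S) :
    extz O h =ᶠ[𝓝 x] fun _ => 0 := by
  filter_upwards [hS.isOpen_compl.mem_nhds hx] with y hy
  by_cases hyO : y ∈ O
  · rw [extz_of_mem hyO]; exact hz y hyO hy
  · exact extz_of_not_mem hyO

lemma contMDiff_extz {E' : Type*} [NormedAddCommGroup E'] [NormedSpace ℝ E'] {O S : Set X}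
    {h : X → E'} (hO : IsOpen O) (hh : ContMDiffOn 𝓘(ℝ, E) 𝓘(ℝ, E') ∞ h O) (hS : IsClosed S)
    (hSO : S ⊆ O) (hz : ∀ x ∈ O, x ∉ S → h x = 0) :
    ContMDiff 𝓘(ℝ, E) 𝓘(ℝ, E') ∞ (extz O h) := by
  intro x
  by_cases hx : x ∈ S
  · refine (hh.contMDiffAt (hO.mem_nhds (hSO hx))).congr_of_eventuallyEq ?_
    filter_upwards [hO.mem_nhds (hSO hx)] with y hy
    exact extz_of_mem hy
  · exact contMDiffAt_const.congr_of_eventuallyEq (extz_zero_near hS hz hx)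

/-- The functions defining the closed three-form on the total space. -/
theorem exists_form {O : Set X} (hO : IsOpen O) {Ψ : X → P}
    (hΨ : ContMDiffOn 𝓘(ℝ, E) 𝓘(ℝ, P) ∞ Ψ O) {u : P} {ε : ℝ} (hε : 0 < ε)
    (hS : IsClosed {x | x ∈ O ∧ Ψ x ∈ closedBall u ε}) {u' : P} {ε' : ℝ}
    (hb : closedBall u' ε' ⊆ ball u ε) {χ : P → ℝ} (hχ : ContDiff ℝ ∞ χ)
    (hχs : tsupport χ ⊆ closedBall u' ε') :
    ∃ (A : X → ℝ) (F : X → P), ContMDiff 𝓘(ℝ, E) 𝓘(ℝ, ℝ) ∞ A ∧ ContMDiff 𝓘(ℝ, E) 𝓘(ℝ, P) ∞ F ∧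
      (∀ x, ∃ L : P →L[ℝ] ℝ, mfderiv 𝓘(ℝ, E) 𝓘(ℝ, ℝ) A x = L.comp (mfderiv 𝓘(ℝ, E) 𝓘(ℝ, P) F x)) ∧
      (∀ x ∉ O, A x = 0) ∧ (∀ x ∈ O, A x = χ (Ψ x)) ∧
      ∀ x ∈ O, A x ≠ 0 → F =ᶠ[𝓝 x] fun y => Ψ y - u := by
  obtain ⟨ρ, hρ1, hρ2⟩ := exists_lt_subset_ball isClosed_closedBall hb
  set ρ' := max ρ (ε / 2) with hρ'
  have hρ'pos : 0 < ρ' := lt_of_lt_of_le (by linarith) (le_max_right _ _)
  have hρ'lt : ρ' < ε := max_lt hρ1 (by linarith)
  let χ₂ : ContDiffBump u := ⟨ρ', ε, hρ'pos, hρ'lt⟩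
  have hχ₂z : ∀ y ∉ closedBall u ε, χ₂ y = 0 := by
    intro y hy
    have : y ∉ Function.support χ₂ := by
      rw [χ₂.support_eq]
      exact fun h => hy (ball_subset_closedBall h)
    simpa using this
  have hχz : ∀ y ∉ closedBall u ρ', χ y = 0 := by
    intro y hy
    by_contra h
    have h1 : y ∈ tsupport χ := subset_tsupport _ h
    have h2 := hρ2 (hχs h1)
    exact hy (ball_subset_closedBall (ball_subset_ball (le_max_left _ _) h2))
  set S := {x | x ∈ O ∧ Ψ x ∈ closedBall u ε} with hSdef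
  have hSO : S ⊆ O := fun x hx => hx.1
  -- the smaller closed set
  set S' := {x | x ∈ O ∧ Ψ x ∈ closedBall u ρ'} with hS'def
  have hS'cl : IsClosed S' := by
    have h1 : S' = S ∩ {x | x ∈ S → Ψ x ∈ closedBall u ρ'} := by
      ext x
      constructor
      · intro hx
        exact ⟨⟨hx.1, closedBall_subset_closedBall hρ'lt.le hx.2⟩, fun _ => hx.2⟩
      · rintro ⟨h1, h2⟩
        exact ⟨h1.1, h2 h1⟩
    have h2 : S' = S ∩ Ψ ⁻¹' (closedBall u ρ') := by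
      ext x
      constructor
      · intro hx
        exact ⟨⟨hx.1, closedBall_subset_closedBall hρ'lt.le hx.2⟩, hx.2⟩
      · rintro ⟨h1, h2⟩
        exact ⟨h1.1, h2⟩
    rw [h2]
    exact (hΨ.continuousOn.mono hSO).preimage_isClosed_of_isClosed hS isClosed_closedBall
  refine ⟨extz O (fun x => χ (Ψ x)), extz O (fun x => χ₂ (Ψ x) • (Ψ x - u)), ?_, ?_, ?_,
    fun x hx => extz_of_not_mem hx, fun x hx => extz_of_mem hx, ?_⟩
  · refine contMDiff_extz hO (hχ.contMDiff.comp_contMDiffOn hΨ) hS'cl (fun x hx => hx.1) ?_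
    intro x hxO hx
    exact hχz _ fun h => hx ⟨hxO, h⟩
  · refine contMDiff_extz hO ?_ hS hSO ?_
    · have h1 : ContDiff ℝ ∞ (fun y : P => χ₂ y • (y - u)) :=
        χ₂.contDiff.smul (contDiff_id.sub contDiff_const)
      exact h1.contMDiff.comp_contMDiffOn hΨ
    · intro x hxO hx
      rw [hχ₂z _ fun h => hx ⟨hxO, h⟩, zero_smul]
  · intro x
    by_cases hx : x ∈ O ∧ Ψ x ∈ ball u ρ'
    · refine ⟨fderiv ℝ χ (Ψ x), ?_⟩
      have hxO := hx.1
      have hΨx : ContMDiffAt 𝓘(ℝ, E) 𝓘(ℝ, P) ∞ Ψ x := hΨ.contMDiffAt (hO.mem_nhds hxO)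
      have h2 : extz O (fun x => χ₂ (Ψ x) • (Ψ x - u)) =ᶠ[𝓝 x] fun y => Ψ y - u := by
        filter_upwards [hO.mem_nhds hxO, hΨx.continuousAt.preimage_mem_nhds
          (isOpen_ball.mem_nhds hx.2)] with y hy1 hy2
        rw [extz_of_mem hy1, χ₂.one_of_mem_closedBall (ball_subset_closedBall hy2), one_smul]
      have h3 : extz O (fun x => χ (Ψ x)) =ᶠ[𝓝 x] fun y => χ (Ψ y) := by
        filter_upwards [hO.mem_nhds hxO] with y hy1
        rw [extz_of_mem hy1]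
      have h4 := (hΨx.mdifferentiableAt (by simp)).hasMFDerivAt
      have h5 : HasMFDerivAt 𝓘(ℝ, E) 𝓘(ℝ, ℝ) (fun y => χ (Ψ y)) x
          ((fderiv ℝ χ (Ψ x)).comp (mfderiv 𝓘(ℝ, E) 𝓘(ℝ, P) Ψ x)) :=
        (((hχ.differentiable (by simp)) (Ψ x)).hasFDerivAt.hasMFDerivAt).comp x h4
      have h6 : HasMFDerivAt 𝓘(ℝ, E) 𝓘(ℝ, P) (fun y => Ψ y - u) x
          (mfderiv 𝓘(ℝ, E) 𝓘(ℝ, P) Ψ x) := by
        have h7 := (((hasFDerivAt_id (Ψ x)).sub_const u).hasMFDerivAt).comp x h4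
        exact h7
      rw [(h5.congr_of_eventuallyEq h3).mfderiv, (h6.congr_of_eventuallyEq h2).mfderiv]
    · refine ⟨0, ?_⟩
      have h8 : extz O (fun x => χ (Ψ x)) =ᶠ[𝓝 x] fun _ => 0 := by
        have hS''cl : IsClosed {x | x ∈ O ∧ Ψ x ∈ closedBall u' ε'} := by
          have h2 : {x | x ∈ O ∧ Ψ x ∈ closedBall u' ε'} = S ∩ Ψ ⁻¹' (closedBall u' ε') := by
            ext x
            constructor
            · intro hx
              exact ⟨⟨hx.1, ball_subset_closedBall (hb hx.2)⟩, hx.2⟩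
            · rintro ⟨h1, h2⟩
              exact ⟨h1.1, h2⟩
          rw [h2]
          exact (hΨ.continuousOn.mono hSO).preimage_isClosed_of_isClosed hS isClosed_closedBall
        refine extz_zero_near hS''cl ?_ ?_
        · intro y hyO hy
          by_contra h
          exact hy ⟨hyO, hχs (subset_tsupport _ h)⟩
        · rintro ⟨h1, h2⟩
          exact hx ⟨h1, ball_subset_ball (le_max_left _ _) (hρ2 h2)⟩
      rw [h8.mfderiv_eq, mfderiv_const]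
      rfl
  · intro x hxO hx
    rw [extz_of_mem hxO] at hx
    have h1 : Ψ x ∈ ball u ρ' :=
      ball_subset_ball (le_max_left _ _) (hρ2 (hχs (subset_tsupport _ hx)))
    have hΨx : ContMDiffAt 𝓘(ℝ, E) 𝓘(ℝ, P) ∞ Ψ x := hΨ.contMDiffAt (hO.mem_nhds hxO)
    filter_upwards [hO.mem_nhds hxO, hΨx.continuousAt.preimage_mem_nhds
      (isOpen_ball.mem_nhds h1)] with y hy1 hy2
    rw [extz_of_mem hy1, χ₂.one_of_mem_closedBall (ball_subset_closedBall hy2), one_smul]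

end Form

end Pool.Agent.W630
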