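import Mathlib
import Pool.Agent.W630.Asm4

/-!
# Comparison of the flows at infinity
-/

open scoped Topology ContDiff Manifold Matrix
open Set Metric MeasureTheory

noncomputable section

namespace Pool.Agent.W630

universe u v

instance : T2Space XX := inferInstance

/-- The data of the adapted Liouville structure agree with the given ones outside of `K`. -/
structure AgreeOff (𝓨 : LiouvilleManifold ((ℝ × ℂ) × P) XX) (K : Set XX) : Prop where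
  compact : IsCompact K
  form_eq : ∀ x ∉ K, 𝓨.form x = modX.form x

variable {𝓨 : LiouvilleManifold ((ℝ × ℂ) × P) XX} {K : Set XX}

lemma dd_eq_off (h : AgreeOff 𝓨 K) {x : XX} (hx : x ∉ K)
    (u v : TangentSpace 𝓘(ℝ, (ℝ × ℂ) × P) x) : dd 𝓨.form x u v = dd modX.form x u v := by
  have h1 : Helper186.chartForm 𝓘(ℝ, (ℝ × ℂ) × P) 𝓨.form x =ᶠ[𝓝 (extChartAt 𝓘(ℝ, (ℝ × ℂ) × P) x x)]
      Helper186.chartForm 𝓘(ℝ, (ℝ × ℂ) × P) modX.form x := by
    have hc : ContinuousAt (extChartAt 𝓘(ℝ, (ℝ × ℂ) × P) x).symm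
        (extChartAt 𝓘(ℝ, (ℝ × ℂ) × P) x x) := continuousAt_extChartAt_symm x
    have h2 : Kᶜ ∈ 𝓝 ((extChartAt 𝓘(ℝ, (ℝ × ℂ) × P) x).symm
        (extChartAt 𝓘(ℝ, (ℝ × ℂ) × P) x x)) := by
      rw [extChartAt_to_inv]
      exact h.compact.isClosed.isOpen_compl.mem_nhds hx
    filter_upwards [hc.preimage_mem_nhds h2] with y hy
    unfold Helper186.chartForm
    rw [h.form_eq _ hy]
  show Helper186.extDer _ _ _ _ _ = Helper186.extDer _ _ _ _ _
  unfold Helper186.extDer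
  rw [h1.fderiv_eq]

lemma field_eq_off (h : AgreeOff 𝓨 K) {x : XX} (hx : x ∉ K) : 𝓨.field x = modX.field x := by
  have h1 : ∀ v, dd modX.form x (𝓨.field x) v = dd modX.form x (modX.field x) v := by
    intro v
    rw [← dd_eq_off h hx, 𝓨.field_spec, modX.field_spec, h.form_eq x hx]
  have h2 : 𝓨.field x - modX.field x = 0 := by
    apply modX.nondegenerate x
    intro v
    have h3 : dd modX.form x (𝓨.field x - modX.field x) v =
        dd modX.form x (𝓨.field x) v - dd modX.form x (modX.field x) v := by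
      show Helper186.extDerL 𝓘(ℝ, (ℝ × ℂ) × P) modX.form x (𝓨.field x - modX.field x) v =
        Helper186.extDerL 𝓘(ℝ, (ℝ × ℂ) × P) modX.form x (𝓨.field x) v -
        Helper186.extDerL 𝓘(ℝ, (ℝ × ℂ) × P) modX.form x (modX.field x) v
      rw [map_sub, _root_.sub_apply]
    rw [h3, h1, sub_self]
  exact sub_eq_zero.1 h2

/-- The two flows agree as long as the orbit stays outside of `K`. -/
lemma flow_eq_off (h : AgreeOff 𝓨 K) {x : XX} (hx : ∀ s > -1, 𝓨.flow s x ∉ K) {s : ℝ}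
    (hs : -1 < s) : 𝓨.flow s x = modX.flow s x := by
  have : IsManifold 𝓘(ℝ, (ℝ × ℂ) × P) 1 XX := IsManifold.of_le (n := ∞) (by simp)
  have hsm : ContMDiff 𝓘(ℝ, (ℝ × ℂ) × P) 𝓘(ℝ, (ℝ × ℂ) × P).tangent 1
      (fun x => (⟨x, modX.field x⟩ : TangentBundle 𝓘(ℝ, (ℝ × ℂ) × P) XX)) :=
    (modX.toLData.smooth_Z).of_le (by simp)
  have h1 : IsMIntegralCurveOn (I := 𝓘(ℝ, (ℝ × ℂ) × P)) (fun t => 𝓨.flow t x) modX.field
      (Ioo (-1) (|s| + 1)) := by
    intro t ht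
    have h2 := (𝓨.flow_spec x t).hasMFDerivWithinAt (s := Ioo (-1) (|s| + 1))
    rw [field_eq_off h (hx t ht.1)] at h2
    exact h2
  have h3 : IsMIntegralCurveOn (I := 𝓘(ℝ, (ℝ × ℂ) × P)) (fun t => modX.flow t x) modX.field
      (Ioo (-1) (|s| + 1)) := (modX.flow_spec x).isMIntegralCurveOn _
  have h4 := isMIntegralCurveOn_Ioo_eqOn_of_contMDiff_boundaryless (I := 𝓘(ℝ, (ℝ × ℂ) × P))
    (t₀ := 0) (a := -1) (b := |s| + 1) ⟨by norm_num, by positivity⟩ hsm h1 h3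
    (by show 𝓨.flow 0 x = modX.flow 0 x; rw [𝓨.flow_zero, modX.flow_zero])
  exact h4 ⟨hs, lt_of_le_of_lt (le_abs_self s) (by linarith)⟩

/-- Uniform escape from a compact set. -/
lemma exists_back (𝓨 : LiouvilleManifold ((ℝ × ℂ) × P) XX) {K : Set XX} (hK : IsCompact K) :
    ∃ t ≥ (0 : ℝ), ∀ y ∈ K, 𝓨.flow (-t) y ∈ 𝓨.dom := by
  set D := 𝓨.toLData with hD
  refine hK.induction_on (p := fun S => ∃ t ≥ (0 : ℝ), ∀ y ∈ S, 𝓨.flow (-t) y ∈ 𝓨.dom)
    ⟨0, le_rfl, by simp⟩ ?_ ?_ ?_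
  · rintro s t hst ⟨a, ha, h⟩
    exact ⟨a, ha, fun y hy => h y (hst hy)⟩
  · rintro s t ⟨a, ha, h⟩ ⟨b, hb, h'⟩
    refine ⟨a + b, by positivity, ?_⟩
    rintro y (hy | hy)
    · have h1 := D.back_inv b hb _ (h y hy)
      have h2 : D.φ (-b) (D.φ (-a) y) = D.φ (-(a + b)) y := by
        rw [← D.φ_add]; congr 1; ring
      have h3 : D.φ (-(a + b)) y ∈ D.X₀ := by rw [← h2]; exact h1
      exact h3
    · have h1 := D.back_inv a ha _ (h' y hy)
      have h2 : D.φ (-a) (D.φ (-b) y) = D.φ (-(a + b)) y := by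
        rw [← D.φ_add]; congr 1; ring
      have h3 : D.φ (-(a + b)) y ∈ D.X₀ := by rw [← h2]; exact h1
      exact h3
  · intro y _
    obtain ⟨t, ht, hy⟩ := D.sweep y
    have h1 : D.φ (-(t + 1)) y ∈ interior D.X₀ := by
      have h2 := D.back_interior 1 one_pos _ hy
      rw [← D.φ_add] at h2
      convert h2 using 2
      ring
    refine ⟨D.φ (-(t + 1)) ⁻¹' interior D.X₀, mem_nhdsWithin_of_mem_nhds
      ((isOpen_interior.preimage (D.continuous_φ _)).mem_nhds h1), t + 1, by positivity, ?_⟩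
    intro w hw
    exact interior_subset hw

/-- A point whose orbit leaves `dom` leaves it for ever. -/
lemma stay_out (𝓨 : LiouvilleManifold ((ℝ × ℂ) × P) XX) {y : XX} {t : ℝ}
    (ht : 𝓨.flow t y ∉ 𝓨.dom) {s : ℝ} (hs : t ≤ s) : 𝓨.flow s y ∉ 𝓨.dom := by
  intro h
  apply ht
  have h1 := 𝓨.toLData.back_inv (s - t) (by linarith) _ h
  have h2 : 𝓨.toLData.φ (-(s - t)) (𝓨.toLData.φ s y) = 𝓨.toLData.φ t y := by
    rw [← 𝓨.toLData.φ_add]; congr 1; ring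
  have h3 : 𝓨.toLData.φ t y ∈ 𝓨.toLData.X₀ := by rw [← h2]; exact h1
  exact h3

lemma continuous_flow (𝓨 : LiouvilleManifold ((ℝ × ℂ) × P) XX) (t : ℝ) : Continuous (𝓨.flow t) :=
  𝓨.toLData.continuous_φ t

/-- Uniform escape for a continuous family of points parametrised by `ℝ³`, invariant up to a
compact set. -/
lemma exists_escape (𝓨 : LiouvilleManifold ((ℝ × ℂ) × P) XX) {y : P → XX} (hy : Continuous y)
    {C : Set P} (hC : IsCompact C) (hCy : ∀ x, ∃ x' ∈ C, y x = y x')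
    (hesc : ∀ x, ∃ t, 𝓨.flow t (y x) ∉ 𝓨.dom) {K : Set XX} (hK : IsCompact K) :
    ∃ b₀ : ℝ, 0 ≤ b₀ ∧ ∀ x, ∀ s > -1, 𝓨.flow (b₀ + s) (y x) ∉ K := by
  obtain ⟨t₁, ht₁, h1⟩ := exists_back 𝓨 hK
  have h2 : ∃ t₂ ≥ (0 : ℝ), ∀ x ∈ C, 𝓨.flow t₂ (y x) ∉ 𝓨.dom := by
    refine hC.induction_on (p := fun S => ∃ t₂ ≥ (0 : ℝ), ∀ x ∈ S, 𝓨.flow t₂ (y x) ∉ 𝓨.dom)
      ⟨0, le_rfl, by simp⟩ ?_ ?_ ?_
    · rintro s t hst ⟨a, ha, h⟩
      exact ⟨a, ha, fun y hy => h y (hst hy)⟩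
    · rintro s t ⟨a, ha, h⟩ ⟨b, hb, h'⟩
      refine ⟨max a b, le_trans ha (le_max_left _ _), ?_⟩
      rintro x (hx | hx)
      · exact stay_out 𝓨 (h x hx) (le_max_left _ _)
      · exact stay_out 𝓨 (h' x hx) (le_max_right _ _)
    · intro x _
      obtain ⟨t, ht⟩ := hesc x
      have ht' : 𝓨.flow (max t 0) (y x) ∉ 𝓨.dom := stay_out 𝓨 ht (le_max_left _ _)
      refine ⟨{x' | 𝓨.flow (max t 0) (y x') ∉ 𝓨.dom}, mem_nhdsWithin_of_mem_nhds ?_, max t 0,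
        le_max_right _ _, fun w hw => hw⟩
      have hc : Continuous fun x' => 𝓨.flow (max t 0) (y x') :=
        (continuous_flow 𝓨 _).comp hy
      exact (𝓨.dom_compact.isClosed.isOpen_compl.preimage hc).mem_nhds ht'
  obtain ⟨t₂, ht₂, h2⟩ := h2
  refine ⟨t₁ + t₂ + 1, by positivity, ?_⟩
  intro x s hs hK'
  obtain ⟨x', hx', hxx'⟩ := hCy x
  rw [hxx'] at hK'
  have h3 := h1 _ hK'
  have h4 : 𝓨.flow (-t₁) (𝓨.flow (t₁ + t₂ + 1 + s) (y x')) = 𝓨.flow (t₂ + 1 + s) (y x') := by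
    have := 𝓨.toLData.φ_add (-t₁) (t₁ + t₂ + 1 + s) (y x')
    refine (this.symm.trans ?_)
    show 𝓨.toLData.φ _ _ = 𝓨.toLData.φ _ _
    congr 1; ring
  rw [h4] at h3
  exact stay_out 𝓨 (h2 x' hx') (by linarith) h3

end Pool.Agent.W630
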