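import Mathlib
import Pool.Agent.W630.Asm5

/-!
# The degree integral
-/

open scoped Topology ContDiff Manifold Matrix
open Set Metric MeasureTheory

noncomputable section

namespace Pool.Agent.W630

universe u v

/-! ### The generators as group elements -/

lemma add_e₀ {k : ℤ} (x : P) : x + e₀ = actP (⟨![1, 0], 0⟩ : Gam k) x := by
  unfold actP
  rw [Gam.pw_zero, lin_one]
  ext i; fin_cases i <;> simp [e₀, trv]

lemma add_e₁ {k : ℤ} (x : P) : x + e₁ = actP (⟨![0, 1], 0⟩ : Gam k) x := by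
  unfold actP
  rw [Gam.pw_zero, lin_one]
  ext i; fin_cases i <;> simp [e₁, trv]

lemma T₁_eq (x : P) : T₁ x = actP (⟨0, 1⟩ : Gam 1) x := by
  unfold actP Gam.pw T₁
  rw [show ((1 : ℤ) * 1) = 1 by norm_num, zpow_one, lin_Amat]
  ext i; fin_cases i <;> simp [trv]

lemma T₂_eq (x : P) : T₂ x = actP (⟨0, 1⟩ : Gam 2) x := by
  unfold actP Gam.pw T₂
  rw [show ((2 : ℤ) * 1) = 1 + 1 by norm_num, zpow_add, zpow_one, lin_mul, lin_Amat, lin_Amat]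
  ext i; fin_cases i
  · simp [trv]; ring
  · simp [trv]; ring
  · simp [trv]

/-- The integral. -/
def II (A : XX → ℝ) (F : XX → P) (h : P → XX) : ℝ :=
  ∫ x in Icc (0 : P) ![1, 1, 2], A (h x) * (fderiv ℝ (fun y => F (h y)) x).det

/-- Homotopy invariance. -/
theorem II_homotopy (hG : S_G) {A : XX → ℝ} {F : XX → P}
    (hA : ContMDiff 𝓘(ℝ, (ℝ × ℂ) × P) 𝓘(ℝ, ℝ) ∞ A) (hF : ContMDiff 𝓘(ℝ, (ℝ × ℂ) × P) 𝓘(ℝ, P) ∞ F)
    (hAF : ∀ x, ∃ L : P →L[ℝ] ℝ, mfderiv 𝓘(ℝ, (ℝ × ℂ) × P) 𝓘(ℝ, ℝ) A x =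
      L.comp (mfderiv 𝓘(ℝ, (ℝ × ℂ) × P) 𝓘(ℝ, P) F x))
    {H : ℝ × P → XX} (hH : ContMDiff 𝓘(ℝ, ℝ × P) 𝓘(ℝ, (ℝ × ℂ) × P) ∞ H)
    (hinv : ∀ (κ : ℝ) (x : P) (g : Gam 2), H (κ, actP g x) = H (κ, x)) :
    II A F (fun x => H (1, x)) = II A F (fun x => H (0, x)) := by
  refine hG (fun q => A (H q)) (fun q => F (H q)) (hA.comp hH).contDiff (hF.comp hH).contDiff
    ?_ ?_ ?_ ?_
  · intro κ x
    rw [add_e₀ (k := 2), hinv]; exact ⟨rfl, rfl⟩
  · intro κ x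
    rw [add_e₁ (k := 2), hinv]; exact ⟨rfl, rfl⟩
  · intro κ x
    rw [T₂_eq, hinv]; exact ⟨rfl, rfl⟩
  · intro q
    obtain ⟨L, hL⟩ := hAF (H q)
    refine ⟨L, ?_⟩
    have hHq := ((hH q).mdifferentiableAt (by simp)).hasMFDerivAt
    have h1 := ((hA (H q)).mdifferentiableAt (by simp)).hasMFDerivAt.comp q hHq
    have h2 := ((hF (H q)).mdifferentiableAt (by simp)).hasMFDerivAt.comp q hHq
    have h3 : HasFDerivAt (fun q => A (H q)) ((show ((ℝ × ℂ) × P) →L[ℝ] ℝ from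
      mfderiv 𝓘(ℝ, (ℝ × ℂ) × P) 𝓘(ℝ, ℝ) A (H q)).comp (show (ℝ × P) →L[ℝ] ((ℝ × ℂ) × P) from
      mfderiv 𝓘(ℝ, ℝ × P) 𝓘(ℝ, (ℝ × ℂ) × P) H q)) q := h1.hasFDerivAt
    have h4 : HasFDerivAt (fun q => F (H q)) ((show ((ℝ × ℂ) × P) →L[ℝ] P from
      mfderiv 𝓘(ℝ, (ℝ × ℂ) × P) 𝓘(ℝ, P) F (H q)).comp (show (ℝ × P) →L[ℝ] ((ℝ × ℂ) × P) from
      mfderiv 𝓘(ℝ, ℝ × P) 𝓘(ℝ, (ℝ × ℂ) × P) H q)) q := h2.hasFDerivAt
    rw [h3.fderiv, h4.fderiv, hL]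
    rfl

/-! ### The constant section -/

/-- The inclusion of the core. -/
def i₀ (x : P) : XX := qm (Gam 1) ((0, 0), x)

lemma contMDiff_i₀ : ContMDiff 𝓘(ℝ, P) 𝓘(ℝ, (ℝ × ℂ) × P) ∞ i₀ := by
  have h : ContDiff ℝ ∞ (fun x : P => (((0, 0), x) : (ℝ × ℂ) × P)) := by fun_prop
  exact contMDiff_qm.comp h.contMDiff

lemma i₀_actP (g : Gam 1) (x : P) : i₀ (actP g x) = i₀ x :=
  qm_smul g (((0, 0), x) : (ℝ × ℂ) × P)

lemma det_linL_Amat : (linL Amat).det = 1 := by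
  have h1 : ((linL Amat : P →L[ℝ] P) : P →ₗ[ℝ] P) =
      Matrix.toLin' !![(2 : ℝ), 1, 0; 1, 1, 0; 0, 0, 1] := by
    ext x i
    rw [LinearMap.comp_apply, LinearMap.comp_apply, ContinuousLinearMap.coe_coe, linL_apply,
      lin_Amat, Matrix.toLin'_apply]
    fin_cases i <;> simp [Matrix.mulVec, dotProduct, Fin.sum_univ_three]
  unfold ContinuousLinearMap.det
  rw [h1, LinearMap.det_toLin', Matrix.det_fin_three]
  simp
  norm_num

/-- The integral over the core is twice an integer. -/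
theorem II_i₀ (hG2 : S_G2) {A : XX → ℝ} {F : XX → P}
    (hA : ContMDiff 𝓘(ℝ, (ℝ × ℂ) × P) 𝓘(ℝ, ℝ) ∞ A)
    (hF : ContMDiff 𝓘(ℝ, (ℝ × ℂ) × P) 𝓘(ℝ, P) ∞ F) :
    II A F i₀ = 2 * ∫ x in Icc (0 : P) 1, A (i₀ x) * (fderiv ℝ (fun y => F (i₀ y)) x).det := by
  have hFc : ContDiff ℝ ∞ (fun y => F (i₀ y)) := (hF.comp contMDiff_i₀).contDiff
  have hAc : ContDiff ℝ ∞ (fun y => A (i₀ y)) := (hA.comp contMDiff_i₀).contDiff
  have htr : ∀ (e : P) (he : ∀ x, i₀ (x + e) = i₀ x) (x : P),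
      fderiv ℝ (fun y => F (i₀ y)) (x + e) = fderiv ℝ (fun y => F (i₀ y)) x := by
    intro e he x
    have h1 : (fun y => F (i₀ (y + e))) = fun y => F (i₀ y) := by funext y; rw [he]
    have h2 := fderiv_comp_add_right (𝕜 := ℝ) (f := fun y => F (i₀ y)) (x := x) e
    rw [h1] at h2
    exact h2.symm
  have he0 : ∀ x, i₀ (x + e₀) = i₀ x := fun x => by rw [add_e₀ (k := 1), i₀_actP]
  have he1 : ∀ x, i₀ (x + e₁) = i₀ x := fun x => by rw [add_e₁ (k := 1), i₀_actP]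
  have hT : ∀ x, i₀ (T₁ x) = i₀ x := fun x => by rw [T₁_eq, i₀_actP]
  refine hG2 _ ?_ ?_ ?_ ?_
  · refine hAc.continuous.mul ?_
    exact ContinuousLinearMap.continuous_det.comp (hFc.continuous_fderiv (by simp))
  · intro x
    rw [he0, htr e₀ he0]
  · intro x
    rw [he1, htr e₁ he1]
  · intro x
    rw [hT]
    congr 1
    have h1 : HasFDerivAt T₁ (linL Amat) x := by
      have h2 : T₁ = fun x => linL Amat x + ![0, 0, 1] := by
        funext x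
        rw [linL_apply, lin_Amat]
        unfold T₁
        ext i; fin_cases i <;> simp
      rw [h2]
      exact (linL Amat).hasFDerivAt.add_const _
    have h3 : HasFDerivAt (fun y => F (i₀ (T₁ y)))
        ((fderiv ℝ (fun y => F (i₀ y)) (T₁ x)).comp (linL Amat)) x :=
      ((hFc.differentiable (by simp)) (T₁ x)).hasFDerivAt.comp x h1
    have h4 : (fun y => F (i₀ (T₁ y))) = fun y => F (i₀ y) := by funext y; rw [hT]
    rw [h4] at h3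
    rw [h3.fderiv]
    have h5 : ∀ B C : P →L[ℝ] P, (B.comp C).det = B.det * C.det := by
      intro B C
      unfold ContinuousLinearMap.det
      exact LinearMap.det_comp _ _
    rw [h5, det_linL_Amat, mul_one]

end Pool.Agent.W630
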