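import Mathlib
import Pool.Agent.W630.Asm6

/-!
# The hypersurface is not contained in the fibre of a Lefschetz fibration
-/

open scoped Topology ContDiff Manifold Matrix
open Set Metric MeasureTheory

noncomputable section

namespace Pool.Agent.W630

universe u v

lemma Icc_sub_of_box {x : P} (hx : x ∈ boxB) : x ∈ Icc (0 : P) ![1, 1, 2] := by
  obtain ⟨h0, h0', h1, h1', h2, h2'⟩ := hx
  constructor
  · intro i; fin_cases i
    · exact h0.le
    · exact h1.le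
    · exact h2.le
  · intro i; fin_cases i
    · simpa using h0'.le
    · simpa using h1'.le
    · simpa using h2'.le

/-- The integral over the section in the fibre is one. -/
theorem II_fibre {A : XX → ℝ} {F : XX → P} {O : Set XX} {Ψ : XX → P} {u : P} {χ : P → ℝ}
    (hA0 : ∀ x ∉ O, A x = 0) (hA1 : ∀ x ∈ O, A x = χ (Ψ x))
    (hAF : ∀ x ∈ O, A x ≠ 0 → F =ᶠ[𝓝 x] fun y => Ψ y - u)
    {y : P → XX} (hy : Continuous y) {B : Set P} (hB : IsOpen B) (hBb : B ⊆ boxB)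
    (hχB : ∀ x, χ x ≠ 0 → x ∈ B) (hyB : ∀ x ∈ B, y x ∈ O ∧ Ψ (y x) = x)
    (hyO : ∀ x ∈ Icc (0 : P) ![1, 1, 2], y x ∈ O → x ∈ B) (hχ1 : ∫ x, χ x = 1) :
    II A F y = 1 := by
  have h1 : II A F y = ∫ x in Icc (0 : P) ![1, 1, 2], χ x := by
    unfold II
    refine setIntegral_congr_fun measurableSet_Icc ?_
    intro x hx
    show A (y x) * (fderiv ℝ (fun w => F (y w)) x).det = χ x
    by_cases hxB : x ∈ B
    · obtain ⟨h2, h3⟩ := hyB x hxB
      have h4 : A (y x) = χ x := by rw [hA1 _ h2, h3]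
      by_cases h5 : A (y x) = 0
      · rw [h5, zero_mul, ← h4, h5]
      · have h6 : (fun w => F (y w)) =ᶠ[𝓝 x] fun w => w - u := by
          have h7 := hy.continuousAt.eventually (hAF _ h2 h5)
          filter_upwards [h7, hB.mem_nhds hxB] with w hw hwB
          rw [hw, (hyB w hwB).2]
        have h8 : HasFDerivAt (fun w : P => w - u) (ContinuousLinearMap.id ℝ P) x :=
          (hasFDerivAt_id x).sub_const u
        rw [h6.fderiv_eq, h8.fderiv, h4]
        have h9 : (ContinuousLinearMap.id ℝ P).det = 1 := by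
          unfold ContinuousLinearMap.det
          exact LinearMap.det_id
        rw [h9, mul_one]
    · have h2 : A (y x) = 0 := by
        by_contra h
        have h3 : y x ∈ O := by
          by_contra h4; exact h (hA0 _ h4)
        exact hxB (hyO x hx h3)
      have h3 : χ x = 0 := by
        by_contra h; exact hxB (hχB x h)
      rw [h2, h3, zero_mul]
  rw [h1, setIntegral_eq_integral_of_forall_compl_eq_zero, hχ1]
  intro x hx
  by_contra h
  exact hx (Icc_sub_of_box (hBb (hχB x h)))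

/-- The core integral is an integer. -/
theorem II_core {A : XX → ℝ} {F : XX → P} {O : Set XX} (hO : IsOpen O) {Ψ : XX → P}
    {u : P} {χ : P → ℝ}
    (hA0 : ∀ x ∉ O, A x = 0) (hA1 : ∀ x ∈ O, A x = χ (Ψ x))
    (hAF : ∀ x ∈ O, A x ≠ 0 → F =ᶠ[𝓝 x] fun y => Ψ y - u) {k : ℤ}
    (hk : ∫ x in Icc (0 : P) 1 ∩ (i₀ ⁻¹' O), χ (Ψ (i₀ x)) *
      (fderiv ℝ (fun x => Ψ (i₀ x)) x).det = k) :
    ∫ x in Icc (0 : P) 1, A (i₀ x) * (fderiv ℝ (fun y => F (i₀ y)) x).det = k := by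
  rw [← hk]
  have hc : Continuous i₀ := contMDiff_i₀.continuous
  have hmeas : MeasurableSet (Icc (0 : P) 1 ∩ (i₀ ⁻¹' O)) :=
    measurableSet_Icc.inter (hO.preimage hc).measurableSet
  have h1 : ∫ x in Icc (0 : P) 1, A (i₀ x) * (fderiv ℝ (fun y => F (i₀ y)) x).det =
      ∫ x in Icc (0 : P) 1 ∩ (i₀ ⁻¹' O), A (i₀ x) * (fderiv ℝ (fun y => F (i₀ y)) x).det := by
    refine setIntegral_eq_of_subset_of_forall_sdiff_eq_zero measurableSet_Icc inter_subset_left ?_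
    intro x hx
    have h2 : i₀ x ∉ O := fun h => hx.2 ⟨hx.1, h⟩
    rw [hA0 _ h2, zero_mul]
  rw [h1]
  refine setIntegral_congr_fun hmeas ?_
  intro x hx
  show A (i₀ x) * (fderiv ℝ (fun y => F (i₀ y)) x).det = _
  have hxO : i₀ x ∈ O := hx.2
  have h4 := hA1 _ hxO
  by_cases h5 : A (i₀ x) = 0
  · rw [h5, zero_mul]
    show _ = χ (Ψ (i₀ x)) * _
    rw [← h4, h5, zero_mul]
  · have h6 : (fun w => F (i₀ w)) =ᶠ[𝓝 x] fun w => Ψ (i₀ w) - u :=
      hc.continuousAt.eventually (hAF _ hxO h5)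
    rw [h6.fderiv_eq, fderiv_sub_const, h4]

/-- The final homotopy. -/
theorem II_final (hG : S_G) {A : XX → ℝ} {F : XX → P}
    (hA : ContMDiff 𝓘(ℝ, (ℝ × ℂ) × P) 𝓘(ℝ, ℝ) ∞ A) (hF : ContMDiff 𝓘(ℝ, (ℝ × ℂ) × P) 𝓘(ℝ, P) ∞ F)
    (hAF : ∀ x, ∃ L : P →L[ℝ] ℝ, mfderiv 𝓘(ℝ, (ℝ × ℂ) × P) 𝓘(ℝ, ℝ) A x =
      L.comp (mfderiv 𝓘(ℝ, (ℝ × ℂ) × P) 𝓘(ℝ, P) F x))
    {h : P → XX} (hh : ContMDiff 𝓘(ℝ, P) 𝓘(ℝ, (ℝ × ℂ) × P) ∞ h)
    (hinv : ∀ (x : P) (g : Gam 2), h (actP g x) = h x)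
    (hj : ∀ x, ∃ τ : ℝ, h x = modX.flow τ (jX (qm (Gam 2) (0, x)))) :
    II A F h = II A F i₀ := by
  let w : P → ℂ := fun x => (prF (h x)).2
  have hform : ∀ x, ∃ τ : ℝ, h x = qm (Gam 1) ((0, (Real.exp (τ / 2) : ℝ) • cir (x 2)),
      x + (-(τ / cc)) • e₂) := by
    intro x
    obtain ⟨τ, hτ⟩ := hj x
    refine ⟨τ, ?_⟩
    rw [hτ, jX_qm, flow_modX]
    congr 1
    refine Prod.ext (Prod.ext ?_ rfl) rfl
    show Real.exp (2 * τ) * 0 = 0
    rw [mul_zero]
  have hw : ContDiff ℝ ∞ w := by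
    have h1 : ContMDiff 𝓘(ℝ, P) 𝓘(ℝ, ℝ × ℂ) ∞ (fun x => prF (h x)) := contMDiff_prF.comp hh
    exact contDiff_snd.comp h1.contDiff
  let ns : P → ℝ := fun x => (w x).re * (w x).re + (w x).im * (w x).im
  have hns : ContDiff ℝ ∞ ns := by
    have h1 : ContDiff ℝ ∞ fun x => (w x).re := Complex.reCLM.contDiff.comp hw
    have h2 : ContDiff ℝ ∞ fun x => (w x).im := Complex.imCLM.contDiff.comp hw
    exact (h1.mul h1).add (h2.mul h2)
  have hns_eq : ∀ x τ, h x = qm (Gam 1) ((0, (Real.exp (τ / 2) : ℝ) • cir (x 2)),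
      x + (-(τ / cc)) • e₂) → ns x = Real.exp τ := by
    intro x τ hx
    have h1 : w x = (Real.exp (τ / 2) : ℝ) • cir (x 2) := by
      show (prF (h x)).2 = _
      rw [hx, prF_qm]
    have h2 : ns x = Complex.normSq (w x) := (Complex.normSq_apply _).symm
    rw [h2, h1, Complex.normSq_eq_norm_sq, norm_smul, norm_cir, mul_one, Real.norm_eq_abs,
      abs_of_pos (Real.exp_pos _), ← Real.exp_nat_mul]
    congr 1
    push_cast; ring
  have hns_pos : ∀ x, 0 < ns x := by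
    intro x
    obtain ⟨τ, hτ⟩ := hform x
    rw [hns_eq x τ hτ]; exact Real.exp_pos _
  let T : P → ℝ := fun x => Real.log (ns x)
  have hT : ContDiff ℝ ∞ T := hns.log fun x => (hns_pos x).ne'
  have hTinv : ∀ (x : P) (g : Gam 2), T (actP g x) = T x := by
    intro x g
    simp only [T, ns, w, hinv]
  have hwinv : ∀ (x : P) (g : Gam 2), w (actP g x) = w x := by
    intro x g
    simp only [w, hinv]
  let H : ℝ × P → XX := fun q =>
    qm (Gam 1) ((0, (q.1 : ℝ) • w q.2), q.2 + (-(q.1 * T q.2 / cc)) • e₂)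
  have hH : ContMDiff 𝓘(ℝ, ℝ × P) 𝓘(ℝ, (ℝ × ℂ) × P) ∞ H := by
    have h1 : ContDiff ℝ ∞ (fun q : ℝ × P =>
        (((0, (q.1 : ℝ) • w q.2), q.2 + (-(q.1 * T q.2 / cc)) • e₂) : (ℝ × ℂ) × P)) := by
      have a1 : ContDiff ℝ ∞ fun q : ℝ × P => w q.2 := hw.comp contDiff_snd
      have a2 : ContDiff ℝ ∞ fun q : ℝ × P => T q.2 := hT.comp contDiff_snd
      have a3 : ContDiff ℝ ∞ fun q : ℝ × P => (q.1 : ℝ) • w q.2 := contDiff_fst.smul a1
      have a4 : ContDiff ℝ ∞ fun q : ℝ × P => (-(q.1 * T q.2 / cc)) :=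
        ((contDiff_fst.mul a2).div_const cc).neg
      exact (contDiff_const.prodMk a3).prodMk
        (contDiff_snd.add (a4.smul contDiff_const))
    exact contMDiff_qm.comp h1.contMDiff
  have hHinv : ∀ (κ : ℝ) (x : P) (g : Gam 2), H (κ, actP g x) = H (κ, x) := by
    intro κ x g
    show qm (Gam 1) ((0, κ • w (actP g x)), actP g x + (-(κ * T (actP g x) / cc)) • e₂) =
      qm (Gam 1) ((0, κ • w x), x + (-(κ * T x / cc)) • e₂)
    rw [hTinv, hwinv]
    apply qm_eq_iff.2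
    refine ⟨emb g, Prod.ext rfl ?_⟩
    show _ = actP (emb g) _
    rw [actP_emb]
    unfold actP
    rw [lin_add, lin_e₂]
    exact add_right_comm _ _ _
  have key := II_homotopy hG hA hF hAF hH hHinv
  have e1 : (fun x => H (1, x)) = h := by
    funext x
    obtain ⟨τ, hτ⟩ := hform x
    have h1 : T x = τ := by
      show Real.log (ns x) = τ
      rw [hns_eq x τ hτ, Real.log_exp]
    have h2 : w x = (Real.exp (τ / 2) : ℝ) • cir (x 2) := by
      show (prF (h x)).2 = _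
      rw [hτ, prF_qm]
    show qm (Gam 1) ((0, (1 : ℝ) • w x), x + (-(1 * T x / cc)) • e₂) = h x
    rw [one_smul, one_mul, h1, h2, hτ]
  have e2 : (fun x => H (0, x)) = i₀ := by
    funext x
    show qm (Gam 1) ((0, (0 : ℝ) • w x), x + (-(0 * T x / cc)) • e₂) = _
    rw [zero_smul, zero_mul, zero_div, neg_zero, zero_smul, add_zero]
    rfl
  rw [e1, e2] at key
  exact key

end Pool.Agent.W630
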