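import Mathlib
import Pool.Agent.W630.Asm7

/-!
# The main theorem, from the auxiliary statements
-/

open scoped Topology ContDiff Manifold Matrix
open Set Metric MeasureTheory

noncomputable section

namespace Pool.Agent.W630

universe u v

variable {G : Type u} [NormedAddCommGroup G] [NormedSpace ℝ G] {W : Type v} [TopologicalSpace W]
  [ChartedSpace G W] [IsManifold 𝓘(ℝ, G) ∞ W]

/-- The orbit of a point of the hypersurface is unbounded. -/
lemma norm_flow_jX (t : ℝ) (x : P) :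
    ‖(prF (modX.flow t (jX (qm (Gam 2) (0, x))))).2‖ = Real.exp (t / 2) := by
  rw [jX_qm, flow_modX, prF_qm]
  show ‖(Real.exp (t / 2) : ℝ) • cir (x 2)‖ = _
  rw [norm_smul, norm_cir, mul_one, Real.norm_eq_abs, abs_of_pos (Real.exp_pos _)]

/-- A point with the same end as a point of the hypersurface leaves every domain. -/
lemma exists_leave (𝓨 : LiouvilleManifold ((ℝ × ℂ) × P) XX) {x : P} {y : XX} {a b : ℝ}
    (h : ∀ s ≥ 0, modX.flow (a + s) (jX (qm (Gam 2) (0, x))) = 𝓨.flow (b + s) y) :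
    ∃ t, 𝓨.flow t y ∉ 𝓨.dom := by
  by_contra hcon
  push Not at hcon
  have hc : ContinuousOn (fun p : XX => ‖(prF p).2‖) 𝓨.dom :=
    (continuous_norm.comp (continuous_snd.comp
      (contMDiff_prF (k := 1) (F := ℝ × ℂ)).continuous)).continuousOn
  obtain ⟨C, hC⟩ := (𝓨.dom_compact.image_of_continuousOn hc).isBounded.exists_norm_le
  have h1 : ∀ s ≥ 0, Real.exp ((a + s) / 2) ≤ C := by
    intro s hs
    have h2 := hC _ (mem_image_of_mem _ (hcon (b + s)))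
    rw [← h s hs, norm_flow_jX, Real.norm_eq_abs, abs_of_pos (Real.exp_pos _)] at h2
    exact h2
  have h3 := h1 (max 0 (2 * C - a)) (le_max_left _ _)
  have h4 : C ≤ (a + max 0 (2 * C - a)) / 2 := by
    have := le_max_right 0 (2 * C - a)
    linarith
  have h5 := Real.add_one_le_exp ((a + max 0 (2 * C - a)) / 2)
  linarith

/-- After a uniform time the two orbits agree. -/
lemma exists_tau {𝓨 : LiouvilleManifold ((ℝ × ℂ) × P) XX} {K : Set XX} (hK : AgreeOff 𝓨 K)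
    {x : P} {y : XX} {a b b₀ : ℝ}
    (h : ∀ s ≥ 0, modX.flow (a + s) (jX (qm (Gam 2) (0, x))) = 𝓨.flow (b + s) y)
    (hb₀ : ∀ s > -1, 𝓨.flow (b₀ + s) y ∉ K) :
    ∃ τ : ℝ, 𝓨.flow b₀ y = modX.flow τ (jX (qm (Gam 2) (0, x))) := by
  have hadd : ∀ s t, 𝓨.flow (s + t) y = 𝓨.flow s (𝓨.flow t y) := fun s t =>
    𝓨.toLData.φ_add s t y
  have hadd' : ∀ s t p, modX.flow (s + t) p = modX.flow s (modX.flow t p) := fun s t p =>
    modX.toLData.φ_add s t p
  set S := max 0 (b - b₀) with hS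
  have hS0 : 0 ≤ S := le_max_left _ _
  have h1 : 𝓨.flow S (𝓨.flow b₀ y) = modX.flow S (𝓨.flow b₀ y) := by
    refine flow_eq_off hK ?_ (by linarith)
    intro s hs
    rw [← hadd, add_comm]
    exact hb₀ s hs
  have h2 : 𝓨.flow S (𝓨.flow b₀ y) = 𝓨.flow (b + (S + b₀ - b)) y := by
    rw [← hadd]; congr 1; ring
  have h3 : 0 ≤ S + b₀ - b := by
    have := le_max_right 0 (b - b₀)
    linarith
  rw [← h _ h3] at h2
  refine ⟨-S + (a + (S + b₀ - b)), ?_⟩
  rw [hadd', ← h2, h1, ← hadd', neg_add_cancel]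
  exact (modX.flow_zero _).symm

/-- **Main theorem**, from the auxiliary statements. -/
theorem no_fibre (hC : S_C.{0, 0}) (hD : S_D.{0, 0}) (hF : S_F.{u, v}) (hG : S_G) (hG2 : S_G2)
    (hH : S_H) {n : ℕ} (L : LefschetzFibration modX n G W) : ¬ IsSubdomainOfFibre hypX L := by
  rintro ⟨z, hz, U, g, hU, hdU, hg, hinj, himm, hend, hout⟩
  have : FiniteDimensional ℝ G := finite_fibre L
  have : T2Space W := t2_fibre L hz
  obtain ⟨x₀, r, κ, hr, hball, hκ, hκinj, hκimm, hκcl, hκ0, hκσ⟩ :=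
    exists_tube hF L hz hU hdU hg hinj himm hout
  obtain ⟨a, x₁, ha, hx₁, ⟨D⟩⟩ := exists_flowData hC L hz
  obtain ⟨u, ε, O, Ψ, hε, hεb, hO, hΨ, hS, hcO, hOc⟩ :=
    exists_extension hD L hz hx₁ D hr hκ hκinj hκimm hκcl
  have hi₀ : Continuous i₀ := contMDiff_i₀.continuous
  -- integrality
  obtain ⟨u', ε', hε', hb, hint⟩ := hH (i₀ ⁻¹' O) (hO.preimage hi₀) (fun x => Ψ (i₀ x))
    (by
      have h1 : ContMDiffOn 𝓘(ℝ, P) 𝓘(ℝ, P) ∞ (fun x => Ψ (i₀ x)) (i₀ ⁻¹' O) :=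
        hΨ.comp contMDiff_i₀.contMDiffOn fun x hx => hx
      exact h1.contDiffOn)
    u ε hε (hS.preimage hi₀)
  -- the bump function
  let f : ContDiffBump u' := ⟨ε' / 2, ε', by linarith, by linarith⟩
  set χ : P → ℝ := f.normed volume with hχdef
  have hχ : ContDiff ℝ ∞ χ := f.contDiff_normed
  have hχs : tsupport χ ⊆ closedBall u' ε' := by
    rw [hχdef, f.tsupport_normed_eq]
  have hχ1 : ∫ x, χ x = 1 := f.integral_normed
  obtain ⟨k, hk⟩ := hint χ hχ.continuous hχs hχ1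
  obtain ⟨A, F, hA, hFs, hAF, hA0, hA1, hAFO⟩ := exists_form hO hΨ hε hS hb hχ hχs
  -- the section in the fibre
  set y : P → XX := fun x => L.inc z (κ (0, x)) with hydef
  have hy : ContMDiff 𝓘(ℝ, P) 𝓘(ℝ, (ℝ × ℂ) × P) ∞ y := by
    have h1 : ContDiff ℝ ∞ (fun x : P => ((0 : ℝ), x)) := by fun_prop
    exact ((L.inc_smooth z hz).comp hκ).comp h1.contMDiff
  have hyinv : ∀ (x : P) (g : Gam 2), y (actP g x) = y x := by
    intro x g'
    show L.inc z (κ (0, actP g' x)) = L.inc z (κ (0, x))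
    rw [hκ0, hκ0]
    congr 2
    exact qm2_eq_iff.2 ⟨rfl, g', rfl⟩
  have hII1 : II A F y = 1 := by
    refine II_fibre hA0 hA1 hAFO hy.continuous isOpen_ball hball ?_ ?_ ?_ hχ1
    · intro x hx
      exact hεb (ball_subset_closedBall (hb (hχs (subset_tsupport _ hx))))
    · intro x hx
      exact hcO 0 x hx
    · intro x hx hxO
      obtain ⟨σ, x', hx', h1⟩ := hOc _ hxO (proj_inc L hz _)
      have h2 : κ (0, x) = κ (σ, x') := (L.inc_embedding z hz).injective h1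
      rw [hκ0] at h2
      obtain ⟨-, h3⟩ := hκσ σ x' hx' x h2.symm
      rw [← eq_of_rel2 (hball hx') hx h3]
      exact hx'
  -- the uniform time
  obtain ⟨K, hKc, hKeq⟩ := L.str_eq
  have hK : AgreeOff L.str K := ⟨hKc, hKeq⟩
  have hends : ∀ x : P, ∃ a b : ℝ, ∀ s ≥ 0,
      modX.flow (a + s) (jX (qm (Gam 2) (0, x))) = L.str.flow (b + s) (y x) := by
    intro x
    have hmem : qm (Gam 2) ((0 : ℝ), x) ∈ hypX.dom := by
      show prF (qm (Gam 2) ((0 : ℝ), x)) ^ 2 - 1 ≤ 0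
      rw [prF_qm]; norm_num
    obtain ⟨a, b, hab⟩ := hend _ hmem
    refine ⟨a, b, fun s hs => ?_⟩
    show _ = L.str.flow (b + s) (L.inc z (κ (0, x)))
    rw [hκ0]
    exact hab s hs
  obtain ⟨b₀, -, hb₀⟩ := exists_escape L.str hy.continuous
    (isCompact_closedBall (0 : P) (max 1 |((2 : ℤ) : ℝ)|))
    (fun x => by
      obtain ⟨g', hg'⟩ := exists_small (k := 2) x
      exact ⟨actP g' x, by rwa [mem_closedBall_zero_iff], (hyinv x g').symm⟩)
    (fun x => by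
      obtain ⟨a, b, hab⟩ := hends x
      exact exists_leave L.str hab) hKc
  -- the first homotopy
  set h : P → XX := fun x => L.str.flow b₀ (y x) with hhdef
  have hsm : ContMDiff (𝓘(ℝ, ℝ).prod 𝓘(ℝ, (ℝ × ℂ) × P)) 𝓘(ℝ, (ℝ × ℂ) × P) ∞
      (fun p : ℝ × XX => L.str.flow p.1 p.2) := L.str.toLData.smooth_φ
  have hH1 : ContMDiff 𝓘(ℝ, ℝ × P) 𝓘(ℝ, (ℝ × ℂ) × P) ∞
      (fun q : ℝ × P => L.str.flow (q.1 * b₀) (y q.2)) := by
    have h1 : ContMDiff 𝓘(ℝ, ℝ × P) 𝓘(ℝ, ℝ) ∞ (fun q : ℝ × P => q.1 * b₀) := by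
      have : ContDiff ℝ ∞ (fun q : ℝ × P => q.1 * b₀) := by fun_prop
      exact this.contMDiff
    have h2 : ContMDiff 𝓘(ℝ, ℝ × P) 𝓘(ℝ, (ℝ × ℂ) × P) ∞ (fun q : ℝ × P => y q.2) :=
      hy.comp (contDiff_snd.contMDiff)
    exact hsm.comp (h1.prodMk h2)
  have hII2 := II_homotopy hG hA hFs hAF hH1 (fun κ x g' => by
    show L.str.flow (κ * b₀) (y (actP g' x)) = L.str.flow (κ * b₀) (y x)
    rw [hyinv])
  have e1 : (fun x => (fun q : ℝ × P => L.str.flow (q.1 * b₀) (y q.2)) (1, x)) = h := by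
    funext x
    show L.str.flow (1 * b₀) (y x) = _
    rw [one_mul]
  have e2 : (fun x => (fun q : ℝ × P => L.str.flow (q.1 * b₀) (y q.2)) (0, x)) = y := by
    funext x
    show L.str.flow (0 * b₀) (y x) = _
    rw [zero_mul, L.str.flow_zero]
  rw [e1, e2] at hII2
  -- the second homotopy
  have hh : ContMDiff 𝓘(ℝ, P) 𝓘(ℝ, (ℝ × ℂ) × P) ∞ h := by
    have h1 : ContMDiff 𝓘(ℝ, P) 𝓘(ℝ, ℝ) ∞ (fun _ : P => b₀) := contMDiff_const
    exact hsm.comp (h1.prodMk hy)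
  have hII3 := II_final hG hA hFs hAF hh
    (fun x g' => by show L.str.flow b₀ (y (actP g' x)) = L.str.flow b₀ (y x); rw [hyinv])
    (fun x => by
      obtain ⟨a, b, hab⟩ := hends x
      exact exists_tau hK hab (hb₀ x))
  have hII4 := II_i₀ hG2 hA hFs
  rw [II_core hO hA0 hA1 hAFO hk] at hII4
  rw [hII4] at hII3
  rw [hII3, hII1] at hII2
  have h1 : (2 * k : ℤ) = 1 := by exact_mod_cast hII2
  omega

end Pool.Agent.W630
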