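import Pool.Agent.W630.Stubs

/-! # Statement A: lifts of constant vector fields -/

open scoped Topology ContDiff Manifold
open Set Pool.Agent.Helper186 MeasureTheory Metric Filter

noncomputable section

namespace Pool.Agent.W630.TA

set_option linter.unusedSectionVars false

universe u v

variable {E : Type u} [NormedAddCommGroup E] [NormedSpace ℝ E] [FiniteDimensional ℝ E]
  {X : Type v} [TopologicalSpace X] [ChartedSpace E X] [IsManifold 𝓘(ℝ, E) ∞ X]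

/-- Local lifts at points where the differential is surjective. -/
theorem local_lift {π : X → ℂ} (hπ : ContMDiff 𝓘(ℝ, E) 𝓘(ℝ, ℂ) ∞ π) (ζ : ℂ) {x : X}
    (hx : Function.Surjective (mfderiv 𝓘(ℝ, E) 𝓘(ℝ, ℂ) π x)) :
    ∃ V : (y : X) → TangentSpace 𝓘(ℝ, E) y, ∀ᶠ y in 𝓝 x,
      ContMDiffAt 𝓘(ℝ, E) 𝓘(ℝ, E).tangent ∞ (fun y => (⟨y, V y⟩ : TangentBundle 𝓘(ℝ, E) X)) y ∧
      (show ℂ from mfderiv 𝓘(ℝ, E) 𝓘(ℝ, ℂ) π y (V y)) = ζ := by
  set φ := extChartAt 𝓘(ℝ, E) x with hφ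
  have hto : IsOpen φ.target := isOpen_extChartAt_target x
  have hso : IsOpen φ.source := isOpen_extChartAt_source x
  have hφs : ContMDiffOn 𝓘(ℝ, E) 𝓘(ℝ, E) ∞ φ.symm φ.target := contMDiffOn_extChartAt_symm x
  have hφc : ContMDiffOn 𝓘(ℝ, E) 𝓘(ℝ, E) ∞ φ φ.source := fun y hy =>
    (contMDiffAt_extChartAt' (by rwa [hφ, extChartAt_source] at hy)).contMDiffWithinAt
  set f : E → ℂ := π ∘ φ.symm with hf
  have hfs : ContDiffOn ℝ ∞ f φ.target := by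
    rw [← contMDiffOn_iff_contDiffOn]
    exact hπ.comp_contMDiffOn hφs
  have hxs : x ∈ φ.source := mem_extChartAt_source x
  have hxt : φ x ∈ φ.target := mem_extChartAt_target x
  have hsym : φ.symm (φ x) = x := φ.left_inv hxs
  -- the derivative of `f` at the base point is surjective
  have hLs : Function.Surjective (fderiv ℝ f (φ x)) := by
    intro c
    obtain ⟨v, hv⟩ := hx c
    have h1 : HasMFDerivAt 𝓘(ℝ, E) 𝓘(ℝ, ℂ) (f ∘ φ) x
        ((mfderiv 𝓘(ℝ, E) 𝓘(ℝ, ℂ) f (φ x)).comp (mfderiv 𝓘(ℝ, E) 𝓘(ℝ, E) φ x)) := by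
      refine HasMFDerivAt.comp x ?_ ?_
      · have h2 : DifferentiableAt ℝ f (φ x) :=
          (hfs.contDiffAt (hto.mem_nhds hxt)).differentiableAt (by simp)
        exact h2.mdifferentiableAt.hasMFDerivAt
      · exact ((hφc.contMDiffAt (hso.mem_nhds hxs)).mdifferentiableAt (by simp)).hasMFDerivAt
    have h2 : (f ∘ φ) =ᶠ[𝓝 x] π := by
      filter_upwards [hso.mem_nhds hxs] with y hy
      simp only [hf, Function.comp]
      rw [φ.left_inv hy]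
    have h3 := (h1.congr_of_eventuallyEq h2.symm).mfderiv
    have h4 := DFunLike.congr_fun h3 v
    refine ⟨(mfderiv 𝓘(ℝ, E) 𝓘(ℝ, E) φ x v : E), ?_⟩
    rw [mfderiv_eq_fderiv] at h4
    exact h4.symm.trans hv
  obtain ⟨R, hR⟩ := (fderiv ℝ f (φ x)).exists_rightInverse_of_surjective
    (LinearMap.range_eq_top.2 hLs)
  set A : E → (ℂ →L[ℝ] ℂ) := fun y => (fderiv ℝ f y).comp R with hA
  have hAs : ContDiffOn ℝ ∞ A φ.target := by
    have h1 : ContDiffOn ℝ ∞ (fderiv ℝ f) φ.target := hfs.fderiv_of_isOpen hto (by simp)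
    exact h1.clm_comp contDiffOn_const
  set w : E → E := fun y => R ((Ring.inverse (A y)) ζ) with hw
  have hws : ∀ y ∈ φ.target, IsUnit (A y) → ContDiffAt ℝ ∞ w y := by
    intro y hy hu
    have h1 : ContDiffAt ℝ ∞ A y := hAs.contDiffAt (hto.mem_nhds hy)
    obtain ⟨U, hU⟩ := hu
    have h2 : ContDiffAt ℝ ∞ Ring.inverse (A y) := by
      rw [← hU]
      exact contDiffAt_ringInverse ℝ U
    have h3 : ContDiffAt ℝ ∞ (fun y => Ring.inverse (A y)) y := h2.comp y h1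
    exact R.contDiff.contDiffAt.comp y (h3.clm_apply contDiffAt_const)
  have hunit : ∀ᶠ y in 𝓝 (φ x), IsUnit (A y) := by
    have h1 : ContinuousAt A (φ x) := (hAs.continuousOn).continuousAt (hto.mem_nhds hxt)
    have h2 : IsUnit (A (φ x)) := by
      have h3 : A (φ x) = 1 := hR
      rw [h3]
      exact isUnit_one
    exact h1.eventually (Units.isOpen.mem_nhds h2)
  set V : (y : X) → TangentSpace 𝓘(ℝ, E) y := fun y =>
    (mfderiv 𝓘(ℝ, E) 𝓘(ℝ, E) φ.symm (φ y) (w (φ y)) : E) with hV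
  refine ⟨V, ?_⟩
  have hφx : ContinuousAt φ x := continuousAt_extChartAt x
  filter_upwards [eventually_eventually_nhds.2 (hso.mem_nhds hxs), hφx.eventually hunit,
    hφx.eventually (hto.mem_nhds hxt)] with y hy hyu hyt
  have hys : y ∈ φ.source := mem_of_mem_nhds hy
  constructor
  · have h1 : ContMDiffAt 𝓘(ℝ, E) 𝓘(ℝ, E).tangent ∞
        (fun z : E => (⟨z, w z⟩ : TangentBundle 𝓘(ℝ, E) E)) (φ y) :=
      contMDiffAt_vectorSpace_iff_contDiffAt.2 (hws _ hyt hyu)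
    have h2 : ContMDiffAt 𝓘(ℝ, E).tangent 𝓘(ℝ, E).tangent ∞
        (tangentMap 𝓘(ℝ, E) 𝓘(ℝ, E) φ.symm) (⟨φ y, w (φ y)⟩ : TangentBundle 𝓘(ℝ, E) E) :=
      contMDiffAt_tangentMap hto hφs hyt
    have h3 : ContMDiffAt 𝓘(ℝ, E) 𝓘(ℝ, E).tangent ∞
        (fun z : X => (⟨φ z, w (φ z)⟩ : TangentBundle 𝓘(ℝ, E) E)) y :=
      ContMDiffAt.comp (g := fun z : E => (⟨z, w z⟩ : TangentBundle 𝓘(ℝ, E) E)) (f := φ) y h1
        (hφc.contMDiffAt (hso.mem_nhds hys))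
    have h4 : ContMDiffAt 𝓘(ℝ, E) 𝓘(ℝ, E).tangent ∞
        (fun z : X => tangentMap 𝓘(ℝ, E) 𝓘(ℝ, E) φ.symm
          (⟨φ z, w (φ z)⟩ : TangentBundle 𝓘(ℝ, E) E)) y :=
      ContMDiffAt.comp (g := tangentMap 𝓘(ℝ, E) 𝓘(ℝ, E) φ.symm)
        (f := fun z : X => (⟨φ z, w (φ z)⟩ : TangentBundle 𝓘(ℝ, E) E)) y h2 h3
    refine h4.congr_of_eventuallyEq ?_
    filter_upwards [hy] with z hz
    have key : ∀ (z' : X) (a : E), z' = z →
        (⟨z, (show TangentSpace 𝓘(ℝ, E) z from a)⟩ : TangentBundle 𝓘(ℝ, E) X) =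
          ⟨z', (show TangentSpace 𝓘(ℝ, E) z' from a)⟩ := by
      rintro z' a rfl; rfl
    exact key (φ.symm (φ z)) _ (φ.left_inv hz)
  · have h1 : HasMFDerivAt 𝓘(ℝ, E) 𝓘(ℝ, ℂ) (π ∘ φ.symm) (φ y)
        ((mfderiv 𝓘(ℝ, E) 𝓘(ℝ, ℂ) π (φ.symm (φ y))).comp
          (mfderiv 𝓘(ℝ, E) 𝓘(ℝ, E) φ.symm (φ y))) :=
      HasMFDerivAt.comp (φ y) ((hπ _).mdifferentiableAt (by simp)).hasMFDerivAt
        ((hφs.contMDiffAt (hto.mem_nhds hyt)).mdifferentiableAt (by simp)).hasMFDerivAt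
    have h2 := DFunLike.congr_fun h1.mfderiv (w (φ y))
    have h3 : (fderiv ℝ f (φ y) (w (φ y)) : ℂ) = ζ := by
      have h4 : (fderiv ℝ f (φ y)) (w (φ y)) = (A (φ y) * Ring.inverse (A (φ y))) ζ := rfl
      rw [h4, Ring.mul_inverse_cancel _ hyu]
      rfl
    have key : ∀ (z' : X) (a : E), z' = y →
        (show ℂ from mfderiv 𝓘(ℝ, E) 𝓘(ℝ, ℂ) π y (show TangentSpace 𝓘(ℝ, E) y from a)) =
        (show ℂ from mfderiv 𝓘(ℝ, E) 𝓘(ℝ, ℂ) π z' (show TangentSpace 𝓘(ℝ, E) z' from a)) := by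
      rintro z' a rfl; rfl
    refine (key (φ.symm (φ y)) _ (φ.left_inv hys)).trans ?_
    refine Eq.trans ?_ h3
    rw [mfderiv_eq_fderiv] at h2
    exact h2.symm

theorem main : S_A.{u, v} := by
  intro E _ _ _ X _ _ _ _ _ π hπ ϱ hϱ C hC hsurj ζ hloc
  have : LocallyCompactSpace X := Manifold.locallyCompact_of_finiteDimensional 𝓘(ℝ, E)
  set t : (x : X) → Set (TangentSpace 𝓘(ℝ, E) x) := fun x =>
    {v | (x ∉ C → (show ℂ from mfderiv 𝓘(ℝ, E) 𝓘(ℝ, ℂ) π x v) = ζ) ∧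
      (1 ≤ ϱ x → (show ℝ from mfderiv 𝓘(ℝ, E) 𝓘(ℝ, ℝ) ϱ x v) = 0)} with ht
  have htc : ∀ x, Convex ℝ (t x) := by
    intro x v hv w hw a b _ _ hab
    constructor
    · intro hx
      have h1 : (show ℂ from mfderiv 𝓘(ℝ, E) 𝓘(ℝ, ℂ) π x (a • v + b • w)) =
          a • (show ℂ from mfderiv 𝓘(ℝ, E) 𝓘(ℝ, ℂ) π x v) +
            b • (show ℂ from mfderiv 𝓘(ℝ, E) 𝓘(ℝ, ℂ) π x w) := by
        have h2 := (mfderiv 𝓘(ℝ, E) 𝓘(ℝ, ℂ) π x).map_add (a • v) (b • w)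
        rw [ContinuousLinearMap.map_smul, ContinuousLinearMap.map_smul] at h2
        exact h2
      rw [h1, hv.1 hx, hw.1 hx, ← add_smul, hab, one_smul]
    · intro hx
      have h1 : (show ℝ from mfderiv 𝓘(ℝ, E) 𝓘(ℝ, ℝ) ϱ x (a • v + b • w)) =
          a • (show ℝ from mfderiv 𝓘(ℝ, E) 𝓘(ℝ, ℝ) ϱ x v) +
            b • (show ℝ from mfderiv 𝓘(ℝ, E) 𝓘(ℝ, ℝ) ϱ x w) := by
        have h2 := (mfderiv 𝓘(ℝ, E) 𝓘(ℝ, ℝ) ϱ x).map_add (a • v) (b • w)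
        rw [ContinuousLinearMap.map_smul, ContinuousLinearMap.map_smul] at h2
        exact h2
      rw [h1, hv.2 hx, hw.2 hx]
      simp
  have hs : ∃ s : Cₛ^((⊤ : ℕ∞) : ℕ∞ω)⟮𝓘(ℝ, E); E, (TangentSpace 𝓘(ℝ, E) : X → Type _)⟯,
      ∀ x : X, s x ∈ t x := by
    refine exists_contMDiffSection_forall_mem_convex_of_local (n := ⊤) 𝓘(ℝ, E) (F_fiber := E)
      (TangentSpace 𝓘(ℝ, E) : X → Type _) t htc ?_
    intro x
    rcases le_or_gt 1 (ϱ x) with h1 | h1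
    · obtain ⟨V, hV⟩ := hloc x h1
      refine ⟨_, hV, V, fun y hy => hy.1.contMDiffWithinAt, fun y hy => ⟨fun _ => hy.2.1,
        fun _ => hy.2.2⟩⟩
    · have hn : ∀ᶠ y in 𝓝 x, ϱ y < 1 :=
        hϱ.continuous.continuousAt.eventually (gt_mem_nhds h1)
      by_cases h2 : x ∈ interior C
      · refine ⟨_, hn.and (isOpen_interior.mem_nhds h2), fun y => 0, ?_, ?_⟩
        · exact (Bundle.contMDiff_zeroSection ℝ (TangentSpace 𝓘(ℝ, E) : X → Type _)).contMDiffOn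
        · rintro y ⟨hy, hyC⟩
          exact ⟨fun h => absurd (interior_subset hyC) h, fun h => absurd h (not_le.2 hy)⟩
      · obtain ⟨V, hV⟩ := local_lift hπ ζ (hsurj x h2)
        refine ⟨_, hn.and hV, V, fun y hy => hy.2.1.contMDiffWithinAt, fun y hy =>
          ⟨fun _ => hy.2.2, fun h => absurd h (not_le.2 hy.1)⟩⟩
  obtain ⟨s, hs⟩ := hs
  exact ⟨s, s.contMDiff, fun y hy => (hs y).1 hy, fun y hy => (hs y).2 hy⟩

end Pool.Agent.W630.TA
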