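import Pool.Agent.W630.Stubs

/-! # Statement B: completeness of vector fields with bounded projection -/

open scoped Topology ContDiff Manifold
open Set Pool.Agent.Helper186 MeasureTheory Metric Filter

noncomputable section

namespace Pool.Agent.W630.TB

set_option linter.unusedSectionVars false

universe u v

variable {E : Type u} [NormedAddCommGroup E] [NormedSpace ℝ E] [FiniteDimensional ℝ E]
  {X : Type v} [TopologicalSpace X] [T2Space X] [ChartedSpace E X] [IsManifold 𝓘(ℝ, E) ∞ X]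

/-- An integral curve whose partial integral curves are confined to compact sets exists for all
times. -/
theorem exists_of_confined {V : (x : X) → TangentSpace 𝓘(ℝ, E) x}
    (hV : ContMDiff 𝓘(ℝ, E) 𝓘(ℝ, E).tangent ∞ (fun x => (⟨x, V x⟩ : TangentBundle 𝓘(ℝ, E) X)))
    (x : X) (hC : ∀ T : ℝ, ∃ C : Set X, IsCompact C ∧ ∀ a ≤ T, ∀ γ : ℝ → X, γ 0 = x →
      IsMIntegralCurveOn (I := 𝓘(ℝ, E)) γ V (Ioo (-a) a) → ∀ t ∈ Ioo (-a) a, γ t ∈ C) :
    ∃ γ : ℝ → X, γ 0 = x ∧ IsMIntegralCurve (I := 𝓘(ℝ, E)) γ V := by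
  have : IsManifold 𝓘(ℝ, E) 1 X := IsManifold.of_le (n := ∞) (by simp)
  have hv : ContMDiff 𝓘(ℝ, E) 𝓘(ℝ, E).tangent 1
      (fun x => (⟨x, V x⟩ : TangentBundle 𝓘(ℝ, E) X)) := hV.of_le (by simp)
  let s := {a : ℝ | ∃ γ : ℝ → X, γ 0 = x ∧
    IsMIntegralCurveOn (I := 𝓘(ℝ, E)) γ V (Ioo (-a) a)}
  suffices hbdd : ¬BddAbove s by
    rw [not_bddAbove_iff] at hbdd
    rw [exists_isMIntegralCurve_iff_exists_isMIntegralCurveOn_Ioo hv]
    intro a
    obtain ⟨y, ⟨γ, hγ1, hγ2⟩, hlt⟩ := hbdd a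
    exact ⟨γ, hγ1, hγ2.mono <| Ioo_subset_Ioo (neg_le_neg hlt.le) hlt.le⟩
  intro hbdd
  set asup := sSup s with hasup
  obtain ⟨C, hCc, hCγ⟩ := hC asup
  obtain ⟨ε, hε, h⟩ := exists_uniform_time_compact hV (hCc.insert x)
  have hx := h x (mem_insert _ _)
  obtain ⟨a, ha, hlt⟩ := Real.add_neg_lt_sSup (⟨ε, hx⟩ : Set.Nonempty s) (ε := - (ε / 2))
    (by rw [neg_lt, neg_zero]; exact half_pos hε)
  have hasle : a ≤ asup := le_csSup hbdd ha
  rw [← hasup, ← sub_eq_add_neg] at hlt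
  obtain ⟨γ, h0, hγ⟩ := ha
  have hεle : ε ≤ asup := le_csSup hbdd hx
  have hmem := hCγ a hasle γ h0 hγ
  -- integral curve starting at `-(asup - ε / 2)` with radius `ε`
  obtain ⟨γ1_aux, h1_aux, hγ1⟩ := h (γ (-(asup - ε / 2)))
    (mem_insert_of_mem _ (hmem _ ⟨by linarith, by linarith⟩))
  rw [← isMIntegralCurveOn_comp_add (dt := asup - ε / 2)] at hγ1
  set γ1 := γ1_aux ∘ (· + (asup - ε / 2)) with γ1_def
  have heq1 : γ1 (-(asup - ε / 2)) = γ (-(asup - ε / 2)) := by simp [γ1_def, h1_aux]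
  obtain ⟨γ2_aux, h2_aux, hγ2⟩ := h (γ (asup - ε / 2))
    (mem_insert_of_mem _ (hmem _ ⟨by linarith, by linarith⟩))
  rw [← isMIntegralCurveOn_comp_sub (dt := asup - ε / 2)] at hγ2
  set γ2 := γ2_aux ∘ (· - (asup - ε / 2)) with γ2_def
  have heq2 : γ2 (asup - ε / 2) = γ (asup - ε / 2) := by simp [γ2_def, h2_aux]
  simp_rw [Set.mem_Ioo, ← sub_lt_iff_lt_add, ← lt_sub_iff_add_lt, ← Set.mem_Ioo] at hγ1
  simp_rw [Set.mem_Ioo, lt_sub_iff_add_lt, sub_lt_iff_lt_add, ← Set.mem_Ioo] at hγ2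
  set γ_ext : ℝ → X := piecewise (Ioo (-(asup + ε / 2)) a)
    (piecewise (Ioo (-a) a) γ γ1) γ2 with γ_ext_def
  have heq_ext : γ_ext 0 = x := by
    rw [γ_ext_def, piecewise, if_pos ⟨by linarith, by linarith⟩, piecewise,
      if_pos ⟨by linarith, by linarith⟩, h0]
  suffices hext : IsMIntegralCurveOn (I := 𝓘(ℝ, E)) γ_ext V
      (Ioo (-(asup + ε / 2)) (asup + ε / 2)) from
    (not_lt.mpr <| le_csSup hbdd ⟨γ_ext, heq_ext, hext⟩) <| lt_add_of_pos_right asup (half_pos hε)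
  apply (isMIntegralCurveOn_piecewise (t₀ := asup - ε / 2) hv _ hγ2
      ⟨⟨by linarith, hlt⟩, ⟨by linarith, by linarith⟩⟩
      (by rw [piecewise, if_pos ⟨by linarith, hlt⟩, ← heq2])).mono
    (Ioo_subset_Ioo_union_Ioo le_rfl (by linarith) (by linarith))
  exact (isMIntegralCurveOn_piecewise (t₀ := -(asup - ε / 2)) hv hγ hγ1
      ⟨⟨neg_lt_neg hlt, by linarith⟩, ⟨by linarith, by linarith⟩⟩ heq1.symm).mono
    (union_comm _ _ ▸ Ioo_subset_Ioo_union_Ioo (by linarith) (by linarith) le_rfl)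

/-- derivative of a function along an integral curve -/
theorem hasDerivAt_along {F : Type} [NormedAddCommGroup F] [NormedSpace ℝ F] {f : X → F}
    (hf : ContMDiff 𝓘(ℝ, E) 𝓘(ℝ, F) ∞ f) {V : (x : X) → TangentSpace 𝓘(ℝ, E) x}
    {γ : ℝ → X} {t : ℝ}
    (h : HasMFDerivAt 𝓘(ℝ, ℝ) 𝓘(ℝ, E) γ t ((1 : ℝ →L[ℝ] ℝ).smulRight (V (γ t)))) :
    HasDerivAt (fun s => f (γ s)) (show F from mfderiv 𝓘(ℝ, E) 𝓘(ℝ, F) f (γ t) (V (γ t))) t := by
  have h2 := ((hf (γ t)).mdifferentiableAt (by simp)).hasMFDerivAt.comp t h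
  have h3' : HasFDerivAt (fun s => f (γ s)) (show ℝ →L[ℝ] F from
      (mfderiv 𝓘(ℝ, E) 𝓘(ℝ, F) f (γ t)).comp
        ((1 : ℝ →L[ℝ] ℝ).smulRight (V (γ t)))) t :=
    hasMFDerivAt_iff_hasFDerivAt.1 h2
  have h3 := h3'.hasDerivAt
  refine h3.congr_deriv ?_
  exact congrArg (mfderiv 𝓘(ℝ, E) 𝓘(ℝ, F) f (γ t)) (one_smul ℝ (V (γ t)))

theorem main : S_B.{u, v} := by
  intro E _ _ _ X _ _ _ _ π hπ ϱ hϱ hK V hV B hB hVϱ
  have : IsManifold 𝓘(ℝ, E) 1 X := IsManifold.of_le (n := ∞) (by simp)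
  have key : ∀ x : X, ∃ γ : ℝ → X, γ 0 = x ∧ IsMIntegralCurve (I := 𝓘(ℝ, E)) γ V := by
    intro x
    apply exists_of_confined hV
    intro T
    set c : ℝ := max (ϱ x) 1 with hc
    refine ⟨{y | π y ∈ closedBall (π x) (|B| * |T|) ∧ ϱ y ≤ c}, hK _ _ (isCompact_closedBall _ _),
      ?_⟩
    intro a haT γ h0 hγ t ht
    have hγ' : ∀ s ∈ Ioo (-a) a, HasMFDerivAt 𝓘(ℝ, ℝ) 𝓘(ℝ, E) γ s
        ((1 : ℝ →L[ℝ] ℝ).smulRight (V (γ s))) := fun s hs =>
      (hγ s hs).hasMFDerivAt (Ioo_mem_nhds hs.1 hs.2)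
    have ha : 0 < a := by
      have h1 := ht.1.trans ht.2
      linarith
    have h0m : (0 : ℝ) ∈ Ioo (-a) a := ⟨by linarith, ha⟩
    constructor
    · have h1 := (convex_Ioo (-a) a).norm_image_sub_le_of_norm_hasDerivWithin_le
        (f := fun s => π (γ s)) (C := |B|)
        (fun s hs => (hasDerivAt_along hπ (hγ' s hs)).hasDerivWithinAt)
        (fun s _ => (hB (γ s)).trans (le_abs_self B)) h0m ht
      simp only [h0, sub_zero] at h1
      rw [mem_closedBall, dist_eq_norm]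
      refine h1.trans (mul_le_mul_of_nonneg_left ?_ (abs_nonneg _))
      rw [Real.norm_eq_abs]
      have h2 : |t| < a := abs_lt.2 ht
      linarith [le_abs_self T]
    · -- the second function
      set h : ℝ → ℝ := fun r => expNegInvGlue (r - c) with hh
      have hhs : ContDiff ℝ 1 h := (expNegInvGlue.contDiff (n := 1)).comp
        (contDiff_id.sub contDiff_const)
      have hd : ∀ s ∈ Ioo (-a) a, HasDerivAt (fun s => h (ϱ (γ s))) 0 s := by
        intro s hs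
        have h1 := hasDerivAt_along hϱ (hγ' s hs)
        have h2 : HasDerivAt h (deriv h (ϱ (γ s))) (ϱ (γ s)) :=
          (hhs.differentiable (by simp) _).hasDerivAt
        have h3 := h2.comp s h1
        refine h3.congr_deriv ?_
        rcases le_or_gt 1 (ϱ (γ s)) with h4 | h4
        · rw [hVϱ _ h4, mul_zero]
        · have h5 : h =ᶠ[𝓝 (ϱ (γ s))] fun _ => (0 : ℝ) := by
            filter_upwards [gt_mem_nhds h4] with r hr
            exact expNegInvGlue.zero_of_nonpos (by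
              have : (1 : ℝ) ≤ c := le_max_right _ _
              linarith)
          rw [h5.deriv_eq, deriv_const]
          exact zero_mul _
      have h1 := (convex_Ioo (-a) a).norm_image_sub_le_of_norm_hasDerivWithin_le
        (f := fun s => h (ϱ (γ s))) (C := 0)
        (fun s hs => (hd s hs).hasDerivWithinAt)
        (fun s _ => by simp) h0m ht
      have h2 : h (ϱ (γ t)) = 0 := by
        have h3 : h (ϱ (γ 0)) = 0 := by
          rw [h0]
          exact expNegInvGlue.zero_of_nonpos (by linarith [le_max_left (ϱ x) 1])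
        rw [zero_mul] at h1
        have h4 := norm_le_zero_iff.1 h1
        rw [h3, sub_zero] at h4
        exact h4
      have h3 := expNegInvGlue.zero_iff_nonpos.1 h2
      linarith
  choose Fl h0 hFl using key
  refine ⟨fun t x => Fl x t, h0, ?_, hFl, ?_⟩
  · intro s t x
    rw [add_comm]
    exact flow_add hV h0 hFl x t s
  · exact (contMDiff_flow hV h0 hFl).comp (contMDiff_snd.prodMk contMDiff_fst)

end Pool.Agent.W630.TB
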