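import Pool.Agent.W630.TA
import Pool.Agent.W630.TB

/-! # Statement C, part 1: the model and the charts -/

open scoped Topology ContDiff Manifold
open Set Pool.Agent.Helper186 MeasureTheory Metric Filter

noncomputable section

namespace Pool.Agent.W630.TC

set_option linter.unusedSectionVars false

universe u v

/-! ## The model -/

/-- the quadratic function `∑ (aᵢ + i bᵢ)²` -/
def SS (q : P × P) : ℂ := ∑ i, ((q.1 i : ℂ) + (q.2 i : ℂ) * Complex.I) ^ 2

/-- the sum of the squares -/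
def n2 (q : P × P) : ℝ := ∑ i, (q.1 i ^ 2 + q.2 i ^ 2)

/-- the linear saddle -/
def mm (q : P × P) : P × P := ((1 / 2 : ℝ) • q.1, (-(1 / 2) : ℝ) • q.2)

/-- the flow of the linear saddle -/
def lin (t : ℝ) (q : P × P) : P × P := (Real.exp (t / 2) • q.1, Real.exp (-(t / 2)) • q.2)

theorem contDiff_SS : ContDiff ℝ ∞ SS := by
  unfold SS
  apply ContDiff.sum
  intro i _
  have h1 : ContDiff ℝ ∞ fun q : P × P => ((q.1 i : ℝ) : ℂ) :=
    Complex.ofRealCLM.contDiff.comp ((contDiff_apply ℝ ℝ i).comp contDiff_fst)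
  have h2 : ContDiff ℝ ∞ fun q : P × P => ((q.2 i : ℝ) : ℂ) :=
    Complex.ofRealCLM.contDiff.comp ((contDiff_apply ℝ ℝ i).comp contDiff_snd)
  exact (h1.add (h2.mul contDiff_const)).pow 2

theorem contDiff_mm : ContDiff ℝ ∞ mm := by
  unfold mm
  fun_prop

theorem lin_zero (q : P × P) : lin 0 q = q := by simp [lin]

theorem hasDerivAt_lin (t : ℝ) (q : P × P) : HasDerivAt (fun t => lin t q) (mm (lin t q)) t := by
  have h1 : HasDerivAt (fun t : ℝ => Real.exp (t / 2)) (1 / 2 * Real.exp (t / 2)) t := by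
    have := ((hasDerivAt_id t).div_const 2).exp
    refine this.congr_deriv ?_
    simp only [id]
    ring
  have h2 : HasDerivAt (fun t : ℝ => Real.exp (-(t / 2))) (-(1 / 2) * Real.exp (-(t / 2))) t := by
    have := ((hasDerivAt_id t).div_const 2).neg.exp
    refine this.congr_deriv ?_
    simp only [id, Pi.neg_apply]
    ring
  refine ((h1.smul_const q.1).prodMk (h2.smul_const q.2)).congr_deriv ?_
  simp only [mm, lin, smul_smul]

theorem fderiv_SS_mm (q : P × P) : fderiv ℝ SS q (mm q) = (n2 q : ℂ) := by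
  have h1 : HasDerivAt (fun t => SS (lin t q)) (fderiv ℝ SS q (mm q)) 0 := by
    have h2 := hasDerivAt_lin 0 q
    rw [lin_zero] at h2
    have h3 : HasFDerivAt SS (fderiv ℝ SS q) (lin 0 q) := by
      rw [lin_zero]
      exact (contDiff_SS.differentiable (by simp) q).hasFDerivAt
    exact h3.comp_hasDerivAt 0 h2
  have h4 : HasDerivAt (fun t => SS (lin t q)) (n2 q : ℂ) 0 := by
    unfold SS n2
    push_cast
    apply HasDerivAt.fun_sum
    intro i _
    have e1 : HasDerivAt (fun t : ℝ => (((lin t q).1 i : ℝ) : ℂ)) (((1 / 2 * q.1 i : ℝ)) : ℂ) 0 := by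
      have h5 : HasDerivAt (fun t : ℝ => Real.exp (t / 2) * q.1 i) (1 / 2 * q.1 i) 0 := by
        have := (((hasDerivAt_id (0 : ℝ)).div_const 2).exp).mul_const (q.1 i)
        refine this.congr_deriv ?_
        simp
      exact h5.ofReal_comp
    have e2 : HasDerivAt (fun t : ℝ => (((lin t q).2 i : ℝ) : ℂ)) (((-(1 / 2) * q.2 i : ℝ)) : ℂ)
        0 := by
      have h5 : HasDerivAt (fun t : ℝ => Real.exp (-(t / 2)) * q.2 i) (-(1 / 2) * q.2 i) 0 := by
        have := (((hasDerivAt_id (0 : ℝ)).div_const 2).neg.exp).mul_const (q.2 i)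
        refine this.congr_deriv ?_
        simp
      exact h5.ofReal_comp
    have e3 := (e1.add (e2.mul_const Complex.I)).pow 2
    refine e3.congr_deriv ?_
    simp only [lin_zero, Pi.add_apply]
    push_cast
    linear_combination (-(q.2 i : ℂ) ^ 2) * Complex.I_sq
  exact h1.unique h4

theorem SS_re (q : P × P) : (SS q).re = ∑ i, (q.1 i ^ 2 - q.2 i ^ 2) := by
  unfold SS
  rw [Complex.re_sum]
  refine Finset.sum_congr rfl fun i _ => ?_
  simp [pow_two]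

theorem SS_im (q : P × P) : (SS q).im = ∑ i, 2 * (q.1 i * q.2 i) := by
  unfold SS
  rw [Complex.im_sum]
  refine Finset.sum_congr rfl fun i _ => ?_
  simp [pow_two]
  ring

theorem abs_fst_le (q : P × P) (i : Fin 3) : |q.1 i| ≤ ‖q.1‖ := by
  rw [← Real.norm_eq_abs]
  exact norm_le_pi_norm q.1 i

theorem abs_snd_le (q : P × P) (i : Fin 3) : |q.2 i| ≤ ‖q.2‖ := by
  rw [← Real.norm_eq_abs]
  exact norm_le_pi_norm q.2 i

theorem sq_le_of_abs {a r : ℝ} (h : |a| ≤ r) : a ^ 2 ≤ r ^ 2 := by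
  have := abs_nonneg a
  rw [← sq_abs]
  exact pow_le_pow_left₀ this h 2

theorem sum_sq_le (a : P) {r : ℝ} (h : ‖a‖ ≤ r) : ∑ i, a i ^ 2 ≤ 3 * r ^ 2 := by
  rw [Fin.sum_univ_three]
  have h0 : ∀ i, a i ^ 2 ≤ r ^ 2 := fun i =>
    sq_le_of_abs ((Real.norm_eq_abs (a i) ▸ norm_le_pi_norm a i).trans h)
  linarith [h0 0, h0 1, h0 2]

theorem le_sum_sq (a : P) : ‖a‖ ^ 2 ≤ ∑ i, a i ^ 2 := by
  have h0 : 0 ≤ ∑ i, a i ^ 2 := Finset.sum_nonneg fun i _ => sq_nonneg _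
  have h1 : ‖a‖ ≤ Real.sqrt (∑ i, a i ^ 2) := by
    rw [pi_norm_le_iff_of_nonneg (Real.sqrt_nonneg _)]
    intro i
    rw [Real.norm_eq_abs, ← Real.sqrt_sq_eq_abs]
    exact Real.sqrt_le_sqrt (Finset.single_le_sum (f := fun i => a i ^ 2)
      (fun i _ => sq_nonneg _) (Finset.mem_univ i))
  calc ‖a‖ ^ 2 ≤ Real.sqrt (∑ i, a i ^ 2) ^ 2 := pow_le_pow_left₀ (norm_nonneg _) h1 2
    _ = ∑ i, a i ^ 2 := Real.sq_sqrt h0

theorem n2_nonneg (q : P × P) : 0 ≤ n2 q :=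
  Finset.sum_nonneg fun i _ => add_nonneg (sq_nonneg _) (sq_nonneg _)

theorem n2_eq (q : P × P) : n2 q = ∑ i, q.1 i ^ 2 + ∑ i, q.2 i ^ 2 := Finset.sum_add_distrib

theorem n2_le {q : P × P} {r : ℝ} (h : ‖q‖ ≤ r) : n2 q ≤ 6 * r ^ 2 := by
  have h1 := sum_sq_le q.1 ((norm_fst_le q).trans h)
  have h2 := sum_sq_le q.2 ((norm_snd_le q).trans h)
  rw [n2_eq]
  linarith

theorem lt_n2 {q : P × P} {r : ℝ} (hr : 0 ≤ r) (h : r < ‖q‖) : r ^ 2 < n2 q := by
  have h1 := le_sum_sq q.1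
  have h2 := le_sum_sq q.2
  have h3 : 0 ≤ ∑ i, q.1 i ^ 2 := Finset.sum_nonneg fun i _ => sq_nonneg _
  have h4 : 0 ≤ ∑ i, q.2 i ^ 2 := Finset.sum_nonneg fun i _ => sq_nonneg _
  rw [n2_eq]
  rw [Prod.norm_def, lt_max_iff] at h
  rcases h with h | h
  · have := pow_lt_pow_left₀ h hr (n := 2) (by simp)
    linarith
  · have := pow_lt_pow_left₀ h hr (n := 2) (by simp)
    linarith

theorem abs_SS_im_le {q : P × P} {r s : ℝ} (h1 : ‖q.1‖ ≤ r) (h2 : ‖q.2‖ ≤ s) :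
    |(SS q).im| ≤ 6 * (r * s) := by
  rw [SS_im]
  refine (Finset.abs_sum_le_sum_abs _ _).trans ?_
  have h3 : ∀ i, |2 * (q.1 i * q.2 i)| ≤ 2 * (r * s) := by
    intro i
    rw [abs_mul, abs_mul, abs_two]
    have h4 := (abs_fst_le q i).trans h1
    have h5 := (abs_snd_le q i).trans h2
    have h6 : |q.1 i| * |q.2 i| ≤ r * s :=
      mul_le_mul h4 h5 (abs_nonneg _) ((abs_nonneg _).trans h4)
    linarith
  rw [Fin.sum_univ_three]
  linarith [h3 0, h3 1, h3 2]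

theorem SS_re_eq (q : P × P) : (SS q).re = ∑ i, q.1 i ^ 2 - ∑ i, q.2 i ^ 2 := by
  rw [SS_re, Finset.sum_sub_distrib]

/-! ## The charts -/

variable {E : Type u} [NormedAddCommGroup E] [NormedSpace ℝ E] [FiniteDimensional ℝ E]
  {X : Type v} [TopologicalSpace X] [ChartedSpace E X] [IsManifold 𝓘(ℝ, E) ∞ X]

/-- charts at the critical points, and a small radius -/
structure CD (E : Type u) [NormedAddCommGroup E] [NormedSpace ℝ E]
    {X : Type v} [TopologicalSpace X] [ChartedSpace E X] (π : X → ℂ) (ϱ : X → ℝ) (crit : Set X)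
    (x₁ : ℝ) where
  χ : crit → OpenPartialHomeomorph X (P × P)
  mem : ∀ p, p.1 ∈ (χ p).source
  zero : ∀ p, χ p p.1 = 0
  sm : ∀ p, ContMDiffOn 𝓘(ℝ, E) 𝓘(ℝ, P × P) ∞ (χ p) (χ p).source
  sm' : ∀ p, ContMDiffOn 𝓘(ℝ, P × P) 𝓘(ℝ, E) ∞ (χ p).symm (χ p).target
  eq : ∀ p, ∀ q ∈ (χ p).target, π ((χ p).symm q) = π p + SS q
  ρ : ℝ
  pos : 0 < ρ
  ball : ∀ p, closedBall 0 (6 * ρ) ⊆ (χ p).target
  disj : ∀ p p', p ≠ p' → ∀ x ∈ (χ p).symm '' closedBall 0 (6 * ρ),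
    x ∉ (χ p').symm '' closedBall 0 (6 * ρ)
  hor : ∀ p, ∀ x ∈ (χ p).symm '' closedBall 0 (6 * ρ), ϱ x < 1
  re : ∀ p, ∀ x ∈ (χ p).symm '' closedBall 0 (6 * ρ), (π x).re < x₁
  small : 216 * ρ ^ 2 ≤ 1
  vals : ∀ p p' : crit, (π p).im ≠ (π p').im → 30 * ρ ^ 2 < |(π p).im - (π p').im|
  vals' : ∀ p p' : crit, (π p).im = (π p').im → π p = π p'
  fin : crit.Finite

/-- the linear equivalence `ℂ³ ≃ ℝ³ × ℝ³` -/
def eqL : EuclideanSpace ℂ (Fin 3) ≃L[ℝ] P × P :=
  LinearEquiv.toContinuousLinearEquiv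
    { toFun := fun q => (fun i => (q i).re, fun i => (q i).im)
      map_add' := fun a b => by ext <;> simp
      map_smul' := fun c a => by ext <;> simp
      invFun := fun q => WithLp.toLp 2 fun i => (q.1 i : ℂ) + (q.2 i : ℂ) * Complex.I
      left_inv := fun q => by
        ext i
        simp [Complex.re_add_im]
      right_inv := fun q => by
        ext i <;> simp }

theorem eqL_apply (q : EuclideanSpace ℂ (Fin 3)) :
    eqL q = (fun i => (q i).re, fun i => (q i).im) := rfl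

theorem SS_eqL (q : EuclideanSpace ℂ (Fin 3)) : SS (eqL q) = ∑ i, (q i) ^ 2 := by
  unfold SS
  refine Finset.sum_congr rfl fun i _ => ?_
  rw [eqL_apply]
  simp [Complex.re_add_im]

/-- existence of the chart data -/
theorem exists_CD [T2Space X] (π : X → ℂ) (hπ : ContMDiff 𝓘(ℝ, E) 𝓘(ℝ, ℂ) ∞ π)
    (ϱ : X → ℝ) (hϱ : ContMDiff 𝓘(ℝ, E) 𝓘(ℝ, ℝ) ∞ ϱ) (crit : Set X) (hfin : crit.Finite)
    (hcϱ : ∀ p ∈ crit, ϱ p ≤ 0)
    (hch : ∀ p ∈ crit, ∃ ψ : OpenPartialHomeomorph X (EuclideanSpace ℂ (Fin 3)),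
      p ∈ ψ.source ∧ ψ p = 0 ∧
      ContMDiffOn 𝓘(ℝ, E) 𝓘(ℝ, EuclideanSpace ℂ (Fin 3)) ∞ ψ ψ.source ∧
      ContMDiffOn 𝓘(ℝ, EuclideanSpace ℂ (Fin 3)) 𝓘(ℝ, E) ∞ ψ.symm ψ.target ∧
      ∀ x ∈ ψ.source, π x = π p + ∑ i, (ψ x i) ^ 2)
    (x₁ : ℝ) (hx₁ : ∀ p ∈ crit, (π p).re < x₁)
    (him : ∀ p ∈ crit, ∀ p' ∈ crit, (π p).im = (π p').im → π p = π p') :
    Nonempty (CD E π ϱ crit x₁) := by
  have hch' : ∀ p : crit, ∃ ψ : OpenPartialHomeomorph X (EuclideanSpace ℂ (Fin 3)),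
      p.1 ∈ ψ.source ∧ ψ p = 0 ∧
      ContMDiffOn 𝓘(ℝ, E) 𝓘(ℝ, EuclideanSpace ℂ (Fin 3)) ∞ ψ ψ.source ∧
      ContMDiffOn 𝓘(ℝ, EuclideanSpace ℂ (Fin 3)) 𝓘(ℝ, E) ∞ ψ.symm ψ.target ∧
      ∀ x ∈ ψ.source, π x = π p + ∑ i, (ψ x i) ^ 2 := fun p => hch p p.2
  choose ψ h1 h2 h3 h4 h5 using hch'
  set χ : crit → OpenPartialHomeomorph X (P × P) := fun p =>
    (ψ p).transHomeomorph eqL.toHomeomorph with hχ
  have hχs : ∀ p, (χ p).source = (ψ p).source := fun p => rfl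
  have hχa : ∀ p x, χ p x = eqL (ψ p x) := fun p x => rfl
  have hχt : ∀ p q, q ∈ (χ p).target ↔ eqL.symm q ∈ (ψ p).target := fun p q => Iff.rfl
  have hχsy : ∀ p q, (χ p).symm q = (ψ p).symm (eqL.symm q) := fun p q => rfl
  have hzero : ∀ p, χ p p.1 = 0 := fun p => by rw [hχa, h2, map_zero]
  have hsm : ∀ p, ContMDiffOn 𝓘(ℝ, E) 𝓘(ℝ, P × P) ∞ (χ p) (χ p).source := fun p =>
    (eqL.contDiff.contMDiff).comp_contMDiffOn (h3 p)
  have hsm' : ∀ p, ContMDiffOn 𝓘(ℝ, P × P) 𝓘(ℝ, E) ∞ (χ p).symm (χ p).target := fun p =>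
    (h4 p).comp (eqL.symm.contDiff.contMDiff).contMDiffOn fun q hq => hq
  have heq : ∀ p, ∀ q ∈ (χ p).target, π ((χ p).symm q) = π p + SS q := by
    intro p q hq
    have hq' := (hχt p q).1 hq
    rw [hχsy, h5 p _ ((ψ p).map_target hq'), (ψ p).right_inv hq', ← SS_eqL,
      ContinuousLinearEquiv.apply_symm_apply]
  obtain ⟨U, hU, hUd⟩ := hfin.t2_separation
  -- the radius
  have hsy : ∀ p : crit, ContinuousAt (χ p).symm 0 := fun p => by
    have h6 : (0 : P × P) ∈ (χ p).target := by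
      rw [← hzero p]
      exact (χ p).map_source (h1 p)
    exact ((χ p).symm.continuousAt h6)
  have hsy0 : ∀ p : crit, (χ p).symm 0 = p.1 := fun p => by
    rw [← hzero p]
    exact (χ p).left_inv (h1 p)
  have hr : ∀ p : crit, ∃ r > 0, ∀ q ∈ closedBall (0 : P × P) r, q ∈ (χ p).target ∧
      (χ p).symm q ∈ U p ∧ ϱ ((χ p).symm q) < 1 ∧ (π ((χ p).symm q)).re < x₁ := by
    intro p
    have e1 : ∀ᶠ q in 𝓝 (0 : P × P), q ∈ (χ p).target := by
      have h6 : (0 : P × P) ∈ (χ p).target := by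
        rw [← hzero p]
        exact (χ p).map_source (h1 p)
      exact (χ p).open_target.mem_nhds h6
    have e2 : ∀ᶠ q in 𝓝 (0 : P × P), (χ p).symm q ∈ U p :=
      (hsy p).eventually (by rw [hsy0]; exact (hU p).2.mem_nhds (hU p).1)
    have e3 : ∀ᶠ q in 𝓝 (0 : P × P), ϱ ((χ p).symm q) < 1 := by
      refine (hsy p).eventually (p := fun y => ϱ y < 1) ?_
      rw [hsy0]
      exact hϱ.continuous.continuousAt.eventually (gt_mem_nhds (by linarith [hcϱ p p.2]))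
    have e4 : ∀ᶠ q in 𝓝 (0 : P × P), (π ((χ p).symm q)).re < x₁ := by
      refine (hsy p).eventually (p := fun y => (π y).re < x₁) ?_
      rw [hsy0]
      have h7 : Continuous fun x => (π x).re := Complex.continuous_re.comp hπ.continuous
      exact h7.continuousAt.eventually (gt_mem_nhds (hx₁ p p.2))
    obtain ⟨r, hr, hr'⟩ := Metric.nhds_basis_closedBall.mem_iff.1 (e1.and (e2.and (e3.and e4)))
    exact ⟨r, hr, fun q hq => hr' hq⟩
  choose r hr0 hr using hr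
  have : Finite crit := hfin
  -- all conditions hold for all small radii
  have hev : ∀ᶠ ρ : ℝ in 𝓝[>] 0, 0 < ρ ∧ (∀ p : crit, 6 * ρ < r p) ∧ 216 * ρ ^ 2 < 1 ∧
      ∀ p p' : crit, (π p).im ≠ (π p').im → 30 * ρ ^ 2 < |(π p).im - (π p').im| := by
    refine Filter.Eventually.and self_mem_nhdsWithin ?_
    refine Filter.Eventually.filter_mono nhdsWithin_le_nhds ?_
    refine Filter.Eventually.and ?_ (Filter.Eventually.and ?_ ?_)
    · rw [eventually_all]
      intro p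
      have hc : Continuous fun ρ : ℝ => 6 * ρ := by fun_prop
      exact hc.continuousAt.eventually (gt_mem_nhds (by simpa using hr0 p))
    · have hc : Continuous fun ρ : ℝ => 216 * ρ ^ 2 := by fun_prop
      exact hc.continuousAt.eventually (gt_mem_nhds (by simp))
    · rw [eventually_all]
      intro p
      rw [eventually_all]
      intro p'
      by_cases h : (π p).im = (π p').im
      · exact Eventually.of_forall fun _ h' => absurd h h'
      · have hc : Continuous fun ρ : ℝ => 30 * ρ ^ 2 := by fun_prop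
        have h6 : 0 < |(π p).im - (π p').im| := abs_pos.2 (sub_ne_zero.2 h)
        have h7 : 30 * (0 : ℝ) ^ 2 < |(π p).im - (π p').im| := by
          rw [zero_pow two_ne_zero, mul_zero]
          exact h6
        filter_upwards [hc.continuousAt.eventually (gt_mem_nhds h7)] with ρ hρ _
        exact hρ
  obtain ⟨ρ, hρ, hρr, hρs, hρv⟩ := hev.exists
  refine ⟨⟨χ, h1, hzero, hsm, hsm', heq, ρ, hρ, ?_, ?_, ?_, ?_, hρs.le, hρv,
    fun p p' h => him p p.2 p' p'.2 h, hfin⟩⟩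
  · intro p q hq
    exact (hr p q (closedBall_subset_closedBall (hρr p).le hq)).1
  · rintro p p' hne _ ⟨q, hq, rfl⟩ ⟨q', hq', he⟩
    have h6 := (hr p q (closedBall_subset_closedBall (hρr p).le hq)).2.1
    have h7 := (hr p' q' (closedBall_subset_closedBall (hρr p').le hq')).2.1
    rw [he] at h7
    have h8 := hUd p.2 p'.2 (fun h => hne (Subtype.ext h))
    exact Set.disjoint_left.1 h8 h6 h7
  · rintro p _ ⟨q, hq, rfl⟩
    exact (hr p q (closedBall_subset_closedBall (hρr p).le hq)).2.2.1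
  · rintro p _ ⟨q, hq, rfl⟩
    exact (hr p q (closedBall_subset_closedBall (hρr p).le hq)).2.2.2

end Pool.Agent.W630.TC
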