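import Pool.Agent.W630.TC1

/-! # Statement C, part 2: the vector fields -/

open scoped Topology ContDiff Manifold
open Set Pool.Agent.Helper186 MeasureTheory Metric Filter

noncomputable section

namespace Pool.Agent.W630.TC

set_option linter.unusedSectionVars false

universe u v

variable {E : Type u} [NormedAddCommGroup E] [NormedSpace ℝ E] [FiniteDimensional ℝ E]
  {X : Type v} [TopologicalSpace X] [ChartedSpace E X] [IsManifold 𝓘(ℝ, E) ∞ X]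

section push

variable {F : Type} [NormedAddCommGroup F] [NormedSpace ℝ F]
  {F' : Type} [NormedAddCommGroup F'] [NormedSpace ℝ F']

/-- push forward of a vector field under an inverse chart -/
def pushV (E : Type u) [NormedAddCommGroup E] [NormedSpace ℝ E]
    {X : Type v} [TopologicalSpace X] [ChartedSpace E X]
    (χ : OpenPartialHomeomorph X F) (w : F → F) (x : X) : TangentSpace 𝓘(ℝ, E) x :=
  (mfderiv 𝓘(ℝ, F) 𝓘(ℝ, E) χ.symm (χ x) (w (χ x)) : E)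

variable {χ : OpenPartialHomeomorph X F}
  (h1 : ContMDiffOn 𝓘(ℝ, E) 𝓘(ℝ, F) ∞ χ χ.source)
  (h2 : ContMDiffOn 𝓘(ℝ, F) 𝓘(ℝ, E) ∞ χ.symm χ.target) {w : F → F} (hw : ContDiff ℝ ∞ w)

include h1 h2 hw in
theorem smooth_pushV {x : X} (hx : x ∈ χ.source) :
    ContMDiffAt 𝓘(ℝ, E) 𝓘(ℝ, E).tangent ∞
      (fun y => (⟨y, pushV E χ w y⟩ : TangentBundle 𝓘(ℝ, E) X)) x := by
  have hxt : χ x ∈ χ.target := χ.map_source hx
  have e1 : ContMDiffAt 𝓘(ℝ, F) 𝓘(ℝ, F).tangent ∞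
      (fun z : F => (⟨z, w z⟩ : TangentBundle 𝓘(ℝ, F) F)) (χ x) :=
    contMDiffAt_vectorSpace_iff_contDiffAt.2 hw.contDiffAt
  have e2 : ContMDiffAt 𝓘(ℝ, F).tangent 𝓘(ℝ, E).tangent ∞
      (tangentMap 𝓘(ℝ, F) 𝓘(ℝ, E) χ.symm) (⟨χ x, w (χ x)⟩ : TangentBundle 𝓘(ℝ, F) F) :=
    contMDiffAt_tangentMap χ.open_target h2 hxt
  have e3 : ContMDiffAt 𝓘(ℝ, E) 𝓘(ℝ, F).tangent ∞
      (fun z : X => (⟨χ z, w (χ z)⟩ : TangentBundle 𝓘(ℝ, F) F)) x :=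
    ContMDiffAt.comp (g := fun z : F => (⟨z, w z⟩ : TangentBundle 𝓘(ℝ, F) F)) (f := χ) x e1
      (h1.contMDiffAt (χ.open_source.mem_nhds hx))
  have e4 : ContMDiffAt 𝓘(ℝ, E) 𝓘(ℝ, E).tangent ∞
      (fun z : X => tangentMap 𝓘(ℝ, F) 𝓘(ℝ, E) χ.symm
        (⟨χ z, w (χ z)⟩ : TangentBundle 𝓘(ℝ, F) F)) x :=
    ContMDiffAt.comp (g := tangentMap 𝓘(ℝ, F) 𝓘(ℝ, E) χ.symm)
      (f := fun z : X => (⟨χ z, w (χ z)⟩ : TangentBundle 𝓘(ℝ, F) F)) x e2 e3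
  refine e4.congr_of_eventuallyEq ?_
  filter_upwards [χ.open_source.mem_nhds hx] with z hz
  have key : ∀ (z' : X) (a : E), z' = z →
      (⟨z, (show TangentSpace 𝓘(ℝ, E) z from a)⟩ : TangentBundle 𝓘(ℝ, E) X) =
        ⟨z', (show TangentSpace 𝓘(ℝ, E) z' from a)⟩ := by
    rintro z' a rfl; rfl
  exact key (χ.symm (χ z)) _ (χ.left_inv hz)

include h2 in
theorem mfderiv_pushV {f : X → F'} (hf : ContMDiff 𝓘(ℝ, E) 𝓘(ℝ, F') ∞ f) {x : X}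
    (hx : x ∈ χ.source) :
    (show F' from mfderiv 𝓘(ℝ, E) 𝓘(ℝ, F') f x (pushV E χ w x)) =
      fderiv ℝ (f ∘ χ.symm) (χ x) (w (χ x)) := by
  have hxt : χ x ∈ χ.target := χ.map_source hx
  have e1 : HasMFDerivAt 𝓘(ℝ, F) 𝓘(ℝ, F') (f ∘ χ.symm) (χ x)
      ((mfderiv 𝓘(ℝ, E) 𝓘(ℝ, F') f (χ.symm (χ x))).comp
        (mfderiv 𝓘(ℝ, F) 𝓘(ℝ, E) χ.symm (χ x))) :=
    HasMFDerivAt.comp (χ x) ((hf _).mdifferentiableAt (by simp)).hasMFDerivAt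
      ((h2.contMDiffAt (χ.open_target.mem_nhds hxt)).mdifferentiableAt (by simp)).hasMFDerivAt
  have e2 := DFunLike.congr_fun e1.mfderiv (w (χ x))
  have key : ∀ (z' : X) (a : E), z' = x →
      (show F' from mfderiv 𝓘(ℝ, E) 𝓘(ℝ, F') f x (show TangentSpace 𝓘(ℝ, E) x from a)) =
      (show F' from mfderiv 𝓘(ℝ, E) 𝓘(ℝ, F') f z' (show TangentSpace 𝓘(ℝ, E) z' from a)) := by
    rintro z' a rfl; rfl
  refine (key (χ.symm (χ x)) _ (χ.left_inv hx)).trans ?_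
  rw [mfderiv_eq_fderiv] at e2
  exact e2.symm

end push

variable {π : X → ℂ} {ϱ : X → ℝ} {crit : Set X} {x₁ : ℝ} (c : CD E π ϱ crit x₁)

namespace CD

/-- small closed balls around the critical points -/
def Bp (p : crit) (r : ℝ) : Set X := (c.χ p).symm '' closedBall 0 r

variable {c}

theorem mem_Bp {p : crit} {r : ℝ} (hr : r ≤ 6 * c.ρ) {x : X} :
    x ∈ c.Bp p r ↔ x ∈ (c.χ p).source ∧ ‖c.χ p x‖ ≤ r := by
  constructor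
  · rintro ⟨q, hq, rfl⟩
    have h1 : q ∈ (c.χ p).target := c.ball p (closedBall_subset_closedBall hr hq)
    refine ⟨(c.χ p).map_target h1, ?_⟩
    rw [(c.χ p).right_inv h1]
    simpa using hq
  · rintro ⟨h1, h2⟩
    exact ⟨c.χ p x, by simpa using h2, (c.χ p).left_inv h1⟩

theorem Bp_mono {p : crit} {r s : ℝ} (h : r ≤ s) : c.Bp p r ⊆ c.Bp p s :=
  image_mono (closedBall_subset_closedBall h)

theorem isCompact_Bp {p : crit} {r : ℝ} (hr : r ≤ 6 * c.ρ) : IsCompact (c.Bp p r) :=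
  (isCompact_closedBall _ _).image_of_continuousOn
    ((c.χ p).continuousOn_symm.mono fun _ hq => c.ball p (closedBall_subset_closedBall hr hq))

theorem isCompact_iUnion_Bp {r : ℝ} (hr : r ≤ 6 * c.ρ) : IsCompact (⋃ p, c.Bp p r) := by
  have : Finite crit := c.fin
  exact isCompact_iUnion fun p => isCompact_Bp hr

theorem not_mem_other {p p' : crit} (h : p ≠ p') {x : X} (hx : x ∈ c.Bp p (6 * c.ρ)) :
    x ∉ c.Bp p' (6 * c.ρ) := c.disj p p' h x hx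

theorem crit_mem (p : crit) {r : ℝ} (hr : 0 ≤ r) : p.1 ∈ c.Bp p r := by
  refine ⟨0, by simpa using hr, ?_⟩
  rw [← c.zero p]
  exact (c.χ p).left_inv (c.mem p)

theorem isOpen_inner (p : crit) (r : ℝ) :
    IsOpen {x | x ∈ (c.χ p).source ∧ ‖c.χ p x‖ < r} := by
  have h1 := (c.χ p).continuousOn.norm.isOpen_inter_preimage (c.χ p).open_source
    (isOpen_Iio (a := r))
  exact h1

variable (c)

/-- the model field -/
def Vp (p : crit) (x : X) : TangentSpace 𝓘(ℝ, E) x := pushV E (c.χ p) mm x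

variable {c}

theorem smooth_Vp {p : crit} {x : X} (hx : x ∈ (c.χ p).source) :
    ContMDiffAt 𝓘(ℝ, E) 𝓘(ℝ, E).tangent ∞
      (fun y => (⟨y, c.Vp p y⟩ : TangentBundle 𝓘(ℝ, E) X)) x :=
  smooth_pushV (c.sm p) (c.sm' p) contDiff_mm hx

theorem dπ_Vp (hπ : ContMDiff 𝓘(ℝ, E) 𝓘(ℝ, ℂ) ∞ π) {p : crit} {x : X}
    (hx : x ∈ (c.χ p).source) :
    (show ℂ from mfderiv 𝓘(ℝ, E) 𝓘(ℝ, ℂ) π x (c.Vp p x)) = (n2 (c.χ p x) : ℂ) := by
  refine (mfderiv_pushV (c.sm' p) (w := mm) hπ hx).trans ?_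
  have h1 : (π ∘ (c.χ p).symm) =ᶠ[𝓝 (c.χ p x)] fun q => π p + SS q := by
    filter_upwards [(c.χ p).open_target.mem_nhds ((c.χ p).map_source hx)] with q hq
    exact c.eq p q hq
  rw [h1.fderiv_eq]
  have h2 : fderiv ℝ (fun q => π p + SS q) (c.χ p x) = fderiv ℝ SS (c.χ p x) :=
    fderiv_const_add _
  rw [h2, fderiv_SS_mm]

end CD

/-- a linear combination of tangent vectors -/
theorem mf_comb {F : Type} [NormedAddCommGroup F] [NormedSpace ℝ F] {f : X → F} {x : X}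
    (a b : ℝ) (v w : TangentSpace 𝓘(ℝ, E) x) :
    (show F from mfderiv 𝓘(ℝ, E) 𝓘(ℝ, F) f x (a • v + b • w)) =
      a • (show F from mfderiv 𝓘(ℝ, E) 𝓘(ℝ, F) f x v) +
        b • (show F from mfderiv 𝓘(ℝ, E) 𝓘(ℝ, F) f x w) := by
  have h2 := (mfderiv 𝓘(ℝ, E) 𝓘(ℝ, F) f x).map_add (a • v) (b • w)
  rw [ContinuousLinearMap.map_smul, ContinuousLinearMap.map_smul] at h2
  exact h2

variable [T2Space X] [SecondCountableTopology X]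

/-- **The vector field lifting `∂ₓ`**, linear near the critical points. -/
theorem exists_V (hπ : ContMDiff 𝓘(ℝ, E) 𝓘(ℝ, ℂ) ∞ π) (hϱ : ContMDiff 𝓘(ℝ, E) 𝓘(ℝ, ℝ) ∞ ϱ)
    (hlift : ∀ (ζ : ℂ) (x : X), 0 < ϱ x → ∃ V : (y : X) → TangentSpace 𝓘(ℝ, E) y, ∀ᶠ y in 𝓝 x,
      ContMDiffAt 𝓘(ℝ, E) 𝓘(ℝ, E).tangent ∞ (fun y => (⟨y, V y⟩ : TangentBundle 𝓘(ℝ, E) X)) y ∧
      (show ℂ from mfderiv 𝓘(ℝ, E) 𝓘(ℝ, ℂ) π y (V y)) = ζ ∧
        (show ℝ from mfderiv 𝓘(ℝ, E) 𝓘(ℝ, ℝ) ϱ y (V y)) = 0)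
    (hsurj : ∀ x ∉ crit, Function.Surjective (mfderiv 𝓘(ℝ, E) 𝓘(ℝ, ℂ) π x)) :
    ∃ V : (y : X) → TangentSpace 𝓘(ℝ, E) y,
      ContMDiff 𝓘(ℝ, E) 𝓘(ℝ, E).tangent ∞ (fun y => (⟨y, V y⟩ : TangentBundle 𝓘(ℝ, E) X)) ∧
      (∀ x, (show ℂ from mfderiv 𝓘(ℝ, E) 𝓘(ℝ, ℂ) π x (V x)).im = 0) ∧
      (∀ x, 0 ≤ (show ℂ from mfderiv 𝓘(ℝ, E) 𝓘(ℝ, ℂ) π x (V x)).re) ∧
      (∀ x, (show ℂ from mfderiv 𝓘(ℝ, E) 𝓘(ℝ, ℂ) π x (V x)).re ≤ 1) ∧
      (∀ x, (∀ p, x ∉ c.Bp p (6 * c.ρ)) →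
        (show ℂ from mfderiv 𝓘(ℝ, E) 𝓘(ℝ, ℂ) π x (V x)) = 1) ∧
      (∀ x, 1 ≤ ϱ x → (show ℝ from mfderiv 𝓘(ℝ, E) 𝓘(ℝ, ℝ) ϱ x (V x)) = 0) ∧
      (∀ p, ∀ x ∈ c.Bp p (5 * c.ρ), V x = c.Vp p x) ∧
      (∀ x, (∀ p, x ∉ c.Bp p c.ρ) →
        c.ρ ^ 2 ≤ (show ℂ from mfderiv 𝓘(ℝ, E) 𝓘(ℝ, ℂ) π x (V x)).re) := by
  have : LocallyCompactSpace X := Manifold.locallyCompact_of_finiteDimensional 𝓘(ℝ, E)
  have hρ := c.pos
  have hρ2 : c.ρ ^ 2 ≤ 1 := by have := c.small; nlinarith [sq_nonneg c.ρ]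
  set t : (x : X) → Set (TangentSpace 𝓘(ℝ, E) x) := fun x =>
    {v | (show ℂ from mfderiv 𝓘(ℝ, E) 𝓘(ℝ, ℂ) π x v).im = 0 ∧
      0 ≤ (show ℂ from mfderiv 𝓘(ℝ, E) 𝓘(ℝ, ℂ) π x v).re ∧
      (show ℂ from mfderiv 𝓘(ℝ, E) 𝓘(ℝ, ℂ) π x v).re ≤ 1 ∧
      ((∀ p, x ∉ c.Bp p (6 * c.ρ)) → (show ℂ from mfderiv 𝓘(ℝ, E) 𝓘(ℝ, ℂ) π x v) = 1) ∧
      (1 ≤ ϱ x → (show ℝ from mfderiv 𝓘(ℝ, E) 𝓘(ℝ, ℝ) ϱ x v) = 0) ∧
      (∀ p, x ∈ c.Bp p (5 * c.ρ) → v = c.Vp p x) ∧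
      ((∀ p, x ∉ c.Bp p c.ρ) →
        c.ρ ^ 2 ≤ (show ℂ from mfderiv 𝓘(ℝ, E) 𝓘(ℝ, ℂ) π x v).re)} with ht
  have htc : ∀ x, Convex ℝ (t x) := by
    intro x v hv w hw a b ha hb hab
    obtain ⟨v1, v2, v3, v4, v5, v6, v7⟩ := hv
    obtain ⟨w1, w2, w3, w4, w5, w6, w7⟩ := hw
    have hπc := mf_comb (f := π) (x := x) a b v w
    have hϱc := mf_comb (f := ϱ) (x := x) a b v w
    refine ⟨?_, ?_, ?_, ?_, ?_, ?_, ?_⟩
    · rw [hπc, Complex.add_im, Complex.smul_im, Complex.smul_im, v1, w1]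
      simp
    · rw [hπc, Complex.add_re, Complex.smul_re, Complex.smul_re]
      exact add_nonneg (mul_nonneg ha v2) (mul_nonneg hb w2)
    · rw [hπc, Complex.add_re, Complex.smul_re, Complex.smul_re]
      have h1 := mul_le_mul_of_nonneg_left v3 ha
      have h2 := mul_le_mul_of_nonneg_left w3 hb
      simp only [smul_eq_mul]
      linarith
    · intro h
      rw [hπc, v4 h, w4 h, ← add_smul, hab, one_smul]
    · intro h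
      rw [hϱc, v5 h, w5 h]
      simp
    · intro p hp
      rw [v6 p hp, w6 p hp, ← add_smul, hab, one_smul]
    · intro h
      rw [hπc, Complex.add_re, Complex.smul_re, Complex.smul_re]
      have h1 := mul_le_mul_of_nonneg_left (v7 h) ha
      have h2 := mul_le_mul_of_nonneg_left (w7 h) hb
      simp only [smul_eq_mul]
      have h3 : a * c.ρ ^ 2 + b * c.ρ ^ 2 = c.ρ ^ 2 := by rw [← add_mul, hab, one_mul]
      linarith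
  have hs : ∃ s : Cₛ^((⊤ : ℕ∞) : ℕ∞ω)⟮𝓘(ℝ, E); E, (TangentSpace 𝓘(ℝ, E) : X → Type _)⟯,
      ∀ x : X, s x ∈ t x := by
    refine exists_contMDiffSection_forall_mem_convex_of_local (n := ⊤) 𝓘(ℝ, E) (F_fiber := E)
      (TangentSpace 𝓘(ℝ, E) : X → Type _) t htc ?_
    intro x
    by_cases hx : ∃ p, x ∈ c.Bp p (5 * c.ρ)
    · obtain ⟨p, hp⟩ := hx
      rw [CD.mem_Bp (by linarith)] at hp
      have hU : {y | y ∈ (c.χ p).source ∧ ‖c.χ p y‖ < 6 * c.ρ} ∈ 𝓝 x :=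
        (CD.isOpen_inner p _).mem_nhds ⟨hp.1, by linarith [hp.2]⟩
      refine ⟨_, hU, c.Vp p, fun y hy => (CD.smooth_Vp hy.1).contMDiffWithinAt, ?_⟩
      rintro y ⟨hy1, hy2⟩
      have hyB : y ∈ c.Bp p (6 * c.ρ) := (CD.mem_Bp le_rfl).2 ⟨hy1, hy2.le⟩
      have hd := CD.dπ_Vp hπ hy1
      refine ⟨?_, ?_, ?_, fun h => absurd hyB (h p), fun h => absurd h (not_le.2 (c.hor p y hyB)),
        ?_, ?_⟩
      · rw [hd, Complex.ofReal_im]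
      · rw [hd, Complex.ofReal_re]
        exact n2_nonneg _
      · rw [hd, Complex.ofReal_re]
        have h1 := n2_le hy2.le
        have h2 := c.small
        nlinarith
      · intro p' hp'
        have h1 : p = p' := by
          by_contra hne
          exact CD.not_mem_other hne hyB (CD.Bp_mono (by linarith) hp')
        rw [h1]
      · intro h
        rw [hd, Complex.ofReal_re]
        have h1 : c.ρ < ‖c.χ p y‖ := by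
          by_contra hcon
          exact h p ((CD.mem_Bp (by linarith)).2 ⟨hy1, not_lt.1 hcon⟩)
        exact (lt_n2 hρ.le h1).le
    · push Not at hx
      have hxc : x ∉ crit := fun h => hx ⟨x, h⟩ (CD.crit_mem ⟨x, h⟩ (by linarith))
      have hU : ∀ᶠ y in 𝓝 x, ∀ p, y ∉ c.Bp p (5 * c.ρ) := by
        have h1 := (CD.isCompact_iUnion_Bp (c := c) (r := 5 * c.ρ) (by linarith)).isClosed
        have h2 : x ∈ (⋃ p, c.Bp p (5 * c.ρ))ᶜ := by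
          simpa using hx
        filter_upwards [h1.isOpen_compl.mem_nhds h2] with y hy p hp
        exact hy (mem_iUnion.2 ⟨p, hp⟩)
      rcases lt_or_ge 0 (ϱ x) with h0 | h0
      · obtain ⟨V, hV⟩ := hlift 1 x h0
        refine ⟨_, hV.and hU, V, fun y hy => hy.1.1.contMDiffWithinAt, ?_⟩
        rintro y ⟨⟨-, hy1, hy2⟩, hy3⟩
        refine ⟨?_, ?_, ?_, fun _ => hy1, fun _ => hy2, fun p hp => absurd hp (hy3 p), fun _ => ?_⟩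
        · rw [hy1]; simp
        · rw [hy1]; simp
        · rw [hy1]; simp
        · rw [hy1]; simpa using hρ2
      · obtain ⟨V, hV⟩ := TA.local_lift hπ 1 (hsurj x hxc)
        have hn : ∀ᶠ y in 𝓝 x, ϱ y < 1 :=
          hϱ.continuous.continuousAt.eventually (gt_mem_nhds (by linarith))
        refine ⟨_, hV.and (hU.and hn), V, fun y hy => hy.1.1.contMDiffWithinAt, ?_⟩
        rintro y ⟨⟨-, hy1⟩, hy3, hy4⟩
        refine ⟨?_, ?_, ?_, fun _ => hy1, fun h => absurd h (not_le.2 hy4),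
          fun p hp => absurd hp (hy3 p), fun _ => ?_⟩
        · rw [hy1]; simp
        · rw [hy1]; simp
        · rw [hy1]; simp
        · rw [hy1]; simpa using hρ2
  obtain ⟨s, hs⟩ := hs
  exact ⟨s, s.contMDiff, fun x => (hs x).1, fun x => (hs x).2.1, fun x => (hs x).2.2.1,
    fun x => (hs x).2.2.2.1, fun x => (hs x).2.2.2.2.1, fun p x hx => (hs x).2.2.2.2.2.1 p hx,
    fun x => (hs x).2.2.2.2.2.2⟩

/-- **The vector field lifting `∂ᵧ`** outside of small balls. -/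
theorem exists_V' (hπ : ContMDiff 𝓘(ℝ, E) 𝓘(ℝ, ℂ) ∞ π) (hϱ : ContMDiff 𝓘(ℝ, E) 𝓘(ℝ, ℝ) ∞ ϱ)
    (hlift : ∀ (ζ : ℂ) (x : X), 0 < ϱ x → ∃ V : (y : X) → TangentSpace 𝓘(ℝ, E) y, ∀ᶠ y in 𝓝 x,
      ContMDiffAt 𝓘(ℝ, E) 𝓘(ℝ, E).tangent ∞ (fun y => (⟨y, V y⟩ : TangentBundle 𝓘(ℝ, E) X)) y ∧
      (show ℂ from mfderiv 𝓘(ℝ, E) 𝓘(ℝ, ℂ) π y (V y)) = ζ ∧
        (show ℝ from mfderiv 𝓘(ℝ, E) 𝓘(ℝ, ℝ) ϱ y (V y)) = 0)
    (hsurj : ∀ x ∉ crit, Function.Surjective (mfderiv 𝓘(ℝ, E) 𝓘(ℝ, ℂ) π x)) :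
    ∃ V : (y : X) → TangentSpace 𝓘(ℝ, E) y,
      ContMDiff 𝓘(ℝ, E) 𝓘(ℝ, E).tangent ∞ (fun y => (⟨y, V y⟩ : TangentBundle 𝓘(ℝ, E) X)) ∧
      (∀ x, ‖(show ℂ from mfderiv 𝓘(ℝ, E) 𝓘(ℝ, ℂ) π x (V x))‖ ≤ 1) ∧
      (∀ x, (∀ p, x ∉ c.Bp p (6 * c.ρ)) →
        (show ℂ from mfderiv 𝓘(ℝ, E) 𝓘(ℝ, ℂ) π x (V x)) = Complex.I) ∧
      (∀ x, 1 ≤ ϱ x → (show ℝ from mfderiv 𝓘(ℝ, E) 𝓘(ℝ, ℝ) ϱ x (V x)) = 0) := by
  have : LocallyCompactSpace X := Manifold.locallyCompact_of_finiteDimensional 𝓘(ℝ, E)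
  have hρ := c.pos
  set t : (x : X) → Set (TangentSpace 𝓘(ℝ, E) x) := fun x =>
    {v | ‖(show ℂ from mfderiv 𝓘(ℝ, E) 𝓘(ℝ, ℂ) π x v)‖ ≤ 1 ∧
      ((∀ p, x ∉ c.Bp p (6 * c.ρ)) → (show ℂ from mfderiv 𝓘(ℝ, E) 𝓘(ℝ, ℂ) π x v) = Complex.I) ∧
      (1 ≤ ϱ x → (show ℝ from mfderiv 𝓘(ℝ, E) 𝓘(ℝ, ℝ) ϱ x v) = 0)} with ht
  have htc : ∀ x, Convex ℝ (t x) := by
    intro x v hv w hw a b ha hb hab
    obtain ⟨v1, v2, v3⟩ := hv
    obtain ⟨w1, w2, w3⟩ := hw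
    have hπc := mf_comb (f := π) (x := x) a b v w
    have hϱc := mf_comb (f := ϱ) (x := x) a b v w
    refine ⟨?_, ?_, ?_⟩
    · rw [hπc]
      refine (norm_add_le _ _).trans ?_
      rw [norm_smul, norm_smul, Real.norm_eq_abs, Real.norm_eq_abs, abs_of_nonneg ha,
        abs_of_nonneg hb]
      have h1 := mul_le_mul_of_nonneg_left v1 ha
      have h2 := mul_le_mul_of_nonneg_left w1 hb
      linarith
    · intro h
      rw [hπc, v2 h, w2 h, ← add_smul, hab, one_smul]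
    · intro h
      rw [hϱc, v3 h, w3 h]
      simp
  have hs : ∃ s : Cₛ^((⊤ : ℕ∞) : ℕ∞ω)⟮𝓘(ℝ, E); E, (TangentSpace 𝓘(ℝ, E) : X → Type _)⟯,
      ∀ x : X, s x ∈ t x := by
    refine exists_contMDiffSection_forall_mem_convex_of_local (n := ⊤) 𝓘(ℝ, E) (F_fiber := E)
      (TangentSpace 𝓘(ℝ, E) : X → Type _) t htc ?_
    intro x
    by_cases hx : ∃ p, x ∈ c.Bp p (5 * c.ρ)
    · obtain ⟨p, hp⟩ := hx
      rw [CD.mem_Bp (by linarith)] at hp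
      have hU : {y | y ∈ (c.χ p).source ∧ ‖c.χ p y‖ < 6 * c.ρ} ∈ 𝓝 x :=
        (CD.isOpen_inner p _).mem_nhds ⟨hp.1, by linarith [hp.2]⟩
      refine ⟨_, hU, fun y => 0,
        (Bundle.contMDiff_zeroSection ℝ (TangentSpace 𝓘(ℝ, E) : X → Type _)).contMDiffOn, ?_⟩
      rintro y ⟨hy1, hy2⟩
      have hyB : y ∈ c.Bp p (6 * c.ρ) := (CD.mem_Bp le_rfl).2 ⟨hy1, hy2.le⟩
      refine ⟨?_, fun h => absurd hyB (h p), fun h => absurd h (not_le.2 (c.hor p y hyB))⟩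
      rw [map_zero]
      show ‖(0 : ℂ)‖ ≤ 1
      simp
    · push Not at hx
      have hxc : x ∉ crit := fun h => hx ⟨x, h⟩ (CD.crit_mem ⟨x, h⟩ (by linarith))
      rcases lt_or_ge 0 (ϱ x) with h0 | h0
      · obtain ⟨V, hV⟩ := hlift Complex.I x h0
        refine ⟨_, hV, V, fun y hy => hy.1.contMDiffWithinAt, ?_⟩
        rintro y ⟨-, hy1, hy2⟩
        refine ⟨?_, fun _ => hy1, fun _ => hy2⟩
        rw [hy1]; simp
      · obtain ⟨V, hV⟩ := TA.local_lift hπ Complex.I (hsurj x hxc)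
        have hn : ∀ᶠ y in 𝓝 x, ϱ y < 1 :=
          hϱ.continuous.continuousAt.eventually (gt_mem_nhds (by linarith))
        refine ⟨_, hV.and hn, V, fun y hy => hy.1.1.contMDiffWithinAt, ?_⟩
        rintro y ⟨⟨-, hy1⟩, hy4⟩
        refine ⟨?_, fun _ => hy1, fun h => absurd h (not_le.2 hy4)⟩
        rw [hy1]; simp
  obtain ⟨s, hs⟩ := hs
  exact ⟨s, s.contMDiff, fun x => (hs x).1, fun x => (hs x).2.1, fun x => (hs x).2.2⟩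

end Pool.Agent.W630.TC
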