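import Pool.Agent.W630.TC2

/-! # Statement C, part 3: the dynamics -/

open scoped Topology ContDiff Manifold
open Set Pool.Agent.Helper186 MeasureTheory Metric Filter

noncomputable section

namespace Pool.Agent.W630.TC

set_option linter.unusedSectionVars false

universe u v

variable {E : Type u} [NormedAddCommGroup E] [NormedSpace ℝ E] [FiniteDimensional ℝ E]
  {X : Type v} [TopologicalSpace X] [T2Space X] [ChartedSpace E X] [IsManifold 𝓘(ℝ, E) ∞ X]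
variable {π : X → ℂ} {ϱ : X → ℝ} {crit : Set X} {x₁ : ℝ}

/-- the field and its flow -/
structure FV (c : CD E π ϱ crit x₁) where
  V : (y : X) → TangentSpace 𝓘(ℝ, E) y
  smooth : ContMDiff 𝓘(ℝ, E) 𝓘(ℝ, E).tangent ∞ (fun y => (⟨y, V y⟩ : TangentBundle 𝓘(ℝ, E) X))
  im0 : ∀ x, (show ℂ from mfderiv 𝓘(ℝ, E) 𝓘(ℝ, ℂ) π x (V x)).im = 0
  re0 : ∀ x, 0 ≤ (show ℂ from mfderiv 𝓘(ℝ, E) 𝓘(ℝ, ℂ) π x (V x)).re
  re1 : ∀ x, (show ℂ from mfderiv 𝓘(ℝ, E) 𝓘(ℝ, ℂ) π x (V x)).re ≤ 1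
  out1 : ∀ x, (∀ p, x ∉ c.Bp p (6 * c.ρ)) →
    (show ℂ from mfderiv 𝓘(ℝ, E) 𝓘(ℝ, ℂ) π x (V x)) = 1
  model : ∀ p, ∀ x ∈ c.Bp p (5 * c.ρ), V x = c.Vp p x
  low : ∀ x, (∀ p, x ∉ c.Bp p c.ρ) →
    c.ρ ^ 2 ≤ (show ℂ from mfderiv 𝓘(ℝ, E) 𝓘(ℝ, ℂ) π x (V x)).re
  Φ : ℝ → X → X
  Φ0 : ∀ x, Φ 0 x = x
  Φadd : ∀ s t x, Φ (s + t) x = Φ s (Φ t x)
  Φint : ∀ x, IsMIntegralCurve (I := 𝓘(ℝ, E)) (fun t => Φ t x) V
  Φs : ContMDiff (𝓘(ℝ, ℝ).prod 𝓘(ℝ, E)) 𝓘(ℝ, E) ∞ (fun p : ℝ × X => Φ p.1 p.2)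
  hπ : ContMDiff 𝓘(ℝ, E) 𝓘(ℝ, ℂ) ∞ π

variable {c : CD E π ϱ crit x₁} (F : FV c)

namespace FV

theorem hasDerivAt_π (x : X) (t : ℝ) : HasDerivAt (fun t => π (F.Φ t x))
    (show ℂ from mfderiv 𝓘(ℝ, E) 𝓘(ℝ, ℂ) π (F.Φ t x) (F.V (F.Φ t x))) t :=
  TB.hasDerivAt_along F.hπ (F.Φint x t)

theorem hasDerivAt_re (x : X) (t : ℝ) : HasDerivAt (fun t => (π (F.Φ t x)).re)
    (show ℂ from mfderiv 𝓘(ℝ, E) 𝓘(ℝ, ℂ) π (F.Φ t x) (F.V (F.Φ t x))).re t := by
  have h1 := (Complex.reCLM.hasFDerivAt (x := π (F.Φ t x))).comp_hasDerivAt t (F.hasDerivAt_π x t)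
  exact h1

theorem hasDerivAt_im (x : X) (t : ℝ) : HasDerivAt (fun t => (π (F.Φ t x)).im) 0 t := by
  have h1 := (Complex.imCLM.hasFDerivAt (x := π (F.Φ t x))).comp_hasDerivAt t (F.hasDerivAt_π x t)
  have h2 := F.im0 (F.Φ t x)
  refine h1.congr_deriv ?_
  exact h2

theorem im_eq (t : ℝ) (x : X) : (π (F.Φ t x)).im = (π x).im := by
  have h1 := is_const_of_deriv_eq_zero (f := fun t => (π (F.Φ t x)).im)
    (fun t => (F.hasDerivAt_im x t).differentiableAt) (fun t => (F.hasDerivAt_im x t).deriv) t 0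
  simp only [F.Φ0] at h1
  exact h1

theorem mono (x : X) : Monotone fun t => (π (F.Φ t x)).re :=
  monotone_of_deriv_nonneg (fun t => (F.hasDerivAt_re x t).differentiableAt) fun t => by
    rw [(F.hasDerivAt_re x t).deriv]
    exact F.re0 _

theorem mono' (x : X) : Monotone fun t => t - (π (F.Φ t x)).re := by
  have h1 : ∀ t, HasDerivAt (fun t => t - (π (F.Φ t x)).re)
      (1 - (show ℂ from mfderiv 𝓘(ℝ, E) 𝓘(ℝ, ℂ) π (F.Φ t x) (F.V (F.Φ t x))).re) t :=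
    fun t => (hasDerivAt_id t).sub (F.hasDerivAt_re x t)
  exact monotone_of_deriv_nonneg (fun t => (h1 t).differentiableAt) fun t => by
    rw [(h1 t).deriv]
    linarith [F.re1 (F.Φ t x)]

theorem dπ_one {x : X} (h : x₁ ≤ (π x).re) :
    (show ℂ from mfderiv 𝓘(ℝ, E) 𝓘(ℝ, ℂ) π x (F.V x)) = 1 :=
  F.out1 x fun p hp => absurd (c.re p x hp) (not_lt.2 h)

theorem fast (x : X) (t : ℝ) (h1 : x₁ ≤ (π x).re) (h2 : x₁ ≤ (π x).re + t) :
    π (F.Φ t x) = π x + t := by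
  have h3 : ∀ s ∈ uIcc 0 t, x₁ ≤ (π (F.Φ s x)).re := by
    intro s hs
    rcases le_total 0 s with h4 | h4
    · have h5 := F.mono x h4
      simp only [F.Φ0] at h5
      linarith
    · have h5 := F.mono' x h4
      simp only [F.Φ0] at h5
      rcases mem_uIcc.1 hs with h | h
      · have h6 : s = 0 := le_antisymm h4 h.1
        rw [h6, F.Φ0]
        exact h1
      · linarith [h.1]
  have h4 := (convex_uIcc 0 t).norm_image_sub_le_of_norm_hasDerivWithin_le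
    (f := fun s => π (F.Φ s x) - (s : ℂ)) (f' := fun _ => 0) (C := 0)
    (fun s hs => by
      have h5 := F.hasDerivAt_π x s
      rw [F.dπ_one (h3 s hs)] at h5
      have h6 : HasDerivAt (fun s : ℝ => (s : ℂ)) 1 s := by
        simpa using (hasDerivAt_id s).ofReal_comp
      have h7 := h5.sub h6
      rw [sub_self] at h7
      exact h7.hasDerivWithinAt) (fun s _ => by simp) left_mem_uIcc right_mem_uIcc
  rw [zero_mul] at h4
  have h5 := norm_le_zero_iff.1 h4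
  simp only [F.Φ0, Complex.ofReal_zero, sub_zero] at h5
  linear_combination h5

theorem growth {x : X} (h : ∀ t ≥ 0, ∀ p, F.Φ t x ∉ c.Bp p c.ρ) : ∃ t, x₁ ≤ (π (F.Φ t x)).re := by
  have hρ := c.pos
  have h1 : MonotoneOn (fun t => (π (F.Φ t x)).re - c.ρ ^ 2 * t) (Ici 0) := by
    have hd : ∀ t, HasDerivAt (fun t => (π (F.Φ t x)).re - c.ρ ^ 2 * t)
        ((show ℂ from mfderiv 𝓘(ℝ, E) 𝓘(ℝ, ℂ) π (F.Φ t x) (F.V (F.Φ t x))).re - c.ρ ^ 2) t := by
      intro t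
      have h2 := (hasDerivAt_id t).const_mul (c.ρ ^ 2)
      rw [mul_one] at h2
      exact (F.hasDerivAt_re x t).sub h2
    apply monotoneOn_of_deriv_nonneg (convex_Ici 0)
    · exact fun t _ => (hd t).continuousAt.continuousWithinAt
    · exact fun t _ => (hd t).differentiableAt.differentiableWithinAt
    · intro t ht
      rw [interior_Ici] at ht
      rw [(hd t).deriv]
      linarith [F.low (F.Φ t x) (h t (le_of_lt ht))]
  set T : ℝ := |x₁ - (π x).re| / c.ρ ^ 2 with hT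
  have hT0 : 0 ≤ T := by positivity
  refine ⟨T, ?_⟩
  have h2 := h1 (mem_Ici.2 le_rfl) (mem_Ici.2 hT0) hT0
  simp only [F.Φ0, mul_zero, sub_zero] at h2
  have h3 : c.ρ ^ 2 * T = |x₁ - (π x).re| := by
    rw [hT]
    field_simp
  rw [h3] at h2
  linarith [le_abs_self (x₁ - (π x).re)]

theorem norm_lin_fst (t : ℝ) (q : P × P) : ‖(lin t q).1‖ = Real.exp (t / 2) * ‖q.1‖ := by
  simp only [lin, norm_smul, Real.norm_eq_abs, abs_of_pos (Real.exp_pos _)]

theorem norm_lin_snd (t : ℝ) (q : P × P) : ‖(lin t q).2‖ = Real.exp (-(t / 2)) * ‖q.2‖ := by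
  simp only [lin, norm_smul, Real.norm_eq_abs, abs_of_pos (Real.exp_pos _)]

/-- the flow near the critical points is linear -/
theorem flow_lin (p : crit) (q : P × P) {T : ℝ} (hT : 0 ≤ T)
    (h1 : Real.exp (T / 2) * ‖q.1‖ ≤ 4 * c.ρ) (h2 : ‖q.2‖ ≤ 4 * c.ρ) :
    F.Φ T ((c.χ p).symm q) = (c.χ p).symm (lin T q) := by
  have : IsManifold 𝓘(ℝ, E) 1 X := IsManifold.of_le (n := ∞) (by simp)
  have hρ := c.pos
  set ε : ℝ := 2 * Real.log (5 / 4) with hε
  have hε0 : 0 < ε := by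
    have := Real.log_pos (show (1 : ℝ) < 5 / 4 by norm_num)
    positivity
  have hεe : Real.exp (ε / 2) = 5 / 4 := by
    rw [hε, mul_div_cancel_left₀ _ (by norm_num : (2 : ℝ) ≠ 0), Real.exp_log (by norm_num)]
  have hmem : ∀ t ∈ Ioo (-ε) (T + ε), ‖lin t q‖ ≤ 5 * c.ρ := by
    intro t ht
    rw [Prod.norm_def, norm_lin_fst, norm_lin_snd, max_le_iff]
    constructor
    · have h3 : Real.exp (t / 2) ≤ Real.exp (T / 2) * (5 / 4) := by
        rw [← hεe, ← Real.exp_add]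
        exact Real.exp_le_exp.2 (by linarith [ht.2])
      calc Real.exp (t / 2) * ‖q.1‖ ≤ (Real.exp (T / 2) * (5 / 4)) * ‖q.1‖ :=
            mul_le_mul_of_nonneg_right h3 (norm_nonneg _)
        _ = (5 / 4) * (Real.exp (T / 2) * ‖q.1‖) := by ring
        _ ≤ (5 / 4) * (4 * c.ρ) := by linarith
        _ = 5 * c.ρ := by ring
    · have h3 : Real.exp (-(t / 2)) ≤ 5 / 4 := by
        rw [← hεe]
        exact Real.exp_le_exp.2 (by linarith [ht.1])
      calc Real.exp (-(t / 2)) * ‖q.2‖ ≤ (5 / 4) * ‖q.2‖ :=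
            mul_le_mul_of_nonneg_right h3 (norm_nonneg _)
        _ ≤ (5 / 4) * (4 * c.ρ) := by linarith
        _ = 5 * c.ρ := by ring
  have hball : ∀ t ∈ Ioo (-ε) (T + ε), lin t q ∈ (c.χ p).target := fun t ht =>
    c.ball p (by
      rw [mem_closedBall_zero_iff]
      linarith [hmem t ht])
  have hcurve : IsMIntegralCurveOn (I := 𝓘(ℝ, E)) (fun t => (c.χ p).symm (lin t q)) F.V
      (Ioo (-ε) (T + ε)) := by
    intro t ht
    apply HasMFDerivAt.hasMFDerivWithinAt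
    have e1 : HasMFDerivAt 𝓘(ℝ, ℝ) 𝓘(ℝ, P × P) (fun t => lin t q) t
        ((1 : ℝ →L[ℝ] ℝ).smulRight (mm (lin t q))) := by
      have := (hasDerivAt_lin t q).hasFDerivAt
      exact this.hasMFDerivAt
    have e2 : HasMFDerivAt 𝓘(ℝ, P × P) 𝓘(ℝ, E) (c.χ p).symm (lin t q)
        (mfderiv 𝓘(ℝ, P × P) 𝓘(ℝ, E) (c.χ p).symm (lin t q)) :=
      (((c.sm' p).contMDiffAt ((c.χ p).open_target.mem_nhds (hball t ht))).mdifferentiableAt
        (by simp)).hasMFDerivAt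
    have e3 := HasMFDerivAt.comp (f := fun t => lin t q) t e2 e1
    refine e3.congr_mfderiv ?_
    have hB : (c.χ p).symm (lin t q) ∈ c.Bp p (5 * c.ρ) :=
      ⟨lin t q, by rw [mem_closedBall_zero_iff]; exact hmem t ht, rfl⟩
    have e4 : F.V ((c.χ p).symm (lin t q)) = c.Vp p ((c.χ p).symm (lin t q)) := F.model p _ hB
    have e5 : (c.Vp p ((c.χ p).symm (lin t q)) : E) =
        mfderiv 𝓘(ℝ, P × P) 𝓘(ℝ, E) (c.χ p).symm (lin t q) (mm (lin t q)) := by
      show (mfderiv 𝓘(ℝ, P × P) 𝓘(ℝ, E) (c.χ p).symm (c.χ p ((c.χ p).symm (lin t q)))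
        (mm (c.χ p ((c.χ p).symm (lin t q)))) : E) = _
      have key : ∀ q' : P × P, q' = lin t q →
          (mfderiv 𝓘(ℝ, P × P) 𝓘(ℝ, E) (c.χ p).symm q' (mm q') : E) =
          (mfderiv 𝓘(ℝ, P × P) 𝓘(ℝ, E) (c.χ p).symm (lin t q) (mm (lin t q)) : E) := by
        rintro q' rfl; rfl
      exact key _ ((c.χ p).right_inv (hball t ht))
    refine ContinuousLinearMap.ext fun (a : ℝ) => ?_
    show (mfderiv 𝓘(ℝ, P × P) 𝓘(ℝ, E) (c.χ p).symm (lin t q) (a • mm (lin t q)) : E) =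
      a • (F.V ((c.χ p).symm (lin t q)) : E)
    rw [e4, e5]
    exact ContinuousLinearMap.map_smul (mfderiv 𝓘(ℝ, P × P) 𝓘(ℝ, E) (c.χ p).symm (lin t q)) a
      (mm (lin t q))
  have h3 := isMIntegralCurveOn_Ioo_eqOn_of_contMDiff_boundaryless (t₀ := 0)
    (show (0 : ℝ) ∈ Ioo (-ε) (T + ε) from ⟨by linarith, by linarith⟩)
    (F.smooth.of_le (by simp)) ((F.Φint ((c.χ p).symm q)).isMIntegralCurveOn _) hcurve
    (by simp only [F.Φ0, lin_zero])
  exact h3 ⟨by linarith, by linarith⟩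

theorem π_symm {p : crit} {q : P × P} (hq : ‖q‖ ≤ 6 * c.ρ) :
    π ((c.χ p).symm q) = π p + SS q :=
  c.eq p q (c.ball p (by rwa [mem_closedBall_zero_iff]))

/-- an orbit which leaves the neighbourhood of a critical point does not return -/
theorem no_return {p : crit} {q : P × P} (h1 : ‖q.1‖ = 4 * c.ρ) (h2 : ‖q.2‖ ≤ c.ρ) {t : ℝ}
    (ht : 0 ≤ t) (p' : crit) : F.Φ t ((c.χ p).symm q) ∉ c.Bp p' c.ρ := by
  have hρ := c.pos
  intro hmem
  obtain ⟨q', hq', he⟩ := hmem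
  rw [mem_closedBall_zero_iff] at hq'
  have hq : ‖q‖ ≤ 6 * c.ρ := by
    rw [Prod.norm_def, max_le_iff]
    exact ⟨by linarith, by linarith⟩
  have e1 := π_symm (p := p) hq
  have e2 := π_symm (p := p') (q := q') (by linarith)
  have e3 : (π (F.Φ t ((c.χ p).symm q))).im = (π ((c.χ p).symm q)).im := F.im_eq t _
  have e4 : (π ((c.χ p).symm q)).re ≤ (π (F.Φ t ((c.χ p).symm q))).re := by
    have := F.mono ((c.χ p).symm q) ht
    simp only [F.Φ0] at this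
    exact this
  rw [← he, e2, e1] at e3 e4
  simp only [Complex.add_im, Complex.add_re] at e3 e4
  have e5 := abs_SS_im_le (q := q) h1.le h2
  have e6 := abs_SS_im_le (q := q') (r := c.ρ) (s := c.ρ) ((norm_fst_le q').trans hq')
    ((norm_snd_le q').trans hq')
  have e7 : (π p).im = (π p').im := by
    by_contra hne
    have h3 := c.vals p p' hne
    have h4 : (π p).im - (π p').im = (SS q').im - (SS q).im := by linarith
    rw [h4] at h3
    have h5 := abs_sub (SS q').im (SS q).im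
    have h6 : 6 * (4 * c.ρ * c.ρ) + 6 * (c.ρ * c.ρ) = 30 * c.ρ ^ 2 := by ring
    linarith
  have e8 := c.vals' p p' e7
  rw [e8, SS_re_eq, SS_re_eq] at e4
  have e9 := le_sum_sq q.1
  have e10 := sum_sq_le q.2 h2
  have e11 := sum_sq_le q'.1 ((norm_fst_le q').trans hq')
  have e12 : 0 ≤ ∑ i, q'.2 i ^ 2 := Finset.sum_nonneg fun i _ => sq_nonneg _
  rw [h1] at e9
  nlinarith

/-- an orbit which is close to a critical point but not on its stable manifold escapes -/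
theorem escape_of_ne {p : crit} {q : P × P} (hq : ‖q‖ ≤ c.ρ) (h0 : q.1 ≠ 0) :
    ∃ t, x₁ ≤ (π (F.Φ t ((c.χ p).symm q))).re := by
  have hρ := c.pos
  have hn : 0 < ‖q.1‖ := norm_pos_iff.2 h0
  have hn1 : ‖q.1‖ ≤ c.ρ := (norm_fst_le q).trans hq
  have hn2 : ‖q.2‖ ≤ c.ρ := (norm_snd_le q).trans hq
  set T : ℝ := 2 * Real.log (4 * c.ρ / ‖q.1‖) with hT
  have hTe : Real.exp (T / 2) = 4 * c.ρ / ‖q.1‖ := by
    rw [hT, mul_div_cancel_left₀ _ (by norm_num : (2 : ℝ) ≠ 0), Real.exp_log (by positivity)]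
  have hT0 : 0 ≤ T := by
    have : 0 ≤ Real.log (4 * c.ρ / ‖q.1‖) := by
      apply Real.log_nonneg
      rw [le_div_iff₀ hn]
      linarith
    positivity
  have h1 : Real.exp (T / 2) * ‖q.1‖ = 4 * c.ρ := by
    rw [hTe]
    field_simp
  have h2 := F.flow_lin p q hT0 h1.le (by linarith)
  have h3 : ‖(lin T q).1‖ = 4 * c.ρ := by rw [norm_lin_fst, h1]
  have h4 : ‖(lin T q).2‖ ≤ c.ρ := by
    rw [norm_lin_snd]
    have h5 : Real.exp (-(T / 2)) ≤ 1 := Real.exp_le_one_iff.2 (by linarith)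
    calc Real.exp (-(T / 2)) * ‖q.2‖ ≤ 1 * ‖q.2‖ := mul_le_mul_of_nonneg_right h5 (norm_nonneg _)
      _ ≤ c.ρ := by linarith
  obtain ⟨t, ht⟩ := F.growth (x := (c.χ p).symm (lin T q)) fun t ht p' => F.no_return h3 h4 ht p'
  refine ⟨t + T, ?_⟩
  rw [F.Φadd, h2]
  exact ht

/-- a point whose orbit does not escape ends on a local stable manifold -/
theorem stable_of_not_escape {x : X} (h : ∀ t, (π (F.Φ t x)).re < x₁) :
    ∃ (t : ℝ) (p : crit) (b : P), ‖b‖ ≤ c.ρ ∧ F.Φ t x = (c.χ p).symm (0, b) := by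
  have h1 : ∃ t ≥ 0, ∃ p, F.Φ t x ∈ c.Bp p c.ρ := by
    by_contra hcon
    push Not at hcon
    obtain ⟨t, ht⟩ := F.growth hcon
    exact absurd (h t) (not_lt.2 ht)
  obtain ⟨t, -, p, q, hq, he⟩ := h1
  rw [mem_closedBall_zero_iff] at hq
  have h2 : q.1 = 0 := by
    by_contra h0
    obtain ⟨s, hs⟩ := F.escape_of_ne (p := p) hq h0
    rw [he, ← F.Φadd] at hs
    exact absurd (h _) (not_lt.2 hs)
  refine ⟨t, p, q.2, (norm_snd_le q).trans hq, ?_⟩
  rw [← he, ← h2]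

/-- points of the local stable manifold do not escape -/
theorem not_escape_stable {p : crit} {b : P} (hb : ‖b‖ ≤ 4 * c.ρ) (t : ℝ) :
    (π (F.Φ t ((c.χ p).symm (0, b)))).re < x₁ := by
  have hρ := c.pos
  have hq0 : ‖((0, b) : P × P)‖ ≤ 6 * c.ρ := by
    rw [Prod.norm_def, max_le_iff]
    exact ⟨by simp; linarith, by simp only; linarith⟩
  have key : ∀ T : ℝ, 0 ≤ T → (π (F.Φ T ((c.χ p).symm (0, b)))).re < x₁ := by
    intro T hT
    rw [F.flow_lin p (0, b) hT (by simp; linarith) hb]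
    apply c.re p
    refine ⟨_, ?_, rfl⟩
    rw [mem_closedBall_zero_iff, Prod.norm_def, norm_lin_fst, norm_lin_snd, max_le_iff]
    refine ⟨by simp; linarith, ?_⟩
    have h5 : Real.exp (-(T / 2)) ≤ 1 := Real.exp_le_one_iff.2 (by linarith)
    calc Real.exp (-(T / 2)) * ‖b‖ ≤ 1 * ‖b‖ := mul_le_mul_of_nonneg_right h5 (norm_nonneg _)
      _ ≤ 6 * c.ρ := by linarith
  rcases le_total 0 t with h | h
  · exact key t h
  · exact (F.mono _ h).trans_lt (key 0 le_rfl)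

/-- the union of the unstable spheres -/
def Sg (c : CD E π ϱ crit x₁) : Set X :=
  ⋃ p : crit, (c.χ p).symm '' ((fun a : P => ((a, 0) : P × P)) '' sphere 0 c.ρ)

theorem Sg_compact : IsCompact (Sg c) := by
  have hρ := c.pos
  have : Finite crit := c.fin
  refine isCompact_iUnion fun p => ?_
  have h1 : IsCompact ((fun a : P => ((a, 0) : P × P)) '' sphere 0 c.ρ) :=
    (isCompact_sphere _ _).image (by fun_prop)
  refine h1.image_of_continuousOn ((c.χ p).continuousOn_symm.mono ?_)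
  rintro _ ⟨a, ha, rfl⟩
  apply c.ball p
  rw [mem_closedBall_zero_iff, Prod.norm_def, max_le_iff]
  rw [mem_sphere_zero_iff_norm] at ha
  exact ⟨by simp only [ha]; linarith, by simp; linarith⟩

theorem Sg_null (O : Set X) (f : X → P) (hO : IsOpen O)
    (hf : ContMDiffOn 𝓘(ℝ, E) 𝓘(ℝ, P) ∞ f O) : volume (f '' (Sg c ∩ O)) = 0 := by
  have : Finite crit := c.fin
  have hρ := c.pos
  have h1 : f '' (Sg c ∩ O) ⊆ ⋃ p : crit, (fun a : P => f ((c.χ p).symm (a, 0))) ''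
      (sphere 0 c.ρ ∩ {a | (a, 0) ∈ (c.χ p).target ∧ (c.χ p).symm (a, 0) ∈ O}) := by
    rintro _ ⟨x, ⟨hx, hxO⟩, rfl⟩
    obtain ⟨p, _, ⟨a, ha, rfl⟩, rfl⟩ := mem_iUnion.1 hx
    refine mem_iUnion.2 ⟨p, a, ⟨ha, ?_, hxO⟩, rfl⟩
    apply c.ball p
    rw [mem_closedBall_zero_iff, Prod.norm_def, max_le_iff]
    rw [mem_sphere_zero_iff_norm] at ha
    exact ⟨by simp only [ha]; linarith, by simp; linarith⟩
  refine measure_mono_null h1 ?_
  rw [measure_iUnion_null_iff]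
  intro p
  apply addHaar_image_eq_zero_of_differentiableOn_of_addHaar_eq_zero
  · -- differentiability
    have h2 : ContMDiffOn 𝓘(ℝ, P) 𝓘(ℝ, P) ∞ (fun a : P => f ((c.χ p).symm (a, 0)))
        {a | (a, 0) ∈ (c.χ p).target ∧ (c.χ p).symm (a, 0) ∈ O} := by
      have h3 : ContMDiff 𝓘(ℝ, P) 𝓘(ℝ, P × P) ∞ fun a : P => ((a, 0) : P × P) :=
        (contDiff_id.prodMk contDiff_const).contMDiff
      have h4 : ContMDiffOn 𝓘(ℝ, P) 𝓘(ℝ, E) ∞ (fun a : P => (c.χ p).symm (a, 0))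
          {a | (a, 0) ∈ (c.χ p).target ∧ (c.χ p).symm (a, 0) ∈ O} :=
        (c.sm' p).comp h3.contMDiffOn fun a ha => ha.1
      exact hf.comp h4 fun a ha => ha.2
    have h3 := (contMDiffOn_iff_contDiffOn.1 h2).differentiableOn (by simp)
    exact h3.mono inter_subset_right
  · refine measure_mono_null inter_subset_left ?_
    exact Measure.addHaar_sphere_of_ne_zero _ _ hρ.ne'

theorem Sg_escape {y : X} (hy : y ∈ Sg c) : ∃ t, x₁ ≤ (π (F.Φ t y)).re := by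
  have hρ := c.pos
  obtain ⟨p, _, ⟨a, ha, rfl⟩, rfl⟩ := mem_iUnion.1 hy
  rw [mem_sphere_zero_iff_norm] at ha
  apply F.escape_of_ne
  · rw [Prod.norm_def, max_le_iff]
    exact ⟨ha.le, by simp; linarith⟩
  · intro h
    simp only at h
    rw [h, norm_zero] at ha
    linarith

theorem exit (x : X) (hx : ∀ t, (π (F.Φ t x)).re < x₁) (O : Set X) (hO : IsOpen O)
    (hSO : Sg c ⊆ O) :
    ∀ᶠ y in 𝓝 x, (∀ t, (π (F.Φ t y)).re < x₁) ∨ ∃ t, F.Φ t y ∈ O := by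
  have hρ := c.pos
  obtain ⟨t₀, p, b, hb, he⟩ := F.stable_of_not_escape hx
  -- a uniform tube around the unstable sphere
  have h1 : ∀ᶠ b' : P in 𝓝 (0 : P), ∀ a ∈ sphere (0 : P) c.ρ, (c.χ p).symm (a, b') ∈ O := by
    apply (isCompact_sphere (0 : P) c.ρ).eventually_forall_of_forall_eventually
      (P := fun (b' : P) (a : P) => (c.χ p).symm (a, b') ∈ O)
    intro a ha
    have h2 : ((a, 0) : P × P) ∈ (c.χ p).target := by
      apply c.ball p
      rw [mem_closedBall_zero_iff, Prod.norm_def, max_le_iff]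
      rw [mem_sphere_zero_iff_norm] at ha
      exact ⟨by simp only [ha]; linarith, by simp; linarith⟩
    have h3 : (c.χ p).symm (a, 0) ∈ O := hSO (mem_iUnion.2 ⟨p, _, ⟨a, ha, rfl⟩, rfl⟩)
    have h4 : ContinuousAt (fun z : P × P => (c.χ p).symm (z.2, z.1)) ((0 : P), a) := by
      have h5 : ContinuousAt (fun z : P × P => (z.2, z.1)) ((0 : P), a) := by fun_prop
      exact ContinuousAt.comp (g := (c.χ p).symm) (f := fun z : P × P => (z.2, z.1))
        ((c.χ p).symm.continuousAt h2) h5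
    exact h4.eventually (hO.mem_nhds h3)
  obtain ⟨η, hη, hη'⟩ := Metric.eventually_nhds_iff_ball.1 h1
  -- points close to `x` are, at time `t₀`, close to `(0, b)`
  have hq0 : ((0, b) : P × P) ∈ (c.χ p).target := by
    apply c.ball p
    rw [mem_closedBall_zero_iff, Prod.norm_def, max_le_iff]
    exact ⟨by simp; linarith, by simp only; linarith⟩
  have hΦc : Continuous fun y => F.Φ t₀ y :=
    F.Φs.continuous.comp (continuous_const.prodMk continuous_id)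
  have hsrc : F.Φ t₀ x ∈ (c.χ p).source := by rw [he]; exact (c.χ p).map_target hq0
  have hχe : c.χ p (F.Φ t₀ x) = (0, b) := by rw [he]; exact (c.χ p).right_inv hq0
  have h2 : ∀ᶠ y in 𝓝 x, F.Φ t₀ y ∈ (c.χ p).source :=
    hΦc.continuousAt.eventually ((c.χ p).open_source.mem_nhds hsrc)
  have h3 : ContinuousAt (fun y => c.χ p (F.Φ t₀ y)) x :=
    ContinuousAt.comp (g := c.χ p) (f := fun y => F.Φ t₀ y)
      ((c.χ p).continuousAt hsrc) hΦc.continuousAt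
  have h4 : ∀ᶠ y in 𝓝 x, ‖(c.χ p (F.Φ t₀ y)).1‖ < min c.ρ (η / 4) := by
    have h5 : ContinuousAt (fun y => ‖(c.χ p (F.Φ t₀ y)).1‖) x := h3.fst.norm
    refine h5.eventually (gt_mem_nhds ?_)
    show ‖(c.χ p (F.Φ t₀ x)).1‖ < _
    rw [hχe]
    simp only [norm_zero]
    positivity
  have h5 : ∀ᶠ y in 𝓝 x, ‖(c.χ p (F.Φ t₀ y)).2‖ < 2 * c.ρ := by
    have h6 : ContinuousAt (fun y => ‖(c.χ p (F.Φ t₀ y)).2‖) x := h3.snd.norm
    refine h6.eventually (gt_mem_nhds ?_)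
    show ‖(c.χ p (F.Φ t₀ x)).2‖ < _
    rw [hχe]
    simp only
    linarith
  filter_upwards [h2, h4, h5] with y hy1 hy2 hy3
  set q := c.χ p (F.Φ t₀ y) with hq
  have hqy : (c.χ p).symm q = F.Φ t₀ y := (c.χ p).left_inv hy1
  have hy2a : ‖q.1‖ < c.ρ := hy2.trans_le (min_le_left _ _)
  have hy2b : ‖q.1‖ < η / 4 := hy2.trans_le (min_le_right _ _)
  by_cases h0 : q.1 = 0
  · left
    intro t
    have h6 : (c.χ p).symm (0, q.2) = F.Φ t₀ y := by
      rw [← hqy, ← h0]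
    have h7 := F.not_escape_stable (p := p) (b := q.2) (by linarith) (t - t₀)
    rw [h6, ← F.Φadd, sub_add_cancel] at h7
    exact h7
  · right
    have hn : 0 < ‖q.1‖ := norm_pos_iff.2 h0
    set T : ℝ := 2 * Real.log (c.ρ / ‖q.1‖) with hT
    have hTe : Real.exp (T / 2) = c.ρ / ‖q.1‖ := by
      rw [hT, mul_div_cancel_left₀ _ (by norm_num : (2 : ℝ) ≠ 0), Real.exp_log (by positivity)]
    have hT0 : 0 ≤ T := by
      have : 0 ≤ Real.log (c.ρ / ‖q.1‖) := by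
        apply Real.log_nonneg
        rw [le_div_iff₀ hn]
        linarith
      positivity
    have h6 : Real.exp (T / 2) * ‖q.1‖ = c.ρ := by
      rw [hTe]
      field_simp
    have h7 := F.flow_lin p q hT0 (by linarith) (by linarith)
    refine ⟨T + t₀, ?_⟩
    rw [F.Φadd, ← hqy, h7]
    have h8 : ‖(lin T q).1‖ = c.ρ := by rw [norm_lin_fst, h6]
    have h9 : ‖(lin T q).2‖ < η := by
      rw [norm_lin_snd, Real.exp_neg, hTe, inv_div]
      calc ‖q.1‖ / c.ρ * ‖q.2‖ ≤ ‖q.1‖ / c.ρ * (2 * c.ρ) :=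
            mul_le_mul_of_nonneg_left hy3.le (by positivity)
        _ = 2 * ‖q.1‖ := by field_simp
        _ < η := by linarith
    have h10 := hη' (lin T q).2 (by rwa [mem_ball_zero_iff]) (lin T q).1
      (by rwa [mem_sphere_zero_iff_norm])
    exact h10

end FV

end Pool.Agent.W630.TC
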