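import Pool.Agent.W630.Stubs

/-! # Statement E: the core has empty interior -/

open scoped Topology ContDiff Manifold Matrix
open Set Pool.Agent.Helper186 MeasureTheory Metric Bundle

noncomputable section

namespace Pool.Agent.W630.TE

set_option linter.unusedSectionVars false

universe u v

/-! ## Linear algebra -/

section lin

variable {G : Type u} [NormedAddCommGroup G] [NormedSpace ℝ G] [FiniteDimensional ℝ G]

/-- the antisymmetrised derivative as a bilinear form -/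
def anti (L : G →L[ℝ] G →L[ℝ] ℝ) : LinearMap.BilinForm ℝ G :=
  LinearMap.mk₂ ℝ (fun u v => L u v - L v u)
    (fun a b c => by simp; ring) (fun c a b => by simp; ring)
    (fun a b c => by simp; ring) (fun c a b => by simp; ring)

theorem anti_apply (L : G →L[ℝ] G →L[ℝ] ℝ) (u v : G) : anti L u v = L u v - L v u := rfl

/-- a basis -/
def bb (G : Type u) [NormedAddCommGroup G] [NormedSpace ℝ G] [FiniteDimensional ℝ G] :
    Module.Basis (Fin (Module.finrank ℝ G)) ℝ G := Module.finBasis ℝ G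

theorem det_conf (L L' : G →L[ℝ] G →L[ℝ] ℝ) (A : G →L[ℝ] G) (c : ℝ)
    (h : ∀ u v, anti L' (A u) (A v) = c * anti L u v) :
    A.det ^ 2 * (LinearMap.BilinForm.toMatrix (bb G) (anti L')).det =
      c ^ (Module.finrank ℝ G) * (LinearMap.BilinForm.toMatrix (bb G) (anti L)).det := by
  have h1 : (anti L').comp (A : G →ₗ[ℝ] G) (A : G →ₗ[ℝ] G) = c • anti L := by
    refine LinearMap.ext fun u => LinearMap.ext fun v => ?_
    exact h u v
  have h2 := LinearMap.BilinForm.toMatrix_comp (bb G) (bb G) (anti L')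
    (A : G →ₗ[ℝ] G) (A : G →ₗ[ℝ] G)
  rw [h1] at h2
  have h3 := congrArg Matrix.det h2
  rw [Matrix.det_mul, Matrix.det_mul, Matrix.det_transpose, LinearMap.det_toMatrix, map_smul,
    Matrix.det_smul, Fintype.card_fin] at h3
  rw [h3]
  have h4 : A.det = LinearMap.det (A : G →ₗ[ℝ] G) := rfl
  rw [h4]
  ring

theorem continuous_det : Continuous fun L : G →L[ℝ] G →L[ℝ] ℝ =>
    (LinearMap.BilinForm.toMatrix (bb G) (anti L)).det := by
  apply Continuous.matrix_det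
  refine continuous_pi fun i => continuous_pi fun j => ?_
  simp only [LinearMap.BilinForm.toMatrix_apply, anti_apply]
  fun_prop

end lin

section chart

variable {G : Type u} [NormedAddCommGroup G] [NormedSpace ℝ G] [FiniteDimensional ℝ G]
  {W : Type v} [TopologicalSpace W] [T2Space W] [ChartedSpace G W] [IsManifold 𝓘(ℝ, G) ∞ W]
  (D : LData 𝓘(ℝ, G) W)

/-- derivative of the chart form -/
def dch (z : W) (y : G) : G →L[ℝ] G →L[ℝ] ℝ := fderiv ℝ (chartForm 𝓘(ℝ, G) D.lam z) y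

/-- the determinant -/
def Md (z : W) (y : G) : ℝ := (LinearMap.BilinForm.toMatrix (bb G) (anti (dch D z y))).det

theorem continuousOn_dch (z : W) :
    ContinuousOn (dch D z) (extChartAt 𝓘(ℝ, G) z).target := by
  have h1 := contDiffOn_chartForm D.hlam z
  exact (h1.continuousOn_fderiv_of_isOpen (isOpen_extChartAt_target z) (by simp))

theorem continuousOn_Md (z : W) :
    ContinuousOn (Md D z) (extChartAt 𝓘(ℝ, G) z).target :=
  continuous_det.comp_continuousOn (continuousOn_dch D z)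

theorem extDer_pair_congr {z z' : W} {a b : TangentSpace 𝓘(ℝ, G) z}
    {a' b' : TangentSpace 𝓘(ℝ, G) z'}
    (ha : (⟨z, a⟩ : TangentBundle 𝓘(ℝ, G) W) = ⟨z', a'⟩)
    (hb : (⟨z, b⟩ : TangentBundle 𝓘(ℝ, G) W) = ⟨z', b'⟩) :
    extDer 𝓘(ℝ, G) D.lam z a b = extDer 𝓘(ℝ, G) D.lam z' a' b' := by
  have hz : z = z' := congrArg TotalSpace.proj ha
  subst hz
  have h1 : a = a' := by simpa using ha
  have h2 : b = b' := by simpa using hb
  rw [h1, h2]

theorem anti_dch (z : W) {y : G} (hy : y ∈ (extChartAt 𝓘(ℝ, G) z).target) (u v : G) :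
    anti (dch D z y) u v = extDer 𝓘(ℝ, G) D.lam ((extChartAt 𝓘(ℝ, G) z).symm y)
      (mfderiv 𝓘(ℝ, G) 𝓘(ℝ, G) (extChartAt 𝓘(ℝ, G) z).symm y u)
      (mfderiv 𝓘(ℝ, G) 𝓘(ℝ, G) (extChartAt 𝓘(ℝ, G) z).symm y v) := by
  rw [extDer_pullback D.hlam (isOpen_extChartAt_target z) (contMDiffOn_extChartAt_symm z) hy]
  have hd : DifferentiableAt ℝ (chartForm 𝓘(ℝ, G) D.lam z) y :=
    ((contDiffOn_chartForm D.hlam z).contDiffAt
      ((isOpen_extChartAt_target z).mem_nhds hy)).differentiableAt (by simp)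
  have h4 : ∀ c d : G, fderiv ℝ (fun q => D.lam ((extChartAt 𝓘(ℝ, G) z).symm q)
      (mfderiv 𝓘(ℝ, G) 𝓘(ℝ, G) (extChartAt 𝓘(ℝ, G) z).symm q d)) y c =
      fderiv ℝ (chartForm 𝓘(ℝ, G) D.lam z) y c d := by
    intro c d
    have h5 : HasFDerivAt (fun q => chartForm 𝓘(ℝ, G) D.lam z q d)
        ((ContinuousLinearMap.apply ℝ ℝ d).comp
          (fderiv ℝ (chartForm 𝓘(ℝ, G) D.lam z) y)) y :=
      (ContinuousLinearMap.apply ℝ ℝ d).hasFDerivAt.comp y hd.hasFDerivAt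
    have h6 := h5.fderiv
    change fderiv ℝ (fun q => chartForm 𝓘(ℝ, G) D.lam z q d) y c = _
    rw [h6]
    rfl
  rw [h4, h4, anti_apply]
  rfl

theorem smooth_slice (t : ℝ) : ContMDiff 𝓘(ℝ, G) 𝓘(ℝ, G) ∞ (D.φ t) :=
  D.smooth_φ.comp (contMDiff_const.prodMk contMDiff_id)

/-- the pull back of `dλ` under the flow in charts -/
theorem anti_flow (t : ℝ) (z z' : W) {y : G} (hy : y ∈ (extChartAt 𝓘(ℝ, G) z).target)
    (hy' : D.φ t ((extChartAt 𝓘(ℝ, G) z).symm y) ∈ (extChartAt 𝓘(ℝ, G) z').source) :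
    let f : G → G := fun q => extChartAt 𝓘(ℝ, G) z' (D.φ t ((extChartAt 𝓘(ℝ, G) z).symm q))
    DifferentiableAt ℝ f y ∧
    ∀ u v : G, anti (dch D z' (f y)) (fderiv ℝ f y u) (fderiv ℝ f y v) =
      Real.exp t * anti (dch D z y) u v := by
  intro f
  set ψ := extChartAt 𝓘(ℝ, G) z with hψ
  set ψ' := extChartAt 𝓘(ℝ, G) z' with hψ'
  have hψo : IsOpen ψ.target := isOpen_extChartAt_target z
  have hψ'o : IsOpen ψ'.target := isOpen_extChartAt_target z'
  have hψs : ContMDiffOn 𝓘(ℝ, G) 𝓘(ℝ, G) ∞ ψ.symm ψ.target := contMDiffOn_extChartAt_symm z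
  have hψ's : ContMDiffOn 𝓘(ℝ, G) 𝓘(ℝ, G) ∞ ψ'.symm ψ'.target := contMDiffOn_extChartAt_symm z'
  set S : G → W := fun q => D.φ t (ψ.symm q) with hS
  have hSs : ContMDiffOn 𝓘(ℝ, G) 𝓘(ℝ, G) ∞ S ψ.target :=
    (smooth_slice D t).comp_contMDiffOn hψs
  have hSA : ∀ q ∈ ψ.target, ContMDiffAt 𝓘(ℝ, G) 𝓘(ℝ, G) ∞ S q := fun q hq =>
    hSs.contMDiffAt (hψo.mem_nhds hq)
  have hfA : ContMDiffAt 𝓘(ℝ, G) 𝓘(ℝ, G) ∞ f y := by
    have h3 : ContMDiffAt 𝓘(ℝ, G) 𝓘(ℝ, G) ∞ ψ' (S y) :=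
      contMDiffAt_extChartAt' (by rwa [hψ', extChartAt_source] at hy')
    exact h3.comp y (hSA y hy)
  have hfd : DifferentiableAt ℝ f y :=
    (contMDiffAt_iff_contDiffAt.1 hfA).differentiableAt (by simp)
  refine ⟨hfd, fun u v => ?_⟩
  have hfy : f y ∈ ψ'.target := ψ'.map_source hy'
  rw [anti_dch D z' hfy]
  -- compare with `S`
  have h1 : (ψ'.symm ∘ f) =ᶠ[𝓝 y] S := by
    have h2 : ∀ᶠ q in 𝓝 y, S q ∈ ψ'.source :=
      (hSA y hy).continuousAt.eventually ((isOpen_extChartAt_source z').mem_nhds hy')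
    filter_upwards [h2] with q hq
    exact ψ'.left_inv hq
  have h2 : ∀ a : G, (⟨ψ'.symm (f y), mfderiv 𝓘(ℝ, G) 𝓘(ℝ, G) ψ'.symm (f y) (fderiv ℝ f y a)⟩ :
      TangentBundle 𝓘(ℝ, G) W) = ⟨S y, mfderiv 𝓘(ℝ, G) 𝓘(ℝ, G) S y a⟩ := by
    intro a
    have h3 := tangentMap_congr_of_eventuallyEq (I := 𝓘(ℝ, G)) (J := 𝓘(ℝ, G))
      (v := (⟨y, a⟩ : TangentBundle 𝓘(ℝ, G) G)) h1
    have h4 := tangentMap_comp_at (I := 𝓘(ℝ, G)) (I' := 𝓘(ℝ, G)) (I'' := 𝓘(ℝ, G))
      (⟨y, a⟩ : TangentBundle 𝓘(ℝ, G) G) (g := ψ'.symm) (f := f)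
      ((hψ's.contMDiffAt (hψ'o.mem_nhds hfy)).mdifferentiableAt (by simp))
      (hfA.mdifferentiableAt (by simp))
    rw [h4] at h3
    have h5 : tangentMap 𝓘(ℝ, G) 𝓘(ℝ, G) f (⟨y, a⟩ : TangentBundle 𝓘(ℝ, G) G) =
        (⟨f y, fderiv ℝ f y a⟩ : TangentBundle 𝓘(ℝ, G) G) := by
      simp only [tangentMap, mfderiv_eq_fderiv]
      rfl
    rw [h5] at h3
    exact h3
  rw [extDer_pair_congr D (h2 u) (h2 v)]
  rw [extDer_pullback D.hlam hψo hSs hy]
  have h3 : ∀ a : G, (fun q => D.lam (S q) (mfderiv 𝓘(ℝ, G) 𝓘(ℝ, G) S q a)) =ᶠ[𝓝 y]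
      fun q => Real.exp t * (chartForm 𝓘(ℝ, G) D.lam z q a) := by
    intro a
    filter_upwards [hψo.mem_nhds hy] with q hq
    have h4 := mfderiv_comp (I := 𝓘(ℝ, G)) (I' := 𝓘(ℝ, G)) (I'' := 𝓘(ℝ, G)) q
      ((smooth_slice D t).mdifferentiableAt (by simp) (x := ψ.symm q))
      ((hψs.contMDiffAt (hψo.mem_nhds hq)).mdifferentiableAt (by simp))
    have h5 := DFunLike.congr_fun h4 a
    have h6 : D.lam (S q) (mfderiv 𝓘(ℝ, G) 𝓘(ℝ, G) S q a) =
        D.lam (D.φ t (ψ.symm q)) (mfderiv 𝓘(ℝ, G) 𝓘(ℝ, G) (D.φ t) (ψ.symm q)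
          (mfderiv 𝓘(ℝ, G) 𝓘(ℝ, G) ψ.symm q a)) := congrArg (D.lam (S q)) h5
    rw [h6, D.conf]
    rfl
  have hd : DifferentiableAt ℝ (chartForm 𝓘(ℝ, G) D.lam z) y :=
    ((contDiffOn_chartForm D.hlam z).contDiffAt (hψo.mem_nhds hy)).differentiableAt (by simp)
  have h4 : ∀ c d : G, fderiv ℝ (fun q => D.lam (S q) (mfderiv 𝓘(ℝ, G) 𝓘(ℝ, G) S q d)) y c =
      Real.exp t * fderiv ℝ (chartForm 𝓘(ℝ, G) D.lam z) y c d := by
    intro c d
    rw [(h3 d).fderiv_eq]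
    have h5 : HasFDerivAt (fun q => Real.exp t * chartForm 𝓘(ℝ, G) D.lam z q d)
        (Real.exp t • ((ContinuousLinearMap.apply ℝ ℝ d).comp
          (fderiv ℝ (chartForm 𝓘(ℝ, G) D.lam z) y))) y :=
      ((ContinuousLinearMap.apply ℝ ℝ d).hasFDerivAt.comp y hd.hasFDerivAt).const_mul _
    rw [h5.fderiv]
    rfl
  rw [h4, h4, anti_apply, dch]
  ring

end chart

theorem main : S_E.{u, v} := by
  intro G _ _ _ hn W _ _ _ _ D
  by_contra hne
  obtain ⟨x₀, hx₀⟩ := nonempty_iff_ne_empty.2 hne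
  let _ : MeasurableSpace G := borel G
  have : BorelSpace G := ⟨rfl⟩
  have : Nontrivial G := Module.finrank_pos_iff.1 hn
  set μ : Measure G := MeasureTheory.Measure.addHaar with hμ
  set ψ := extChartAt 𝓘(ℝ, G) x₀ with hψ
  -- nondegeneracy at the centre
  have hM0 : Md D x₀ (ψ x₀) ≠ 0 := by
    have h1 : (anti (dch D x₀ (ψ x₀))).Nondegenerate := by
      apply LinearMap.BilinForm.Nondegenerate.ofSeparatingLeft
      intro u hu
      exact D.hnd x₀ u fun v => hu v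
    exact (LinearMap.BilinForm.nondegenerate_iff_det_ne_zero (bb G)).1 h1
  have hyt : ψ x₀ ∈ ψ.target := mem_extChartAt_target x₀
  have hMc : ContinuousAt (Md D x₀) (ψ x₀) :=
    (continuousOn_Md D x₀).continuousAt ((isOpen_extChartAt_target x₀).mem_nhds hyt)
  set m : ℝ := |Md D x₀ (ψ x₀)| / 2 with hm
  have hmpos : 0 < m := by positivity
  have hev : ∀ᶠ y in 𝓝 (ψ x₀), y ∈ ψ.target ∧ ψ.symm y ∈ interior D.core ∧
      m < |Md D x₀ y| := by
    have h1 : ∀ᶠ y in 𝓝 (ψ x₀), y ∈ ψ.target := (isOpen_extChartAt_target x₀).mem_nhds hyt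
    have h2 : ∀ᶠ y in 𝓝 (ψ x₀), ψ.symm y ∈ interior D.core := by
      have h3 : ContinuousAt ψ.symm (ψ x₀) := continuousAt_extChartAt_symm x₀
      apply h3.eventually
      rw [ψ.left_inv (mem_extChartAt_source x₀)]
      exact isOpen_interior.mem_nhds hx₀
    have h3 : ∀ᶠ y in 𝓝 (ψ x₀), m < |Md D x₀ y| := by
      have h4 := hMc.abs
      apply h4.eventually
      exact lt_mem_nhds (by rw [hm]; exact half_lt_self (abs_pos.2 hM0))
    exact h1.and (h2.and h3)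
  obtain ⟨r₀, hr₀, hB₀⟩ := Metric.eventually_nhds_iff_ball.1 hev
  set B₀ : Set G := ball (ψ x₀) r₀ with hB₀d
  -- the finite cover of the compact set `X₀`
  have hrz : ∀ z : W, ∃ r > 0, closedBall (extChartAt 𝓘(ℝ, G) z z) r ⊆
      (extChartAt 𝓘(ℝ, G) z).target := fun z =>
    Metric.nhds_basis_closedBall.mem_iff.1 (extChartAt_target_mem_nhds z)
  choose rz hrz0 hrzs using hrz
  set N : W → Set W := fun z => (extChartAt 𝓘(ℝ, G) z).source ∩
    (extChartAt 𝓘(ℝ, G) z) ⁻¹' ball (extChartAt 𝓘(ℝ, G) z z) (rz z) with hN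
  have hNo : ∀ z, IsOpen (N z) := fun z =>
    (continuousOn_extChartAt z).isOpen_inter_preimage (isOpen_extChartAt_source z) isOpen_ball
  have hNz : ∀ z, z ∈ N z := fun z => ⟨mem_extChartAt_source z, mem_ball_self (hrz0 z)⟩
  obtain ⟨T, hT⟩ := D.hc.elim_finite_subcover N hNo fun z _ => mem_iUnion.2 ⟨z, hNz z⟩
  have hcz : ∀ z : W, ∃ c > 0, ∀ y ∈ closedBall (extChartAt 𝓘(ℝ, G) z z) (rz z),
      |Md D z y| ≤ c := by
    intro z
    obtain ⟨c, hc⟩ := (isCompact_closedBall (extChartAt 𝓘(ℝ, G) z z) (rz z)).exists_bound_of_continuousOn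
      ((continuousOn_Md D z).mono (hrzs z))
    exact ⟨max c 1, by positivity, fun y hy => (hc y hy).trans (le_max_left _ _)⟩
  choose cz hcz0 hczs using hcz
  set c : ℝ := ∑ z ∈ T, cz z + 1 with hc
  have hcle : ∀ z ∈ T, cz z ≤ c := fun z hz => by
    have := Finset.single_le_sum (f := cz) (fun i _ => (hcz0 i).le) hz
    linarith
  have hcpos : 0 < c := by
    have : 0 ≤ ∑ z ∈ T, cz z := Finset.sum_nonneg fun i _ => (hcz0 i).le
    linarith
  set V : ENNReal := ∑ z ∈ T, μ (closedBall (extChartAt 𝓘(ℝ, G) z z) (rz z)) with hV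
  have hVfin : V < ⊤ := by
    rw [hV]
    exact ENNReal.sum_lt_top.2 fun z _ => (isCompact_closedBall _ _).measure_lt_top
  have hBpos : 0 < μ B₀ := measure_ball_pos μ _ hr₀
  have hBfin : μ B₀ < ⊤ := measure_ball_lt_top
  -- the main estimate
  have key : ∀ R : ℝ, 0 < R → ENNReal.ofReal R * μ B₀ ≤ V := by
    intro R hR
    obtain ⟨t, ht, htR⟩ : ∃ t : ℝ, 0 < t ∧ R ^ 2 * c / m < Real.exp t := by
      refine ⟨R ^ 2 * c / m, by positivity, ?_⟩
      have := Real.add_one_lt_exp (x := R ^ 2 * c / m) (by positivity)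
      linarith
    set f : W → G → G := fun z q =>
      extChartAt 𝓘(ℝ, G) z (D.φ t (ψ.symm q)) with hf
    set A : W → Set G := fun z => B₀ ∩ (fun q => D.φ t (ψ.symm q)) ⁻¹' (N z) with hA
    have hBt : B₀ ⊆ ψ.target := fun y hy => (hB₀ y hy).1
    have hAo : ∀ z, IsOpen (A z) := by
      intro z
      have h1 : ContinuousOn (fun q => D.φ t (ψ.symm q)) B₀ :=
        (D.continuous_φ t).comp_continuousOn ((continuousOn_extChartAt_symm x₀).mono hBt)
      exact h1.isOpen_inter_preimage isOpen_ball (hNo z)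
    have hcov : B₀ ⊆ ⋃ z ∈ T, A z := by
      intro y hy
      have h1 : D.φ t (ψ.symm y) ∈ D.X₀ := interior_subset (hB₀ y hy).2.1 t ht
      obtain ⟨z, hz, hyz⟩ := mem_iUnion₂.1 (hT h1)
      exact mem_iUnion₂.2 ⟨z, hz, hy, hyz⟩
    have hφinj : Function.Injective (D.φ t) := by
      intro a b hab
      have h1 := congrArg (D.φ (-t)) hab
      rwa [← D.φ_add, ← D.φ_add, neg_add_cancel, D.φ0, D.φ0] at h1
    have hinj : ∀ z, InjOn (f z) (A z) := by
      intro z a ha b hb hab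
      have h1 : D.φ t (ψ.symm a) = D.φ t (ψ.symm b) :=
        (extChartAt 𝓘(ℝ, G) z).injOn ha.2.1 hb.2.1 hab
      have h2 := hφinj h1
      have h3 := congrArg ψ h2
      rwa [ψ.right_inv (hBt ha.1), ψ.right_inv (hBt hb.1)] at h3
    have hest : ∀ z ∈ T, ENNReal.ofReal R * μ (A z) ≤
        μ (closedBall (extChartAt 𝓘(ℝ, G) z z) (rz z)) := by
      intro z hz
      have h1 : ∀ y ∈ A z, HasFDerivWithinAt (f z) (fderiv ℝ (f z) y) (A z) y := fun y hy =>
        ((anti_flow D t x₀ z (hBt hy.1) hy.2.1).1).hasFDerivAt.hasFDerivWithinAt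
      have h2 := lintegral_abs_det_fderiv_eq_addHaar_image μ (hAo z).measurableSet h1 (hinj z)
      have h3 : f z '' A z ⊆ closedBall (extChartAt 𝓘(ℝ, G) z z) (rz z) := by
        rintro _ ⟨y, hy, rfl⟩
        exact ball_subset_closedBall hy.2.2
      have h4 : ∀ y ∈ A z, R ≤ |(fderiv ℝ (f z) y).det| := by
        intro y hy
        have h5 := det_conf _ _ _ _ (anti_flow D t x₀ z (hBt hy.1) hy.2.1).2
        have h6 : |Md D z (f z y)| ≤ c :=
          (hczs z _ (ball_subset_closedBall hy.2.2)).trans (hcle z hz)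
        have h7 : m < |Md D x₀ y| := (hB₀ y hy.1).2.2
        have h8 : (fderiv ℝ (f z) y).det ^ 2 * |Md D z (f z y)| =
            Real.exp t ^ (Module.finrank ℝ G) * |Md D x₀ y| := by
          have h9 := congrArg abs h5
          rw [abs_mul, abs_mul, abs_of_nonneg (sq_nonneg _),
            abs_of_pos (pow_pos (Real.exp_pos t) _)] at h9
          exact h9
        have h10 : Real.exp t ≤ Real.exp t ^ (Module.finrank ℝ G) :=
          le_self_pow₀ (Real.one_le_exp ht.le) hn.ne'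
        have h11 : R ^ 2 * c < (fderiv ℝ (f z) y).det ^ 2 * c := by
          calc R ^ 2 * c = (R ^ 2 * c / m) * m := by field_simp
            _ < Real.exp t * m := mul_lt_mul_of_pos_right htR hmpos
            _ ≤ Real.exp t ^ (Module.finrank ℝ G) * |Md D x₀ y| :=
              mul_le_mul h10 h7.le hmpos.le (by positivity)
            _ = (fderiv ℝ (f z) y).det ^ 2 * |Md D z (f z y)| := h8.symm
            _ ≤ (fderiv ℝ (f z) y).det ^ 2 * c := mul_le_mul_of_nonneg_left h6 (sq_nonneg _)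
        have h12 : R ^ 2 < (fderiv ℝ (f z) y).det ^ 2 := lt_of_mul_lt_mul_right h11 hcpos.le
        exact (sq_lt_sq₀ hR.le (abs_nonneg _)).1 (by rwa [sq_abs]) |>.le
      calc ENNReal.ofReal R * μ (A z) = ∫⁻ _ in A z, ENNReal.ofReal R ∂μ := by
            rw [setLIntegral_const]
        _ ≤ ∫⁻ y in A z, ENNReal.ofReal |(fderiv ℝ (f z) y).det| ∂μ :=
            setLIntegral_mono' (hAo z).measurableSet fun y hy => ENNReal.ofReal_le_ofReal (h4 y hy)
        _ = μ (f z '' A z) := h2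
        _ ≤ μ (closedBall (extChartAt 𝓘(ℝ, G) z z) (rz z)) := measure_mono h3
    calc ENNReal.ofReal R * μ B₀ ≤ ENNReal.ofReal R * ∑ z ∈ T, μ (A z) := by
          gcongr
          exact (measure_mono hcov).trans (measure_biUnion_finset_le T A)
      _ = ∑ z ∈ T, ENNReal.ofReal R * μ (A z) := Finset.mul_sum _ _ _
      _ ≤ V := Finset.sum_le_sum hest
  -- the contradiction
  have h1 := key ((V.toReal + 1) / (μ B₀).toReal)
    (div_pos (by positivity) (ENNReal.toReal_pos hBpos.ne' hBfin.ne))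
  have h2 : ENNReal.ofReal ((V.toReal + 1) / (μ B₀).toReal) * μ B₀ =
      ENNReal.ofReal (V.toReal + 1) := by
    conv_lhs => rw [← ENNReal.ofReal_toReal hBfin.ne]
    rw [← ENNReal.ofReal_mul (by positivity)]
    congr 1
    have : (μ B₀).toReal ≠ 0 := (ENNReal.toReal_pos hBpos.ne' hBfin.ne).ne'
    rw [ENNReal.toReal_ofReal (by positivity)]
    field_simp
  rw [h2, ENNReal.ofReal_le_iff_le_toReal hVfin.ne] at h1
  linarith

end Pool.Agent.W630.TE
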