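import Pool.Agent.W630.TD
import Pool.Agent.W630.TE

/-! # Statement F: the tube around a curve crossing a Liouville subdomain, part 1 -/

open scoped Topology ContDiff Manifold
open Set Pool.Agent.Helper186 MeasureTheory Metric Bundle

noncomputable section

namespace Pool.Agent.W630.TF

set_option linter.unusedSectionVars false

universe u v

variable {G : Type u} [NormedAddCommGroup G] [NormedSpace ℝ G] [FiniteDimensional ℝ G]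
  {W : Type v} [TopologicalSpace W] [T2Space W] [ChartedSpace G W] [IsManifold 𝓘(ℝ, G) ∞ W]

/-- the domain of `g` -/
def VD (δ : ℝ) : Set (ℝ × P) := Ioo (-1 - δ) (1 + δ) ×ˢ univ

theorem isOpen_VD (δ : ℝ) : IsOpen (VD δ) := isOpen_Ioo.prod isOpen_univ

/-- the hypotheses of `S_F` -/
structure DF (D : LData 𝓘(ℝ, G) W) (δ : ℝ) (g : ℝ × P → W) (rel : P → P → Prop)
    (K : Set P) : Prop where
  dim : Module.finrank ℝ G = 4
  hδ : 0 < δ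
  smooth : ContMDiffOn 𝓘(ℝ, ℝ × P) 𝓘(ℝ, G) ∞ g (VD δ)
  imm : ∀ q ∈ VD δ, Function.Injective (mfderiv 𝓘(ℝ, ℝ × P) 𝓘(ℝ, G) g q)
  fib : ∀ s ∈ Ioo (-1 - δ) (1 + δ), ∀ s' ∈ Ioo (-1 - δ) (1 + δ), ∀ x x' : P,
      g (s, x) = g (s', x') ↔ s = s' ∧ rel x x'
  Kc : IsCompact K
  Kcov : ∀ x, ∃ x' ∈ K, rel x x'
  out₁ : ∀ x : P, ∃ v : ℝ × P, 0 < v.1 ∧
      (mfderiv 𝓘(ℝ, ℝ × P) 𝓘(ℝ, G) g ((1 : ℝ), x)) v = D.Z (g ((1 : ℝ), x))
  out₂ : ∀ x : P, ∃ v : ℝ × P, v.1 < 0 ∧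
      (mfderiv 𝓘(ℝ, ℝ × P) 𝓘(ℝ, G) g ((-1 : ℝ), x)) v = D.Z (g ((-1 : ℝ), x))

/-- reflection -/
def rfx (q : ℝ × P) : ℝ × P := (-q.1, q.2)

/-- reflection, as a continuous linear map -/
def rfL : (ℝ × P) →L[ℝ] (ℝ × P) :=
  (-ContinuousLinearMap.fst ℝ ℝ P).prod (ContinuousLinearMap.snd ℝ ℝ P)

theorem rfx_eq : rfx = rfL := rfl

theorem rfx_rfx (q : ℝ × P) : rfx (rfx q) = q := by simp [rfx]

theorem hasMFDerivAt_rfx (q : ℝ × P) : HasMFDerivAt 𝓘(ℝ, ℝ × P) 𝓘(ℝ, ℝ × P) rfx q rfL :=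
  (rfL.hasFDerivAt).hasMFDerivAt

theorem rfx_mem {δ : ℝ} {q : ℝ × P} (hq : q ∈ VD δ) : rfx q ∈ VD δ := by
  obtain ⟨⟨h1, h2⟩, -⟩ := hq
  exact ⟨⟨by simp only [rfx]; linarith, by simp only [rfx]; linarith⟩, mem_univ _⟩

variable {D : LData 𝓘(ℝ, G) W} {δ : ℝ} {g : ℝ × P → W} {rel : P → P → Prop} {K : Set P}

namespace DF

variable (H : DF D δ g rel K)
include H

theorem smoothAt {q : ℝ × P} (hq : q ∈ VD δ) : ContMDiffAt 𝓘(ℝ, ℝ × P) 𝓘(ℝ, G) ∞ g q :=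
  H.smooth.contMDiffAt ((isOpen_VD δ).mem_nhds hq)

theorem mdiff {q : ℝ × P} (hq : q ∈ VD δ) : MDifferentiableAt 𝓘(ℝ, ℝ × P) 𝓘(ℝ, G) g q :=
  (H.smoothAt hq).mdifferentiableAt (by simp)

theorem mfderiv_rfx {q : ℝ × P} (hq : q ∈ VD δ) (v : ℝ × P) :
    mfderiv 𝓘(ℝ, ℝ × P) 𝓘(ℝ, G) (g ∘ rfx) q v =
      mfderiv 𝓘(ℝ, ℝ × P) 𝓘(ℝ, G) g (rfx q) (rfx v) := by
  have h1 : HasMFDerivAt 𝓘(ℝ, ℝ × P) 𝓘(ℝ, G) (g ∘ rfx) q
      ((mfderiv 𝓘(ℝ, ℝ × P) 𝓘(ℝ, G) g (rfx q)).comp rfL) :=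
    HasMFDerivAt.comp q (H.mdiff (rfx_mem hq)).hasMFDerivAt (hasMFDerivAt_rfx q)
  rw [h1.mfderiv]
  rfl

theorem refl : DF D δ (g ∘ rfx) rel K where
  dim := H.dim
  hδ := H.hδ
  smooth := by
    have h1 : ContMDiff 𝓘(ℝ, ℝ × P) 𝓘(ℝ, ℝ × P) ∞ rfx := rfL.contDiff.contMDiff
    exact H.smooth.comp h1.contMDiffOn fun q hq => rfx_mem hq
  imm := by
    intro q hq
    rw [injective_iff_map_eq_zero]
    intro v hv
    have hv2 : mfderiv 𝓘(ℝ, ℝ × P) 𝓘(ℝ, G) g (rfx q) (rfx v) = 0 :=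
      (H.mfderiv_rfx hq v).symm.trans hv
    have h1 := H.imm _ (rfx_mem hq)
    rw [injective_iff_map_eq_zero] at h1
    have h2 : rfx v = 0 := h1 _ hv2
    have h3 := rfx_rfx v
    rw [h2] at h3
    rw [← h3]
    simp only [rfx, Prod.fst_zero, neg_zero, Prod.snd_zero]
    rfl
  fib := by
    intro s hs s' hs' x x'
    have h1 := H.fib (-s) ⟨by linarith [hs.2], by linarith [hs.1]⟩ (-s')
      ⟨by linarith [hs'.2], by linarith [hs'.1]⟩ x x'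
    rw [neg_inj] at h1
    exact h1
  Kc := H.Kc
  Kcov := H.Kcov
  out₁ := by
    intro x
    obtain ⟨v, hv, hv'⟩ := H.out₂ x
    have hm : ((1 : ℝ), x) ∈ VD δ := ⟨⟨by linarith [H.hδ], by linarith [H.hδ]⟩, mem_univ _⟩
    refine ⟨rfx v, by simp only [rfx]; linarith, ?_⟩
    rw [H.mfderiv_rfx hm, rfx_rfx]
    exact hv'
  out₂ := by
    intro x
    obtain ⟨v, hv, hv'⟩ := H.out₁ x
    have hm : ((-1 : ℝ), x) ∈ VD δ := ⟨⟨by linarith [H.hδ], by linarith [H.hδ]⟩, mem_univ _⟩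
    refine ⟨rfx v, by simp only [rfx]; linarith, ?_⟩
    rw [H.mfderiv_rfx hm, rfx_rfx]
    have h1 : rfx ((-1 : ℝ), x) = ((1 : ℝ), x) := by simp [rfx]
    have h2 : ∀ q, q = ((1 : ℝ), x) → (mfderiv 𝓘(ℝ, ℝ × P) 𝓘(ℝ, G) g q v : G) =
        (D.Z (g q) : G) := by
      rintro q rfl
      exact hv'
    exact h2 _ h1

end DF

/-- the image of `g` -/
def Om (δ : ℝ) (g : ℝ × P → W) : Set W := g '' VD δ

/-- the first coordinate as a function on `W` -/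
def tau (δ : ℝ) (g : ℝ × P → W) (y : W) : ℝ := (Function.invFunOn g (VD δ) y).1

/-- the derivative of the first coordinate along the Liouville field -/
def hh (D : LData 𝓘(ℝ, G) W) (δ : ℝ) (g : ℝ × P → W) (y : W) : ℝ :=
  mfderiv 𝓘(ℝ, G) 𝓘(ℝ, ℝ) (tau δ g) y (D.Z y)

namespace DF

variable (H : DF D δ g rel K)
include H

theorem tau_g {q : ℝ × P} (hq : q ∈ VD δ) : tau δ g (g q) = q.1 := by
  have h1 : ∃ a ∈ VD δ, g a = g q := ⟨q, hq, rfl⟩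
  have h2 := Function.invFunOn_mem h1
  have h3 := Function.invFunOn_eq h1
  set p := Function.invFunOn g (VD δ) (g q) with hp
  exact ((H.fib p.1 h2.1 q.1 hq.1 p.2 q.2).1 h3).1

theorem finrank_eq : Module.finrank ℝ (ℝ × P) = Module.finrank ℝ G := by
  rw [H.dim, Module.finrank_prod]
  simp [P]

theorem isOpen_Om : IsOpen (Om δ g) := by
  have h1 : Om δ g = ⋃ ξ : VD δ, g ''
      (TD.local_inverse_on (isOpen_VD δ) H.smooth ξ.2 (H.imm ξ ξ.2) H.finrank_eq).choose := by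
    ext y
    constructor
    · rintro ⟨q, hq, rfl⟩
      have h2 := (TD.local_inverse_on (isOpen_VD δ) H.smooth hq (H.imm q hq)
        H.finrank_eq).choose_spec
      obtain ⟨v, -, h3, -⟩ := h2
      exact mem_iUnion.2 ⟨⟨q, hq⟩, q, h3, rfl⟩
    · intro hy
      obtain ⟨ξ, q, hq, rfl⟩ := mem_iUnion.1 hy
      have h2 := (TD.local_inverse_on (isOpen_VD δ) H.smooth ξ.2 (H.imm ξ ξ.2)
        H.finrank_eq).choose_spec
      obtain ⟨v, -, -, h4, -⟩ := h2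
      exact ⟨q, h4 hq, rfl⟩
  rw [h1]
  refine isOpen_iUnion fun ξ => ?_
  have h2 := (TD.local_inverse_on (isOpen_VD δ) H.smooth ξ.2 (H.imm ξ ξ.2)
    H.finrank_eq).choose_spec
  obtain ⟨v, h3, -, -, -, h5, -⟩ := h2
  exact h5 _ subset_rfl h3

theorem smooth_tau {y : W} (hy : y ∈ Om δ g) : ContMDiffAt 𝓘(ℝ, G) 𝓘(ℝ, ℝ) ∞ (tau δ g) y := by
  obtain ⟨q, hq, rfl⟩ := hy
  obtain ⟨S, v, hSo, hqS, hSV, hv, hop, hvs⟩ :=
    TD.local_inverse_on (isOpen_VD δ) H.smooth hq (H.imm q hq) H.finrank_eq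
  have h1 : tau δ g =ᶠ[𝓝 (g q)] fun y => (v y).1 := by
    filter_upwards [(hop S subset_rfl hSo).mem_nhds ⟨q, hqS, rfl⟩] with y hy
    obtain ⟨p, hp, rfl⟩ := hy
    rw [H.tau_g (hSV hp), hv p hp]
  have h2 : ContMDiffAt 𝓘(ℝ, G) 𝓘(ℝ, ℝ) ∞ (fun y => (v y).1) (g q) := by
    have h3 : ContMDiff 𝓘(ℝ, ℝ × P) 𝓘(ℝ, ℝ) ∞ (fun p : ℝ × P => p.1) := contDiff_fst.contMDiff
    exact (h3 _).comp (g q) (hvs q hqS)
  exact h2.congr_of_eventuallyEq h1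

theorem mdiff_tau {y : W} (hy : y ∈ Om δ g) : MDifferentiableAt 𝓘(ℝ, G) 𝓘(ℝ, ℝ) (tau δ g) y :=
  (H.smooth_tau hy).mdifferentiableAt (by simp)

theorem hasDerivAt_tau {y : W} {s : ℝ} (hy : D.φ s y ∈ Om δ g) :
    HasDerivAt (fun σ => tau δ g (D.φ σ y)) (hh D δ g (D.φ s y)) s := by
  have h2 := (H.mdiff_tau hy).hasMFDerivAt.comp s (D.hφ y s)
  have h3' : HasFDerivAt (fun σ => tau δ g (D.φ σ y)) (show ℝ →L[ℝ] ℝ from
      (mfderiv 𝓘(ℝ, G) 𝓘(ℝ, ℝ) (tau δ g) (D.φ s y)).comp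
        ((1 : ℝ →L[ℝ] ℝ).smulRight (D.Z (D.φ s y)))) s :=
    hasMFDerivAt_iff_hasFDerivAt.1 h2
  have h3 := h3'.hasDerivAt
  refine h3.congr_deriv ?_
  exact congrArg (mfderiv 𝓘(ℝ, G) 𝓘(ℝ, ℝ) (tau δ g) (D.φ s y)) (one_smul ℝ (D.Z (D.φ s y)))

theorem continuousOn_hh : ContinuousOn (hh D δ g) (Om δ g) := by
  intro y hy
  have h0 : ContMDiffOn 𝓘(ℝ, G) 𝓘(ℝ, ℝ) ∞ (tau δ g) (Om δ g) := fun z hz =>
    (H.smooth_tau hz).contMDiffWithinAt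
  have h1 := (contMDiffAt_tangentMap H.isOpen_Om h0
    (v := (⟨y, D.Z y⟩ : TangentBundle 𝓘(ℝ, G) W)) hy).comp y (D.smooth_Z y)
  have h2 := smoothForm_idForm.comp h1 le_rfl
  exact h2.continuousAt.continuousWithinAt

theorem mem_VD {s : ℝ} (hs : s ∈ Icc (-1 : ℝ) 1) (x : P) : (s, x) ∈ VD δ :=
  ⟨⟨by linarith [hs.1, H.hδ], by linarith [hs.2, H.hδ]⟩, mem_univ _⟩

/-- value of `hh` -/
theorem hh_g {q : ℝ × P} (hq : q ∈ VD δ) {v : ℝ × P}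
    (hv : mfderiv 𝓘(ℝ, ℝ × P) 𝓘(ℝ, G) g q v = D.Z (g q)) : hh D δ g (g q) = v.1 := by
  have h1 : HasMFDerivAt 𝓘(ℝ, ℝ × P) 𝓘(ℝ, ℝ) (tau δ g ∘ g) q
      ((mfderiv 𝓘(ℝ, G) 𝓘(ℝ, ℝ) (tau δ g) (g q)).comp
        (mfderiv 𝓘(ℝ, ℝ × P) 𝓘(ℝ, G) g q)) :=
    (H.mdiff_tau ⟨q, hq, rfl⟩).hasMFDerivAt.comp q (H.mdiff hq).hasMFDerivAt
  have h2 : HasMFDerivAt 𝓘(ℝ, ℝ × P) 𝓘(ℝ, ℝ) (tau δ g ∘ g) q
      (ContinuousLinearMap.fst ℝ ℝ P) := by
    have h3 : HasMFDerivAt 𝓘(ℝ, ℝ × P) 𝓘(ℝ, ℝ) (fun p : ℝ × P => p.1) q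
        (ContinuousLinearMap.fst ℝ ℝ P) := ((ContinuousLinearMap.fst ℝ ℝ P).hasFDerivAt).hasMFDerivAt
    refine h3.congr_of_eventuallyEq ?_
    filter_upwards [(isOpen_VD δ).mem_nhds hq] with p hp
    exact H.tau_g hp
  have h4 := congrArg (fun L : TangentSpace 𝓘(ℝ, ℝ × P) q →L[ℝ]
    TangentSpace 𝓘(ℝ, ℝ) ((tau δ g ∘ g) q) => L v) (hasMFDerivAt_unique h1 h2)
  have h5 : mfderiv 𝓘(ℝ, G) 𝓘(ℝ, ℝ) (tau δ g) (g q)
      (mfderiv 𝓘(ℝ, ℝ × P) 𝓘(ℝ, G) g q v) = v.1 := h4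
  rw [hv] at h5
  exact h5

theorem hh_one (x : P) : 0 < hh D δ g (g (1, x)) := by
  obtain ⟨v, hv, hv'⟩ := H.out₁ x
  rw [H.hh_g (H.mem_VD ⟨by norm_num, le_rfl⟩ x) hv']
  exact hv

theorem hh_neg_one (x : P) : hh D δ g (g (-1, x)) < 0 := by
  obtain ⟨v, hv, hv'⟩ := H.out₂ x
  rw [H.hh_g (H.mem_VD ⟨le_rfl, by norm_num⟩ x) hv']
  exact hv

/-- the sign of `hh` near `s = 1` -/
theorem exists_s₁ : ∃ s₁ ∈ Ioo (0 : ℝ) 1, ∀ s ∈ Icc s₁ 1, ∀ x, 0 < hh D δ g (g (s, x)) := by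
  have hc : ContinuousOn (fun q : ℝ × P => hh D δ g (g q)) (VD δ) :=
    H.continuousOn_hh.comp H.smooth.continuousOn fun q hq => ⟨q, hq, rfl⟩
  have h1 : ∀ x ∈ K, ∀ᶠ z : ℝ × P in 𝓝 ((1 : ℝ), x), 0 < hh D δ g (g (z.1, z.2)) := by
    intro x _
    have h2 := (hc.continuousAt ((isOpen_VD δ).mem_nhds (H.mem_VD ⟨by norm_num, le_rfl⟩ x)))
    exact h2.eventually (lt_mem_nhds (H.hh_one x))
  have h2 : ∀ᶠ s : ℝ in 𝓝 (1 : ℝ), ∀ x ∈ K, 0 < hh D δ g (g (s, x)) :=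
    H.Kc.eventually_forall_of_forall_eventually (P := fun (s : ℝ) (x : P) =>
      0 < hh D δ g (g (s, x))) h1
  obtain ⟨ε, hε, hε'⟩ := Metric.eventually_nhds_iff.1 h2
  refine ⟨max (1 / 2) (1 - ε / 2), ⟨lt_max_of_lt_left (by norm_num), ?_⟩, ?_⟩
  · apply max_lt <;> linarith
  · intro s hs x
    obtain ⟨x', hx', hrel⟩ := H.Kcov x
    have h3 : s ∈ Ioo (-1 - δ) (1 + δ) := by
      have h5 : (1 / 2 : ℝ) ≤ s := (le_max_left _ _).trans hs.1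
      exact ⟨by linarith [H.hδ], by linarith [H.hδ, hs.2]⟩
    have h4 : g (s, x) = g (s, x') := (H.fib s h3 s h3 x x').2 ⟨rfl, hrel⟩
    rw [h4]
    apply hε' _ x' hx'
    rw [Real.dist_eq, abs_lt]
    have h5 : 1 - ε / 2 ≤ s := (le_max_right _ _).trans hs.1
    exact ⟨by linarith, by linarith [hs.2]⟩

end DF

/-- the subdomain -/
def Fd (g : ℝ × P → W) : Set W := g '' (Icc (-1 : ℝ) 1 ×ˢ univ)

theorem right_of_deriv_pos {u : ℝ → ℝ} {d s : ℝ} (hu : HasDerivAt u d s) (hd : 0 < d) :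
    ∀ᶠ σ in 𝓝[>] s, u s < u σ := by
  have h1 := (hasDerivAt_iff_tendsto_slope.1 hu).eventually (lt_mem_nhds hd)
  have h2 : ∀ᶠ σ in 𝓝[>] s, 0 < slope u s σ :=
    h1.filter_mono (nhdsWithin_mono _ fun σ hσ => ne_of_gt hσ)
  filter_upwards [h2, self_mem_nhdsWithin] with σ hσ hσ'
  have h3 : (0 : ℝ) < σ - s := sub_pos.2 hσ'
  rw [slope_def_field] at hσ
  have h4 := mul_pos hσ h3
  rw [div_mul_cancel₀ _ h3.ne'] at h4
  linarith

theorem right_of_deriv_neg {u : ℝ → ℝ} {d s : ℝ} (hu : HasDerivAt u d s) (hd : d < 0) :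
    ∀ᶠ σ in 𝓝[>] s, u σ < u s := by
  have h1 := right_of_deriv_pos hu.neg (by linarith)
  filter_upwards [h1] with σ hσ
  simpa using hσ

namespace DF

variable (H : DF D δ g rel K)
include H

theorem Fd_eq : Fd g = {y | y ∈ Om δ g ∧ tau δ g y ∈ Icc (-1 : ℝ) 1} := by
  ext y
  constructor
  · rintro ⟨⟨s, x⟩, ⟨hs, -⟩, rfl⟩
    have h1 := H.mem_VD hs x
    exact ⟨⟨_, h1, rfl⟩, by rw [H.tau_g h1]; exact hs⟩
  · rintro ⟨⟨q, hq, rfl⟩, hy⟩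
    rw [H.tau_g hq] at hy
    exact ⟨q, ⟨hy, mem_univ _⟩, rfl⟩

theorem compact_Fd : IsCompact (Fd g) := by
  have h1 : Fd g = g '' (Icc (-1 : ℝ) 1 ×ˢ K) := by
    apply Subset.antisymm
    · rintro _ ⟨⟨s, x⟩, ⟨hs, -⟩, rfl⟩
      obtain ⟨x', hx', hrel⟩ := H.Kcov x
      have h3 := (H.mem_VD hs x).1
      exact ⟨(s, x'), ⟨hs, hx'⟩, ((H.fib s h3 s h3 x x').2 ⟨rfl, hrel⟩).symm⟩
    · exact image_mono (prod_mono_right (subset_univ _))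
  rw [h1]
  refine (isCompact_Icc.prod H.Kc).image_of_continuousOn (H.smooth.continuousOn.mono ?_)
  rintro ⟨s, x⟩ ⟨hs, -⟩
  exact H.mem_VD hs x

theorem back {y : W} (hy : y ∈ Fd g) {t : ℝ} (ht : 0 ≤ t) : D.φ (-t) y ∈ Fd g := by
  have hcont : Continuous (fun s => D.φ (-s) y) := (D.hφ y).continuous.comp continuous_neg
  have h1 : Icc 0 t ⊆ {s | D.φ (-s) y ∈ Fd g} := by
    apply IsClosed.Icc_subset_of_forall_mem_nhdsWithin
    · exact (H.compact_Fd.isClosed.preimage hcont).inter isClosed_Icc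
    · show D.φ (-0) y ∈ Fd g
      rw [neg_zero, D.φ0]
      exact hy
    · rintro s ⟨hs, -⟩
      have hs' : D.φ (-s) y ∈ Fd g := hs
      rw [H.Fd_eq] at hs'
      have hO : ∀ᶠ σ in 𝓝 s, D.φ (-σ) y ∈ Om δ g :=
        hcont.continuousAt.eventually (H.isOpen_Om.mem_nhds hs'.1)
      have hd : HasDerivAt (fun σ => tau δ g (D.φ (-σ) y)) (-hh D δ g (D.φ (-s) y)) s := by
        have h2 := (H.hasDerivAt_tau (s := -s) hs'.1).comp s (hasDerivAt_neg s)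
        rw [mul_neg_one] at h2
        exact h2
      have hcd := hd.continuousAt
      have hmem : ∀ᶠ σ in 𝓝[>] s, tau δ g (D.φ (-σ) y) ∈ Icc (-1 : ℝ) 1 := by
        rcases hs'.2.1.eq_or_lt with h2 | h2
        · -- value `-1`
          have h3 : hh D δ g (D.φ (-s) y) < 0 := by
            obtain ⟨q, hq, hqy⟩ := hs'.1
            have h4 : q.1 = -1 := by rw [← H.tau_g hq, hqy, ← h2]
            have h5 : q = (-1, q.2) := Prod.ext h4 rfl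
            rw [← hqy, h5]
            exact H.hh_neg_one _
          have h6 := right_of_deriv_pos hd (by linarith)
          have h7 : ∀ᶠ σ in 𝓝 s, tau δ g (D.φ (-σ) y) < 1 :=
            hcd.eventually (gt_mem_nhds (by
              show tau δ g (D.φ (-s) y) < 1
              rw [← h2]; norm_num))
          filter_upwards [h6, h7.filter_mono nhdsWithin_le_nhds] with σ h8 h9
          exact ⟨by rw [h2]; exact h8.le, h9.le⟩
        · rcases hs'.2.2.eq_or_lt with h2' | h2'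
          · have h3 : 0 < hh D δ g (D.φ (-s) y) := by
              obtain ⟨q, hq, hqy⟩ := hs'.1
              have h4 : q.1 = 1 := by rw [← H.tau_g hq, hqy, h2']
              have h5 : q = (1, q.2) := Prod.ext h4 rfl
              rw [← hqy, h5]
              exact H.hh_one _
            have h6 := right_of_deriv_neg hd (by linarith)
            have h7 : ∀ᶠ σ in 𝓝 s, -1 < tau δ g (D.φ (-σ) y) :=
              hcd.eventually (lt_mem_nhds h2)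
            filter_upwards [h6, h7.filter_mono nhdsWithin_le_nhds] with σ h8 h9
            rw [h2'] at h8
            exact ⟨h9.le, h8.le⟩
          · have h7 : ∀ᶠ σ in 𝓝 s, tau δ g (D.φ (-σ) y) ∈ Ioo (-1 : ℝ) 1 :=
              hcd.eventually (Ioo_mem_nhds h2 h2')
            filter_upwards [h7.filter_mono nhdsWithin_le_nhds] with σ h8
            exact ⟨h8.1.le, h8.2.le⟩
      filter_upwards [hmem, hO.filter_mono nhdsWithin_le_nhds] with σ h2 h3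
      show D.φ (-σ) y ∈ Fd g
      rw [H.Fd_eq]
      exact ⟨h3, h2⟩
  exact h1 ⟨ht, le_rfl⟩

/-- monotonicity of the first coordinate near the boundary -/
theorem up {s₁ : ℝ} (hs₁ : s₁ ∈ Ioo (0 : ℝ) 1)
    (hpos : ∀ s ∈ Icc s₁ 1, ∀ x, 0 < hh D δ g (g (s, x))) {b : ℝ} (hb : b ∈ Icc s₁ 1) {x : P}
    {t : ℝ} (ht : 0 < t) (hF : D.φ t (g (b, x)) ∈ Fd g) : b < tau δ g (D.φ t (g (b, x))) := by
  set y := g (b, x) with hy
  have hF' : ∀ σ ∈ Icc 0 t, D.φ σ y ∈ Fd g := by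
    intro σ hσ
    have h1 := H.back hF (t := t - σ) (by linarith [hσ.2])
    rw [← D.φ_add] at h1
    have h2 : -(t - σ) + t = σ := by ring
    rwa [h2] at h1
  have hO : ∀ σ ∈ Icc 0 t, D.φ σ y ∈ Om δ g := fun σ hσ => by
    have h1 := hF' σ hσ
    rw [H.Fd_eq] at h1
    exact h1.1
  have hd : ∀ σ ∈ Icc 0 t, HasDerivAt (fun σ => tau δ g (D.φ σ y)) (hh D δ g (D.φ σ y)) σ :=
    fun σ hσ => H.hasDerivAt_tau (hO σ hσ)
  have hpos' : ∀ σ ∈ Icc 0 t, s₁ ≤ tau δ g (D.φ σ y) → 0 < hh D δ g (D.φ σ y) := by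
    intro σ hσ h1
    obtain ⟨⟨s, x'⟩, ⟨hs, -⟩, h2⟩ := hF' σ hσ
    rw [← h2]
    rw [← h2, H.tau_g (H.mem_VD hs x')] at h1
    exact hpos s ⟨h1, hs.2⟩ x'
  have hb1 : (b : ℝ) ∈ Icc (-1 : ℝ) 1 := ⟨by linarith [hb.1, hs₁.1], hb.2⟩
  have h0 : tau δ g (D.φ 0 y) = b := by
    rw [D.φ0, hy, H.tau_g (H.mem_VD hb1 x)]
  have hcO : ContinuousOn (fun σ => tau δ g (D.φ σ y)) (Icc 0 t) := fun σ hσ =>
    (hd σ hσ).continuousAt.continuousWithinAt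
  have hge : Icc 0 t ⊆ {σ | s₁ ≤ tau δ g (D.φ σ y)} := by
    apply IsClosed.Icc_subset_of_forall_mem_nhdsWithin
    · have h1 : {σ | s₁ ≤ tau δ g (D.φ σ y)} ∩ Icc 0 t =
          Icc 0 t ∩ (fun σ => tau δ g (D.φ σ y)) ⁻¹' Ici s₁ := by
        rw [inter_comm]; rfl
      rw [h1]
      exact hcO.preimage_isClosed_of_isClosed isClosed_Icc isClosed_Ici
    · show s₁ ≤ tau δ g (D.φ 0 y)
      rw [h0]
      exact hb.1
    · rintro s ⟨hs, hst⟩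
      have hs' : s₁ ≤ tau δ g (D.φ s y) := hs
      have h1 : s ∈ Icc 0 t := ⟨hst.1, hst.2.le⟩
      filter_upwards [right_of_deriv_pos (hd s h1) (hpos' s h1 hs')] with σ hσ
      exact hs'.trans hσ.le
  have hmono : StrictMonoOn (fun σ => tau δ g (D.φ σ y)) (Icc 0 t) := by
    refine strictMonoOn_of_deriv_pos (convex_Icc 0 t) hcO ?_
    intro σ hσ
    rw [interior_Icc] at hσ
    have h1 : σ ∈ Icc 0 t := ⟨hσ.1.le, hσ.2.le⟩
    rw [(hd σ h1).deriv]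
    exact hpos' σ h1 (hge h1)
  have h1 := hmono ⟨le_rfl, ht.le⟩ ⟨ht.le, le_rfl⟩ ht
  simp only [h0] at h1
  exact h1

end DF

end Pool.Agent.W630.TF
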