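import Pool.Agent.W630.TF1

/-! # Statement F, part 2: the map `κ` and its immersivity -/

open scoped Topology ContDiff Manifold
open Set Pool.Agent.Helper186 MeasureTheory Metric Bundle Filter

noncomputable section

namespace Pool.Agent.W630.TF

set_option linter.unusedSectionVars false

universe u v

variable {G : Type u} [NormedAddCommGroup G] [NormedSpace ℝ G] [FiniteDimensional ℝ G]
  {W : Type v} [TopologicalSpace W] [T2Space W] [ChartedSpace G W] [IsManifold 𝓘(ℝ, G) ∞ W]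
  {D : LData 𝓘(ℝ, G) W} {δ : ℝ} {g : ℝ × P → W} {rel : P → P → Prop} {K : Set P}

/-- the map `(s, x) ↦ φ_{a(s)}(g(b(s), x))` -/
def kap (D : LData 𝓘(ℝ, G) W) (g : ℝ × P → W) (a b : ℝ → ℝ) (q : ℝ × P) : W :=
  D.φ (a q.1) (g (b q.1, q.2))

namespace DF

variable (H : DF D δ g rel K)
include H

theorem smooth_gb {b : ℝ → ℝ} (hb : ContDiff ℝ ∞ b) (hbm : ∀ s, b s ∈ Icc (-1 : ℝ) 1) :
    ContMDiff 𝓘(ℝ, ℝ × P) 𝓘(ℝ, G) ∞ (fun q : ℝ × P => g (b q.1, q.2)) := by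
  intro q
  have h1 : ContMDiff 𝓘(ℝ, ℝ × P) 𝓘(ℝ, ℝ × P) ∞ (fun q : ℝ × P => (b q.1, q.2)) :=
    ((hb.comp contDiff_fst).prodMk contDiff_snd).contMDiff
  exact (H.smoothAt (q := (b q.1, q.2)) (H.mem_VD (hbm _) _)).comp q (h1 q)

theorem smooth_kap {a b : ℝ → ℝ} (ha : ContDiff ℝ ∞ a) (hb : ContDiff ℝ ∞ b)
    (hbm : ∀ s, b s ∈ Icc (-1 : ℝ) 1) : ContMDiff 𝓘(ℝ, ℝ × P) 𝓘(ℝ, G) ∞ (kap D g a b) := by
  have h1 : ContMDiff 𝓘(ℝ, ℝ × P) 𝓘(ℝ, ℝ) ∞ (fun q : ℝ × P => a q.1) :=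
    (ha.comp contDiff_fst).contMDiff
  exact D.smooth_φ.comp (h1.prodMk (H.smooth_gb hb hbm))

/-- the first coordinate of the flow in coordinates -/
def FF (D : LData 𝓘(ℝ, G) W) (δ : ℝ) (g : ℝ × P → W) (p : ℝ × (ℝ × P)) : ℝ :=
  tau δ g (D.φ p.1 (g p.2))

theorem contDiffAt_FF {q : ℝ × P} (hq : q ∈ VD δ) : ContDiffAt ℝ ∞ (FF D δ g) (0, q) := by
  rw [← contMDiffAt_iff_contDiffAt]
  have h1 : ContMDiffAt 𝓘(ℝ, ℝ × (ℝ × P)) 𝓘(ℝ, ℝ) ∞ (fun p : ℝ × (ℝ × P) => p.1) (0, q) :=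
    contDiff_fst.contMDiff _
  have h2 : ContMDiffAt 𝓘(ℝ, ℝ × (ℝ × P)) 𝓘(ℝ, ℝ × P) ∞ (fun p : ℝ × (ℝ × P) => p.2) (0, q) :=
    contDiff_snd.contMDiff _
  have h3 : ContMDiffAt 𝓘(ℝ, ℝ × (ℝ × P)) 𝓘(ℝ, G) ∞ (fun p : ℝ × (ℝ × P) => g p.2) (0, q) :=
    ContMDiffAt.comp (0, q) (g := g) (f := fun p : ℝ × (ℝ × P) => p.2) (H.smoothAt hq) h2
  have h4 : ContMDiffAt 𝓘(ℝ, ℝ × (ℝ × P)) 𝓘(ℝ, G) ∞
      (fun p : ℝ × (ℝ × P) => D.φ p.1 (g p.2)) (0, q) :=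
    ContMDiffAt.comp (0, q) (g := fun p : ℝ × W => D.φ p.1 p.2)
      (f := fun p : ℝ × (ℝ × P) => (p.1, g p.2)) (D.smooth_φ _) (h1.prodMk h3)
  have h5 : D.φ (0 : ℝ) (g q) ∈ Om δ g := by rw [D.φ0]; exact ⟨q, hq, rfl⟩
  exact ContMDiffAt.comp (0, q) (g := tau δ g) (f := fun p : ℝ × (ℝ × P) => D.φ p.1 (g p.2))
    (H.smooth_tau h5) h4

theorem fderiv_FF {q : ℝ × P} (hq : q ∈ VD δ) (dt : ℝ) (v : ℝ × P) :
    fderiv ℝ (FF D δ g) (0, q) (dt, v) = dt * hh D δ g (g q) + v.1 := by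
  have hd : HasFDerivAt (FF D δ g) (fderiv ℝ (FF D δ g) (0, q)) (0, q) :=
    ((H.contDiffAt_FF hq).differentiableAt (by simp)).hasFDerivAt
  have h1 : HasFDerivAt (fun t : ℝ => (t, q)) (ContinuousLinearMap.inl ℝ ℝ (ℝ × P)) (0 : ℝ) :=
    hasFDerivAt_prodMk_left 0 q
  have h2 : HasFDerivAt (fun p : ℝ × P => ((0 : ℝ), p))
      (ContinuousLinearMap.inr ℝ ℝ (ℝ × P)) q := hasFDerivAt_prodMk_right 0 q
  have h3 : HasFDerivAt (fun t : ℝ => FF D δ g (t, q))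
      ((fderiv ℝ (FF D δ g) (0, q)).comp (ContinuousLinearMap.inl ℝ ℝ (ℝ × P))) 0 :=
    HasFDerivAt.comp (g := FF D δ g) (f := fun t : ℝ => (t, q)) 0 hd h1
  have h4 : HasFDerivAt (fun p : ℝ × P => FF D δ g ((0 : ℝ), p))
      ((fderiv ℝ (FF D δ g) (0, q)).comp (ContinuousLinearMap.inr ℝ ℝ (ℝ × P))) q :=
    HasFDerivAt.comp (g := FF D δ g) (f := fun p : ℝ × P => ((0 : ℝ), p)) q hd h2
  have h5 : D.φ (0 : ℝ) (g q) ∈ Om δ g := by rw [D.φ0]; exact ⟨q, hq, rfl⟩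
  have h6 : HasDerivAt (fun t : ℝ => FF D δ g (t, q)) (hh D δ g (g q)) 0 := by
    have h7 := H.hasDerivAt_tau (y := g q) (s := 0) h5
    rw [D.φ0] at h7
    exact h7
  have h8 : HasFDerivAt (fun p : ℝ × P => FF D δ g ((0 : ℝ), p))
      (ContinuousLinearMap.fst ℝ ℝ P) q := by
    refine (ContinuousLinearMap.fst ℝ ℝ P).hasFDerivAt.congr_of_eventuallyEq ?_
    filter_upwards [(isOpen_VD δ).mem_nhds hq] with p hp
    show tau δ g (D.φ 0 (g p)) = p.1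
    rw [D.φ0, H.tau_g hp]
  have h9 : fderiv ℝ (FF D δ g) (0, q) ((1 : ℝ), (0 : ℝ × P)) = hh D δ g (g q) := by
    have := h3.hasDerivAt.unique h6
    simpa using this
  have h10 : fderiv ℝ (FF D δ g) (0, q) ((0 : ℝ), v) = v.1 := by
    have := DFunLike.congr_fun (h4.unique h8) v
    simpa using this
  have h11 : ((dt, v) : ℝ × (ℝ × P)) = dt • ((1 : ℝ), (0 : ℝ × P)) + ((0 : ℝ), v) := by
    ext <;> simp
  rw [h11, map_add, map_smul, h9, h10, smul_eq_mul]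

theorem mfderiv_kap_inj {a b : ℝ → ℝ} (ha : ContDiff ℝ ∞ a) (hb : ContDiff ℝ ∞ b)
    (hbm : ∀ s, b s ∈ Icc (-1 : ℝ) 1) {q : ℝ × P}
    (hne : deriv a q.1 * hh D δ g (g (b q.1, q.2)) + deriv b q.1 ≠ 0) :
    Function.Injective (mfderiv 𝓘(ℝ, ℝ × P) 𝓘(ℝ, G) (kap D g a b) q) := by
  have hk := H.smooth_kap ha hb hbm
  have hkd : HasMFDerivAt 𝓘(ℝ, ℝ × P) 𝓘(ℝ, G) (kap D g a b) q
      (mfderiv 𝓘(ℝ, ℝ × P) 𝓘(ℝ, G) (kap D g a b) q) :=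
    ((hk q).mdifferentiableAt (by simp)).hasMFDerivAt
  have hqm : (b q.1, q.2) ∈ VD δ := H.mem_VD (hbm _) _
  have hB : ∀ t, ContMDiff 𝓘(ℝ, G) 𝓘(ℝ, G) ∞ (D.φ t) := fun t => TE.smooth_slice D t
  rw [injective_iff_map_eq_zero]
  intro v hv
  -- first component
  have hcomp : tau δ g ∘ (D.φ (-(a q.1)) ∘ kap D g a b) =
      fun p : ℝ × P => FF D δ g (a p.1 - a q.1, (b p.1, p.2)) := by
    funext p
    simp only [Function.comp, kap, FF]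
    rw [← D.φ_add]
    congr 2
    ring
  have hO : (D.φ (-(a q.1)) ∘ kap D g a b) q ∈ Om δ g := by
    simp only [Function.comp, kap]
    rw [← D.φ_add, neg_add_cancel, D.φ0]
    exact ⟨_, hqm, rfl⟩
  have h1 : HasMFDerivAt 𝓘(ℝ, ℝ × P) 𝓘(ℝ, ℝ) (tau δ g ∘ (D.φ (-(a q.1)) ∘ kap D g a b)) q
      ((mfderiv 𝓘(ℝ, G) 𝓘(ℝ, ℝ) (tau δ g) ((D.φ (-(a q.1)) ∘ kap D g a b) q)).comp
        ((mfderiv 𝓘(ℝ, G) 𝓘(ℝ, G) (D.φ (-(a q.1))) (kap D g a b q)).comp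
          (mfderiv 𝓘(ℝ, ℝ × P) 𝓘(ℝ, G) (kap D g a b) q))) :=
    HasMFDerivAt.comp q (H.mdiff_tau hO).hasMFDerivAt
      (HasMFDerivAt.comp q (((hB _) _).mdifferentiableAt (by simp)).hasMFDerivAt hkd)
  rw [hcomp] at h1
  have h2 : HasFDerivAt (fun p : ℝ × P => FF D δ g (a p.1 - a q.1, (b p.1, p.2)))
      ((fderiv ℝ (FF D δ g) (0, (b q.1, q.2))).comp
        ((((ContinuousLinearMap.fst ℝ ℝ P).smulRight (deriv a q.1))).prod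
          ((((ContinuousLinearMap.fst ℝ ℝ P).smulRight (deriv b q.1))).prod
            (ContinuousLinearMap.snd ℝ ℝ P)))) q := by
    have hFd : HasFDerivAt (FF D δ g) (fderiv ℝ (FF D δ g) (0, (b q.1, q.2)))
        (a q.1 - a q.1, (b q.1, q.2)) := by
      rw [sub_self]
      exact ((H.contDiffAt_FF hqm).differentiableAt (by simp)).hasFDerivAt
    have hfst : HasFDerivAt (fun p : ℝ × P => p.1) (ContinuousLinearMap.fst ℝ ℝ P) q :=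
      (ContinuousLinearMap.fst ℝ ℝ P).hasFDerivAt
    have had : HasFDerivAt (fun p : ℝ × P => a p.1 - a q.1)
        ((ContinuousLinearMap.fst ℝ ℝ P).smulRight (deriv a q.1)) q := by
      have h3 : HasDerivAt a (deriv a q.1) q.1 :=
        ((ha.differentiable (by simp)) q.1).hasDerivAt
      have h4 := (h3.hasFDerivAt.comp q hfst).sub_const (a q.1)
      refine h4.congr_fderiv ?_
      ext <;> simp
    have hbd : HasFDerivAt (fun p : ℝ × P => b p.1)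
        ((ContinuousLinearMap.fst ℝ ℝ P).smulRight (deriv b q.1)) q := by
      have h3 : HasDerivAt b (deriv b q.1) q.1 :=
        ((hb.differentiable (by simp)) q.1).hasDerivAt
      have h4 := (h3.hasFDerivAt.comp q hfst)
      refine h4.congr_fderiv ?_
      ext <;> simp
    exact HasFDerivAt.comp (g := FF D δ g)
      (f := fun p : ℝ × P => (a p.1 - a q.1, (b p.1, p.2))) q hFd
      (had.prodMk (hbd.prodMk (ContinuousLinearMap.snd ℝ ℝ P).hasFDerivAt))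
  have h3 := congrArg (fun L : TangentSpace 𝓘(ℝ, ℝ × P) q →L[ℝ]
    TangentSpace 𝓘(ℝ, ℝ) ((fun p : ℝ × P => FF D δ g (a p.1 - a q.1, (b p.1, p.2))) q) => L v)
    (hasMFDerivAt_unique h1 h2.hasMFDerivAt)
  have h4 : (0 : ℝ) = fderiv ℝ (FF D δ g) (0, (b q.1, q.2))
      ((v : ℝ × P).1 * deriv a q.1, ((v : ℝ × P).1 * deriv b q.1, (v : ℝ × P).2)) := by
    have h5 : mfderiv 𝓘(ℝ, G) 𝓘(ℝ, ℝ) (tau δ g) ((D.φ (-(a q.1)) ∘ kap D g a b) q)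
        (mfderiv 𝓘(ℝ, G) 𝓘(ℝ, G) (D.φ (-(a q.1))) (kap D g a b q)
          (mfderiv 𝓘(ℝ, ℝ × P) 𝓘(ℝ, G) (kap D g a b) q v)) =
        fderiv ℝ (FF D δ g) (0, (b q.1, q.2))
          ((v : ℝ × P).1 * deriv a q.1, ((v : ℝ × P).1 * deriv b q.1, (v : ℝ × P).2)) := h3
    rw [hv, map_zero, map_zero] at h5
    exact h5
  rw [H.fderiv_FF hqm] at h4
  have h5 : (v : ℝ × P).1 = 0 := by
    have h6 : (v : ℝ × P).1 * (deriv a q.1 * hh D δ g (g (b q.1, q.2)) + deriv b q.1) = 0 := by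
      linear_combination -h4
    exact (mul_eq_zero.1 h6).resolve_right hne
  -- second component
  have h6 : HasMFDerivAt 𝓘(ℝ, P) 𝓘(ℝ, ℝ × P) (fun x : P => (q.1, x)) q.2
      (ContinuousLinearMap.inr ℝ ℝ P) := (hasFDerivAt_prodMk_right q.1 q.2).hasMFDerivAt
  have h6' : HasMFDerivAt 𝓘(ℝ, P) 𝓘(ℝ, ℝ × P) (fun x : P => (b q.1, x)) q.2
      (ContinuousLinearMap.inr ℝ ℝ P) := (hasFDerivAt_prodMk_right (b q.1) q.2).hasMFDerivAt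
  have h7 : HasMFDerivAt 𝓘(ℝ, P) 𝓘(ℝ, G) (kap D g a b ∘ fun x : P => (q.1, x)) q.2
      ((mfderiv 𝓘(ℝ, ℝ × P) 𝓘(ℝ, G) (kap D g a b) q).comp (ContinuousLinearMap.inr ℝ ℝ P)) :=
    HasMFDerivAt.comp q.2 (g := kap D g a b) (f := fun x : P => (q.1, x))
      (g' := mfderiv 𝓘(ℝ, ℝ × P) 𝓘(ℝ, G) (kap D g a b) q) hkd h6
  have h8 : HasMFDerivAt 𝓘(ℝ, P) 𝓘(ℝ, G)
      (D.φ (-(a q.1)) ∘ (kap D g a b ∘ fun x : P => (q.1, x))) q.2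
      ((mfderiv 𝓘(ℝ, G) 𝓘(ℝ, G) (D.φ (-(a q.1))) (kap D g a b q)).comp
        ((mfderiv 𝓘(ℝ, ℝ × P) 𝓘(ℝ, G) (kap D g a b) q).comp (ContinuousLinearMap.inr ℝ ℝ P))) :=
    HasMFDerivAt.comp q.2 (((hB _) _).mdifferentiableAt (by simp)).hasMFDerivAt h7
  have h9 : (D.φ (-(a q.1)) ∘ (kap D g a b ∘ fun x : P => (q.1, x))) =
      g ∘ fun x : P => (b q.1, x) := by
    funext x
    simp only [Function.comp, kap]
    rw [← D.φ_add, neg_add_cancel, D.φ0]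
  rw [h9] at h8
  have h10 : HasMFDerivAt 𝓘(ℝ, P) 𝓘(ℝ, G) (g ∘ fun x : P => (b q.1, x)) q.2
      ((mfderiv 𝓘(ℝ, ℝ × P) 𝓘(ℝ, G) g (b q.1, q.2)).comp (ContinuousLinearMap.inr ℝ ℝ P)) :=
    HasMFDerivAt.comp q.2 (g := g) (f := fun x : P => (b q.1, x))
      (g' := mfderiv 𝓘(ℝ, ℝ × P) 𝓘(ℝ, G) g (b q.1, q.2)) (H.mdiff hqm).hasMFDerivAt h6'
  have h11 := congrArg (fun L : TangentSpace 𝓘(ℝ, P) q.2 →L[ℝ]
    TangentSpace 𝓘(ℝ, G) ((g ∘ fun x : P => (b q.1, x)) q.2) => L (v : ℝ × P).2)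
    (hasMFDerivAt_unique h8 h10)
  have h12 : ((0 : ℝ), (v : ℝ × P).2) = (v : ℝ × P) := Prod.ext h5.symm rfl
  have h13 : mfderiv 𝓘(ℝ, G) 𝓘(ℝ, G) (D.φ (-(a q.1))) (kap D g a b q)
      (mfderiv 𝓘(ℝ, ℝ × P) 𝓘(ℝ, G) (kap D g a b) q ((0 : ℝ), (v : ℝ × P).2)) =
      mfderiv 𝓘(ℝ, ℝ × P) 𝓘(ℝ, G) g (b q.1, q.2) ((0 : ℝ), (v : ℝ × P).2) := h11
  have h14 : mfderiv 𝓘(ℝ, ℝ × P) 𝓘(ℝ, G) g (b q.1, q.2) ((0 : ℝ), (v : ℝ × P).2) = 0 := by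
    rw [← h13, h12]
    have h15 : (mfderiv 𝓘(ℝ, ℝ × P) 𝓘(ℝ, G) (kap D g a b) q) (v : ℝ × P) = 0 := hv
    rw [h15, map_zero]
    rfl
  have h16 := H.imm _ hqm
  rw [injective_iff_map_eq_zero] at h16
  have h17 : (((0 : ℝ), (v : ℝ × P).2) : ℝ × P) = 0 := h16 _ h14
  exact h12.symm.trans h17

end DF

end Pool.Agent.W630.TF
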